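import Mathlib
import Pool.Agent.MP_63be92_gt.H96.Gauss

-- part MP_fcb590_an.Q2.Base
section

section
/-!
Definitions for the proof that the set of spaces with numerical index one has diameter o(m).
`Conf m` is a two-level polytope in a good Euclidean position: `V` are the vertices of the unit ball,
`F` the facet normals.
-/

set_option autoImplicit false

open scoped RealInnerProductSpace

namespace Pool.Agent.MP_fcb590_an.Q2

abbrev E (m : ℕ) := EuclideanSpace ℝ (Fin m)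

/-- vertices and facet normals before positioning -/
structure Pre (m : ℕ) where
  V : Finset (E m)
  F : Finset (E m)
  pm : ∀ f ∈ F, ∀ v ∈ V, ⟪f, v⟫ = 1 ∨ ⟪f, v⟫ = -1
  hullF : ∀ y : E m, (∀ v ∈ V, |⟪y, v⟫| ≤ 1) → y ∈ convexHull ℝ (F : Set (E m))
  hullV : ∀ x : E m, (∀ f ∈ F, |⟪f, x⟫| ≤ 1) → x ∈ convexHull ℝ (V : Set (E m))

/-- vertices and facet normals in John position -/
structure Conf (m : ℕ) where
  V : Finset (E m)
  F : Finset (E m)
  pm : ∀ f ∈ F, ∀ v ∈ V, ⟪f, v⟫ = 1 ∨ ⟪f, v⟫ = -1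
  hull : ∀ y : E m, (∀ v ∈ V, |⟪y, v⟫| ≤ 1) → y ∈ convexHull ℝ (F : Set (E m))
  normV : ∀ v ∈ V, ‖v‖ ≤ 1
  normF : ∀ f ∈ F, ‖f‖ ^ 2 ≤ m
  iso : ∀ H : Submodule ℝ (E m), ∃ f ∈ F,
    (m : ℝ) - Module.finrank ℝ H ≤ ‖Hᗮ.starProjection f‖ ^ 2

variable {m : ℕ}

/-- barycentre of a finite set -/
noncomputable def avg (A : Finset (E m)) : E m := (A.card : ℝ)⁻¹ • ∑ f ∈ A, f

/-- membership in the polar body -/
def Conf.InK (C : Conf m) (y : E m) : Prop := ∀ v ∈ C.V, |⟪y, v⟫| ≤ 1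

open Classical in
/-- vertex set of the smallest face of the polar body that contains `y` -/
noncomputable def Conf.face (C : Conf m) (y : E m) : Finset (E m) :=
  C.F.filter fun f => ∀ v ∈ C.V, |⟪y, v⟫| = 1 → ⟪f, v⟫ = ⟪y, v⟫

/-- on `Φ` every coordinate agrees with a coordinate from `J` -/
def Conf.Rep (C : Conf m) (Φ J : Finset (E m)) : Prop :=
  ∀ v ∈ C.V, ∃ j ∈ J, ∀ f ∈ Φ, ⟪f, v⟫ = ⟪f, j⟫

def IsProb (V : Finset (E m)) (w : E m → ℝ) : Prop := (∀ v ∈ V, 0 ≤ w v) ∧ ∑ v ∈ V, w v = 1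

/-- the quadratic form of the mixed measure, total mass `m` -/
noncomputable def qf (V J : Finset (E m)) (w : E m → ℝ) (u : E m) : ℝ :=
  (m : ℝ) / 2 * ∑ v ∈ V, w v * ⟪u, v⟫ ^ 2 + (m : ℝ) / (2 * J.card) * ∑ j ∈ J, ⟪u, j⟫ ^ 2

/-- the `L1` norm of the mixed measure, total mass one -/
noncomputable def l1 (V J : Finset (E m)) (w : E m → ℝ) (u : E m) : ℝ :=
  1 / 2 * ∑ v ∈ V, w v * |⟪u, v⟫| + 1 / (2 * (J.card : ℝ)) * ∑ j ∈ J, |⟪u, j⟫|

/-- the projection of `F` on `G` is covered by `exp (c m)` balls of radius `r √m` -/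
def Narrow (F : Finset (E m)) (G : Submodule ℝ (E m)) (c r : ℝ) : Prop :=
  ∃ N : Finset (E m), (N.card : ℝ) ≤ Real.exp (c * m) ∧ (∀ x ∈ N, ‖x‖ ^ 2 ≤ m) ∧
    ∀ f ∈ F, ∃ x ∈ N, ‖G.starProjection f - x‖ ≤ r * √m

/-- each of the first `k` vectors has squared distance at least `ε` from the span of the earlier ones -/
def Seq (x : ℕ → E m) (k : ℕ) (ε : ℝ) : Prop :=
  ∀ i < k, ∀ y ∈ Submodule.span ℝ (x '' Set.Iio i), ε ≤ ‖x i - y‖ ^ 2

/-- a basis adapted to a configuration: `k₁` spiky rows, `k₂` flat rows, `n` narrow rows -/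
def Side (C : Conf m) (k₁ k₂ n : ℕ) (η D c r : ℝ) : Prop :=
  ∃ b : Module.Basis ((Fin k₁ ⊕ Fin k₂) ⊕ Fin n) ℝ (E m),
    (∀ v ∈ C.V, ∑ i, |⟪b (Sum.inl (Sum.inl i)), v⟫| ≤ η * √m) ∧
    (∀ v ∈ C.V, ∀ j, |⟪b (Sum.inl (Sum.inr j)), v⟫| * √m ≤ 1) ∧
    (∀ v ∈ C.V, ∑ l, ⟪b (Sum.inr l), v⟫ ^ 2 ≤ 1) ∧
    (∀ f ∈ C.F, ∑ i, b.repr f (Sum.inl i) ^ 2 ≤ D * m) ∧
    ∃ N : Finset (E n), (N.card : ℝ) ≤ Real.exp (c * m) ∧ (∀ x ∈ N, ‖x‖ ^ 2 ≤ 4 * m) ∧
      ∀ f ∈ C.F, ∃ x ∈ N, ∑ l, (b.repr f (Sum.inr l) - x l) ^ 2 ≤ r ^ 2 * m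

/-- the vectors whose associated function vanishes on `A` -/
def ann {X α : Type*} [AddCommGroup X] [Module ℝ X] (ev : X →ₗ[ℝ] (α → ℝ)) (A : Finset α) :
    Submodule ℝ X where
  carrier := {w | ∀ a ∈ A, ev w a = 0}
  add_mem' := fun {a b} ha hb x hx => by simp [ha x hx, hb x hx]
  zero_mem' := fun x _ => by simp
  smul_mem' := fun c a ha x hx => by simp [ha x hx]

theorem mem_ann {X α : Type*} [AddCommGroup X] [Module ℝ X] {ev : X →ₗ[ℝ] (α → ℝ)}
    {A : Finset α} {w : X} : w ∈ ann ev A ↔ ∀ a ∈ A, ev w a = 0 := Iff.rfl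

/-- a vector as a function on the space -/
noncomputable def evE (m : ℕ) : E m →ₗ[ℝ] (E m → ℝ) where
  toFun w := fun f => ⟪f, w⟫
  map_add' a b := by ext f; simp [inner_add_right]
  map_smul' c a := by ext f; simp [inner_smul_right]

theorem evE_apply (w f : E m) : evE m w f = ⟪f, w⟫ := rfl

/-- the second moment matrix of a weight -/
noncomputable def Dm (V : Finset (E m)) (c : E m → ℝ) : Matrix (Fin m) (Fin m) ℝ :=
  ∑ v ∈ V, c v • Matrix.vecMulVec v.ofLp v.ofLp

/-! The Gaussian channel. -/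

open MeasureTheory ProbabilityTheory

variable {d : ℕ} {α : Type*}

/-- density of the shifted Gaussian -/
noncomputable def wt (x y : E d) : ℝ := Real.exp (⟪y, x⟫ - ‖x‖ ^ 2 / 2)

noncomputable def Zf (Φ : α → E d) (A : Finset α) (y : E d) : ℝ := ∑ a ∈ A, wt (Φ a) y

/-- conditional entropy of a uniform point of `A` given its noisy image -/
noncomputable def Ent (Φ : α → E d) (A : Finset α) : ℝ :=
  (A.card : ℝ)⁻¹ * ∫ y, ∑ a ∈ A, wt (Φ a) y * Real.log (Zf Φ A y / wt (Φ a) y) ∂stdGaussian (E d)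

/-- averaged posterior covariance -/
noncomputable def Sig (Φ : α → E d) (A : Finset α) (x z : E d) : ℝ :=
  (A.card : ℝ)⁻¹ * ∫ y, (∑ a ∈ A, wt (Φ a) y * (⟪Φ a, x⟫ * ⟪Φ a, z⟫) -
    (∑ a ∈ A, wt (Φ a) y * ⟪Φ a, x⟫) * (∑ a ∈ A, wt (Φ a) y * ⟪Φ a, z⟫) / Zf Φ A y)
      ∂stdGaussian (E d)

open Classical in
/-- it is exponentially unlikely that many of the coordinates `v j` agree -/
def Spread {ι : Type*} (Φ : α → E d) (A : Finset α) (S : Finset ι) (v : ι → E d) (κ : ℝ) : Prop :=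
  ∀ k : ℕ, ∀ J ⊆ S, J.card = 2 ^ k →
    ((A.filter fun a => ∀ j ∈ J, ∀ j' ∈ J, ⟪Φ a, v j⟫ = ⟪Φ a, v j'⟫).card : ℝ) ≤
      Real.exp (1 - κ * (k - 1)) * A.card

/-! The random polytopes. -/

/-- the open body with gauge `inf (|z - G y|₁ + |y|₁)`, dilated by `ρ` -/
def Bd (G : Fin m → Fin m → ℝ) (ρ : ℝ) : Set (Fin m → ℝ) :=
  {z | ∃ y : Fin m → ℝ, ∑ i, |z i - ∑ j, y j * G j i| + ∑ j, |y j| < ρ}

/-- the cube from which the random vertices are drawn -/
def Cube (m : ℕ) : Set (Fin m → Fin m → ℝ) := {G | ∀ j i, |G j i| ≤ 1 / √m}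

/-- matrices (given by their columns) that map the basis and half of the `G j` into `Bd G' ρ` -/
def Good (G G' : Fin m → Fin m → ℝ) (ρ : ℝ) : Set (Fin m → Fin m → ℝ) :=
  {T | (∀ i, T i ∈ Bd G' ρ) ∧ 1 ≤ |(Matrix.of T).det| ∧
    ∃ J : Finset (Fin m), m ≤ 2 * J.card ∧ ∀ j ∈ J, ∑ i, G j i • T i ∈ Bd G' ρ}

end Pool.Agent.MP_fcb590_an.Q2

end

section
/-!
Faces of the polar body, barycentres, the forms `qf` and `l1`.
Hints. `sep`: all multiples of y lie in the hull of F, which is inside the ball of radius sqrt m.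
`mem_hull_face`: write y' as a convex combination of F (`hull`, `Finset.mem_convexHull` or
`Finset.mem_convexHull'`); a vertex f with positive weight has inner f v = inner y' v whenever the latter
is 1 or -1 (all inner f v lie in the interval from -1 to 1), so it lies in the face; drop the zero weights.
`face_mono`: on the hull of `face y` the tight coordinates of y keep their value (`hull_inner_eq`).
`l1_le_of_qf`: abs t <= (a + t^2 / a) / 2 with a = zeta; total mass of the mixed measure is one.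
`qf_sub_eq`: inner (f - f') v is 0, 2 or -2, so its square is twice its absolute value.
-/

set_option autoImplicit false

open scoped RealInnerProductSpace

namespace Pool.Agent.MP_fcb590_an.Q2

variable {m : ℕ}

theorem inner_avg (A : Finset (E m)) (u : E m) :
    ⟪avg A, u⟫ = (A.card : ℝ)⁻¹ * ∑ f ∈ A, ⟪f, u⟫ := by
  rw [avg, real_inner_smul_left, sum_inner]

theorem avg_mem_hull {A : Finset (E m)} (hA : A.Nonempty) :
    avg A ∈ convexHull ℝ (A : Set (E m)) := by
  have hc : (A.card : ℝ) ≠ 0 := by exact_mod_cast hA.card_pos.ne'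
  refine Finset.mem_convexHull'.2 ⟨fun _ => (A.card : ℝ)⁻¹, fun _ _ => by positivity, ?_, ?_⟩
  · rw [Finset.sum_const, nsmul_eq_mul, mul_inv_cancel₀ hc]
  · rw [avg, Finset.smul_sum]

theorem hull_inner_eq {S : Set (E m)} {y u : E m} {a : ℝ} (hy : y ∈ convexHull ℝ S)
    (h : ∀ f ∈ S, ⟪f, u⟫ = a) : ⟪y, u⟫ = a := by
  have hc : Convex ℝ {x : E m | ⟪x, u⟫ = a} := by
    intro x hx z hz s t _ _ hst
    simp only [Set.mem_ofPred_eq] at hx hz ⊢
    rw [inner_add_left, real_inner_smul_left, real_inner_smul_left, hx, hz, ← add_mul, hst, one_mul]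
  exact convexHull_min h hc hy

theorem hull_norm_sq_le {S : Set (E m)} {y : E m} {R : ℝ} (hy : y ∈ convexHull ℝ S)
    (h : ∀ f ∈ S, ‖f‖ ^ 2 ≤ R) : ‖y‖ ^ 2 ≤ R := by
  have hc : Convex ℝ {x : E m | ‖x‖ ^ 2 ≤ R} := by
    intro x hx z hz s t hs ht hst
    simp only [Set.mem_ofPred_eq] at hx hz ⊢
    have h1 : ‖s • x + t • z‖ ≤ s * ‖x‖ + t * ‖z‖ := by
      refine (norm_add_le _ _).trans ?_
      rw [norm_smul, norm_smul, Real.norm_of_nonneg hs, Real.norm_of_nonneg ht]
    have h2 := pow_le_pow_left₀ (norm_nonneg _) h1 2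
    have h3 : (s * ‖x‖ + t * ‖z‖) ^ 2 =
        s * ‖x‖ ^ 2 + t * ‖z‖ ^ 2 - s * t * (‖x‖ - ‖z‖) ^ 2 := by
      obtain rfl : t = 1 - s := by linarith
      ring
    have h4 : 0 ≤ s * t * (‖x‖ - ‖z‖) ^ 2 := by positivity
    have h5 := mul_le_mul_of_nonneg_left hx hs
    have h6 := mul_le_mul_of_nonneg_left hz ht
    have h7 : s * R + t * R = R := by rw [← add_mul, hst, one_mul]
    linarith
  exact convexHull_min h hc hy

theorem face_card_smul (A : Finset (E m)) : (A.card : ℝ) • avg A = ∑ f ∈ A, f := by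
  rcases A.eq_empty_or_nonempty with rfl | hA
  · simp
  · have hc : (A.card : ℝ) ≠ 0 := by exact_mod_cast hA.card_pos.ne'
    rw [avg, smul_smul, mul_inv_cancel₀ hc, one_smul]

/-- splitting a barycentre -/
theorem avg_split {A A' : Finset (E m)} [DecidableEq (E m)] (h : A' ⊆ A) :
    (A.card : ℝ) • avg A = (A'.card : ℝ) • avg A' + ((A \ A').card : ℝ) • avg (A \ A') := by
  rw [face_card_smul, face_card_smul, face_card_smul, add_comm, Finset.sum_sdiff h]

theorem Conf.sep (C : Conf m) {y : E m} (h : ∀ v ∈ C.V, ⟪y, v⟫ = 0) : y = 0 := by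
  by_contra hy
  have hn : 0 < ‖y‖ := norm_pos_iff.2 hy
  have h1 := C.hull ((((m : ℝ) + 1) / ‖y‖) • y) fun v hv => by
    rw [real_inner_smul_left, h v hv]; simp
  have h2 := hull_norm_sq_le h1 fun f hf => C.normF f hf
  have hm : (0 : ℝ) ≤ m := Nat.cast_nonneg m
  rw [norm_smul, Real.norm_of_nonneg (by positivity), div_mul_cancel₀ _ hn.ne'] at h2
  nlinarith

theorem Conf.V_nonempty (C : Conf m) (hm : 1 ≤ m) : C.V.Nonempty := by
  by_contra hV
  rw [Finset.not_nonempty_iff_eq_empty] at hV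
  have h := C.sep (y := EuclideanSpace.single (⟨0, hm⟩ : Fin m) (1 : ℝ)) (by simp [hV])
  have := congrArg norm h
  simp at this

theorem Conf.inK_of_hull (C : Conf m) {y : E m} (hy : y ∈ convexHull ℝ (C.F : Set (E m))) :
    C.InK y := by
  intro v hv
  have hc : Convex ℝ {x : E m | |⟪x, v⟫| ≤ 1} := by
    intro x hx z hz s t hs ht hst
    simp only [Set.mem_ofPred_eq] at hx hz ⊢
    rw [inner_add_left, real_inner_smul_left, real_inner_smul_left]
    refine (abs_add_le _ _).trans ?_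
    rw [abs_mul, abs_mul, abs_of_nonneg hs, abs_of_nonneg ht]
    have h5 := mul_le_mul_of_nonneg_left hx hs
    have h6 := mul_le_mul_of_nonneg_left hz ht
    linarith
  refine convexHull_min (fun f hf => ?_) hc hy
  simp only [Set.mem_ofPred_eq]
  rcases C.pm f hf v hv with h | h <;> simp [h]

theorem Conf.face_subset (C : Conf m) (y : E m) : C.face y ⊆ C.F := by
  classical
  exact Finset.filter_subset _ _

theorem Conf.mem_face (C : Conf m) {y f : E m} :
    f ∈ C.face y ↔ f ∈ C.F ∧ ∀ v ∈ C.V, |⟪y, v⟫| = 1 → ⟪f, v⟫ = ⟪y, v⟫ := by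
  classical
  exact Finset.mem_filter

theorem face_tight {A : Finset (E m)} {v y f : E m} {w : E m → ℝ}
    (hA : ∀ g ∈ A, ⟪g, v⟫ = 1 ∨ ⟪g, v⟫ = -1) (w0 : ∀ g ∈ A, 0 ≤ w g) (w1 : ∑ g ∈ A, w g = 1)
    (w2 : ∑ g ∈ A, w g • g = y) (hy : |⟪y, v⟫| = 1) (hf : f ∈ A) (hw : w f ≠ 0) :
    ⟪f, v⟫ = ⟪y, v⟫ := by
  have e : ⟪y, v⟫ = ∑ g ∈ A, w g * ⟪g, v⟫ := by
    rw [← w2, sum_inner]
    simp only [real_inner_smul_left]
  generalize ⟪y, v⟫ = s at e hy
  have hs : s = 1 ∨ s = -1 := eq_or_eq_neg_of_abs_eq hy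
  have h0 : ∑ g ∈ A, w g * (1 - s * ⟪g, v⟫) = 0 := by
    have : ∑ g ∈ A, w g * (1 - s * ⟪g, v⟫) = ∑ g ∈ A, w g - s * ∑ g ∈ A, w g * ⟪g, v⟫ := by
      rw [Finset.mul_sum, ← Finset.sum_sub_distrib]
      exact Finset.sum_congr rfl fun g _ => by ring
    rw [this, w1, ← e]
    rcases hs with h | h <;> rw [h] <;> norm_num
  have h1 := (Finset.sum_eq_zero_iff_of_nonneg fun g hg => mul_nonneg (w0 g hg) (by
    rcases hs with h | h <;> rcases hA g hg with h' | h' <;> rw [h, h'] <;> norm_num)).1 h0 f hf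
  have h2 := (mul_eq_zero.1 h1).resolve_left hw
  rcases hs with h | h <;> rw [h] at h2 ⊢ <;> linarith

theorem Conf.mem_hull_face (C : Conf m) {y y' : E m} (hy' : C.InK y')
    (h : ∀ v ∈ C.V, |⟪y, v⟫| = 1 → ⟪y', v⟫ = ⟪y, v⟫) :
    y' ∈ convexHull ℝ (C.face y : Set (E m)) := by
  obtain ⟨w, w0, w1, w2⟩ := Finset.mem_convexHull'.1 (C.hull y' hy')
  have key : ∀ f ∈ C.F, f ∉ C.face y → w f = 0 := by
    intro f hf hf'
    by_contra hw
    refine hf' (C.mem_face.2 ⟨hf, fun v hv hv' => ?_⟩)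
    have e := h v hv hv'
    rw [← e] at hv' ⊢
    exact face_tight (fun g hg => C.pm g hg v hv) w0 w1 w2 hv' hf hw
  refine Finset.mem_convexHull'.2 ⟨w, fun f hf => w0 f (C.face_subset y hf), ?_, ?_⟩
  · rw [Finset.sum_subset (C.face_subset y) key, w1]
  · rw [Finset.sum_subset (C.face_subset y) fun f hf hf' => by rw [key f hf hf', zero_smul], w2]

theorem Conf.face_mono (C : Conf m) {y y' : E m} (hy' : y' ∈ convexHull ℝ (C.face y : Set (E m))) :
    C.face y' ⊆ C.face y := by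
  intro f hf
  rw [C.mem_face] at hf ⊢
  refine ⟨hf.1, fun v hv hv' => ?_⟩
  have e : ⟪y', v⟫ = ⟪y, v⟫ := hull_inner_eq hy' fun g hg => (C.mem_face.1 hg).2 v hv hv'
  rw [← e] at hv' ⊢
  exact hf.2 v hv hv'

theorem Conf.subset_face_avg (C : Conf m) {A : Finset (E m)} (hA : A ⊆ C.F) :
    A ⊆ C.face (avg A) := by
  intro f hf
  have hc : (A.card : ℝ) ≠ 0 := by exact_mod_cast (Finset.card_pos.2 ⟨f, hf⟩).ne'
  refine C.mem_face.2 ⟨hA hf, fun v hv hv' => ?_⟩
  refine face_tight (w := fun _ => (A.card : ℝ)⁻¹) (fun g hg => C.pm g (hA hg) v hv)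
    (fun _ _ => by positivity) ?_ ?_ hv' hf (inv_ne_zero hc)
  · rw [Finset.sum_const, nsmul_eq_mul, mul_inv_cancel₀ hc]
  · rw [avg, Finset.smul_sum]

theorem Conf.face_avg_mono (C : Conf m) {A A' : Finset (E m)} (hA : A ⊆ C.F) (h : A' ⊆ A)
    (hA' : A'.Nonempty) : C.face (avg A') ⊆ C.face (avg A) := by
  refine C.face_mono (convexHull_mono ?_ (avg_mem_hull hA'))
  exact Finset.coe_subset.2 (h.trans (C.subset_face_avg hA))

theorem Conf.Rep.mono {C : Conf m} {Φ Φ' J : Finset (E m)} (h : C.Rep Φ J) (hΦ : Φ' ⊆ Φ) :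
    C.Rep Φ' J := by
  intro v hv
  obtain ⟨j, hj, e⟩ := h v hv
  exact ⟨j, hj, fun f hf => e f (hΦ hf)⟩

theorem face_w_le {V : Finset (E m)} {w g : E m → ℝ} {a : ℝ} (hw : IsProb V w)
    (h : ∀ v ∈ V, g v ≤ a) : ∑ v ∈ V, w v * g v ≤ a := by
  refine (Finset.sum_le_sum fun v hv => mul_le_mul_of_nonneg_left (h v hv) (hw.1 v hv)).trans ?_
  rw [← Finset.sum_mul, hw.2, one_mul]

theorem face_J_le {J : Finset (E m)} {g : E m → ℝ} {a : ℝ} (ha : 0 ≤ a) (h : ∀ v ∈ J, g v ≤ a) :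
    (J.card : ℝ)⁻¹ * ∑ v ∈ J, g v ≤ a := by
  rcases J.eq_empty_or_nonempty with rfl | hJ
  · simpa using ha
  · have hc : (0 : ℝ) < J.card := by exact_mod_cast hJ.card_pos
    rw [inv_mul_le_iff₀ hc, ← nsmul_eq_mul]
    exact Finset.sum_le_card_nsmul _ _ _ h

theorem face_qf (V J : Finset (E m)) (w : E m → ℝ) (u : E m) :
    qf V J w u = (m * ∑ v ∈ V, w v * ⟪u, v⟫ ^ 2 +
      m * ((J.card : ℝ)⁻¹ * ∑ j ∈ J, ⟪u, j⟫ ^ 2)) / 2 := by
  rw [qf]
  ring

theorem face_l1 (V J : Finset (E m)) (w : E m → ℝ) (u : E m) :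
    l1 V J w u = (∑ v ∈ V, w v * |⟪u, v⟫| + (J.card : ℝ)⁻¹ * ∑ j ∈ J, |⟪u, j⟫|) / 2 := by
  rw [l1]
  ring

theorem qf_nonneg {V J : Finset (E m)} {w : E m → ℝ} (hw : IsProb V w) (u : E m) :
    0 ≤ qf V J w u := by
  have h1 : 0 ≤ ∑ v ∈ V, w v * ⟪u, v⟫ ^ 2 :=
    Finset.sum_nonneg fun v hv => mul_nonneg (hw.1 v hv) (sq_nonneg _)
  unfold qf
  positivity

theorem qf_le {V J : Finset (E m)} {w : E m → ℝ} (hw : IsProb V w) (hJ : J ⊆ V) {u : E m} {a : ℝ}
    (h : ∀ v ∈ V, |⟪u, v⟫| ≤ a) : qf V J w u ≤ a ^ 2 * m := by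
  have h0 : ∀ v ∈ V, ⟪u, v⟫ ^ 2 ≤ a ^ 2 := fun v hv => by
    rw [← sq_abs]; exact pow_le_pow_left₀ (abs_nonneg _) (h v hv) 2
  have h1 := face_w_le hw h0
  have h2 := face_J_le (sq_nonneg a) fun j hj => h0 j (hJ hj)
  have hm : (0 : ℝ) ≤ m := Nat.cast_nonneg m
  have h3 := mul_le_mul_of_nonneg_left h1 hm
  have h4 := mul_le_mul_of_nonneg_left h2 hm
  rw [face_qf]
  linarith

theorem qf_smul (V J : Finset (E m)) (w : E m → ℝ) (t : ℝ) (u : E m) :
    qf V J w (t • u) = t ^ 2 * qf V J w u := by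
  simp only [qf, real_inner_smul_left, mul_pow, mul_add, Finset.mul_sum]
  congr 1 <;> exact Finset.sum_congr rfl fun v _ => by ring

theorem qf_parallelogram (V J : Finset (E m)) (w : E m → ℝ) (x u : E m) :
    qf V J w (x + u) + qf V J w (x - u) = 2 * qf V J w x + 2 * qf V J w u := by
  simp only [qf, inner_add_left, inner_sub_left, mul_add, Finset.mul_sum]
  rw [add_add_add_comm, add_add_add_comm (∑ v ∈ V, 2 * _)]
  simp only [← Finset.sum_add_distrib]
  congr 1 <;> exact Finset.sum_congr rfl fun v _ => by ring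

/-- variance decomposition for a two-point average -/
theorem qf_convex_eq (V J : Finset (E m)) (w : E m → ℝ) {p q : ℝ} (hpq : p + q = 1) (x y : E m) :
    p * qf V J w x + q * qf V J w y = qf V J w (p • x + q • y) +
      p * qf V J w (x - (p • x + q • y)) + q * qf V J w (y - (p • x + q • y)) := by
  obtain rfl : q = 1 - p := by linarith
  have e1 : p * ∑ v ∈ V, w v * ⟪x, v⟫ ^ 2 + (1 - p) * ∑ v ∈ V, w v * ⟪y, v⟫ ^ 2 =
      ∑ v ∈ V, w v * ⟪p • x + (1 - p) • y, v⟫ ^ 2 +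
        p * ∑ v ∈ V, w v * ⟪x - (p • x + (1 - p) • y), v⟫ ^ 2 +
        (1 - p) * ∑ v ∈ V, w v * ⟪y - (p • x + (1 - p) • y), v⟫ ^ 2 := by
    simp only [inner_add_left, inner_sub_left, real_inner_smul_left, Finset.mul_sum,
      ← Finset.sum_add_distrib]
    exact Finset.sum_congr rfl fun v _ => by ring
  have e2 : p * ∑ v ∈ J, ⟪x, v⟫ ^ 2 + (1 - p) * ∑ v ∈ J, ⟪y, v⟫ ^ 2 =
      ∑ v ∈ J, ⟪p • x + (1 - p) • y, v⟫ ^ 2 +
        p * ∑ v ∈ J, ⟪x - (p • x + (1 - p) • y), v⟫ ^ 2 +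
        (1 - p) * ∑ v ∈ J, ⟪y - (p • x + (1 - p) • y), v⟫ ^ 2 := by
    simp only [inner_add_left, inner_sub_left, real_inner_smul_left, Finset.mul_sum,
      ← Finset.sum_add_distrib]
    exact Finset.sum_congr rfl fun v _ => by ring
  unfold qf
  linear_combination (m : ℝ) / 2 * e1 + (m : ℝ) / (2 * J.card) * e2

theorem sum_w_le_qf {V J : Finset (E m)} {w : E m → ℝ} (u : E m) :
    (m : ℝ) * ∑ v ∈ V, w v * ⟪u, v⟫ ^ 2 ≤ 2 * qf V J w u := by
  have h : 0 ≤ (m : ℝ) / (2 * J.card) * ∑ j ∈ J, ⟪u, j⟫ ^ 2 := by positivity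
  unfold qf
  linarith

theorem sum_J_le_qf {V J : Finset (E m)} {w : E m → ℝ} (hw : IsProb V w) (hJ : J.Nonempty)
    (u : E m) : (m : ℝ) * ∑ j ∈ J, ⟪u, j⟫ ^ 2 ≤ 2 * J.card * qf V J w u := by
  have hc : (0 : ℝ) < J.card := by exact_mod_cast hJ.card_pos
  have h1 : 0 ≤ ∑ v ∈ V, w v * ⟪u, v⟫ ^ 2 :=
    Finset.sum_nonneg fun v hv => mul_nonneg (hw.1 v hv) (sq_nonneg _)
  have h2 : 0 ≤ 2 * (J.card : ℝ) * ((m : ℝ) / 2 * ∑ v ∈ V, w v * ⟪u, v⟫ ^ 2) := by positivity
  have h3 : 2 * (J.card : ℝ) * ((m : ℝ) / (2 * J.card) * ∑ j ∈ J, ⟪u, j⟫ ^ 2) =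
      (m : ℝ) * ∑ j ∈ J, ⟪u, j⟫ ^ 2 := by
    field_simp
  rw [qf, mul_add, h3]
  linarith

theorem l1_nonneg {V J : Finset (E m)} {w : E m → ℝ} (hw : IsProb V w) (u : E m) :
    0 ≤ l1 V J w u := by
  have h1 : 0 ≤ ∑ v ∈ V, w v * |⟪u, v⟫| :=
    Finset.sum_nonneg fun v hv => mul_nonneg (hw.1 v hv) (abs_nonneg _)
  unfold l1
  positivity

theorem l1_add_le {V J : Finset (E m)} {w : E m → ℝ} (hw : IsProb V w) (x y : E m) :
    l1 V J w (x + y) ≤ l1 V J w x + l1 V J w y := by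
  have h1 : ∑ v ∈ V, w v * |⟪x + y, v⟫| ≤ ∑ v ∈ V, w v * |⟪x, v⟫| + ∑ v ∈ V, w v * |⟪y, v⟫| := by
    rw [← Finset.sum_add_distrib]
    refine Finset.sum_le_sum fun v hv => ?_
    rw [← mul_add, inner_add_left]
    exact mul_le_mul_of_nonneg_left (abs_add_le _ _) (hw.1 v hv)
  have h2 : ∑ v ∈ J, |⟪x + y, v⟫| ≤ ∑ v ∈ J, |⟪x, v⟫| + ∑ v ∈ J, |⟪y, v⟫| := by
    rw [← Finset.sum_add_distrib]
    refine Finset.sum_le_sum fun v _ => ?_
    rw [inner_add_left]
    exact abs_add_le _ _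
  have h3 := mul_le_mul_of_nonneg_left h2 (show 0 ≤ 1 / (2 * (J.card : ℝ)) by positivity)
  unfold l1
  linarith

theorem l1_smul (V J : Finset (E m)) (w : E m → ℝ) (t : ℝ) (u : E m) :
    l1 V J w (t • u) = |t| * l1 V J w u := by
  simp only [l1, real_inner_smul_left, abs_mul, mul_add, Finset.mul_sum]
  congr 1 <;> exact Finset.sum_congr rfl fun v _ => by ring

theorem l1_le {V J : Finset (E m)} {w : E m → ℝ} (hw : IsProb V w) (hJ : J ⊆ V) {u : E m} {a : ℝ}
    (ha : 0 ≤ a) (h : ∀ v ∈ V, |⟪u, v⟫| ≤ a) : l1 V J w u ≤ a := by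
  have h1 := face_w_le hw h
  have h2 := face_J_le ha fun j hj => h j (hJ hj)
  rw [face_l1]
  linarith

theorem l1_le_of_qf {V J : Finset (E m)} {w : E m → ℝ} (hw : IsProb V w) (hm : 1 ≤ m) {u : E m}
    {ζ : ℝ} (hζ : 0 < ζ) (h : qf V J w u ≤ ζ ^ 2 * m) : l1 V J w u ≤ ζ := by
  have hm' : (0 : ℝ) < m := by exact_mod_cast hm
  have key : ∀ t : ℝ, |t| - t ^ 2 / (2 * ζ) ≤ ζ / 2 := fun t => by
    rw [sub_le_iff_le_add, ← sub_le_iff_le_add', le_div_iff₀ (by positivity), ← sq_abs t]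
    nlinarith [sq_nonneg (|t| - ζ)]
  have h1 := face_w_le (g := fun v => |⟪u, v⟫| - ⟪u, v⟫ ^ 2 / (2 * ζ)) hw fun v _ => key _
  have h2 := face_J_le (J := J) (g := fun v => |⟪u, v⟫| - ⟪u, v⟫ ^ 2 / (2 * ζ))
    (by positivity) fun v _ => key _
  simp only [mul_sub, Finset.sum_sub_distrib, ← mul_div_assoc, ← Finset.sum_div] at h1 h2
  rw [face_qf] at h
  rw [face_l1]
  generalize ∑ v ∈ V, w v * ⟪u, v⟫ ^ 2 = A at h h1
  generalize (J.card : ℝ)⁻¹ * ∑ v ∈ J, ⟪u, v⟫ ^ 2 = B at h h2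
  have h3 : A + B ≤ 2 * ζ ^ 2 := by
    refine le_of_mul_le_mul_left ?_ hm'
    linarith
  have h4 : A / (2 * ζ) + B / (2 * ζ) ≤ ζ := by
    rw [← add_div, div_le_iff₀ (by positivity)]
    linarith
  linarith

theorem Conf.qf_sub_eq (C : Conf m) {J : Finset (E m)} (hJ : J ⊆ C.V) (w : E m → ℝ) {f f' : E m}
    (hf : f ∈ C.F) (hf' : f' ∈ C.F) :
    qf C.V J w (f - f') = 2 * m * l1 C.V J w (f - f') := by
  have key : ∀ v ∈ C.V, ⟪f - f', v⟫ ^ 2 = 2 * |⟪f - f', v⟫| := fun v hv => by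
    rw [inner_sub_left]
    rcases C.pm f hf v hv with h | h <;> rcases C.pm f' hf' v hv with h' | h' <;>
      rw [h, h'] <;> norm_num
  have e1 : ∑ v ∈ C.V, w v * ⟪f - f', v⟫ ^ 2 = 2 * ∑ v ∈ C.V, w v * |⟪f - f', v⟫| := by
    rw [Finset.mul_sum]
    exact Finset.sum_congr rfl fun v hv => by rw [key v hv]; ring
  have e2 : ∑ v ∈ J, ⟪f - f', v⟫ ^ 2 = 2 * ∑ v ∈ J, |⟪f - f', v⟫| := by
    rw [Finset.mul_sum]
    exact Finset.sum_congr rfl fun v hv => key v (hJ hv)
  rw [qf, l1, e1, e2]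
  ring

/-- binary entropy bounds -/
theorem bin_ent_le {p q : ℝ} (hp : 0 < p) (hq : 0 < q) (hpq : p + q = 1) :
    p * Real.log (1 / p) + q * Real.log (1 / q) ≤ 3 * √(p * q) := by
  obtain ⟨a, ha, rfl⟩ : ∃ a, 0 < a ∧ p = a ^ 2 :=
    ⟨√p, Real.sqrt_pos.2 hp, (Real.sq_sqrt hp.le).symm⟩
  obtain ⟨b, hb, rfl⟩ : ∃ b, 0 < b ∧ q = b ^ 2 :=
    ⟨√q, Real.sqrt_pos.2 hq, (Real.sq_sqrt hq.le).symm⟩
  have key : ∀ s t : ℝ, 0 < s → s ^ 2 + t ^ 2 = 1 →
      s ^ 2 * Real.log (1 / s ^ 2) ≤ 2 * s * t ^ 2 := by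
    intro s t hs hst
    have h1 := Real.log_le_sub_one_of_pos (one_div_pos.2 hs)
    have h2 : Real.log (1 / s ^ 2) = 2 * Real.log (1 / s) := by
      rw [← one_div_pow, Real.log_pow]; norm_num
    have h3 := mul_le_mul_of_nonneg_left h1 (show 0 ≤ 2 * s ^ 2 by positivity)
    have h4 : 2 * s ^ 2 * (1 / s - 1) = 2 * s * (1 - s) := by field_simp
    have h5 : s ≤ 1 := by nlinarith [sq_nonneg t]
    have h6 : 1 - s ≤ t ^ 2 := by nlinarith
    have h7 := mul_le_mul_of_nonneg_left h6 (show 0 ≤ 2 * s by positivity)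
    rw [h2]
    linarith
  have h1 := key a b ha hpq
  have h2 := key b a hb (by linarith)
  rw [← mul_pow, Real.sqrt_sq (by positivity)]
  have h3 : a + b ≤ 3 / 2 := by nlinarith [sq_nonneg (a - b), sq_nonneg (a + b - 3 / 2)]
  have h4 := mul_le_mul_of_nonneg_left h3 (show 0 ≤ 2 * (a * b) by positivity)
  linarith

theorem ent_compl_le {p q : ℝ} (hp : 0 ≤ p) (hq : 0 < q) (hpq : p + q = 1) :
    q * Real.log (1 / q) ≤ p := by
  have h1 := Real.log_le_sub_one_of_pos (one_div_pos.2 hq)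
  have h2 := mul_le_mul_of_nonneg_left h1 hq.le
  have h3 : q * (1 / q - 1) = 1 - q := by field_simp
  linarith

end Pool.Agent.MP_fcb590_an.Q2

end

section
/-!
Coverings and packings.
`sep_card_le`: volume comparison in the subspace H (copy the proof of `Besicovitch.card_le_of_separated` with radius R:
disjoint balls of radius rho/2 inside the ball of radius R + rho/2, `Measure.addHaar_ball`).
`cover_ball`: a separated subset of maximal cardinality (cardinalities are bounded by `sep_card_le`).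
`wide`: take a maximal subset A of F with pairwise separated projections; if its card were <= exp (c m) then the
projections of A (norm at most that of f) would be a net.
`narrow_discard`: P_G f = P_G (P_(H perp) f) + P_G (P_H f); the second term lies in the ball of radius sqrt m of the
subspace H.map P_G; centres are P_G x + y.
`maurey`: induction on k: there is s in S with norm (u + (s - y))^2 <= norm u ^ 2 + R^2, because the average over a convex
combination of 2 inner u (s - y) + norm (s - y)^2 is sum a norm s ^ 2 - norm y ^ 2.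
`mult_packing`: B_0 = A, B_(j+1) = image of A x B_j under (a, b) -> (1 - t) a + t b; points of the hull are at distance
at most D; for different a the distance is at least (1-t) rho - t D >= rho / 4.
-/

set_option autoImplicit false

open scoped RealInnerProductSpace

namespace Pool.Agent.MP_fcb590_an.Q2

variable {m : ℕ}

open MeasureTheory Metric in
theorem covera_vol {X : Type*} [NormedAddCommGroup X] [NormedSpace ℝ X] [FiniteDimensional ℝ X]
    {R ρ : ℝ} (hR : 0 ≤ R) (hρ : 0 < ρ) (s : Finset X) (hs : ∀ c ∈ s, ‖c‖ ≤ R)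
    (h : ∀ c ∈ s, ∀ d ∈ s, c ≠ d → ρ ≤ ‖c - d‖) :
    (s.card : ℝ) ≤ (1 + 2 * R / ρ) ^ Module.finrank ℝ X := by
  borelize X
  let μ : Measure X := Measure.addHaar
  have hδ : 0 < ρ / 2 := by positivity
  have hR' : 0 < R + ρ / 2 := by positivity
  have D : Set.Pairwise (s : Set X) (Function.onFun Disjoint fun c => ball (c : X) (ρ / 2)) := by
    rintro c hc d hd hcd
    apply ball_disjoint_ball
    rw [dist_eq_norm, add_halves]
    exact h c hc d hd hcd
  have hsub : (⋃ c ∈ s, ball (c : X) (ρ / 2)) ⊆ ball (0 : X) (R + ρ / 2) := by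
    refine Set.iUnion₂_subset fun x hx => ?_
    apply ball_subset_ball'
    rw [dist_zero_right]
    linarith [hs x hx]
  have I := measure_mono (μ := μ) hsub
  rw [measure_biUnion_finset D fun c _ => measurableSet_ball] at I
  simp only [μ.addHaar_ball_of_pos _ hδ, μ.addHaar_ball_of_pos _ hR', Finset.sum_const,
    nsmul_eq_mul, ← mul_assoc] at I
  have J := (ENNReal.mul_le_mul_iff_left (measure_ball_pos μ _ zero_lt_one).ne'
    measure_ball_lt_top.ne).1 I
  have K := ENNReal.toReal_le_of_le_ofReal (pow_nonneg hR'.le _) J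
  rw [ENNReal.toReal_mul, ENNReal.toReal_natCast, ENNReal.toReal_ofReal (by positivity),
    ← le_div_iff₀ (by positivity), ← div_pow] at K
  have he : (R + ρ / 2) / (ρ / 2) = 1 + 2 * R / ρ := by
    field_simp
    ring
  rwa [he] at K

theorem covera_max {X : Type*} (S : X → Prop) (sep : X → X → Prop)
    (hsym : ∀ a b, sep a b → sep b a) (B : ℕ)
    (hB : ∀ A : Finset X, (∀ a ∈ A, S a) → (∀ a ∈ A, ∀ b ∈ A, a ≠ b → sep a b) → A.card ≤ B) :
    ∃ A : Finset X, (∀ a ∈ A, S a) ∧ (∀ a ∈ A, ∀ b ∈ A, a ≠ b → sep a b) ∧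
      ∀ x, S x → x ∈ A ∨ ∃ a ∈ A, ¬ sep x a := by
  classical
  let P : ℕ → Prop := fun n => ∃ A : Finset X, (∀ a ∈ A, S a) ∧
    (∀ a ∈ A, ∀ b ∈ A, a ≠ b → sep a b) ∧ A.card = n
  obtain ⟨A, h1, h2, h3⟩ : P (Nat.findGreatest P B) :=
    Nat.findGreatest_spec (Nat.zero_le B) ⟨∅, by simp, by simp, rfl⟩
  refine ⟨A, h1, h2, fun x hx => ?_⟩
  by_contra hc
  push Not at hc
  have a1 : ∀ a ∈ insert x A, S a := by
    intro a ha
    rcases Finset.mem_insert.1 ha with rfl | ha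
    exacts [hx, h1 a ha]
  have a2 : ∀ a ∈ insert x A, ∀ b ∈ insert x A, a ≠ b → sep a b := by
    intro a ha b hb hab
    rcases Finset.mem_insert.1 ha with ha' | ha' <;> rcases Finset.mem_insert.1 hb with hb' | hb'
    · exact (hab (ha'.trans hb'.symm)).elim
    · exact ha' ▸ hc.2 b hb'
    · exact hb' ▸ hsym _ _ (hc.2 a ha')
    · exact h2 a ha' b hb' hab
  have a3 := Finset.card_insert_of_notMem hc.1
  exact Nat.findGreatest_is_greatest (P := P) (k := (insert x A).card) (by omega) (hB _ a1 a2)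
    ⟨_, a1, a2, rfl⟩

theorem sep_card_le (H : Submodule ℝ (E m)) {R ρ : ℝ} (hR : 0 ≤ R) (hρ : 0 < ρ) (A : Finset (E m))
    (hA : ∀ a ∈ A, a ∈ H ∧ ‖a‖ ≤ R) (hs : ∀ a ∈ A, ∀ b ∈ A, a ≠ b → ρ ≤ ‖a - b‖) :
    (A.card : ℝ) ≤ (1 + 2 * R / ρ) ^ Module.finrank ℝ H := by
  classical
  have h := covera_vol hR hρ (A.subtype (· ∈ H)) (fun c hc => (hA c (Finset.mem_subtype.1 hc)).2)
    fun c hc d hd hcd => hs c (Finset.mem_subtype.1 hc) d (Finset.mem_subtype.1 hd)
      fun e => hcd (Subtype.ext e)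
  rwa [Finset.card_subtype, Finset.filter_true_of_mem fun a ha => (hA a ha).1] at h

theorem cover_ball (H : Submodule ℝ (E m)) {R ρ : ℝ} (hR : 0 ≤ R) (hρ : 0 < ρ) :
    ∃ N : Finset (E m), (N.card : ℝ) ≤ (1 + 2 * R / ρ) ^ Module.finrank ℝ H ∧
      (∀ y ∈ N, y ∈ H ∧ ‖y‖ ≤ R) ∧ ∀ x ∈ H, ‖x‖ ≤ R → ∃ y ∈ N, ‖x - y‖ ≤ ρ := by
  obtain ⟨A, h1, h2, h3⟩ := covera_max (fun y : E m => y ∈ H ∧ ‖y‖ ≤ R) (fun a b => ρ ≤ ‖a - b‖)
    (fun a b h => by rwa [norm_sub_rev]) ⌊(1 + 2 * R / ρ) ^ Module.finrank ℝ H⌋₊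
    fun A a1 a2 => Nat.le_floor (sep_card_le H hR hρ A a1 a2)
  refine ⟨A, sep_card_le H hR hρ A h1 h2, h1, fun x hx hxR => ?_⟩
  rcases h3 x ⟨hx, hxR⟩ with h | ⟨a, ha, h⟩
  · exact ⟨x, h, by simpa using hρ.le⟩
  · exact ⟨a, ha, (not_le.1 h).le⟩

theorem wide {F : Finset (E m)} (hF : ∀ f ∈ F, ‖f‖ ^ 2 ≤ m) {G : Submodule ℝ (E m)} {c r : ℝ}
    (hr : 0 ≤ r) (h : ¬ Narrow F G c r) :
    ∃ A ⊆ F, Real.exp (c * m) < A.card ∧
      ∀ f ∈ A, ∀ f' ∈ A, f ≠ f' → r * √m ≤ ‖G.starProjection (f - f')‖ := by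
  classical
  obtain ⟨A, h1, h2, h3⟩ := covera_max (fun y : E m => y ∈ F)
    (fun a b => r * √m ≤ ‖G.starProjection (a - b)‖)
    (fun a b h => by rwa [← neg_sub, map_neg, norm_neg]) F.card
    fun A a1 _ => Finset.card_le_card a1
  refine ⟨A, h1, ?_, h2⟩
  by_contra hc
  refine h ⟨A.image G.starProjection, ?_, ?_, fun f hf => ?_⟩
  · exact le_trans (by exact_mod_cast Finset.card_image_le) (not_lt.1 hc)
  · intro x hx
    obtain ⟨a, ha, rfl⟩ := Finset.mem_image.1 hx
    exact (pow_le_pow_left₀ (norm_nonneg _) (G.norm_starProjection_apply_le a) 2).trans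
      (hF a (h1 a ha))
  · rcases h3 f hf with h4 | ⟨a, ha, h4⟩
    · exact ⟨_, Finset.mem_image_of_mem _ h4, by simpa using by positivity⟩
    · exact ⟨_, Finset.mem_image_of_mem _ ha, by rw [← map_sub]; exact (not_le.1 h4).le⟩

theorem narrow_discard {F : Finset (E m)} (hm : 1 ≤ m) (hF : ∀ f ∈ F, ‖f‖ ^ 2 ≤ m)
    {H G : Submodule ℝ (E m)} {c r : ℝ} (hr : 0 < r) (h : Narrow F Hᗮ c r) {j : ℕ}
    (hj : Module.finrank ℝ (H.map (G.starProjection : E m →ₗ[ℝ] E m)) ≤ j) :
    ∃ N : Finset (E m), (N.card : ℝ) ≤ Real.exp (c * m) * (1 + 2 / r) ^ j ∧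
      (∀ x ∈ N, x ∈ G ∧ ‖x‖ ^ 2 ≤ 4 * m) ∧
      ∀ f ∈ F, ∃ x ∈ N, ‖G.starProjection f - x‖ ≤ 2 * r * √m := by
  classical
  obtain ⟨N, hN, hN1, hN2⟩ := h
  have hm0 : (0 : ℝ) < m := by exact_mod_cast hm
  have hs : 0 < √(m : ℝ) := Real.sqrt_pos.2 hm0
  obtain ⟨M, hM, hM1, hM2⟩ := cover_ball (H.map (G.starProjection : E m →ₗ[ℝ] E m)) hs.le
    (mul_pos hr hs)
  have he : 1 + 2 * √(m : ℝ) / (r * √m) = 1 + 2 / r := by field_simp
  rw [he] at hM
  have hsq : ∀ x : E m, ‖x‖ ^ 2 ≤ m → ‖x‖ ≤ √m := fun x hx => Real.le_sqrt_of_sq_le hx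
  refine ⟨(N ×ˢ M).image fun p => G.starProjection p.1 + p.2, ?_, ?_, fun f hf => ?_⟩
  · have h1 : (((N ×ˢ M).image fun p => G.starProjection p.1 + p.2).card : ℝ) ≤
        N.card * M.card := by
      exact_mod_cast Finset.card_image_le.trans (Finset.card_product N M).le
    have h2 : (1 : ℝ) ≤ 1 + 2 / r := le_add_of_nonneg_right (by positivity)
    exact h1.trans (mul_le_mul hN (hM.trans (pow_le_pow_right₀ h2 hj)) (by positivity)
      (by positivity))
  · intro x hx
    obtain ⟨p, hp, rfl⟩ := Finset.mem_image.1 hx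
    obtain ⟨hp1, hp2⟩ := Finset.mem_product.1 hp
    obtain ⟨⟨y, -, hy⟩, hp3⟩ := hM1 p.2 hp2
    refine ⟨G.add_mem (G.starProjection_apply_mem _) (hy ▸ G.starProjection_apply_mem _), ?_⟩
    have h1 : ‖G.starProjection p.1 + p.2‖ ≤ 2 * √m := by
      linarith [norm_add_le (G.starProjection p.1) p.2, G.norm_starProjection_apply_le p.1,
        hsq _ (hN1 _ hp1)]
    calc _ ≤ (2 * √(m : ℝ)) ^ 2 := pow_le_pow_left₀ (norm_nonneg _) h1 2
      _ = 4 * m := by rw [mul_pow, Real.sq_sqrt hm0.le]; norm_num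
  · obtain ⟨x, hx, hx'⟩ := hN2 f hf
    obtain ⟨y, hy, hy'⟩ := hM2 (G.starProjection (H.starProjection f))
      ⟨_, H.starProjection_apply_mem f, rfl⟩
      ((G.norm_starProjection_apply_le _).trans ((H.norm_starProjection_apply_le _).trans
        (hsq f (hF f hf))))
    refine ⟨_, Finset.mem_image_of_mem _ (Finset.mem_product.2 (⟨hx, hy⟩ : (x, y).1 ∈ N ∧
      (x, y).2 ∈ M)), ?_⟩
    have h1 : G.starProjection f - (G.starProjection x + y) =
        G.starProjection (Hᗮ.starProjection f - x) +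
          (G.starProjection (H.starProjection f) - y) := by
      conv_lhs => rw [← H.starProjection_add_starProjection_orthogonal f]
      rw [map_add, map_sub]
      abel
    change ‖G.starProjection f - (G.starProjection x + y)‖ ≤ _
    rw [h1]
    linarith [norm_add_le (G.starProjection (Hᗮ.starProjection f - x))
      (G.starProjection (H.starProjection f) - y),
      G.norm_starProjection_apply_le (Hᗮ.starProjection f - x)]

end Pool.Agent.MP_fcb590_an.Q2

end

section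
/-!
Coverings and packings.
`sep_card_le`: volume comparison in the subspace H (copy the proof of `Besicovitch.card_le_of_separated` with radius R:
disjoint balls of radius rho/2 inside the ball of radius R + rho/2, `Measure.addHaar_ball`).
`cover_ball`: a separated subset of maximal cardinality (cardinalities are bounded by `sep_card_le`).
`wide`: take a maximal subset A of F with pairwise separated projections; if its card were <= exp (c m) then the
projections of A (norm at most that of f) would be a net.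
`narrow_discard`: P_G f = P_G (P_(H perp) f) + P_G (P_H f); the second term lies in the ball of radius sqrt m of the
subspace H.map P_G; centres are P_G x + y.
`maurey`: induction on k: there is s in S with norm (u + (s - y))^2 <= norm u ^ 2 + R^2, because the average over a convex
combination of 2 inner u (s - y) + norm (s - y)^2 is sum a norm s ^ 2 - norm y ^ 2.
`mult_packing`: B_0 = A, B_(j+1) = image of A x B_j under (a, b) -> (1 - t) a + t b; points of the hull are at distance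
at most D; for different a the distance is at least (1-t) rho - t D >= rho / 4.
-/

set_option autoImplicit false

open scoped RealInnerProductSpace

namespace Pool.Agent.MP_fcb590_an.Q2

variable {m : ℕ}

theorem coverb_step {W : Type*} [NormedAddCommGroup W] [InnerProductSpace ℝ W] (S : Set W) {R : ℝ}
    (hS : ∀ s ∈ S, ‖s‖ ^ 2 ≤ R) {y : W} (hy : y ∈ convexHull ℝ S) (u : W) :
    ∃ s ∈ S, ‖u + (s - y)‖ ^ 2 ≤ ‖u‖ ^ 2 + R := by
  by_contra hc
  push Not at hc
  have h1 : S ⊆ {s | ⟪u, y⟫ - ‖y‖ ^ 2 / 2 < ⟪u - y, s⟫} := fun s hs => by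
    have a1 := hc s hs
    have a2 := hS s hs
    rw [norm_add_sq_real, norm_sub_sq_real, inner_sub_right] at a1
    rw [Set.mem_ofPred_eq, inner_sub_left, real_inner_comm s y]
    linarith
  have h2 := convexHull_min h1 (convex_halfSpace_gt (innerₗ W (u - y)).isLinear _) hy
  rw [Set.mem_ofPred_eq, inner_sub_left, real_inner_self_eq_norm_sq] at h2
  linarith [sq_nonneg ‖y‖]

theorem maurey {W : Type*} [NormedAddCommGroup W] [InnerProductSpace ℝ W] (S : Set W) {R : ℝ}
    (hS : ∀ s ∈ S, ‖s‖ ^ 2 ≤ R) {y : W} (hy : y ∈ convexHull ℝ S) (k : ℕ) :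
    ∃ g : Fin k → W, (∀ i, g i ∈ S) ∧ ‖∑ i, g i - (k : ℝ) • y‖ ^ 2 ≤ k * R := by
  induction k with
  | zero => exact ⟨Fin.elim0, fun i => i.elim0, by simp⟩
  | succ k ih =>
    obtain ⟨g, hg, h⟩ := ih
    obtain ⟨s, hs, h'⟩ := coverb_step S hS hy (∑ i, g i - (k : ℝ) • y)
    refine ⟨Fin.cons s g, fun i => Fin.cases hs hg i, ?_⟩
    have e : ∑ i, Fin.cons (α := fun _ => W) s g i - ((k + 1 : ℕ) : ℝ) • y =
        ∑ i, g i - (k : ℝ) • y + (s - y) := by
      rw [Fin.sum_univ_succ, Nat.cast_succ, add_smul, one_smul]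
      simp only [Fin.cons_zero, Fin.cons_succ]
      abel
    rw [e, Nat.cast_succ]
    linarith

theorem mult_packing (A : Finset (E m)) {ρ D t : ℝ} (hρ : 0 < ρ) (ht : 0 < t) (ht2 : t ≤ 1 / 2)
    (hD : D * t ≤ ρ / 4) (hdiam : ∀ a ∈ A, ∀ b ∈ A, ‖a - b‖ ≤ D)
    (hs : ∀ a ∈ A, ∀ b ∈ A, a ≠ b → ρ ≤ ‖a - b‖) (j : ℕ) :
    ∃ B : Finset (E m), (B : Set (E m)) ⊆ convexHull ℝ (A : Set (E m)) ∧
      B.card = A.card ^ (j + 1) ∧ ∀ a ∈ B, ∀ b ∈ B, a ≠ b → t ^ j * ρ / 4 ≤ ‖a - b‖ := by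
  classical
  induction j with
  | zero =>
    exact ⟨A, subset_convexHull ℝ _, by simp, fun a ha b hb h => by
      have := hs a ha b hb h
      rw [pow_zero]
      linarith⟩
  | succ j ih =>
    obtain ⟨B, hB, hc, hsep⟩ := ih
    have key : ∀ p ∈ A ×ˢ B, ∀ q ∈ A ×ˢ B, p ≠ q →
        t ^ (j + 1) * ρ / 4 ≤ ‖((1 - t) • p.1 + t • p.2) - ((1 - t) • q.1 + t • q.2)‖ := by
      intro p hp q hq hne
      obtain ⟨p1, p2⟩ := Finset.mem_product.1 hp
      obtain ⟨q1, q2⟩ := Finset.mem_product.1 hq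
      have e : ((1 - t) • p.1 + t • p.2) - ((1 - t) • q.1 + t • q.2) =
          (1 - t) • (p.1 - q.1) + t • (p.2 - q.2) := by
        rw [smul_sub, smul_sub]
        abel
      rw [e]
      by_cases h1 : p.1 = q.1
      · have := hsep _ p2 _ q2 fun h2 => hne (Prod.ext h1 h2)
        rw [h1, sub_self, smul_zero, zero_add, norm_smul, Real.norm_of_nonneg ht.le]
        calc t ^ (j + 1) * ρ / 4 = t * (t ^ j * ρ / 4) := by ring
          _ ≤ _ := by gcongr
      · have a1 := hs _ p1 _ q1 h1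
        obtain ⟨x, hx, y, hy, a2⟩ := convexHull_exists_dist_ge2 (hB p2) (hB q2)
        rw [dist_eq_norm, dist_eq_norm] at a2
        have a3 := mul_le_mul_of_nonneg_left (a2.trans (hdiam x hx y hy)) ht.le
        have a4 := norm_sub_le ((1 - t) • (p.1 - q.1) + t • (p.2 - q.2)) (t • (p.2 - q.2))
        rw [add_sub_cancel_right, norm_smul, norm_smul, Real.norm_of_nonneg ht.le,
          Real.norm_of_nonneg (by linarith)] at a4
        have a5 : 1 / 2 * ρ ≤ (1 - t) * ‖p.1 - q.1‖ :=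
          mul_le_mul (by linarith) a1 hρ.le (by linarith)
        have a6 : t ^ (j + 1) * ρ ≤ 1 * ρ :=
          mul_le_mul_of_nonneg_right (pow_le_one₀ ht.le (by linarith)) hρ.le
        linarith
    refine ⟨(A ×ˢ B).image fun p => (1 - t) • p.1 + t • p.2, fun x hx => ?_, ?_, fun a ha b hb h => ?_⟩
    · obtain ⟨p, hp, rfl⟩ := Finset.mem_image.1 (Finset.mem_coe.1 hx)
      obtain ⟨p1, p2⟩ := Finset.mem_product.1 hp
      exact convex_convexHull ℝ _ (subset_convexHull ℝ _ p1) (hB p2) (by linarith) ht.le (by ring)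
    · rw [Finset.card_image_of_injOn, Finset.card_product, hc, ← pow_succ']
      intro p hp q hq h
      by_contra hne
      have := key p hp q hq hne
      rw [show (1 - t) • p.1 + t • p.2 = (1 - t) • q.1 + t • q.2 from h, sub_self, norm_zero] at this
      have : 0 < t ^ (j + 1) * ρ / 4 := by positivity
      linarith
    · obtain ⟨p, hp, rfl⟩ := Finset.mem_image.1 ha
      obtain ⟨q, hq, rfl⟩ := Finset.mem_image.1 hb
      exact key p hp q hq fun e => h (by rw [e])

end Pool.Agent.MP_fcb590_an.Q2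

end

end

-- part MP_fcb590_an.Q2.Channel
section

section
/-!
Gaussian integrals and the conditional entropy.
`cm`: `H96.stdGaussian_eq` / `H96.integral_stdGaussian` and translation invariance of volume
(`integral_sub_right_eq_self`): gd y * wt x y = gd (y - x). Same for integrability
(`integrable_withDensity_iff_integrable_smul'`, `Integrable.comp_sub_right`).
Moments: `integral_strongDual_stdGaussian`, `covarianceBilin_stdGaussian` or `variance_dual_stdGaussian` with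
polarisation, `IsGaussian.memLp_dual`; `charFun_stdGaussian` for the characteristic function.
Entropy. The integrand satisfies 0 <= w log (Z / w) <= Z. `ent_le`: pointwise sum w log (Z / w) <= Z log card A
(from w log (Z / (card A * w)) <= Z / card A - w). `ent_ge`: log Z >= log card A + average of log w_b (concavity, or
log (w_b * card A / Z) <= w_b * card A / Z - 1 summed over b), and the integral of w_a (log w_b - log w_a) is
- norm (Phi a - Phi b)^2 / 2 >= - 2 R. Splitting: for a in A_i, log (Z / w) = log (Z_i / w) + log (Z / Z_i).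
`ent_split_card`: Z_1 log (p Z / Z_1) <= p Z - Z_1, similarly for the complement, then `ent_compl_le`.
`ent_split_prod`: `bin_ent_le` with p = Z_1 / Z, and 3 sqrt (p q) <= a + 3 p q / a.
-/

set_option autoImplicit false

open scoped RealInnerProductSpace

namespace Pool.Agent.MP_fcb590_an.Q2

open MeasureTheory ProbabilityTheory

variable {d : ℕ} {α : Type*}

theorem wt_pos (x y : E d) : 0 < wt x y := Real.exp_pos _

theorem continuous_wt (x : E d) : Continuous (wt x) := by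
  unfold wt
  fun_prop

theorem Zf_pos (Φ : α → E d) {A : Finset α} (hA : A.Nonempty) (y : E d) : 0 < Zf Φ A y := by
  unfold Zf
  exact Finset.sum_pos (fun a _ => wt_pos _ _) hA

theorem continuous_Zf (Φ : α → E d) (A : Finset α) : Continuous (Zf Φ A) := by
  unfold Zf
  exact continuous_finsetSum _ fun a _ => continuous_wt _

theorem wt_mul (x x' y : E d) : wt x y * wt x' y = Real.exp ⟪x, x'⟫ * wt (x + x') y := by
  unfold wt
  rw [← Real.exp_add, ← Real.exp_add, norm_add_sq_real, inner_add_right]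
  congr 1
  ring

theorem gauss_gd_wt (x y : E d) :
    MP_63be92_gt.H96.gd (E d) y * wt x y = MP_63be92_gt.H96.gd (E d) (y - x) := by
  unfold wt MP_63be92_gt.H96.gd
  rw [mul_assoc, ← Real.exp_add, norm_sub_sq_real]
  congr 2
  ring

theorem gauss_integrable_iff (f : E d → ℝ) :
    Integrable f (stdGaussian (E d)) ↔
      Integrable (fun y => MP_63be92_gt.H96.gd (E d) y * f y) volume := by
  rw [MP_63be92_gt.H96.stdGaussian_eq, integrable_withDensity_iff_integrable_smul'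
    MP_63be92_gt.H96.continuous_gd.measurable.ennreal_ofReal (by simp)]
  refine integrable_congr (Filter.Eventually.of_forall fun y => ?_)
  simp [ENNReal.toReal_ofReal (MP_63be92_gt.H96.gd_pos y).le]

/-- Cameron-Martin formula -/
theorem cm (x : E d) (ψ : E d → ℝ) :
    ∫ y, wt x y * ψ (y - x) ∂stdGaussian (E d) = ∫ y, ψ y ∂stdGaussian (E d) := by
  rw [MP_63be92_gt.H96.integral_stdGaussian, MP_63be92_gt.H96.integral_stdGaussian,
    ← integral_sub_right_eq_self (fun y => MP_63be92_gt.H96.gd (E d) y * ψ y) x]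
  refine integral_congr_ae (Filter.Eventually.of_forall fun y => ?_)
  simp only
  rw [← mul_assoc, gauss_gd_wt]

theorem cm_integrable (x : E d) {ψ : E d → ℝ} (h : Integrable ψ (stdGaussian (E d))) :
    Integrable (fun y => wt x y * ψ (y - x)) (stdGaussian (E d)) := by
  rw [gauss_integrable_iff] at h ⊢
  refine (h.comp_sub_right x).congr (Filter.Eventually.of_forall fun y => ?_)
  simp only
  rw [← mul_assoc, gauss_gd_wt]

theorem integrable_wt (x : E d) : Integrable (wt x) (stdGaussian (E d)) := by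
  have h := cm_integrable x (ψ := fun _ => 1) (integrable_const _)
  simpa using h

theorem integral_wt (x : E d) : ∫ y, wt x y ∂stdGaussian (E d) = 1 := by
  have h := cm x (fun _ => 1)
  simpa using h

theorem integrable_Zf (Φ : α → E d) (A : Finset α) : Integrable (Zf Φ A) (stdGaussian (E d)) := by
  unfold Zf
  exact integrable_finsetSum _ fun a _ => integrable_wt _

theorem integral_Zf (Φ : α → E d) (A : Finset α) :
    ∫ y, Zf Φ A y ∂stdGaussian (E d) = A.card := by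
  unfold Zf
  rw [integral_finsetSum _ fun a _ => integrable_wt _]
  simp [integral_wt]

theorem gauss_inner_eq (u : E d) : (fun y : E d => ⟪y, u⟫) = ⇑(innerSL ℝ u) := by
  ext y
  rw [innerSL_apply_apply, real_inner_comm]

theorem integrable_inner (u : E d) : Integrable (fun y => ⟪y, u⟫) (stdGaussian (E d)) := by
  rw [gauss_inner_eq]
  exact IsGaussian.integrable_dual _ _

theorem integral_inner_zero (u : E d) : ∫ y, ⟪y, u⟫ ∂stdGaussian (E d) = 0 := by
  have h := integral_strongDual_stdGaussian (E := E d) (innerSL ℝ u)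
  rw [← gauss_inner_eq] at h
  exact h

theorem integrable_inner_mul (u u' : E d) :
    Integrable (fun y => ⟪y, u⟫ * ⟪y, u'⟫) (stdGaussian (E d)) := by
  have h1 : MemLp (fun y : E d => ⟪y, u⟫) 2 (stdGaussian (E d)) := by
    rw [gauss_inner_eq]
    exact IsGaussian.memLp_dual _ _ 2 (by simp)
  have h2 : MemLp (fun y : E d => ⟪y, u'⟫) 2 (stdGaussian (E d)) := by
    rw [gauss_inner_eq]
    exact IsGaussian.memLp_dual _ _ 2 (by simp)
  exact h1.integrable_mul h2

theorem integral_inner_mul (u u' : E d) :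
    ∫ y, ⟪y, u⟫ * ⟪y, u'⟫ ∂stdGaussian (E d) = ⟪u, u'⟫ := by
  have h := covarianceBilin_apply (μ := stdGaussian (E d)) IsGaussian.memLp_two_id u u'
  rw [covarianceBilin_stdGaussian] at h
  have h0 : (stdGaussian (E d))[id] = 0 := integral_id_stdGaussian
  rw [h0] at h
  simp only [sub_zero] at h
  have h3 : (innerSL ℝ : E d →L[ℝ] E d →L[ℝ] ℝ) u u' = ⟪u, u'⟫ := rfl
  rw [← h3]
  refine Eq.trans ?_ h.symm
  refine integral_congr_ae (Filter.Eventually.of_forall fun y => ?_)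
  simp only
  rw [real_inner_comm y u, real_inner_comm y u']

theorem integrable_wt_inner (x u : E d) :
    Integrable (fun y => wt x y * ⟪y, u⟫) (stdGaussian (E d)) := by
  have h := cm_integrable x (ψ := fun y => ⟪y, u⟫ + ⟪x, u⟫)
    ((integrable_inner u).add (integrable_const _))
  simpa [inner_sub_left] using h

theorem integral_wt_inner (x u : E d) :
    ∫ y, wt x y * ⟪y, u⟫ ∂stdGaussian (E d) = ⟪x, u⟫ := by
  have h := cm x (fun y => ⟪y, u⟫ + ⟪x, u⟫)
  rw [integral_add (integrable_inner u) (integrable_const _), integral_inner_zero] at h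
  simpa [inner_sub_left] using h

theorem gauss_integrable_exp (u : E d) :
    Integrable (fun y : E d => Complex.exp ((⟪y, u⟫ : ℝ) * Complex.I)) (stdGaussian (E d)) := by
  refine Integrable.of_bound (Continuous.aestronglyMeasurable (by fun_prop)) 1
    (Filter.Eventually.of_forall fun y => ?_)
  rw [Complex.norm_exp_ofReal_mul_I]

theorem gauss_exp_eq (u : E d) :
    ((Real.exp (-‖u‖ ^ 2 / 2) : ℝ) : ℂ) = Complex.exp (-(‖u‖ : ℂ) ^ 2 / 2) := by
  push_cast
  rfl

theorem integral_cos_inner (u : E d) :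
    ∫ y, Real.cos ⟪y, u⟫ ∂stdGaussian (E d) = Real.exp (-‖u‖ ^ 2 / 2) := by
  have h := congrArg Complex.re (charFun_stdGaussian u)
  rw [charFun_apply, ← gauss_exp_eq, Complex.ofReal_re] at h
  rw [← h]
  have h2 := integral_re (gauss_integrable_exp u)
  simp only [RCLike.re_to_complex, Complex.exp_ofReal_mul_I_re] at h2
  exact h2

theorem integral_sin_inner (u : E d) : ∫ y, Real.sin ⟪y, u⟫ ∂stdGaussian (E d) = 0 := by
  have h := congrArg Complex.im (charFun_stdGaussian u)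
  rw [charFun_apply, ← gauss_exp_eq, Complex.ofReal_im] at h
  rw [← h]
  have h2 := integral_im (gauss_integrable_exp u)
  simp only [RCLike.im_to_complex, Complex.exp_ofReal_mul_I_im] at h2
  exact h2

end Pool.Agent.MP_fcb590_an.Q2

end

section
/-!
Gaussian integrals and the conditional entropy.
`cm`: `H96.stdGaussian_eq` / `H96.integral_stdGaussian` and translation invariance of volume
(`integral_sub_right_eq_self`): gd y * wt x y = gd (y - x). Same for integrability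
(`integrable_withDensity_iff_integrable_smul'`, `Integrable.comp_sub_right`).
Moments: `integral_strongDual_stdGaussian`, `covarianceBilin_stdGaussian` or `variance_dual_stdGaussian` with
polarisation, `IsGaussian.memLp_dual`; `charFun_stdGaussian` for the characteristic function.
Entropy. The integrand satisfies 0 <= w log (Z / w) <= Z. `ent_le`: pointwise sum w log (Z / w) <= Z log card A
(from w log (Z / (card A * w)) <= Z / card A - w). `ent_ge`: log Z >= log card A + average of log w_b (concavity, or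
log (w_b * card A / Z) <= w_b * card A / Z - 1 summed over b), and the integral of w_a (log w_b - log w_a) is
- norm (Phi a - Phi b)^2 / 2 >= - 2 R. Splitting: for a in A_i, log (Z / w) = log (Z_i / w) + log (Z / Z_i).
`ent_split_card`: Z_1 log (p Z / Z_1) <= p Z - Z_1, similarly for the complement, then `ent_compl_le`.
`ent_split_prod`: `bin_ent_le` with p = Z_1 / Z, and 3 sqrt (p q) <= a + 3 p q / a.
-/

set_option autoImplicit false

open scoped RealInnerProductSpace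

namespace Pool.Agent.MP_fcb590_an.Q2

open MeasureTheory ProbabilityTheory

variable {d : ℕ} {α : Type*}

theorem chan_le_Zf (Φ : α → E d) {A : Finset α} {a : α} (ha : a ∈ A) (y : E d) :
    wt (Φ a) y ≤ Zf Φ A y :=
  Finset.single_le_sum (f := fun b => wt (Φ b) y) (fun _ _ => (wt_pos _ _).le) ha

theorem chan_mul_log_le {w z : ℝ} (hw : 0 < w) (hz : 0 < z) : w * Real.log (z / w) ≤ z - w := by
  have h := Real.log_le_sub_one_of_pos (div_pos hz hw)
  have h2 : w * (z / w - 1) = z - w := by field_simp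
  rw [← h2]
  exact mul_le_mul_of_nonneg_left h hw.le

theorem chan_mul_log_le' {w z p : ℝ} (hw : 0 < w) (hz : 0 < z) (hp : 0 < p) :
    w * Real.log (z / w) ≤ z / p - w + w * Real.log p := by
  have h := chan_mul_log_le hw (div_pos hz hp)
  have h2 : Real.log (z / w) = Real.log (z / p / w) + Real.log p := by
    rw [← Real.log_mul (div_pos (div_pos hz hp) hw).ne' hp.ne']
    congr 1
    field_simp
  rw [h2, mul_add]
  linarith

theorem chan_integrable_term (Φ : α → E d) {A : Finset α} {a : α} (ha : a ∈ A) :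
    Integrable (fun y => wt (Φ a) y * Real.log (Zf Φ A y / wt (Φ a) y)) (stdGaussian (E d)) := by
  have hA : A.Nonempty := ⟨a, ha⟩
  have hc : Continuous fun y => wt (Φ a) y * Real.log (Zf Φ A y / wt (Φ a) y) :=
    (continuous_wt _).mul (((continuous_Zf Φ A).div (continuous_wt _)
      fun y => (wt_pos _ y).ne').log fun y => (div_pos (Zf_pos Φ hA y) (wt_pos _ y)).ne')
  refine (integrable_Zf Φ A).mono' hc.aestronglyMeasurable (Filter.Eventually.of_forall fun y => ?_)
  have h0 : 0 ≤ wt (Φ a) y * Real.log (Zf Φ A y / wt (Φ a) y) :=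
    mul_nonneg (wt_pos _ y).le
      (Real.log_nonneg ((one_le_div (wt_pos _ y)).2 (chan_le_Zf Φ ha y)))
  rw [Real.norm_eq_abs, abs_of_nonneg h0]
  have h1 := chan_mul_log_le (wt_pos (Φ a) y) (Zf_pos Φ hA y)
  linarith [wt_pos (Φ a) y]

theorem chan_integrable (Φ : α → E d) (A : Finset α) :
    Integrable (fun y => ∑ a ∈ A, wt (Φ a) y * Real.log (Zf Φ A y / wt (Φ a) y))
      (stdGaussian (E d)) :=
  integrable_finsetSum A fun _ ha => chan_integrable_term Φ ha

theorem chan_card_mul (Φ : α → E d) {A : Finset α} (hA : A.Nonempty) :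
    A.card * Ent Φ A =
      ∫ y, ∑ a ∈ A, wt (Φ a) y * Real.log (Zf Φ A y / wt (Φ a) y) ∂stdGaussian (E d) := by
  have hn : (A.card : ℝ) ≠ 0 := by exact_mod_cast hA.card_pos.ne'
  rw [Ent, ← mul_assoc, mul_inv_cancel₀ hn, one_mul]

theorem chan_log_Zf (Φ : α → E d) {A : Finset α} (hA : A.Nonempty) (y : E d) :
    A.card * Real.log A.card + ∑ b ∈ A, Real.log (wt (Φ b) y) ≤ A.card * Real.log (Zf Φ A y) := by
  have hn : (0 : ℝ) < A.card := by exact_mod_cast hA.card_pos
  have hZ := Zf_pos Φ hA y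
  have h1 : ∀ b ∈ A, Real.log A.card + Real.log (wt (Φ b) y) - Real.log (Zf Φ A y) ≤
      A.card / Zf Φ A y * wt (Φ b) y - 1 := fun b _ => by
    have h := Real.log_le_sub_one_of_pos (mul_pos (div_pos hn hZ) (wt_pos (Φ b) y))
    rw [Real.log_mul (div_pos hn hZ).ne' (wt_pos _ y).ne', Real.log_div hn.ne' hZ.ne'] at h
    linarith
  have h2 := Finset.sum_le_sum h1
  rw [Finset.sum_sub_distrib, Finset.sum_add_distrib, Finset.sum_sub_distrib, ← Finset.mul_sum] at h2
  simp only [Finset.sum_const, nsmul_eq_mul, mul_one] at h2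
  have h3 : A.card / Zf Φ A y * ∑ b ∈ A, wt (Φ b) y = A.card := by
    change A.card / Zf Φ A y * Zf Φ A y = A.card
    field_simp
  rw [h3] at h2
  linarith

theorem chan_log_diff (x x' y : E d) :
    wt x y * (Real.log (wt x' y) - Real.log (wt x y)) =
      wt x y * ⟪y, x' - x⟫ - (‖x'‖ ^ 2 - ‖x‖ ^ 2) / 2 * wt x y := by
  have h1 : Real.log (wt x' y) = ⟪y, x'⟫ - ‖x'‖ ^ 2 / 2 := Real.log_exp _
  have h2 : Real.log (wt x y) = ⟪y, x⟫ - ‖x‖ ^ 2 / 2 := Real.log_exp _
  rw [h1, h2, inner_sub_right]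
  ring

theorem chan_integrable_diff (x x' : E d) :
    Integrable (fun y => wt x y * (Real.log (wt x' y) - Real.log (wt x y))) (stdGaussian (E d)) := by
  simp only [chan_log_diff]
  exact (integrable_wt_inner x _).sub ((integrable_wt x).const_mul _)

theorem chan_integral_diff {x x' : E d} {R : ℝ} (hx : ‖x‖ ^ 2 ≤ R) (hx' : ‖x'‖ ^ 2 ≤ R) :
    -(2 * R) ≤ ∫ y, wt x y * (Real.log (wt x' y) - Real.log (wt x y)) ∂stdGaussian (E d) := by
  simp only [chan_log_diff]
  rw [integral_sub (integrable_wt_inner x _) ((integrable_wt x).const_mul _), integral_wt_inner,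
    integral_const_mul, integral_wt, inner_sub_right, real_inner_self_eq_norm_sq]
  have h := norm_add_sq_real x x'
  have h0 := sq_nonneg ‖x + x'‖
  linarith

theorem chan_Zf_split [DecidableEq α] (Φ : α → E d) {A A' : Finset α} (h : A' ⊆ A) (y : E d) :
    Zf Φ A y = Zf Φ A' y + Zf Φ (A \ A') y := by
  rw [Zf, Zf, Zf, ← Finset.sum_sdiff h, add_comm]

theorem chan_shift (Φ : α → E d) {B : Finset α} (hB : B.Nonempty) (y : E d) {z : ℝ} (hz : 0 < z) :
    ∑ a ∈ B, wt (Φ a) y * Real.log (z / wt (Φ a) y) =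
      ∑ a ∈ B, wt (Φ a) y * Real.log (Zf Φ B y / wt (Φ a) y) +
        Zf Φ B y * Real.log (z / Zf Φ B y) := by
  have hZ := Zf_pos Φ hB y
  have h1 : Zf Φ B y * Real.log (z / Zf Φ B y) =
      ∑ a ∈ B, wt (Φ a) y * Real.log (z / Zf Φ B y) := by
    rw [← Finset.sum_mul]; rfl
  rw [h1, ← Finset.sum_add_distrib]
  refine Finset.sum_congr rfl fun a _ => ?_
  have hw := wt_pos (Φ a) y
  rw [Real.log_div hz.ne' hw.ne', Real.log_div hZ.ne' hw.ne', Real.log_div hz.ne' hZ.ne']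
  ring

theorem chan_split [DecidableEq α] (Φ : α → E d) {A A' : Finset α} (h : A' ⊆ A)
    (hA' : A'.Nonempty) (hc : (A \ A').Nonempty) {g : E d → ℝ}
    (hg : Integrable g (stdGaussian (E d)))
    (hle : ∀ y, Zf Φ A' y * Real.log (Zf Φ A y / Zf Φ A' y) +
      Zf Φ (A \ A') y * Real.log (Zf Φ A y / Zf Φ (A \ A') y) ≤ g y) :
    A.card * Ent Φ A ≤ A'.card * Ent Φ A' + (A \ A').card * Ent Φ (A \ A') +
      ∫ y, g y ∂stdGaussian (E d) := by
  have hA : A.Nonempty := hA'.mono h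
  have hi : Integrable (fun y => ∑ a ∈ A', wt (Φ a) y * Real.log (Zf Φ A' y / wt (Φ a) y) +
      ∑ a ∈ A \ A', wt (Φ a) y * Real.log (Zf Φ (A \ A') y / wt (Φ a) y)) (stdGaussian (E d)) :=
    (chan_integrable Φ A').add (chan_integrable Φ (A \ A'))
  rw [chan_card_mul Φ hA, chan_card_mul Φ hA', chan_card_mul Φ hc,
    ← integral_add (chan_integrable Φ A') (chan_integrable Φ (A \ A')), ← integral_add hi hg]
  refine integral_mono (chan_integrable Φ A) (hi.add hg) fun y => ?_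
  have h1 := chan_shift Φ hA' y (Zf_pos Φ hA y)
  have h2 := chan_shift Φ hc y (Zf_pos Φ hA y)
  have h3 := hle y
  simp only
  rw [← Finset.sum_sdiff h, h1, h2]
  linarith

theorem chan_prod_le {u v a : ℝ} (hu : 0 < u) (hv : 0 < v) (ha : 0 < a) :
    u * Real.log ((u + v) / u) + v * Real.log ((u + v) / v) ≤
      a * (u + v) + 3 / a * (u * v / (u + v)) := by
  have hz : 0 < u + v := add_pos hu hv
  have h := bin_ent_le (div_pos hu hz) (div_pos hv hz) (by field_simp)
  rw [one_div_div, one_div_div] at h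
  set s := √(u / (u + v) * (v / (u + v))) with hs
  have hs2 : s ^ 2 = u / (u + v) * (v / (u + v)) := Real.sq_sqrt (by positivity)
  have h1 : 3 * s ≤ a + 3 / a * s ^ 2 := by
    have h2 : a + 3 / a * s ^ 2 - 3 * s = ((a - 3 / 2 * s) ^ 2 + 3 / 4 * s ^ 2) / a := by
      field_simp
      ring
    have h3 : 0 ≤ ((a - 3 / 2 * s) ^ 2 + 3 / 4 * s ^ 2) / a := by positivity
    linarith
  have h4 := mul_le_mul_of_nonneg_left (h.trans h1) hz.le
  have h5 : (u + v) * (u / (u + v) * Real.log ((u + v) / u) + v / (u + v) * Real.log ((u + v) / v)) =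
      u * Real.log ((u + v) / u) + v * Real.log ((u + v) / v) := by
    field_simp
  have h6 : (u + v) * (a + 3 / a * s ^ 2) = a * (u + v) + 3 / a * (u * v / (u + v)) := by
    rw [hs2]
    field_simp
  rw [h5, h6] at h4
  exact h4

theorem ent_le (Φ : α → E d) {A : Finset α} (hA : A.Nonempty) :
    Ent Φ A ≤ Real.log A.card := by
  have hn : (0 : ℝ) < A.card := by exact_mod_cast hA.card_pos
  have h : ∫ y, ∑ a ∈ A, wt (Φ a) y * Real.log (Zf Φ A y / wt (Φ a) y) ∂stdGaussian (E d) ≤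
      ∫ y, Real.log A.card * Zf Φ A y ∂stdGaussian (E d) := by
    refine integral_mono (chan_integrable Φ A) ((integrable_Zf Φ A).const_mul _) fun y => ?_
    have h1 := Finset.sum_le_sum fun a (_ : a ∈ A) =>
      chan_mul_log_le' (wt_pos (Φ a) y) (Zf_pos Φ hA y) hn
    rw [Finset.sum_add_distrib, Finset.sum_sub_distrib, ← Finset.sum_mul, Finset.sum_const,
      nsmul_eq_mul, mul_div_cancel₀ _ hn.ne'] at h1
    have h2 : ∑ a ∈ A, wt (Φ a) y = Zf Φ A y := rfl
    rw [h2] at h1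
    simp only
    linarith
  rw [integral_const_mul, integral_Zf, ← chan_card_mul Φ hA, mul_comm (Real.log _)] at h
  exact le_of_mul_le_mul_left h hn

theorem ent_ge (Φ : α → E d) {A : Finset α} (hA : A.Nonempty) {R : ℝ}
    (hR : ∀ a ∈ A, ‖Φ a‖ ^ 2 ≤ R) : Real.log A.card - 2 * R ≤ Ent Φ A := by
  have hn : (0 : ℝ) < A.card := by exact_mod_cast hA.card_pos
  have hi : ∀ a ∈ A, Integrable (fun y => ∑ b ∈ A,
      wt (Φ a) y * (Real.log (wt (Φ b) y) - Real.log (wt (Φ a) y))) (stdGaussian (E d)) :=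
    fun a _ => integrable_finsetSum A fun b _ => chan_integrable_diff _ _
  have hterm : ∀ a ∈ A, Real.log A.card - 2 * R ≤
      ∫ y, wt (Φ a) y * Real.log (Zf Φ A y / wt (Φ a) y) ∂stdGaussian (E d) := fun a ha => by
    have h : ∫ y, (A.card * Real.log A.card * wt (Φ a) y + ∑ b ∈ A,
        wt (Φ a) y * (Real.log (wt (Φ b) y) - Real.log (wt (Φ a) y))) ∂stdGaussian (E d) ≤
        ∫ y, A.card * (wt (Φ a) y * Real.log (Zf Φ A y / wt (Φ a) y)) ∂stdGaussian (E d) := by
      refine integral_mono (((integrable_wt _).const_mul _).add (hi a ha))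
        ((chan_integrable_term Φ ha).const_mul _) fun y => ?_
      have h1 := mul_le_mul_of_nonneg_left (chan_log_Zf Φ hA y) (wt_pos (Φ a) y).le
      simp only
      rw [← Finset.mul_sum, Finset.sum_sub_distrib, Finset.sum_const, nsmul_eq_mul,
        Real.log_div (Zf_pos Φ hA y).ne' (wt_pos _ y).ne']
      linarith
    rw [integral_add ((integrable_wt _).const_mul _) (hi a ha), integral_const_mul,
      integral_const_mul, integral_wt,
      integral_finsetSum A fun b _ => chan_integrable_diff _ _] at h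
    have h2 := Finset.sum_le_sum fun b (hb : b ∈ A) => chan_integral_diff (hR a ha) (hR b hb)
    rw [Finset.sum_const, nsmul_eq_mul] at h2
    refine le_of_mul_le_mul_left ?_ hn
    linarith
  have h3 := Finset.sum_le_sum hterm
  rw [Finset.sum_const, nsmul_eq_mul,
    ← integral_finsetSum A fun a ha => chan_integrable_term Φ ha, ← chan_card_mul Φ hA] at h3
  exact le_of_mul_le_mul_left h3 hn

theorem ent_split_card [DecidableEq α] (Φ : α → E d) {A A' : Finset α} (h : A' ⊆ A)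
    (hA' : A'.Nonempty) (hc : (A \ A').Nonempty) :
    A.card * Ent Φ A ≤ A'.card * Ent Φ A' + (A \ A').card * Ent Φ (A \ A') +
      A'.card * (Real.log (A.card / A'.card) + 1) := by
  have hA : A.Nonempty := hA'.mono h
  have hn : (0 : ℝ) < A.card := by exact_mod_cast hA.card_pos
  have hn1 : (0 : ℝ) < A'.card := by exact_mod_cast hA'.card_pos
  have hn2 : (0 : ℝ) < (A \ A').card := by exact_mod_cast hc.card_pos
  have hsum : ((A \ A').card : ℝ) + A'.card = A.card := by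
    exact_mod_cast Finset.card_sdiff_add_card_eq_card h
  have h1 := chan_split Φ h hA' hc
    (g := fun y => Real.log (A.card / A'.card) * Zf Φ A' y +
      Real.log (A.card / (A \ A').card) * Zf Φ (A \ A') y)
    (((integrable_Zf Φ A').const_mul _).add ((integrable_Zf Φ (A \ A')).const_mul _)) fun y => by
      have e1 := chan_mul_log_le' (Zf_pos Φ hA' y) (Zf_pos Φ hA y) (div_pos hn hn1)
      have e2 := chan_mul_log_le' (Zf_pos Φ hc y) (Zf_pos Φ hA y) (div_pos hn hn2)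
      have e3 := chan_Zf_split Φ h y
      have e4 : Zf Φ A y / (A.card / A'.card) + Zf Φ A y / (A.card / (A \ A').card) =
          Zf Φ A y := by
        field_simp
        rw [← hsum]
        ring
      linarith
  rw [integral_add ((integrable_Zf Φ A').const_mul _) ((integrable_Zf Φ (A \ A')).const_mul _),
    integral_const_mul, integral_const_mul, integral_Zf, integral_Zf] at h1
  have h2 := chan_mul_log_le hn2 hn
  linarith

theorem ent_split_prod [DecidableEq α] (Φ : α → E d) {A A' : Finset α} (h : A' ⊆ A)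
    (hA' : A'.Nonempty) (hc : (A \ A').Nonempty) {a : ℝ} (ha : 0 < a) :
    A.card * Ent Φ A ≤ A'.card * Ent Φ A' + (A \ A').card * Ent Φ (A \ A') + (a * A.card +
      3 / a * ∫ y, Zf Φ A' y * Zf Φ (A \ A') y / Zf Φ A y ∂stdGaussian (E d)) := by
  have hA : A.Nonempty := hA'.mono h
  have hi : Integrable (fun y => Zf Φ A' y * Zf Φ (A \ A') y / Zf Φ A y) (stdGaussian (E d)) := by
    have hcont : Continuous fun y => Zf Φ A' y * Zf Φ (A \ A') y / Zf Φ A y :=
      ((continuous_Zf Φ A').mul (continuous_Zf Φ (A \ A'))).div (continuous_Zf Φ A)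
        fun y => (Zf_pos Φ hA y).ne'
    refine (integrable_Zf Φ A').mono' hcont.aestronglyMeasurable
      (Filter.Eventually.of_forall fun y => ?_)
    have e1 := Zf_pos Φ hA' y
    have e2 := Zf_pos Φ hc y
    have e3 := Zf_pos Φ hA y
    have e4 := chan_Zf_split Φ h y
    rw [Real.norm_eq_abs, abs_of_nonneg (by positivity), div_le_iff₀ e3]
    exact mul_le_mul_of_nonneg_left (by linarith) e1.le
  have h1 := chan_split Φ h hA' hc
    (g := fun y => a * Zf Φ A y + 3 / a * (Zf Φ A' y * Zf Φ (A \ A') y / Zf Φ A y))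
    (((integrable_Zf Φ A).const_mul _).add (hi.const_mul _)) fun y => by
      have e := chan_prod_le (Zf_pos Φ hA' y) (Zf_pos Φ hc y) ha
      rw [← chan_Zf_split Φ h y] at e
      exact e
  rw [integral_add ((integrable_Zf Φ A).const_mul _) (hi.const_mul _),
    integral_const_mul, integral_const_mul, integral_Zf] at h1
  exact h1

end Pool.Agent.MP_fcb590_an.Q2

end

section
/-!
The posterior covariance form and the chaos inequality.
The integrand of `Sig` is continuous and bounded by a constant times Z (|sum w_a c_a| <= max |c| * Z), so it is integrable;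
`Sig` is symmetric and bilinear. Pointwise, (sum w c^2) - (sum w c)^2 / Z = (1 / (2 Z)) sum_a sum_b w_a w_b (c_a - c_b)^2,
which gives `sig_pair` and nonnegativity; `sig_cs` by the discriminant (`discrim_le_zero`) .
`sig_pm`: with c = 1 on A', -1 on the complement, Z - (Z_1 - Z_2)^2 / Z = 4 Z_1 Z_2 / Z.
`sig_resolvent`: the linear map S with inner (S y) x = Sig y x (coordinates: S y i = Sig y (basis i)); S + omega is
injective because inner ((S + omega) y) y >= omega norm y ^ 2, hence surjective.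
`chaos_ineq`: mu y = Z⁻¹ • sum w_a • Phi a, norm (mu y)^2 <= R, |inner (mu y) (v j)| <= 1.
chi j g = wt (T • u j) g - 1 - T inner g (u j). I j := card A⁻¹ sum_a integral of w_a y * inner (mu y) (v j) * chi j (y - Phi a).
By `cm` the integrals of w_a y * wt (T u) (y - Phi a) and of w_a are 1, and
card A⁻¹ sum_a integral w_a y * inner (mu y) v * inner (y - Phi a) u = Sig v u, because
sum_a w_a * inner mu v = sum_a w_a * inner (Phi a) v and `integral_wt_inner`. So I j <= 2 - T Sig <= -1.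
Sum over j: with X g = sum_j chi j g • v j and any t > 0, - inner mu X <= (t R + norm X ^2 / t) / 2, so by `cm`
card S <= (t R + Q / t) / 2 where Q = integral of norm (X g)^2 = sum_j sum_k inner (v j) (v k) * integral chi j chi k, and
the last integral is exp s - 1 - s for s = T^2 inner (u j) (u k) (`wt_mul`, `integral_wt_inner`, `integral_inner_mul`).
Take t = card S / R (if S is nonempty then R > 0).
-/

set_option autoImplicit false

open scoped RealInnerProductSpace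

namespace Pool.Agent.MP_fcb590_an.Q2

open MeasureTheory ProbabilityTheory

variable {d : ℕ} {α : Type*}

theorem sig_int_sum (Φ : α → E d) (A : Finset α) (c : α → ℝ) :
    Integrable (fun y => ∑ a ∈ A, wt (Φ a) y * c a) (stdGaussian (E d)) :=
  integrable_finsetSum _ fun a _ => (integrable_wt (Φ a)).mul_const _

theorem sig_bd (Φ : α → E d) (A : Finset α) (c : α → ℝ) (y : E d) :
    ‖(∑ a ∈ A, wt (Φ a) y * c a) / Zf Φ A y‖ ≤ ∑ a ∈ A, |c a| := by
  rw [Finset.sum_div, Real.norm_eq_abs]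
  refine (Finset.abs_sum_le_sum_abs _ _).trans (Finset.sum_le_sum fun a ha => ?_)
  have hZ := Zf_pos Φ ⟨a, ha⟩ y
  have h1 : wt (Φ a) y ≤ Zf Φ A y :=
    Finset.single_le_sum (f := fun a => wt (Φ a) y) (fun b _ => (wt_pos _ _).le) ha
  rw [abs_div, abs_mul, abs_of_pos hZ, abs_of_pos (wt_pos _ _), div_le_iff₀ hZ, mul_comm]
  exact mul_le_mul_of_nonneg_left h1 (abs_nonneg _)

theorem sig_int (Φ : α → E d) (A : Finset α) (b c e : α → ℝ) :
    Integrable (fun y => ∑ a ∈ A, wt (Φ a) y * b a -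
      (∑ a ∈ A, wt (Φ a) y * c a) * (∑ a ∈ A, wt (Φ a) y * e a) / Zf Φ A y)
      (stdGaussian (E d)) := by
  refine (sig_int_sum Φ A b).sub ?_
  simp only [mul_div_assoc]
  refine (sig_int_sum Φ A c).mul_bdd ?_ (Filter.Eventually.of_forall (sig_bd Φ A e))
  have h1 : Continuous fun y => ∑ a ∈ A, wt (Φ a) y * e a :=
    continuous_finsetSum _ fun a _ => (continuous_wt _).mul continuous_const
  exact (h1.measurable.div (continuous_Zf Φ A).measurable).aestronglyMeasurable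

theorem sig_pt (A : Finset α) (w c : α → ℝ) (hZ : ∑ a ∈ A, w a ≠ 0) :
    ∑ a ∈ A, ∑ b ∈ A, w a * w b / (∑ a ∈ A, w a) * (c a - c b) ^ 2 =
      2 * (∑ a ∈ A, w a * (c a * c a) -
        (∑ a ∈ A, w a * c a) * (∑ a ∈ A, w a * c a) / ∑ a ∈ A, w a) := by
  have h1 : ∑ a ∈ A, ∑ b ∈ A, w a * w b * (c a - c b) ^ 2 =
      (∑ a ∈ A, w a * (c a * c a)) * (∑ a ∈ A, w a) +
        (∑ a ∈ A, w a) * (∑ a ∈ A, w a * (c a * c a)) -
        2 * ((∑ a ∈ A, w a * c a) * ∑ a ∈ A, w a * c a) := by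
    simp only [Finset.sum_mul_sum]
    rw [Finset.mul_sum, ← Finset.sum_add_distrib, ← Finset.sum_sub_distrib]
    refine Finset.sum_congr rfl fun a _ => ?_
    rw [Finset.mul_sum, ← Finset.sum_add_distrib, ← Finset.sum_sub_distrib]
    exact Finset.sum_congr rfl fun b _ => by ring
  simp only [div_mul_eq_mul_div, ← Finset.sum_div]
  rw [h1]
  field_simp
  ring

theorem sig_symm (Φ : α → E d) (A : Finset α) (x z : E d) : Sig Φ A x z = Sig Φ A z x := by
  simp only [Sig, mul_comm ⟪Φ _, x⟫, mul_comm (∑ a ∈ A, wt (Φ a) _ * ⟪Φ a, x⟫)]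

theorem sig_add_left (Φ : α → E d) (A : Finset α) (x x' z : E d) :
    Sig Φ A (x + x') z = Sig Φ A x z + Sig Φ A x' z := by
  unfold Sig
  rw [← mul_add, ← integral_add (sig_int Φ A _ _ _) (sig_int Φ A _ _ _)]
  congr 2
  ext y
  simp only [inner_add_right, mul_add, add_mul, Finset.sum_add_distrib]
  ring

theorem sig_smul_left (Φ : α → E d) (A : Finset α) (t : ℝ) (x z : E d) :
    Sig Φ A (t • x) z = t * Sig Φ A x z := by
  unfold Sig
  rw [mul_left_comm, ← integral_const_mul t]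
  congr 2
  ext y
  have h1 : ∀ c : α → ℝ, ∑ a ∈ A, wt (Φ a) y * (t * c a) = t * ∑ a ∈ A, wt (Φ a) y * c a :=
    fun c => by rw [Finset.mul_sum]; exact Finset.sum_congr rfl fun a _ => by ring
  simp only [inner_smul_right, mul_assoc t, h1]
  ring

theorem sig_pair (Φ : α → E d) {A : Finset α} (hA : A.Nonempty) (x : E d) :
    Sig Φ A x x = (2 * A.card : ℝ)⁻¹ * ∫ y, ∑ a ∈ A, ∑ b ∈ A,
      wt (Φ a) y * wt (Φ b) y / Zf Φ A y * (⟪Φ a, x⟫ - ⟪Φ b, x⟫) ^ 2 ∂stdGaussian (E d) := by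
  have h1 : ∀ y, ∑ a ∈ A, ∑ b ∈ A,
      wt (Φ a) y * wt (Φ b) y / Zf Φ A y * (⟪Φ a, x⟫ - ⟪Φ b, x⟫) ^ 2 = _ := fun y =>
    sig_pt A (fun a => wt (Φ a) y) (fun a => ⟪Φ a, x⟫) (Zf_pos Φ hA y).ne'
  simp only [h1]
  rw [integral_const_mul, mul_inv, mul_mul_mul_comm, inv_mul_cancel₀ two_ne_zero, one_mul]
  rfl

theorem sig_nonneg (Φ : α → E d) (A : Finset α) (x : E d) : 0 ≤ Sig Φ A x x := by
  rcases A.eq_empty_or_nonempty with rfl | hA
  · simp [Sig]
  rw [sig_pair Φ hA]
  refine mul_nonneg (by positivity) (integral_nonneg fun y => ?_)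
  have := Zf_pos Φ hA y
  refine Finset.sum_nonneg fun a _ => Finset.sum_nonneg fun b _ => ?_
  have := wt_pos (Φ a) y
  have := wt_pos (Φ b) y
  positivity

theorem sig_cs (Φ : α → E d) (A : Finset α) (x z : E d) :
    Sig Φ A x z ^ 2 ≤ Sig Φ A x x * Sig Φ A z z := by
  have h1 : ∀ t : ℝ, 0 ≤ Sig Φ A x x * (t * t) + 2 * Sig Φ A x z * t + Sig Φ A z z := by
    intro t
    have h2 := sig_nonneg Φ A (t • x + z)
    rw [sig_add_left, sig_smul_left, sig_symm Φ A x, sig_symm Φ A z, sig_add_left, sig_add_left,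
      sig_smul_left, sig_smul_left, sig_symm Φ A z x] at h2
    linarith
  have h3 := discrim_le_zero h1
  rw [discrim] at h3
  linarith

theorem sig_pm [DecidableEq α] (Φ : α → E d) {A A' : Finset α} (h : A' ⊆ A) (hA : A.Nonempty)
    {v : E d} (h1 : ∀ a ∈ A', ⟪Φ a, v⟫ = 1) (h2 : ∀ a ∈ A \ A', ⟪Φ a, v⟫ = -1) :
    A.card * Sig Φ A v v = 4 * ∫ y, Zf Φ A' y * Zf Φ (A \ A') y / Zf Φ A y ∂stdGaussian (E d) := by
  have hc : (A.card : ℝ) ≠ 0 := by exact_mod_cast hA.card_pos.ne'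
  unfold Sig
  rw [mul_inv_cancel_left₀ hc, ← integral_const_mul]
  congr 1
  ext y
  have hZ := (Zf_pos Φ hA y).ne'
  have e1 : Zf Φ A y = Zf Φ (A \ A') y + Zf Φ A' y := (Finset.sum_sdiff h).symm
  have e2 : ∑ a ∈ A, wt (Φ a) y * (⟪Φ a, v⟫ * ⟪Φ a, v⟫) = Zf Φ (A \ A') y + Zf Φ A' y := by
    rw [← Finset.sum_sdiff h]
    congr 1
    · exact Finset.sum_congr rfl fun a ha => by rw [h2 a ha]; ring
    · exact Finset.sum_congr rfl fun a ha => by rw [h1 a ha]; ring
  have e3 : ∑ a ∈ A, wt (Φ a) y * ⟪Φ a, v⟫ = -Zf Φ (A \ A') y + Zf Φ A' y := by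
    rw [← Finset.sum_sdiff h, Zf, ← Finset.sum_neg_distrib]
    congr 1
    · exact Finset.sum_congr rfl fun a ha => by rw [h2 a ha]; ring
    · exact Finset.sum_congr rfl fun a ha => by rw [h1 a ha]; ring
  rw [e1] at hZ
  rw [e2, e3, e1]
  field_simp
  ring

theorem sig_resolvent (Φ : α → E d) (A : Finset α) {ω : ℝ} (hω : 0 < ω) (v : E d) :
    ∃ y u : E d, u + ω • y = v ∧ ∀ x, ⟪u, x⟫ = Sig Φ A y x := by
  let B : E d →ₗ[ℝ] E d →ₗ[ℝ] ℝ := LinearMap.mk₂ ℝ (Sig Φ A) (sig_add_left Φ A)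
    (sig_smul_left Φ A)
    (fun x z z' => by rw [sig_symm, sig_add_left, sig_symm Φ A z, sig_symm Φ A z'])
    fun t x z => by rw [sig_symm, sig_smul_left, sig_symm Φ A z, smul_eq_mul]
  let b := EuclideanSpace.basisFun (Fin d) ℝ
  let S : E d →ₗ[ℝ] E d := ∑ i, (B.flip (b i)).smulRight (b i)
  have hS : ∀ y x, ⟪S y, x⟫ = Sig Φ A y x := by
    intro y x
    have h1 : Sig Φ A y x = B y (∑ i, ⟪b i, x⟫ • b i) := by rw [b.sum_repr']; rfl
    rw [h1, map_sum]
    simp only [S, LinearMap.sum_apply, LinearMap.smulRight_apply, LinearMap.flip_apply, sum_inner,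
      real_inner_smul_left, map_smul, smul_eq_mul, mul_comm]
  have hinj : Function.Injective (S + ω • LinearMap.id : E d →ₗ[ℝ] E d) := by
    rw [injective_iff_map_eq_zero]
    intro y hy
    have h1 : ⟪S y + ω • y, y⟫ = 0 := by
      rw [show S y + ω • y = 0 from hy, inner_zero_left]
    rw [inner_add_left, hS, real_inner_smul_left] at h1
    have h2 := sig_nonneg Φ A y
    have h3 : ω * ⟪y, y⟫ ≤ 0 := by linarith
    exact inner_self_eq_zero.1 (le_antisymm (nonpos_of_mul_nonpos_right h3 hω) real_inner_self_nonneg)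
  obtain ⟨y, hy⟩ := LinearMap.injective_iff_surjective.1 hinj v
  exact ⟨y, S y, hy, hS y⟩

end Pool.Agent.MP_fcb590_an.Q2

end

section
/-!
The posterior covariance form and the chaos inequality.
The integrand of `Sig` is continuous and bounded by a constant times Z (|sum w_a c_a| <= max |c| * Z), so it is integrable;
`Sig` is symmetric and bilinear. Pointwise, (sum w c^2) - (sum w c)^2 / Z = (1 / (2 Z)) sum_a sum_b w_a w_b (c_a - c_b)^2,
which gives `sig_pair` and nonnegativity; `sig_cs` by the discriminant (`discrim_le_zero`) .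
`sig_pm`: with c = 1 on A', -1 on the complement, Z - (Z_1 - Z_2)^2 / Z = 4 Z_1 Z_2 / Z.
`sig_resolvent`: the linear map S with inner (S y) x = Sig y x (coordinates: S y i = Sig y (basis i)); S + omega is
injective because inner ((S + omega) y) y >= omega norm y ^ 2, hence surjective.
`chaos_ineq`: mu y = Z⁻¹ • sum w_a • Phi a, norm (mu y)^2 <= R, |inner (mu y) (v j)| <= 1.
chi j g = wt (T • u j) g - 1 - T inner g (u j). I j := card A⁻¹ sum_a integral of w_a y * inner (mu y) (v j) * chi j (y - Phi a).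
By `cm` the integrals of w_a y * wt (T u) (y - Phi a) and of w_a are 1, and
card A⁻¹ sum_a integral w_a y * inner (mu y) v * inner (y - Phi a) u = Sig v u, because
sum_a w_a * inner mu v = sum_a w_a * inner (Phi a) v and `integral_wt_inner`. So I j <= 2 - T Sig <= -1.
Sum over j: with X g = sum_j chi j g • v j and any t > 0, - inner mu X <= (t R + norm X ^2 / t) / 2, so by `cm`
card S <= (t R + Q / t) / 2 where Q = integral of norm (X g)^2 = sum_j sum_k inner (v j) (v k) * integral chi j chi k, and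
the last integral is exp s - 1 - s for s = T^2 inner (u j) (u k) (`wt_mul`, `integral_wt_inner`, `integral_inner_mul`).
Take t = card S / R (if S is nonempty then R > 0).
-/

set_option autoImplicit false

open scoped RealInnerProductSpace

namespace Pool.Agent.MP_fcb590_an.Q2

open MeasureTheory ProbabilityTheory

variable {d : ℕ} {α : Type*}

/-- the part of the shifted density of degree at least two -/
noncomputable def chaosineq_chi (p g : E d) : ℝ := wt p g - 1 - ⟪g, p⟫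

/-- the posterior mean -/
noncomputable def chaosineq_mu (Φ : α → E d) (A : Finset α) (y : E d) : E d :=
  (Zf Φ A y)⁻¹ • ∑ a ∈ A, wt (Φ a) y • Φ a

theorem chaosineq_chi_mul (p q : E d) :
    Integrable (fun g => chaosineq_chi p g * chaosineq_chi q g) (stdGaussian (E d)) ∧
      ∫ g, chaosineq_chi p g * chaosineq_chi q g ∂stdGaussian (E d) =
        Real.exp ⟪p, q⟫ - 1 - ⟪p, q⟫ := by
  have e : (fun g => chaosineq_chi p g * chaosineq_chi q g) = fun g =>
      ((Real.exp ⟪p, q⟫ * wt (p + q) g - wt p g - wt q g) - (wt p g * ⟪g, q⟫ + wt q g * ⟪g, p⟫)) +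
        ((1 + ⟪g, p⟫ * ⟪g, q⟫) + (⟪g, p⟫ + ⟪g, q⟫)) := by
    funext g
    rw [← wt_mul]
    unfold chaosineq_chi
    ring
  have i1 := (integrable_wt (p + q)).const_mul (Real.exp ⟪p, q⟫)
  have i2 : Integrable (fun g => Real.exp ⟪p, q⟫ * wt (p + q) g - wt p g) (stdGaussian (E d)) :=
    i1.sub (integrable_wt p)
  have i3 : Integrable (fun g => Real.exp ⟪p, q⟫ * wt (p + q) g - wt p g - wt q g)
      (stdGaussian (E d)) := i2.sub (integrable_wt q)
  have i4 : Integrable (fun g => wt p g * ⟪g, q⟫ + wt q g * ⟪g, p⟫) (stdGaussian (E d)) :=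
    (integrable_wt_inner p q).add (integrable_wt_inner q p)
  have i5 : Integrable (fun g : E d => 1 + ⟪g, p⟫ * ⟪g, q⟫) (stdGaussian (E d)) :=
    (integrable_const 1).add (integrable_inner_mul p q)
  have i6 : Integrable (fun g : E d => ⟪g, p⟫ + ⟪g, q⟫) (stdGaussian (E d)) :=
    (integrable_inner p).add (integrable_inner q)
  have i7 : Integrable (fun g => (Real.exp ⟪p, q⟫ * wt (p + q) g - wt p g - wt q g) -
      (wt p g * ⟪g, q⟫ + wt q g * ⟪g, p⟫)) (stdGaussian (E d)) := i3.sub i4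
  have i8 : Integrable (fun g : E d => (1 + ⟪g, p⟫ * ⟪g, q⟫) + (⟪g, p⟫ + ⟪g, q⟫))
      (stdGaussian (E d)) := i5.add i6
  rw [e]
  refine ⟨i7.add i8, ?_⟩
  rw [integral_add i7 i8, integral_sub i3 i4, integral_add i5 i6, integral_sub i2 (integrable_wt q),
    integral_sub i1 (integrable_wt p),
    integral_add (integrable_wt_inner p q) (integrable_wt_inner q p),
    integral_add (integrable_const 1) (integrable_inner_mul p q),
    integral_add (integrable_inner p) (integrable_inner q), integral_const_mul, integral_wt,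
    integral_wt, integral_wt, integral_wt_inner, integral_wt_inner, integral_inner_mul,
    integral_inner_zero, integral_inner_zero, real_inner_comm p q]
  simp only [integral_const, probReal_univ, smul_eq_mul]
  ring

theorem chaosineq_mu_inner (Φ : α → E d) (A : Finset α) (y v : E d) :
    ⟪chaosineq_mu Φ A y, v⟫ = (∑ a ∈ A, wt (Φ a) y * ⟪Φ a, v⟫) / Zf Φ A y := by
  unfold chaosineq_mu
  rw [real_inner_smul_left, sum_inner, div_eq_inv_mul]
  simp only [real_inner_smul_left]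

theorem chaosineq_mu_cont (Φ : α → E d) {A : Finset α} (hA : A.Nonempty) (v : E d) :
    Continuous fun y => ⟪chaosineq_mu Φ A y, v⟫ := by
  simp only [chaosineq_mu_inner]
  refine Continuous.div ?_ (continuous_Zf Φ A) fun y => (Zf_pos Φ hA y).ne'
  exact continuous_finsetSum _ fun a _ => (continuous_wt _).mul continuous_const

theorem chaosineq_mu_abs (Φ : α → E d) {A : Finset α} (hA : A.Nonempty) {v : E d}
    (hv : ∀ a ∈ A, |⟪Φ a, v⟫| ≤ 1) (y : E d) : |⟪chaosineq_mu Φ A y, v⟫| ≤ 1 := by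
  have hZ := Zf_pos Φ hA y
  rw [chaosineq_mu_inner, abs_div, abs_of_pos hZ, div_le_one hZ]
  refine (Finset.abs_sum_le_sum_abs _ _).trans (Finset.sum_le_sum fun a ha => ?_)
  rw [abs_mul, abs_of_pos (wt_pos _ _)]
  exact mul_le_of_le_one_right (wt_pos _ _).le (hv a ha)

theorem chaosineq_mu_norm (Φ : α → E d) {A : Finset α} (hA : A.Nonempty) {R : ℝ}
    (hR : ∀ a ∈ A, ‖Φ a‖ ^ 2 ≤ R) (y : E d) : ‖chaosineq_mu Φ A y‖ ^ 2 ≤ R := by
  have hZ := Zf_pos Φ hA y
  have hR0 : 0 ≤ R := by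
    obtain ⟨a, ha⟩ := hA
    exact (sq_nonneg _).trans (hR a ha)
  have h : ‖chaosineq_mu Φ A y‖ ≤ √R := by
    unfold chaosineq_mu
    rw [norm_smul, Real.norm_eq_abs, abs_of_pos (inv_pos.2 hZ), inv_mul_le_iff₀ hZ]
    refine (norm_sum_le _ _).trans ?_
    unfold Zf
    rw [Finset.sum_mul]
    refine Finset.sum_le_sum fun a ha => ?_
    rw [norm_smul, Real.norm_eq_abs, abs_of_pos (wt_pos _ _)]
    exact mul_le_mul_of_nonneg_left (Real.le_sqrt_of_sq_le (hR a ha)) (wt_pos _ _).le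
  calc _ ≤ √R ^ 2 := pow_le_pow_left₀ (norm_nonneg _) h 2
    _ = R := Real.sq_sqrt hR0

theorem chaosineq_one (Φ : α → E d) {A : Finset α} (hA : A.Nonempty) {v p : E d}
    (hv : ∀ a ∈ A, |⟪Φ a, v⟫| ≤ 1) (h : 3 ≤ Sig Φ A v p) :
    Integrable (fun y => ∑ a ∈ A, ⟪chaosineq_mu Φ A y, v⟫ *
        (wt (Φ a) y * chaosineq_chi p (y - Φ a))) (stdGaussian (E d)) ∧
      ∫ y, ∑ a ∈ A, ⟪chaosineq_mu Φ A y, v⟫ * (wt (Φ a) y * chaosineq_chi p (y - Φ a))
        ∂stdGaussian (E d) ≤ -A.card := by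
  have hb : ∀ {f : E d → ℝ}, Integrable f (stdGaussian (E d)) →
      Integrable (fun y => ⟪chaosineq_mu Φ A y, v⟫ * f y) (stdGaussian (E d)) := fun hf =>
    hf.bdd_mul (c := 1) (chaosineq_mu_cont Φ hA v).aestronglyMeasurable
      (Filter.Eventually.of_forall fun y => chaosineq_mu_abs Φ hA hv y)
  have i1 : ∀ a, Integrable (fun y => wt (Φ a) y * wt p (y - Φ a)) (stdGaussian (E d)) := fun a =>
    cm_integrable (Φ a) (integrable_wt p)
  have i3 : ∀ a, Integrable (fun y => wt (Φ a) y * ⟪y - Φ a, p⟫) (stdGaussian (E d)) := fun a =>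
    cm_integrable (Φ a) (ψ := fun g => ⟪g, p⟫) (integrable_inner p)
  have e1 : ∀ a, ∫ y, wt (Φ a) y * wt p (y - Φ a) ∂stdGaussian (E d) = 1 := fun a => by
    rw [cm (Φ a) (wt p), integral_wt]
  have e3 : ∀ a, ∫ y, wt (Φ a) y * ⟪y - Φ a, p⟫ ∂stdGaussian (E d) = 0 := fun a => by
    rw [cm (Φ a) (fun g => ⟪g, p⟫), integral_inner_zero]
  have ichi : Integrable (chaosineq_chi p) (stdGaussian (E d)) :=
    ((integrable_wt p).sub (integrable_const 1)).sub (integrable_inner p)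
  have I0 : Integrable (fun y => ∑ a ∈ A, ⟪chaosineq_mu Φ A y, v⟫ *
      (wt (Φ a) y * chaosineq_chi p (y - Φ a))) (stdGaussian (E d)) :=
    integrable_finsetSum _ fun a _ => hb (cm_integrable (Φ a) ichi)
  have I3 : Integrable (fun y => ∑ a ∈ A, ⟪chaosineq_mu Φ A y, v⟫ *
      (wt (Φ a) y * ⟪y - Φ a, p⟫)) (stdGaussian (E d)) :=
    integrable_finsetSum _ fun a _ => hb (i3 a)
  have I4 : Integrable (fun y => ∑ a ∈ A, ⟪Φ a, v⟫ * (wt (Φ a) y * ⟪y - Φ a, p⟫))
      (stdGaussian (E d)) := integrable_finsetSum _ fun a _ => (i3 a).const_mul _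
  have I1 : Integrable (fun y => ∑ a ∈ A, (wt (Φ a) y * wt p (y - Φ a) + wt (Φ a) y))
      (stdGaussian (E d)) := integrable_finsetSum _ fun a _ => (i1 a).add (integrable_wt _)
  have hn : (0 : ℝ) < A.card := by exact_mod_cast hA.card_pos
  have hS : A.card * Sig Φ A v p = ∫ y, ∑ a ∈ A, ⟪chaosineq_mu Φ A y, v⟫ *
      (wt (Φ a) y * ⟪y - Φ a, p⟫) ∂stdGaussian (E d) := by
    have z : ∫ y, ∑ a ∈ A, ⟪Φ a, v⟫ * (wt (Φ a) y * ⟪y - Φ a, p⟫) ∂stdGaussian (E d) = 0 := by
      rw [integral_finsetSum _ fun a _ => (i3 a).const_mul _]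
      refine Finset.sum_eq_zero fun a _ => ?_
      rw [integral_const_mul, e3, mul_zero]
    unfold Sig
    rw [← mul_assoc, mul_inv_cancel₀ hn.ne', one_mul, ← sub_zero (∫ y, ∑ a ∈ A,
      ⟪chaosineq_mu Φ A y, v⟫ * (wt (Φ a) y * ⟪y - Φ a, p⟫) ∂stdGaussian (E d)), ← z,
      ← integral_sub I3 I4]
    refine integral_congr_ae (Filter.Eventually.of_forall fun y => ?_)
    have hZ := Zf_pos Φ hA y
    have a1 : ∑ a ∈ A, ⟪chaosineq_mu Φ A y, v⟫ * (wt (Φ a) y * ⟪y - Φ a, p⟫) =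
        ⟪chaosineq_mu Φ A y, v⟫ * (Zf Φ A y * ⟪y, p⟫ - ∑ a ∈ A, wt (Φ a) y * ⟪Φ a, p⟫) := by
      unfold Zf
      rw [← Finset.mul_sum, Finset.sum_mul, ← Finset.sum_sub_distrib]
      congr 1
      refine Finset.sum_congr rfl fun a _ => ?_
      rw [inner_sub_left]; ring
    have a2 : ∑ a ∈ A, ⟪Φ a, v⟫ * (wt (Φ a) y * ⟪y - Φ a, p⟫) =
        (∑ a ∈ A, wt (Φ a) y * ⟪Φ a, v⟫) * ⟪y, p⟫ -
          ∑ a ∈ A, wt (Φ a) y * (⟪Φ a, v⟫ * ⟪Φ a, p⟫) := by
      rw [Finset.sum_mul, ← Finset.sum_sub_distrib]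
      refine Finset.sum_congr rfl fun a _ => ?_
      rw [inner_sub_left]; ring
    simp only
    rw [a1, a2, chaosineq_mu_inner]
    field_simp
    ring
  refine ⟨I0, ?_⟩
  have hle : ∫ y, ∑ a ∈ A, ⟪chaosineq_mu Φ A y, v⟫ * (wt (Φ a) y * chaosineq_chi p (y - Φ a))
      ∂stdGaussian (E d) ≤ ∫ y, (∑ a ∈ A, (wt (Φ a) y * wt p (y - Φ a) + wt (Φ a) y) -
        ∑ a ∈ A, ⟪chaosineq_mu Φ A y, v⟫ * (wt (Φ a) y * ⟪y - Φ a, p⟫)) ∂stdGaussian (E d) := by
    refine integral_mono I0 (I1.sub I3) fun y => ?_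
    simp only
    rw [← Finset.sum_sub_distrib]
    refine Finset.sum_le_sum fun a _ => ?_
    have hm := abs_le.1 (chaosineq_mu_abs Φ hA hv y)
    have w1 := wt_pos (Φ a) y
    have w2 := mul_pos w1 (wt_pos p (y - Φ a))
    have b1 := mul_le_mul_of_nonneg_right hm.2 w2.le
    have b2 := mul_le_mul_of_nonneg_right hm.1 w1.le
    unfold chaosineq_chi
    linarith
  have i2 : ∀ a, Integrable (fun y => wt (Φ a) y * wt p (y - Φ a) + wt (Φ a) y)
      (stdGaussian (E d)) := fun a => (i1 a).add (integrable_wt _)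
  rw [integral_sub I1 I3, ← hS, integral_finsetSum _ fun a _ => i2 a] at hle
  have e2 : ∑ a ∈ A, ∫ y, (wt (Φ a) y * wt p (y - Φ a) + wt (Φ a) y) ∂stdGaussian (E d) =
      2 * A.card := by
    rw [Finset.sum_congr rfl (g := fun _ => (2 : ℝ)) fun a _ => by
      rw [integral_add (i1 a) (integrable_wt _), e1, integral_wt]; norm_num]
    simp [mul_comm]
  have := mul_le_mul_of_nonneg_left h hn.le
  linarith [e2]

theorem chaosineq_main {ι : Type*} (Φ : α → E d) {A : Finset α} (hA : A.Nonempty) (S : Finset ι)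
    (v p : ι → E d) {R t : ℝ} (ht : 0 < t) (hR : ∀ a ∈ A, ‖Φ a‖ ^ 2 ≤ R)
    (hv : ∀ j ∈ S, ∀ a ∈ A, |⟪Φ a, v j⟫| ≤ 1) (hT : ∀ j ∈ S, 3 ≤ Sig Φ A (v j) (p j)) :
    2 * (S.card : ℝ) ≤ t * R + (∑ j ∈ S, ∑ k ∈ S, ⟪v j, v k⟫ *
      (Real.exp ⟪p j, p k⟫ - 1 - ⟪p j, p k⟫)) / t := by
  have hn : (0 : ℝ) < A.card := by exact_mod_cast hA.card_pos
  set X : E d → E d := fun g => ∑ j ∈ S, chaosineq_chi (p j) g • v j with hX
  have eX : ∀ g, ‖X g‖ ^ 2 = ∑ j ∈ S, ∑ k ∈ S, ⟪v j, v k⟫ *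
      (chaosineq_chi (p j) g * chaosineq_chi (p k) g) := by
    intro g
    rw [← real_inner_self_eq_norm_sq, hX]
    simp only [sum_inner, inner_sum, real_inner_smul_left, real_inner_smul_right]
    rw [Finset.sum_comm]
    refine Finset.sum_congr rfl fun j _ => Finset.sum_congr rfl fun k _ => ?_
    ring
  have iX : Integrable (fun g => ‖X g‖ ^ 2) (stdGaussian (E d)) := by
    simp only [eX]
    exact integrable_finsetSum _ fun j _ => integrable_finsetSum _ fun k _ =>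
      (chaosineq_chi_mul _ _).1.const_mul _
  have qX : ∫ g, ‖X g‖ ^ 2 ∂stdGaussian (E d) = ∑ j ∈ S, ∑ k ∈ S, ⟪v j, v k⟫ *
      (Real.exp ⟪p j, p k⟫ - 1 - ⟪p j, p k⟫) := by
    simp only [eX]
    rw [integral_finsetSum _ fun j _ => integrable_finsetSum _ fun k _ =>
      (chaosineq_chi_mul _ _).1.const_mul _]
    refine Finset.sum_congr rfl fun j _ => ?_
    rw [integral_finsetSum _ fun k _ => (chaosineq_chi_mul _ _).1.const_mul _]
    refine Finset.sum_congr rfl fun k _ => ?_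
    rw [integral_const_mul, (chaosineq_chi_mul _ _).2]
  rw [← qX]
  set ψ : E d → ℝ := fun g => (t * R + ‖X g‖ ^ 2 / t) / 2 with hψ
  have iψ : Integrable ψ (stdGaussian (E d)) :=
    ((integrable_const _).add (iX.div_const t)).div_const 2
  have qψ : ∫ g, ψ g ∂stdGaussian (E d) = (t * R + (∫ g, ‖X g‖ ^ 2 ∂stdGaussian (E d)) / t) / 2 := by
    rw [hψ]
    simp only
    rw [integral_div, integral_add (integrable_const _) (iX.div_const t), integral_div]
    simp
  have one := fun j hj => chaosineq_one Φ hA (hv j hj) (hT j hj)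
  have I1 : Integrable (fun y => ∑ j ∈ S, ∑ a ∈ A, ⟪chaosineq_mu Φ A y, v j⟫ *
      (wt (Φ a) y * chaosineq_chi (p j) (y - Φ a))) (stdGaussian (E d)) :=
    integrable_finsetSum _ fun j hj => (one j hj).1
  have I2 : Integrable (fun y => ∑ a ∈ A, wt (Φ a) y * ψ (y - Φ a)) (stdGaussian (E d)) :=
    integrable_finsetSum _ fun a _ => cm_integrable _ iψ
  have hle : ∫ y, -(∑ j ∈ S, ∑ a ∈ A, ⟪chaosineq_mu Φ A y, v j⟫ *
      (wt (Φ a) y * chaosineq_chi (p j) (y - Φ a))) ∂stdGaussian (E d) ≤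
      ∫ y, ∑ a ∈ A, wt (Φ a) y * ψ (y - Φ a) ∂stdGaussian (E d) := by
    refine integral_mono I1.neg I2 fun y => ?_
    simp only
    rw [Finset.sum_comm, ← Finset.sum_neg_distrib]
    refine Finset.sum_le_sum fun a _ => ?_
    have a1 : ∑ j ∈ S, ⟪chaosineq_mu Φ A y, v j⟫ * (wt (Φ a) y * chaosineq_chi (p j) (y - Φ a)) =
        wt (Φ a) y * ⟪chaosineq_mu Φ A y, X (y - Φ a)⟫ := by
      rw [hX]
      simp only [inner_sum, real_inner_smul_right]
      rw [Finset.mul_sum]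
      refine Finset.sum_congr rfl fun j _ => ?_
      ring
    rw [a1, ← mul_neg]
    refine mul_le_mul_of_nonneg_left ?_ (wt_pos _ _).le
    have b1 := chaosineq_mu_norm Φ hA hR y
    have b2 := (abs_le.1 (abs_real_inner_le_norm (chaosineq_mu Φ A y) (X (y - Φ a)))).1
    rw [hψ]
    simp only
    generalize ‖chaosineq_mu Φ A y‖ = r at *
    generalize ‖X (y - Φ a)‖ = s at *
    have b3 : 2 * (r * s) ≤ t * r ^ 2 + s ^ 2 / t := by
      have : 0 ≤ (t * r - s) ^ 2 / t := by positivity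
      have e : (t * r - s) ^ 2 / t = t * r ^ 2 + s ^ 2 / t - 2 * (r * s) := by
        field_simp
        ring
      linarith
    have b4 := mul_le_mul_of_nonneg_left b1 ht.le
    linarith
  rw [integral_neg, integral_finsetSum _ fun j hj => (one j hj).1,
    integral_finsetSum _ fun a _ => cm_integrable _ iψ] at hle
  simp only [cm, qψ, Finset.sum_const, nsmul_eq_mul] at hle
  have h2 := Finset.sum_le_sum fun j hj => (one j hj).2
  simp only [Finset.sum_const, nsmul_eq_mul] at h2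
  have h3 : A.card * (2 * (S.card : ℝ)) ≤
      A.card * (t * R + (∫ g, ‖X g‖ ^ 2 ∂stdGaussian (E d)) / t) := by linarith
  exact le_of_mul_le_mul_left h3 hn

theorem chaos_ineq {ι : Type*} (Φ : α → E d) {A : Finset α} (hA : A.Nonempty) (S : Finset ι)
    (v u : ι → E d) {R T : ℝ} (hR : ∀ a ∈ A, ‖Φ a‖ ^ 2 ≤ R)
    (hpm : ∀ j ∈ S, ∀ a ∈ A, ⟪Φ a, v j⟫ = 1 ∨ ⟪Φ a, v j⟫ = -1)
    (hT : ∀ j ∈ S, 3 ≤ T * Sig Φ A (v j) (u j)) :
    (S.card : ℝ) ^ 2 ≤ R * ∑ j ∈ S, ∑ k ∈ S, ⟪v j, v k⟫ *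
      (Real.exp (T ^ 2 * ⟪u j, u k⟫) - 1 - T ^ 2 * ⟪u j, u k⟫) := by
  rcases S.eq_empty_or_nonempty with rfl | hS
  · simp
  have hs : (0 : ℝ) < S.card := by exact_mod_cast hS.card_pos
  have hR0 : 0 < R := by
    obtain ⟨a, ha⟩ := hA
    obtain ⟨j, hj⟩ := hS
    have h0 : Φ a ≠ 0 := by
      intro h0
      have := hpm j hj a ha
      rw [h0, inner_zero_left] at this
      norm_num at this
    exact (pow_pos (norm_pos_iff.2 h0) 2).trans_le (hR a ha)
  have h := chaosineq_main Φ hA S v (fun j => T • u j) (div_pos hs hR0) hR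
    (fun j hj a ha => by rcases hpm j hj a ha with h | h <;> simp [h])
    (fun j hj => by rw [sig_symm, sig_smul_left, sig_symm]; exact hT j hj)
  have e : ∀ j k, ⟪T • u j, T • u k⟫ = T ^ 2 * ⟪u j, u k⟫ := fun j k => by
    rw [real_inner_smul_left, real_inner_smul_right]; ring
  simp only [e] at h
  generalize (∑ j ∈ S, ∑ k ∈ S, ⟪v j, v k⟫ *
      (Real.exp (T ^ 2 * ⟪u j, u k⟫) - 1 - T ^ 2 * ⟪u j, u k⟫)) = Q at h ⊢
  have e1 : (S.card : ℝ) / R * R = S.card := div_mul_cancel₀ _ hR0.ne'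
  have e2 : Q / ((S.card : ℝ) / R) = R * Q / S.card := by field_simp
  rw [e1, e2] at h
  have h' : (S.card : ℝ) ≤ R * Q / S.card := by linarith
  rw [le_div_iff₀ hs] at h'
  rw [sq]
  exact h'

end Pool.Agent.MP_fcb590_an.Q2

end

end
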