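import Pool.Agent.MP_fcb590_an.Mg.Q2_Channel

-- part MP_fcb590_an.Q2.Degree
section

section
/-!
Deconvolution: the average of many nearly uncorrelated sign coordinates is determined by the channel.
`subfamily`: maximise norm (mean S')^2 + tau log card S' over nonempty S' inside S. Given z put X j = inner z (v j - mean),
split S' into X > 0 and X <= 0 (if a part is empty all X vanish, since they sum to zero). With proportions p, q and means
m1, m2: p |m1|^2 + q |m2|^2 = |mean|^2 + p |m1 - mean|^2 + q |m2 - mean|^2, maximality gives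
p |m1 - mean|^2 + q |m2 - mean|^2 <= tau (p log (1/p) + q log (1/q)) <= tau, and
inner z (m1 - mean) = a / (2 p), inner z (m2 - mean) = - a / (2 q) with a the average of |X j|; a^2 <= a^2 / (4 p q).
`estimator`: u j = v j - e. With c j = exp (pi^2 norm (u j)^2 / 2) put
Gc y = - average of c j cos (pi inner y (u j)), Gs y = average of c j sin (pi inner y (u j)). For y = Phi a + g and
M = inner (Phi a) e, pi inner y (u j) = pi inner g (u j) + pi (f j) - pi M with f j = 1 or -1, so with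
P g = average c j cos (pi inner g (u j)), Q g = average c j sin (pi inner g (u j)):
(Gc y - cos (pi M))^2 + (Gs y - sin (pi M))^2 = (P g - 1)^2 + (Q g)^2 (a rotation), whose Gaussian integral is
average over j, k of exp (pi^2 inner (u j) (u k)) - 1 (`integral_cos_inner`, cos a cos b + sin a sin b = cos (a - b)).
Bound exp x - 1 <= |x| exp |x|, |inner (u j) (u k)| <= 4 L. Use `cm`.
`sig_le_of_estimator`: for |M|, |M'| <= 1: (M - M')^2 <= ((cos pi M - cos pi M')^2 + (sin pi M - sin pi M')^2) / delta^2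
+ 4 * indicator (|M| > 1 - delta), from 4 sin^2 (pi x / 2) >= delta^2 x^2 for 0 <= x <= 2 - delta (`Real.mul_le_sin`);
then `sig_pair`, (s - t)^2 <= 2 (s - G)^2 + 2 (t - G)^2 and sum_b w_b / Z = 1.
`ambiguity`: for a with |M a| > 1 - delta fewer than card S * delta / 2 of the f j a differ from the sign of M a.
Let bad j count such a; at least half of the j have bad j <= delta * card B; take rho of them.
-/

set_option autoImplicit false

open scoped RealInnerProductSpace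

namespace Pool.Agent.MP_fcb590_an.Q2

open MeasureTheory ProbabilityTheory

variable {d : ℕ} {α ι : Type*}

theorem deconva_part {U : Finset ι} {v : ι → E d} {μ : E d} {τ n : ℝ} (hτ : 0 < τ) (hn : 0 < n)
    (h : ‖(U.card : ℝ)⁻¹ • ∑ k ∈ U, v k‖ ^ 2 + τ * Real.log U.card ≤ ‖μ‖ ^ 2 + τ * Real.log n)
    (hU : U.Nonempty) :
    2 * ⟪μ, ∑ k ∈ U, (v k - μ)⟫ + ‖∑ k ∈ U, (v k - μ)‖ ^ 2 / U.card ≤ τ * (n - U.card) := by
  have ha : (0 : ℝ) < U.card := by exact_mod_cast hU.card_pos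
  have e : (U.card : ℝ)⁻¹ • ∑ k ∈ U, v k = μ + (U.card : ℝ)⁻¹ • ∑ k ∈ U, (v k - μ) := by
    rw [Finset.sum_sub_distrib, Finset.sum_const, ← Nat.cast_smul_eq_nsmul ℝ, smul_sub, smul_smul,
      inv_mul_cancel₀ ha.ne', one_smul, add_sub_cancel]
  rw [e, norm_add_sq_real, real_inner_smul_right, norm_smul, norm_inv, Real.norm_of_nonneg ha.le]
    at h
  have h1 := Real.log_le_sub_one_of_pos (div_pos hn ha)
  rw [Real.log_div hn.ne' ha.ne'] at h1
  generalize ⟪μ, ∑ k ∈ U, (v k - μ)⟫ = x at h ⊢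
  generalize ‖∑ k ∈ U, (v k - μ)‖ = y at h ⊢
  have h2 : 2 * ((U.card : ℝ)⁻¹ * x) + ((U.card : ℝ)⁻¹ * y) ^ 2 ≤ τ * (n / U.card - 1) := by
    linarith [mul_le_mul_of_nonneg_left h1 hτ.le]
  have h3 := mul_le_mul_of_nonneg_left h2 ha.le
  calc 2 * x + y ^ 2 / U.card
      = U.card * (2 * ((U.card : ℝ)⁻¹ * x) + ((U.card : ℝ)⁻¹ * y) ^ 2) := by field_simp
    _ ≤ _ := h3
    _ = _ := by field_simp

theorem subfamily (S : Finset ι) (hS : S.Nonempty) (v : ι → E d) {L τ : ℝ} (hτ : 0 < τ)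
    (hL : ∀ j ∈ S, ‖v j‖ ^ 2 ≤ L) :
    ∃ S' ⊆ S, S'.Nonempty ∧ (S.card : ℝ) ≤ S'.card * Real.exp (L / τ) ∧ ∀ z : E d,
      (S'.card : ℝ)⁻¹ * ∑ j ∈ S', |⟪z, v j - (S'.card : ℝ)⁻¹ • ∑ k ∈ S', v k⟫| ≤ ‖z‖ * √τ := by
  classical
  obtain ⟨T, hT, hmax⟩ := (S.powerset.filter fun T => T.Nonempty).exists_max_image
    (fun T => ‖(T.card : ℝ)⁻¹ • ∑ k ∈ T, v k‖ ^ 2 + τ * Real.log T.card)
    ⟨S, by simpa using hS⟩
  obtain ⟨hTS, hTn⟩ := Finset.mem_filter.1 hT
  rw [Finset.mem_powerset] at hTS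
  have hmax' : ∀ U ⊆ S, U.Nonempty → ‖(U.card : ℝ)⁻¹ • ∑ k ∈ U, v k‖ ^ 2 + τ * Real.log U.card
      ≤ ‖(T.card : ℝ)⁻¹ • ∑ k ∈ T, v k‖ ^ 2 + τ * Real.log T.card := fun U h1 h2 =>
    hmax U (Finset.mem_filter.2 ⟨Finset.mem_powerset.2 h1, h2⟩)
  have hn : (0 : ℝ) < T.card := by exact_mod_cast hTn.card_pos
  set μ : E d := (T.card : ℝ)⁻¹ • ∑ k ∈ T, v k with hμ
  refine ⟨T, hTS, hTn, ?_, fun z => ?_⟩
  · have hS0 : (0 : ℝ) < S.card := by exact_mod_cast hS.card_pos
    obtain ⟨j0, hj0⟩ := id hS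
    have hL0 : 0 ≤ L := (sq_nonneg _).trans (hL j0 hj0)
    have h1 : ‖μ‖ ≤ √L := by
      rw [hμ, norm_smul, norm_inv, Real.norm_of_nonneg hn.le, inv_mul_le_iff₀ hn]
      refine (norm_sum_le _ _).trans ((Finset.sum_le_card_nsmul _ _ _ fun k hk =>
        Real.le_sqrt_of_sq_le (hL k (hTS hk))).trans (nsmul_eq_mul _ _).le)
    have h2 : ‖μ‖ ^ 2 ≤ L := (pow_le_pow_left₀ (norm_nonneg _) h1 2).trans (Real.sq_sqrt hL0).le
    have h3 := hmax' S subset_rfl hS
    have h4 : Real.log S.card ≤ Real.log T.card + L / τ := by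
      rw [← sub_le_iff_le_add', le_div_iff₀ hτ]
      nlinarith [sq_nonneg ‖(S.card : ℝ)⁻¹ • ∑ k ∈ S, v k‖]
    have h5 := Real.exp_le_exp.2 h4
    rwa [Real.exp_add, Real.exp_log hS0, Real.exp_log hn] at h5
  · set A := T.filter fun j => 0 < ⟪z, v j - μ⟫ with hA
    set B := T.filter fun j => ¬0 < ⟪z, v j - μ⟫ with hB
    set w : E d := ∑ j ∈ A, (v j - μ) with hw
    have hsum : ∑ j ∈ T, (v j - μ) = 0 := by
      rw [Finset.sum_sub_distrib, Finset.sum_const, ← Nat.cast_smul_eq_nsmul ℝ, hμ, smul_smul,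
        mul_inv_cancel₀ hn.ne', one_smul, sub_self]
    have hwB : ∑ j ∈ B, (v j - μ) = -w := by
      rw [eq_neg_iff_add_eq_zero, add_comm, hw, Finset.sum_filter_add_sum_filter_not, hsum]
    have habs : ∑ j ∈ T, |⟪z, v j - μ⟫| = 2 * ⟪z, w⟫ := by
      rw [← Finset.sum_filter_add_sum_filter_not T fun j => 0 < ⟪z, v j - μ⟫,
        Finset.sum_congr rfl fun j hj => abs_of_pos (Finset.mem_filter.1 hj).2,
        Finset.sum_congr (s₁ := B) rfl fun j hj =>
          abs_of_nonpos (not_lt.1 (Finset.mem_filter.1 hj).2),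
        Finset.sum_neg_distrib, ← inner_sum, ← inner_sum, hwB, inner_neg_right]
      ring
    have hw2 : 2 * ‖w‖ ≤ T.card * √τ := by
      rcases A.eq_empty_or_nonempty with e | hA0
      · rw [hw, e, Finset.sum_empty, norm_zero, mul_zero]
        positivity
      rcases B.eq_empty_or_nonempty with e | hB0
      · rw [e, Finset.sum_empty, eq_comm, neg_eq_zero] at hwB
        rw [hwB, norm_zero, mul_zero]
        positivity
      have hab : (A.card : ℝ) + B.card = T.card := by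
        exact_mod_cast Finset.card_filter_add_card_filter_not _
      have h1 := deconva_part hτ hn (hmax' A ((Finset.filter_subset _ _).trans hTS) hA0) hA0
      have h2 := deconva_part hτ hn (hmax' B ((Finset.filter_subset _ _).trans hTS) hB0) hB0
      rw [hwB, inner_neg_right, norm_neg] at h2
      rw [← hw] at h1
      have ha : (0 : ℝ) < A.card := by exact_mod_cast hA0.card_pos
      have hb : (0 : ℝ) < B.card := by exact_mod_cast hB0.card_pos
      have h3 : ‖w‖ ^ 2 / A.card + ‖w‖ ^ 2 / B.card ≤ τ * (A.card + B.card) := by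
        rw [← hab] at h1 h2
        linarith
      rw [div_add_div _ _ ha.ne' hb.ne', div_le_iff₀ (mul_pos ha hb)] at h3
      have h4 : ‖w‖ ^ 2 ≤ τ * (A.card * B.card) :=
        le_of_mul_le_mul_right (a := (A.card : ℝ) + B.card) (by linarith) (add_pos ha hb)
      refine (sq_le_sq₀ (by positivity) (by positivity)).1 ?_
      rw [mul_pow, mul_pow, Real.sq_sqrt hτ.le, ← hab]
      nlinarith [mul_nonneg hτ.le (sq_nonneg ((A.card : ℝ) - B.card))]
    rw [habs, inv_mul_le_iff₀ hn]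
    have := real_inner_le_norm z w
    nlinarith [mul_le_mul_of_nonneg_left hw2 (norm_nonneg z)]

open Classical in
theorem ambiguity (A : Finset α) (S : Finset ι) (f : ι → α → ℝ)
    (hpm : ∀ j ∈ S, ∀ a ∈ A, f j a = 1 ∨ f j a = -1) {ρ : ℕ} (hρ1 : 1 ≤ ρ) (hρ : 2 * ρ ≤ S.card)
    {δ : ℝ} (hδ : 0 < δ) (hρδ : ρ * δ ≤ 1 / 2) :
    ∃ J ⊆ S, J.card = ρ ∧
      (A.filter fun a => 1 - δ < |(S.card : ℝ)⁻¹ * ∑ j ∈ S, f j a|).card ≤
        2 * (A.filter fun a => ∀ j ∈ J, ∀ j' ∈ J, f j a = f j' a).card := by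
  set B := A.filter fun a => 1 - δ < |(S.card : ℝ)⁻¹ * ∑ j ∈ S, f j a| with hB
  rcases B.eq_empty_or_nonempty with e | hB0
  · obtain ⟨J, hJ, hc⟩ := Finset.exists_subset_card_eq (s := S) (n := ρ) (by omega)
    exact ⟨J, hJ, hc, by simp [e]⟩
  have hn : (0 : ℝ) < S.card := by exact_mod_cast (by omega : 0 < S.card)
  have hb : (0 : ℝ) < B.card := by exact_mod_cast hB0.card_pos
  have hsgn : ∀ a, ∃ s : ℝ, a ∈ B → ((S.filter fun j => f j a ≠ s).card : ℝ) ≤ S.card * δ / 2 := by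
    intro a
    obtain ⟨s, hs, hs'⟩ : ∃ s : ℝ, (s = 1 ∨ s = -1) ∧ |∑ j ∈ S, f j a| = s * ∑ j ∈ S, f j a := by
      rcases le_total 0 (∑ j ∈ S, f j a) with h | h
      · exact ⟨1, Or.inl rfl, by rw [abs_of_nonneg h, one_mul]⟩
      · exact ⟨-1, Or.inr rfl, by rw [abs_of_nonpos h, neg_one_mul]⟩
    refine ⟨s, fun ha => ?_⟩
    obtain ⟨haA, h1⟩ := Finset.mem_filter.1 ha
    rw [abs_mul, abs_of_pos (inv_pos.2 hn), lt_inv_mul_iff₀ hn, hs', Finset.mul_sum] at h1
    have h2 : ∑ j ∈ S, s * f j a = ∑ j ∈ S, (1 - 2 * if f j a ≠ s then (1 : ℝ) else 0) := by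
      refine Finset.sum_congr rfl fun j hj => ?_
      rcases hs with rfl | rfl <;> rcases hpm j hj a haA with e | e <;> rw [e] <;> norm_num
    rw [h2, Finset.sum_sub_distrib, ← Finset.mul_sum, Finset.sum_boole, Finset.sum_const,
      nsmul_eq_mul] at h1
    linarith
  choose s hs using hsgn
  set bad : ι → ℕ := fun j => (B.filter fun a => f j a ≠ s a).card with hbad
  have htot : ∑ j ∈ S, (bad j : ℝ) ≤ B.card * (S.card * δ / 2) := by
    have e : ∑ j ∈ S, bad j = ∑ a ∈ B, (S.filter fun j => f j a ≠ s a).card := by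
      simp only [hbad, Finset.card_filter]
      exact Finset.sum_comm
    rw [← Nat.cast_sum, e, Nat.cast_sum, ← nsmul_eq_mul]
    exact Finset.sum_le_card_nsmul _ _ _ hs
  set G := S.filter fun j => (bad j : ℝ) ≤ δ * B.card with hG
  have hGc : ρ ≤ G.card := by
    have h1 : (G.card : ℝ) + (S.filter fun j => ¬(bad j : ℝ) ≤ δ * B.card).card = S.card := by
      exact_mod_cast Finset.card_filter_add_card_filter_not _
    have h2 := (Finset.card_nsmul_le_sum (S.filter fun j => ¬(bad j : ℝ) ≤ δ * B.card)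
      (fun j => (bad j : ℝ)) (δ * B.card) fun j hj =>
        (not_le.1 (Finset.mem_filter.1 hj).2).le).trans
      ((Finset.sum_le_sum_of_subset_of_nonneg (Finset.filter_subset _ _)
        fun _ _ _ => Nat.cast_nonneg _).trans htot)
    rw [nsmul_eq_mul] at h2
    have h3 : ((S.filter fun j => ¬(bad j : ℝ) ≤ δ * B.card).card : ℝ) ≤ S.card / 2 :=
      le_of_mul_le_mul_right (a := δ * B.card) (by linarith) (mul_pos hδ hb)
    have h4 : (2 : ℝ) * ρ ≤ S.card := by exact_mod_cast hρ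
    exact_mod_cast (show (ρ : ℝ) ≤ G.card by linarith)
  obtain ⟨J, hJ, hc⟩ := Finset.exists_subset_card_eq hGc
  refine ⟨J, hJ.trans (Finset.filter_subset _ _), hc, ?_⟩
  have h1 : B ⊆ (J.biUnion fun j => B.filter fun a => f j a ≠ s a)
      ∪ A.filter fun a => ∀ j ∈ J, ∀ j' ∈ J, f j a = f j' a := by
    intro a ha
    by_cases h : ∀ j ∈ J, f j a = s a
    · exact Finset.mem_union_right _ (Finset.mem_filter.2 ⟨(Finset.mem_filter.1 ha).1,
        fun j hj j' hj' => (h j hj).trans (h j' hj').symm⟩)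
    · push Not at h
      obtain ⟨j, hj, h⟩ := h
      exact Finset.mem_union_left _ (Finset.mem_biUnion.2 ⟨j, hj, Finset.mem_filter.2 ⟨ha, h⟩⟩)
  have h2 := (Finset.card_le_card h1).trans
    ((Finset.card_union_le _ _).trans (Nat.add_le_add_right Finset.card_biUnion_le _))
  have h3 : ∑ j ∈ J, (bad j : ℝ) ≤ ρ * (δ * B.card) := by
    rw [← hc, ← nsmul_eq_mul]
    exact Finset.sum_le_card_nsmul _ _ _ fun j hj => (Finset.mem_filter.1 (hJ hj)).2
  have h4 : (B.card : ℝ) ≤ ∑ j ∈ J, (bad j : ℝ)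
      + (A.filter fun a => ∀ j ∈ J, ∀ j' ∈ J, f j a = f j' a).card := by exact_mod_cast h2
  have h5 := mul_le_mul_of_nonneg_right hρδ hb.le
  exact_mod_cast (show (B.card : ℝ)
    ≤ 2 * (A.filter fun a => ∀ j ∈ J, ∀ j' ∈ J, f j a = f j' a).card by linarith)

end Pool.Agent.MP_fcb590_an.Q2

end

section
/-!
Deconvolution: the average of many nearly uncorrelated sign coordinates is determined by the channel.
`subfamily`: maximise norm (mean S')^2 + tau log card S' over nonempty S' inside S. Given z put X j = inner z (v j - mean),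
split S' into X > 0 and X <= 0 (if a part is empty all X vanish, since they sum to zero). With proportions p, q and means
m1, m2: p |m1|^2 + q |m2|^2 = |mean|^2 + p |m1 - mean|^2 + q |m2 - mean|^2, maximality gives
p |m1 - mean|^2 + q |m2 - mean|^2 <= tau (p log (1/p) + q log (1/q)) <= tau, and
inner z (m1 - mean) = a / (2 p), inner z (m2 - mean) = - a / (2 q) with a the average of |X j|; a^2 <= a^2 / (4 p q).
`estimator`: u j = v j - e. With c j = exp (pi^2 norm (u j)^2 / 2) put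
Gc y = - average of c j cos (pi inner y (u j)), Gs y = average of c j sin (pi inner y (u j)). For y = Phi a + g and
M = inner (Phi a) e, pi inner y (u j) = pi inner g (u j) + pi (f j) - pi M with f j = 1 or -1, so with
P g = average c j cos (pi inner g (u j)), Q g = average c j sin (pi inner g (u j)):
(Gc y - cos (pi M))^2 + (Gs y - sin (pi M))^2 = (P g - 1)^2 + (Q g)^2 (a rotation), whose Gaussian integral is
average over j, k of exp (pi^2 inner (u j) (u k)) - 1 (`integral_cos_inner`, cos a cos b + sin a sin b = cos (a - b)).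
Bound exp x - 1 <= |x| exp |x|, |inner (u j) (u k)| <= 4 L. Use `cm`.
`sig_le_of_estimator`: for |M|, |M'| <= 1: (M - M')^2 <= ((cos pi M - cos pi M')^2 + (sin pi M - sin pi M')^2) / delta^2
+ 4 * indicator (|M| > 1 - delta), from 4 sin^2 (pi x / 2) >= delta^2 x^2 for 0 <= x <= 2 - delta (`Real.mul_le_sin`);
then `sig_pair`, (s - t)^2 <= 2 (s - G)^2 + 2 (t - G)^2 and sum_b w_b / Z = 1.
`ambiguity`: for a with |M a| > 1 - delta fewer than card S * delta / 2 of the f j a differ from the sign of M a.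
Let bad j count such a; at least half of the j have bad j <= delta * card B; take rho of them.
-/

set_option autoImplicit false

open scoped RealInnerProductSpace

namespace Pool.Agent.MP_fcb590_an.Q2

open MeasureTheory ProbabilityTheory

variable {d : ℕ} {α ι : Type*}

theorem deconvb_cos_int (p : E d) :
    Integrable (fun g : E d => Real.cos ⟪g, p⟫) (stdGaussian (E d)) := by
  refine (integrable_const (1 : ℝ)).mono' (Continuous.aestronglyMeasurable (by fun_prop))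
    (Filter.Eventually.of_forall fun g => ?_)
  exact Real.abs_cos_le_one _

/-- the mean square error of the estimator -/
theorem deconvb_err (S : Finset ι) (hS : S.Nonempty) (p : ι → E d) :
    ∫ g, (((S.card : ℝ)⁻¹ * ∑ j ∈ S, Real.exp (‖p j‖ ^ 2 / 2) * Real.cos ⟪g, p j⟫ - 1) ^ 2 +
      ((S.card : ℝ)⁻¹ * ∑ j ∈ S, Real.exp (‖p j‖ ^ 2 / 2) * Real.sin ⟪g, p j⟫) ^ 2)
        ∂stdGaussian (E d) =
      (S.card : ℝ)⁻¹ * ∑ j ∈ S, (S.card : ℝ)⁻¹ * ∑ k ∈ S, (Real.exp ⟪p j, p k⟫ - 1) := by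
  have hs : (0 : ℝ) < S.card := by exact_mod_cast hS.card_pos
  have e : ∀ g : E d,
      (((S.card : ℝ)⁻¹ * ∑ j ∈ S, Real.exp (‖p j‖ ^ 2 / 2) * Real.cos ⟪g, p j⟫ - 1) ^ 2 +
      ((S.card : ℝ)⁻¹ * ∑ j ∈ S, Real.exp (‖p j‖ ^ 2 / 2) * Real.sin ⟪g, p j⟫) ^ 2) =
      (S.card : ℝ)⁻¹ ^ 2 * (∑ j ∈ S, ∑ k ∈ S, Real.exp (‖p j‖ ^ 2 / 2) * Real.exp (‖p k‖ ^ 2 / 2) *
        Real.cos ⟪g, p j - p k⟫) -
      2 * (S.card : ℝ)⁻¹ * (∑ j ∈ S, Real.exp (‖p j‖ ^ 2 / 2) * Real.cos ⟪g, p j⟫) + 1 := by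
    intro g
    have : ∑ j ∈ S, ∑ k ∈ S, Real.exp (‖p j‖ ^ 2 / 2) * Real.exp (‖p k‖ ^ 2 / 2) *
        Real.cos ⟪g, p j - p k⟫ =
        (∑ j ∈ S, Real.exp (‖p j‖ ^ 2 / 2) * Real.cos ⟪g, p j⟫) ^ 2 +
        (∑ j ∈ S, Real.exp (‖p j‖ ^ 2 / 2) * Real.sin ⟪g, p j⟫) ^ 2 := by
      rw [sq (∑ j ∈ S, _), sq (∑ j ∈ S, _), Finset.sum_mul_sum, Finset.sum_mul_sum,
        ← Finset.sum_add_distrib]
      refine Finset.sum_congr rfl fun j _ => ?_
      rw [← Finset.sum_add_distrib]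
      refine Finset.sum_congr rfl fun k _ => ?_
      rw [inner_sub_right, Real.cos_sub]; ring
    rw [this]; ring
  simp only [e]
  have i1 : ∀ j, Integrable (fun g : E d => ∑ k ∈ S, Real.exp (‖p j‖ ^ 2 / 2) *
      Real.exp (‖p k‖ ^ 2 / 2) * Real.cos ⟪g, p j - p k⟫) (stdGaussian (E d)) := fun j =>
    integrable_finsetSum _ fun k _ => (deconvb_cos_int _).const_mul _
  have i2 : Integrable (fun g : E d => (S.card : ℝ)⁻¹ ^ 2 * ∑ j ∈ S, ∑ k ∈ S,
      Real.exp (‖p j‖ ^ 2 / 2) * Real.exp (‖p k‖ ^ 2 / 2) * Real.cos ⟪g, p j - p k⟫)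
      (stdGaussian (E d)) := (integrable_finsetSum _ fun j _ => i1 j).const_mul _
  have i3 : Integrable (fun g : E d => 2 * (S.card : ℝ)⁻¹ *
      ∑ j ∈ S, Real.exp (‖p j‖ ^ 2 / 2) * Real.cos ⟪g, p j⟫) (stdGaussian (E d)) :=
    (integrable_finsetSum _ fun j _ => (deconvb_cos_int _).const_mul _).const_mul _
  have i4 : Integrable (fun g : E d => (S.card : ℝ)⁻¹ ^ 2 * (∑ j ∈ S, ∑ k ∈ S,
      Real.exp (‖p j‖ ^ 2 / 2) * Real.exp (‖p k‖ ^ 2 / 2) * Real.cos ⟪g, p j - p k⟫) -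
      2 * (S.card : ℝ)⁻¹ * ∑ j ∈ S, Real.exp (‖p j‖ ^ 2 / 2) * Real.cos ⟪g, p j⟫)
      (stdGaussian (E d)) := i2.sub i3
  rw [integral_add i4 (integrable_const _), integral_sub i2 i3, integral_const_mul,
    integral_const_mul, integral_finsetSum _ fun j _ => i1 j,
    integral_finsetSum _ fun j _ => (deconvb_cos_int _).const_mul _]
  have a1 : ∀ j, ∫ g : E d, ∑ k ∈ S, Real.exp (‖p j‖ ^ 2 / 2) * Real.exp (‖p k‖ ^ 2 / 2) *
      Real.cos ⟪g, p j - p k⟫ ∂stdGaussian (E d) = ∑ k ∈ S, Real.exp ⟪p j, p k⟫ := by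
    intro j
    rw [integral_finsetSum _ fun k _ => (deconvb_cos_int _).const_mul _]
    refine Finset.sum_congr rfl fun k _ => ?_
    rw [integral_const_mul, integral_cos_inner, ← Real.exp_add, ← Real.exp_add, norm_sub_sq_real]
    congr 1; ring
  have a2 : ∀ j, ∫ g : E d, Real.exp (‖p j‖ ^ 2 / 2) * Real.cos ⟪g, p j⟫ ∂stdGaussian (E d) = 1 := by
    intro j
    rw [integral_const_mul, integral_cos_inner, ← Real.exp_add, ← Real.exp_zero]
    congr 1; ring
  simp only [a1, a2, Finset.sum_sub_distrib, mul_sub, ← Finset.mul_sum, Finset.sum_const,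
    nsmul_eq_mul, mul_one, integral_const, probReal_univ, smul_eq_mul]
  field_simp
  ring

theorem deconvb_exp {x K : ℝ} (h : |x| ≤ K) : Real.exp x - 1 ≤ Real.exp K * |x| := by
  have h1 : Real.exp x * (1 - x) ≤ 1 := by
    have := Real.add_one_le_exp (-x)
    calc Real.exp x * (1 - x) ≤ Real.exp x * Real.exp (-x) :=
          mul_le_mul_of_nonneg_left (by linarith) (Real.exp_pos _).le
      _ = 1 := by rw [← Real.exp_add]; simp
  have h2 : Real.exp x * x ≤ Real.exp x * |x| :=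
    mul_le_mul_of_nonneg_left (le_abs_self _) (Real.exp_pos _).le
  have h3 : Real.exp x * |x| ≤ Real.exp K * |x| :=
    mul_le_mul_of_nonneg_right (Real.exp_le_exp.2 ((le_abs_self _).trans h)) (abs_nonneg _)
  linarith

theorem deconvb_abs (S : Finset ι) (c t : ι → ℝ) (hc : ∀ j, 0 ≤ c j) (ht : ∀ j, |t j| ≤ 1) :
    |(S.card : ℝ)⁻¹ * ∑ j ∈ S, c j * t j| ≤ (S.card : ℝ)⁻¹ * ∑ j ∈ S, c j := by
  rw [abs_mul, abs_of_nonneg (by positivity : (0 : ℝ) ≤ (S.card : ℝ)⁻¹)]
  refine mul_le_mul_of_nonneg_left ?_ (by positivity)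
  refine (Finset.abs_sum_le_sum_abs _ _).trans (Finset.sum_le_sum fun j _ => ?_)
  rw [abs_mul, abs_of_nonneg (hc j)]
  exact mul_le_of_le_one_right (hc j) (ht j)

theorem estimator (Φ : α → E d) (A : Finset α) (S : Finset ι) (hS : S.Nonempty) (v : ι → E d)
    {L σ : ℝ} (hL : ∀ j ∈ S, ‖v j‖ ^ 2 ≤ L)
    (hpm : ∀ j ∈ S, ∀ a ∈ A, ⟪Φ a, v j⟫ = 1 ∨ ⟪Φ a, v j⟫ = -1) {e : E d}
    (he : e = (S.card : ℝ)⁻¹ • ∑ k ∈ S, v k)
    (hσ : ∀ z : E d, (S.card : ℝ)⁻¹ * ∑ j ∈ S, |⟪z, v j - e⟫| ≤ ‖z‖ * σ) :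
    ∃ (Gc Gs : E d → ℝ) (B : ℝ), Continuous Gc ∧ Continuous Gs ∧ (∀ y, |Gc y| ≤ B ∧ |Gs y| ≤ B) ∧
      ∀ a ∈ A, ∫ y, wt (Φ a) y * ((Gc y - Real.cos (Real.pi * ⟪Φ a, e⟫)) ^ 2 +
        (Gs y - Real.sin (Real.pi * ⟪Φ a, e⟫)) ^ 2) ∂stdGaussian (E d) ≤
          Real.pi ^ 2 * Real.exp (Real.pi ^ 2 * (4 * L)) * (2 * √L * σ) := by
  have hs : (0 : ℝ) < S.card := by exact_mod_cast hS.card_pos
  set p : ι → E d := fun j => Real.pi • (v j - e) with hp
  refine ⟨fun y => -((S.card : ℝ)⁻¹ * ∑ j ∈ S, Real.exp (‖p j‖ ^ 2 / 2) * Real.cos ⟪y, p j⟫),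
    fun y => (S.card : ℝ)⁻¹ * ∑ j ∈ S, Real.exp (‖p j‖ ^ 2 / 2) * Real.sin ⟪y, p j⟫,
    (S.card : ℝ)⁻¹ * ∑ j ∈ S, Real.exp (‖p j‖ ^ 2 / 2), by fun_prop, by fun_prop,
    fun y => ⟨?_, ?_⟩, fun a ha => ?_⟩
  · rw [abs_neg]
    exact deconvb_abs S _ _ (fun j => (Real.exp_pos _).le) fun j => Real.abs_cos_le_one _
  · exact deconvb_abs S _ _ (fun j => (Real.exp_pos _).le) fun j => Real.abs_sin_le_one _
  set φ := Real.pi * ⟪Φ a, e⟫ with hφ
  have hang : ∀ j ∈ S, ∀ y : E d,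
      Real.cos ⟪y, p j⟫ = -(Real.cos ⟪y - Φ a, p j⟫ * Real.cos φ +
        Real.sin ⟪y - Φ a, p j⟫ * Real.sin φ) ∧
      Real.sin ⟪y, p j⟫ = -(Real.sin ⟪y - Φ a, p j⟫ * Real.cos φ -
        Real.cos ⟪y - Φ a, p j⟫ * Real.sin φ) := by
    intro j hj y
    have e1 : ⟪y, p j⟫ = (⟪y - Φ a, p j⟫ - φ) + Real.pi * ⟪Φ a, v j⟫ := by
      rw [inner_sub_left, hφ, hp]
      simp only [real_inner_smul_right, inner_sub_right]
      ring
    rw [← Real.cos_sub, ← Real.sin_sub, e1]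
    rcases hpm j hj a ha with h | h
    · rw [h, mul_one, Real.cos_add_pi, Real.sin_add_pi]
      exact ⟨rfl, rfl⟩
    · rw [h, mul_neg, mul_one, ← sub_eq_add_neg, Real.cos_sub_pi, Real.sin_sub_pi]
      exact ⟨rfl, rfl⟩
  have hcm := cm (Φ a) fun g =>
    (((S.card : ℝ)⁻¹ * ∑ j ∈ S, Real.exp (‖p j‖ ^ 2 / 2) * Real.cos ⟪g, p j⟫ - 1) ^ 2 +
      ((S.card : ℝ)⁻¹ * ∑ j ∈ S, Real.exp (‖p j‖ ^ 2 / 2) * Real.sin ⟪g, p j⟫) ^ 2)
  rw [deconvb_err S hS p] at hcm
  refine le_of_eq_of_le (Eq.trans ?_ hcm) ?_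
  · refine integral_congr_ae (Filter.Eventually.of_forall fun y => ?_)
    simp only
    congr 1
    have b1 : ∑ j ∈ S, Real.exp (‖p j‖ ^ 2 / 2) * Real.cos ⟪y, p j⟫ =
        -((∑ j ∈ S, Real.exp (‖p j‖ ^ 2 / 2) * Real.cos ⟪y - Φ a, p j⟫) * Real.cos φ +
          (∑ j ∈ S, Real.exp (‖p j‖ ^ 2 / 2) * Real.sin ⟪y - Φ a, p j⟫) * Real.sin φ) := by
      rw [Finset.sum_mul, Finset.sum_mul, ← Finset.sum_add_distrib, ← Finset.sum_neg_distrib]
      refine Finset.sum_congr rfl fun j hj => ?_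
      rw [(hang j hj y).1]; ring
    have b2 : ∑ j ∈ S, Real.exp (‖p j‖ ^ 2 / 2) * Real.sin ⟪y, p j⟫ =
        -((∑ j ∈ S, Real.exp (‖p j‖ ^ 2 / 2) * Real.sin ⟪y - Φ a, p j⟫) * Real.cos φ -
          (∑ j ∈ S, Real.exp (‖p j‖ ^ 2 / 2) * Real.cos ⟪y - Φ a, p j⟫) * Real.sin φ) := by
      rw [Finset.sum_mul, Finset.sum_mul, ← Finset.sum_sub_distrib, ← Finset.sum_neg_distrib]
      refine Finset.sum_congr rfl fun j hj => ?_
      rw [(hang j hj y).2]; ring
    rw [b1, b2]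
    generalize (∑ j ∈ S, Real.exp (‖p j‖ ^ 2 / 2) * Real.sin ⟪y - Φ a, p j⟫) = Q
    generalize (∑ j ∈ S, Real.exp (‖p j‖ ^ 2 / 2) * Real.cos ⟪y - Φ a, p j⟫) = P
    have := Real.cos_sq_add_sin_sq φ
    linear_combination (((S.card : ℝ)⁻¹ * P - 1) ^ 2 + ((S.card : ℝ)⁻¹ * Q) ^ 2) * this
  · obtain ⟨j0, hj0⟩ := hS
    have hL0 : 0 ≤ L := (sq_nonneg _).trans (hL j0 hj0)
    have hσ0 : 0 ≤ σ := by
      have h0 : Φ a ≠ 0 := by
        intro h0
        have := hpm j0 hj0 a ha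
        rw [h0, inner_zero_left] at this
        norm_num at this
      have h1 : 0 ≤ ‖Φ a‖ * σ := le_trans (by positivity) (hσ (Φ a))
      exact nonneg_of_mul_nonneg_right h1 (norm_pos_iff.2 h0)
    have hv : ∀ j ∈ S, ‖v j‖ ≤ √L := fun j hj => Real.le_sqrt_of_sq_le (hL j hj)
    have hen : ‖e‖ ≤ √L := by
      rw [he, norm_smul, Real.norm_eq_abs, abs_of_pos (inv_pos.2 hs), inv_mul_le_iff₀ hs]
      refine (norm_sum_le _ _).trans ?_
      rw [← nsmul_eq_mul]
      exact Finset.sum_le_card_nsmul _ _ _ hv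
    have hu : ∀ j ∈ S, ‖v j - e‖ ≤ 2 * √L := fun j hj =>
      (norm_sub_le _ _).trans (by linarith [hv j hj])
    rw [inv_mul_le_iff₀ hs, ← nsmul_eq_mul]
    refine Finset.sum_le_card_nsmul _ _ _ fun j hj => ?_
    have c1 : ∑ k ∈ S, (Real.exp ⟪p j, p k⟫ - 1) ≤ Real.pi ^ 2 * Real.exp (Real.pi ^ 2 * (4 * L)) *
        ∑ k ∈ S, |⟪v j - e, v k - e⟫| := by
      rw [Finset.mul_sum]
      refine Finset.sum_le_sum fun k hk => ?_
      have c2 : |⟪p j, p k⟫| = Real.pi ^ 2 * |⟪v j - e, v k - e⟫| := by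
        rw [hp]
        simp only [real_inner_smul_left, real_inner_smul_right]
        rw [← mul_assoc, abs_mul, ← sq, abs_of_nonneg (sq_nonneg _)]
      have c3 : |⟪v j - e, v k - e⟫| ≤ 4 * L := by
        refine (abs_real_inner_le_norm _ _).trans ?_
        calc ‖v j - e‖ * ‖v k - e‖ ≤ (2 * √L) * (2 * √L) :=
              mul_le_mul (hu j hj) (hu k hk) (norm_nonneg _) (by positivity)
          _ = 4 * (√L * √L) := by ring
          _ = 4 * L := by rw [Real.mul_self_sqrt hL0]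
      have c4 := deconvb_exp (x := ⟪p j, p k⟫) (K := Real.pi ^ 2 * (4 * L))
        (by rw [c2]; exact mul_le_mul_of_nonneg_left c3 (sq_nonneg _))
      rw [c2] at c4
      linarith
    have c5 := (hσ (v j - e)).trans (mul_le_mul_of_nonneg_right (hu j hj) hσ0)
    calc _ ≤ (S.card : ℝ)⁻¹ * (Real.pi ^ 2 * Real.exp (Real.pi ^ 2 * (4 * L)) *
          ∑ k ∈ S, |⟪v j - e, v k - e⟫|) := mul_le_mul_of_nonneg_left c1 (by positivity)
      _ = Real.pi ^ 2 * Real.exp (Real.pi ^ 2 * (4 * L)) *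
          ((S.card : ℝ)⁻¹ * ∑ k ∈ S, |⟪v j - e, v k - e⟫|) := by ring
      _ ≤ _ := mul_le_mul_of_nonneg_left c5 (by positivity)

end Pool.Agent.MP_fcb590_an.Q2

end

section
/-!
Deconvolution: the average of many nearly uncorrelated sign coordinates is determined by the channel.
`subfamily`: maximise norm (mean S')^2 + tau log card S' over nonempty S' inside S. Given z put X j = inner z (v j - mean),
split S' into X > 0 and X <= 0 (if a part is empty all X vanish, since they sum to zero). With proportions p, q and means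
m1, m2: p |m1|^2 + q |m2|^2 = |mean|^2 + p |m1 - mean|^2 + q |m2 - mean|^2, maximality gives
p |m1 - mean|^2 + q |m2 - mean|^2 <= tau (p log (1/p) + q log (1/q)) <= tau, and
inner z (m1 - mean) = a / (2 p), inner z (m2 - mean) = - a / (2 q) with a the average of |X j|; a^2 <= a^2 / (4 p q).
`estimator`: u j = v j - e. With c j = exp (pi^2 norm (u j)^2 / 2) put
Gc y = - average of c j cos (pi inner y (u j)), Gs y = average of c j sin (pi inner y (u j)). For y = Phi a + g and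
M = inner (Phi a) e, pi inner y (u j) = pi inner g (u j) + pi (f j) - pi M with f j = 1 or -1, so with
P g = average c j cos (pi inner g (u j)), Q g = average c j sin (pi inner g (u j)):
(Gc y - cos (pi M))^2 + (Gs y - sin (pi M))^2 = (P g - 1)^2 + (Q g)^2 (a rotation), whose Gaussian integral is
average over j, k of exp (pi^2 inner (u j) (u k)) - 1 (`integral_cos_inner`, cos a cos b + sin a sin b = cos (a - b)).
Bound exp x - 1 <= |x| exp |x|, |inner (u j) (u k)| <= 4 L. Use `cm`.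
`sig_le_of_estimator`: for |M|, |M'| <= 1: (M - M')^2 <= ((cos pi M - cos pi M')^2 + (sin pi M - sin pi M')^2) / delta^2
+ 4 * indicator (|M| > 1 - delta), from 4 sin^2 (pi x / 2) >= delta^2 x^2 for 0 <= x <= 2 - delta (`Real.mul_le_sin`);
then `sig_pair`, (s - t)^2 <= 2 (s - G)^2 + 2 (t - G)^2 and sum_b w_b / Z = 1.
`ambiguity`: for a with |M a| > 1 - delta fewer than card S * delta / 2 of the f j a differ from the sign of M a.
Let bad j count such a; at least half of the j have bad j <= delta * card B; take rho of them.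
-/

set_option autoImplicit false

open scoped RealInnerProductSpace

namespace Pool.Agent.MP_fcb590_an.Q2

open MeasureTheory ProbabilityTheory

variable {d : ℕ} {α ι : Type*}

theorem deconvc_sin {x δ : ℝ} (hδ : 0 < δ) (hδ1 : δ ≤ 1) (h0 : 0 ≤ x) (h : x ≤ 2 - δ) :
    δ * x ≤ 2 * Real.sin (Real.pi / 2 * x) := by
  rcases le_total x 1 with h1 | h1
  · have := Real.le_sin_mul h0 h1
    nlinarith
  · have := Real.le_sin_mul (x := 2 - x) (by linarith) (by linarith)
    rw [show Real.pi / 2 * (2 - x) = Real.pi - Real.pi / 2 * x by ring, Real.sin_pi_sub] at this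
    nlinarith

theorem deconvc_circ {s t δ : ℝ} (hδ : 0 < δ) (hδ1 : δ ≤ 1) (hs : |s| ≤ 1 - δ) (ht : |t| ≤ 1) :
    δ ^ 2 * (s - t) ^ 2 ≤ (Real.cos (Real.pi * s) - Real.cos (Real.pi * t)) ^ 2 +
      (Real.sin (Real.pi * s) - Real.sin (Real.pi * t)) ^ 2 := by
  have h1 := deconvc_sin hδ hδ1 (abs_nonneg (s - t)) ((abs_sub _ _).trans (by linarith))
  have h2 := pow_le_pow_left₀ (mul_nonneg hδ.le (abs_nonneg _)) h1 2
  have h3 : Real.sin (Real.pi / 2 * |s - t|) ^ 2 = 1 / 2 - Real.cos (Real.pi * s - Real.pi * t) / 2 := by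
    rw [Real.sin_sq_eq_half_sub, show 2 * (Real.pi / 2 * |s - t|) = |Real.pi * s - Real.pi * t| by
      rw [← mul_sub, abs_mul, abs_of_pos Real.pi_pos]; ring, Real.cos_abs]
  rw [mul_pow, mul_pow, sq_abs, h3, Real.cos_sub] at h2
  linarith [Real.sin_sq_add_cos_sq (Real.pi * s), Real.sin_sq_add_cos_sq (Real.pi * t)]

theorem deconvc_sum {A : Finset α} (w p : α → ℝ) {Z : ℝ} (hZ : Z = ∑ a ∈ A, w a) (h0 : Z ≠ 0) :
    ∑ a ∈ A, ∑ b ∈ A, w a * w b / Z * p a = ∑ a ∈ A, w a * p a := by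
  refine Finset.sum_congr rfl fun a _ => ?_
  rw [← Finset.sum_mul, ← Finset.sum_div, ← Finset.mul_sum, ← hZ, mul_div_assoc, div_self h0,
    mul_one]

open Classical in
theorem sig_le_of_estimator (Φ : α → E d) {A : Finset α} (hA : A.Nonempty) {e : E d}
    (he : ∀ a ∈ A, |⟪Φ a, e⟫| ≤ 1) {Gc Gs : E d → ℝ} {B δ δ' : ℝ} (hc : Continuous Gc)
    (hs : Continuous Gs) (hB : ∀ y, |Gc y| ≤ B ∧ |Gs y| ≤ B) (hδ : 0 < δ) (hδ1 : δ ≤ 1)
    (h : ∀ a ∈ A, ∫ y, wt (Φ a) y * ((Gc y - Real.cos (Real.pi * ⟪Φ a, e⟫)) ^ 2 +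
        (Gs y - Real.sin (Real.pi * ⟪Φ a, e⟫)) ^ 2) ∂stdGaussian (E d) ≤ δ') :
    Sig Φ A e e ≤ 2 * δ' / δ ^ 2 +
      2 * ((A.filter fun a => 1 - δ < |⟪Φ a, e⟫|).card / A.card) := by
  set er : α → E d → ℝ := fun a y => (Gc y - Real.cos (Real.pi * ⟪Φ a, e⟫)) ^ 2 +
    (Gs y - Real.sin (Real.pi * ⟪Φ a, e⟫)) ^ 2 with her
  set ch : α → ℝ := fun a => if 1 - δ < |⟪Φ a, e⟫| then 1 else 0 with hch
  have hδ2 : 0 < δ ^ 2 := by positivity
  have hN : (0 : ℝ) < A.card := by exact_mod_cast hA.card_pos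
  have hpt : ∀ y, ∀ a ∈ A, ∀ b ∈ A, (⟪Φ a, e⟫ - ⟪Φ b, e⟫) ^ 2 ≤
      (2 / δ ^ 2 * er a y + 4 * ch a) + 2 / δ ^ 2 * er b y := by
    intro y a ha b hb
    have e1 : 0 ≤ er a y := by positivity
    have e2 : 0 ≤ er b y := by positivity
    have e3 : 0 ≤ 2 / δ ^ 2 * er a y := by positivity
    have e4 : 0 ≤ 2 / δ ^ 2 * er b y := by positivity
    by_cases hc : 1 - δ < |⟪Φ a, e⟫|
    · have e5 : ch a = 1 := if_pos hc
      have e6 : |⟪Φ a, e⟫ - ⟪Φ b, e⟫| ≤ 2 := (abs_sub _ _).trans (by linarith [he a ha, he b hb])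
      have e7 := pow_le_pow_left₀ (abs_nonneg _) e6 2
      rw [sq_abs] at e7
      linarith
    · have e5 : ch a = 0 := if_neg hc
      have e6 := deconvc_circ hδ hδ1 (not_lt.1 hc) (he b hb)
      have e7 : δ ^ 2 * (⟪Φ a, e⟫ - ⟪Φ b, e⟫) ^ 2 ≤ 2 * er a y + 2 * er b y := by
        refine e6.trans ?_
        simp only [her]
        linarith [sq_nonneg (2 * Gc y - Real.cos (Real.pi * ⟪Φ a, e⟫) -
          Real.cos (Real.pi * ⟪Φ b, e⟫)), sq_nonneg (2 * Gs y - Real.sin (Real.pi * ⟪Φ a, e⟫) -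
          Real.sin (Real.pi * ⟪Φ b, e⟫))]
      rw [e5, mul_zero, add_zero, ← mul_add, div_mul_eq_mul_div, le_div_iff₀ hδ2]
      linarith
  have hint : ∀ a, Integrable (fun y => wt (Φ a) y * er a y) (stdGaussian (E d)) := by
    intro a
    refine (integrable_wt (Φ a)).mul_bdd (c := (B + 1) ^ 2 + (B + 1) ^ 2)
      (Continuous.aestronglyMeasurable (by simp only [her]; fun_prop))
      (Filter.Eventually.of_forall fun y => ?_)
    have b1 : |Gc y - Real.cos (Real.pi * ⟪Φ a, e⟫)| ≤ B + 1 :=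
      (abs_sub _ _).trans (add_le_add (hB y).1 (Real.abs_cos_le_one _))
    have b2 : |Gs y - Real.sin (Real.pi * ⟪Φ a, e⟫)| ≤ B + 1 :=
      (abs_sub _ _).trans (add_le_add (hB y).2 (Real.abs_sin_le_one _))
    have b3 := pow_le_pow_left₀ (abs_nonneg _) b1 2
    have b4 := pow_le_pow_left₀ (abs_nonneg _) b2 2
    rw [sq_abs] at b3 b4
    rw [Real.norm_of_nonneg (by positivity)]
    exact add_le_add b3 b4
  have hint2 : ∀ a, Integrable (fun y => 4 / δ ^ 2 * (wt (Φ a) y * er a y) +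
      4 * ch a * wt (Φ a) y) (stdGaussian (E d)) := fun a =>
    ((hint a).const_mul _).add ((integrable_wt _).const_mul _)
  have key : ∫ y, ∑ a ∈ A, ∑ b ∈ A, wt (Φ a) y * wt (Φ b) y / Zf Φ A y *
      (⟪Φ a, e⟫ - ⟪Φ b, e⟫) ^ 2 ∂stdGaussian (E d) ≤ ∫ y, ∑ a ∈ A,
        (4 / δ ^ 2 * (wt (Φ a) y * er a y) + 4 * ch a * wt (Φ a) y) ∂stdGaussian (E d) := by
    have hw : ∀ y a b, 0 ≤ wt (Φ a) y * wt (Φ b) y / Zf Φ A y := fun y a b =>
      div_nonneg (mul_pos (wt_pos _ _) (wt_pos _ _)).le (Zf_pos Φ hA y).le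
    refine integral_mono_of_nonneg (Filter.Eventually.of_forall fun y =>
      Finset.sum_nonneg fun a _ => Finset.sum_nonneg fun b _ =>
        mul_nonneg (hw y a b) (sq_nonneg _)) (integrable_finsetSum _ fun a _ => hint2 a)
      (Filter.Eventually.of_forall fun y => ?_)
    refine (Finset.sum_le_sum fun a ha => Finset.sum_le_sum fun b hb =>
      mul_le_mul_of_nonneg_left (hpt y a ha b hb) (hw y a b)).trans (le_of_eq ?_)
    have s1 := deconvc_sum (fun a => wt (Φ a) y) (fun a => 2 / δ ^ 2 * er a y + 4 * ch a)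
      (Z := Zf Φ A y) rfl (Zf_pos Φ hA y).ne'
    have s2 := deconvc_sum (fun a => wt (Φ a) y) (fun a => 2 / δ ^ 2 * er a y)
      (Z := Zf Φ A y) rfl (Zf_pos Φ hA y).ne'
    rw [Finset.sum_comm] at s2
    simp only [mul_add (wt (Φ _) y * wt (Φ _) y / Zf Φ A y) (_ + _), Finset.sum_add_distrib]
    rw [s1, show ∑ a ∈ A, ∑ b ∈ A, wt (Φ a) y * wt (Φ b) y / Zf Φ A y * (2 / δ ^ 2 * er b y) =
      ∑ a ∈ A, wt (Φ a) y * (2 / δ ^ 2 * er a y) from by
        rw [← s2]
        exact Finset.sum_congr rfl fun a _ => Finset.sum_congr rfl fun b _ => by ring,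
      ← Finset.sum_add_distrib, ← Finset.sum_add_distrib]
    exact Finset.sum_congr rfl fun a _ => by ring
  rw [integral_finsetSum _ fun a _ => hint2 a] at key
  have k2 : ∑ a ∈ A, ∫ y, (4 / δ ^ 2 * (wt (Φ a) y * er a y) + 4 * ch a * wt (Φ a) y)
      ∂stdGaussian (E d) ≤ ∑ a ∈ A, (4 / δ ^ 2 * δ' + 4 * ch a) := by
    refine Finset.sum_le_sum fun a ha => ?_
    rw [integral_add ((hint a).const_mul _) ((integrable_wt _).const_mul _), integral_const_mul,
      integral_const_mul, integral_wt, mul_one]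
    exact add_le_add (mul_le_mul_of_nonneg_left (h a ha) (by positivity)) le_rfl
  rw [Finset.sum_add_distrib, Finset.sum_const, nsmul_eq_mul, ← Finset.mul_sum] at k2
  have k3 : ∑ a ∈ A, ch a = ((A.filter fun a => 1 - δ < |⟪Φ a, e⟫|).card : ℝ) := by
    rw [Finset.card_filter]; push_cast; rfl
  rw [sig_pair Φ hA, ← k3]
  refine (mul_le_mul_of_nonneg_left (key.trans k2) (by positivity)).trans (le_of_eq ?_)
  field_simp
  ring

end Pool.Agent.MP_fcb590_an.Q2

end

section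
/-!
Bounded degree and the chaos theorem.
`degree`: choose k >= 0 with 4 exp (1 - kappa (k - 1)) <= gamma^2 / (2 Lam), rho = 2^k, delta = 1 / (2 rho), tau > 0 with
2 delta' / delta^2 <= gamma^2 / (2 Lam) for delta' = pi^2 exp (4 pi^2 L) 2 sqrt L sqrt tau, and Delta = 2 rho exp (L / tau).
If card S > Delta then `subfamily` gives S' with card S' > 2 rho; e = mean of v over S' has gamma < inner x e = Sig y e, so
gamma^2 < Lam * Sig e e (`sig_cs`) <= gamma^2 by `estimator`, `sig_le_of_estimator`, `ambiguity`, `Spread`.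
`chaos`: omega = rho / (2 L), T = 6 / rho, CT = T^4 exp (T^2 L), gamma = 1 / (8 CT L), Lam = L / (2 omega),
K = 2 CT L^3 Delta + 1. By `sig_resolvent` choose y j, u j for v j, and y' j, x j for u j. From u + omega y = v and
inner u x = Sig y x: norm v ^2 = norm u ^2 + 2 omega Sig y y + omega^2 norm y ^2, so norm u <= norm v and
Sig y y <= norm v ^2 / (2 omega); Sig v u = Sig v v - omega inner u v >= rho / 2; inner (u j) (u k) = inner (x j) (v k)
(both equal inner (x j) (u k) + omega Sig (y' j) (y k)). Apply `chaos_ineq`, 0 <= exp s - 1 - s <= s^2 exp |s|.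
For fixed j, the k with |inner (x j) (v k)| <= gamma contribute at most
gamma sum (inner (v j) (v k)^2 + inner (x j) (v k)^2) / 2 <= gamma B L, the others (at most 2 Delta by `degree` applied to
x and to - x; `Spread` passes to subsets of S) at most L^3 each.
-/

set_option autoImplicit false

open scoped RealInnerProductSpace

namespace Pool.Agent.MP_fcb590_an.Q2

theorem degree_inner {d : ℕ} {ι : Type*} (S : Finset ι) (v : ι → E d) (x : E d) :
    ⟪x, (S.card : ℝ)⁻¹ • ∑ k ∈ S, v k⟫ = (S.card : ℝ)⁻¹ * ∑ k ∈ S, ⟪x, v k⟫ := by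
  rw [real_inner_smul_right, inner_sum]

theorem degree_k {κ η : ℝ} (hκ : 0 < κ) (hη : 0 < η) :
    ∃ k : ℕ, 4 * Real.exp (1 - κ * (k - 1)) ≤ η := by
  obtain ⟨k, hk⟩ := exists_nat_ge ((1 - Real.log (η / 4)) / κ + 1)
  refine ⟨k, ?_⟩
  have h1 : (1 - Real.log (η / 4)) / κ ≤ k - 1 := by linarith
  rw [div_le_iff₀ hκ] at h1
  have h2 : Real.exp (1 - κ * (k - 1)) ≤ Real.exp (Real.log (η / 4)) :=
    Real.exp_le_exp.2 (by linarith)
  rw [Real.exp_log (by positivity)] at h2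
  linarith

theorem degree {κ L Λ γ : ℝ} (hκ : 0 < κ) (hL : 0 < L) (hΛ : 0 < Λ) (hγ : 0 < γ) :
    ∃ Δ : ℝ, 0 < Δ ∧ ∀ (d : ℕ) (α ι : Type) (Φ : α → E d) (A : Finset α) (S : Finset ι)
      (v : ι → E d) (x y : E d), A.Nonempty → (∀ j ∈ S, ‖v j‖ ^ 2 ≤ L) →
      (∀ j ∈ S, ∀ a ∈ A, ⟪Φ a, v j⟫ = 1 ∨ ⟪Φ a, v j⟫ = -1) → Spread Φ A S v κ →
      (∀ z, ⟪x, z⟫ = Sig Φ A y z) → Sig Φ A y y ≤ Λ → (∀ j ∈ S, γ < ⟪x, v j⟫) →
      (S.card : ℝ) ≤ Δ := by
  classical
  obtain ⟨η, hη, hη0⟩ : ∃ η : ℝ, η = γ ^ 2 / (2 * Λ) ∧ 0 < η := ⟨_, rfl, by positivity⟩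
  obtain ⟨k, hk⟩ := degree_k hκ hη0
  obtain ⟨ρ, hρ⟩ : ∃ ρ : ℕ, ρ = 2 ^ k := ⟨_, rfl⟩
  have hρ1 : 1 ≤ ρ := by rw [hρ]; exact Nat.one_le_two_pow
  have hρ1' : (1 : ℝ) ≤ ρ := by exact_mod_cast hρ1
  obtain ⟨δ, hδ, hδ0⟩ : ∃ δ : ℝ, δ = 1 / (2 * ρ) ∧ 0 < δ := ⟨_, rfl, by positivity⟩
  have hρδ : ρ * δ = 1 / 2 := by rw [hδ]; field_simp
  have hδ1 : δ ≤ 1 := by nlinarith
  obtain ⟨C, hC, hC0⟩ : ∃ C : ℝ, C = Real.pi ^ 2 * Real.exp (Real.pi ^ 2 * (4 * L)) * (2 * √L) ∧
      0 < C := ⟨_, rfl, by have := Real.pi_pos; have := Real.sqrt_pos.2 hL; positivity⟩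
  obtain ⟨σ, hσ, hσ0⟩ : ∃ σ : ℝ, σ = η * δ ^ 2 / (2 * C) ∧ 0 < σ := ⟨_, rfl, by positivity⟩
  refine ⟨2 * ρ * Real.exp (L / σ ^ 2), by positivity, ?_⟩
  intro d α ι Φ A S v x y hA hv hpm hsp hxy hyy hγx
  by_contra hlt
  rw [not_le] at hlt
  have hE : 0 < Real.exp (L / σ ^ 2) := Real.exp_pos _
  have hS : S.Nonempty := by
    rw [← Finset.card_pos]
    have h1 : (0 : ℝ) < S.card := lt_trans (by positivity) hlt
    exact_mod_cast h1
  obtain ⟨S', hS'S, hS', hcard, hz⟩ := subfamily S hS v (τ := σ ^ 2) (by positivity) hv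
  rw [Real.sqrt_sq hσ0.le] at hz
  have h2ρ : 2 * ρ ≤ S'.card := by
    have h1 : (2 * ρ : ℝ) < S'.card := lt_of_mul_lt_mul_right (hlt.trans_le hcard) hE.le
    exact_mod_cast h1.le
  have hc0 : (0 : ℝ) < S'.card := by exact_mod_cast hS'.card_pos
  obtain ⟨e, he⟩ : ∃ e : E d, e = (S'.card : ℝ)⁻¹ • ∑ k ∈ S', v k := ⟨_, rfl⟩
  rw [← he] at hz
  have hpm' : ∀ j ∈ S', ∀ a ∈ A, ⟪Φ a, v j⟫ = 1 ∨ ⟪Φ a, v j⟫ = -1 := fun j hj => hpm j (hS'S hj)
  obtain ⟨Gc, Gs, B, hc, hs, hB, hest⟩ :=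
    estimator Φ A S' hS' v (fun j hj => hv j (hS'S hj)) hpm' he hz
  have hin : ∀ w : E d, ⟪w, e⟫ = (S'.card : ℝ)⁻¹ * ∑ k ∈ S', ⟪w, v k⟫ := fun w => by
    rw [he, degree_inner]
  have he1 : ∀ a ∈ A, |⟪Φ a, e⟫| ≤ 1 := by
    intro a ha
    rw [hin, abs_mul, abs_of_pos (inv_pos.2 hc0), inv_mul_le_iff₀ hc0]
    refine (Finset.abs_sum_le_sum_abs _ _).trans ?_
    have h1 : ∑ k ∈ S', |⟪Φ a, v k⟫| = ∑ k ∈ S', (1 : ℝ) :=
      Finset.sum_congr rfl fun j hj => by rcases hpm' j hj a ha with h | h <;> simp [h]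
    rw [h1]
    simp
  have h1 := sig_le_of_estimator Φ hA he1 hc hs hB hδ0 hδ1 hest
  obtain ⟨J, hJ, hJc, hamb⟩ := ambiguity A S' (fun j a => ⟪Φ a, v j⟫) hpm' hρ1 h2ρ hδ0 hρδ.le
  have h2 := hsp k J (hJ.trans hS'S) (hJc.trans hρ)
  have hA0 : (0 : ℝ) < A.card := by exact_mod_cast hA.card_pos
  have h3 : ((A.filter fun a => 1 - δ < |⟪Φ a, e⟫|).card : ℝ) / A.card ≤
      2 * Real.exp (1 - κ * (k - 1)) := by
    rw [div_le_iff₀ hA0]
    simp only [hin]
    have h4 := (Nat.cast_le (α := ℝ)).2 hamb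
    push_cast at h4
    linarith
  have h4 : 2 * (Real.pi ^ 2 * Real.exp (Real.pi ^ 2 * (4 * L)) * (2 * √L * σ)) / δ ^ 2 = η := by
    have h5 : Real.pi ^ 2 * Real.exp (Real.pi ^ 2 * (4 * L)) * (2 * √L * σ) = C * σ := by
      rw [hC]; ring
    rw [h5, hσ]
    field_simp
  have h5 : Sig Φ A e e ≤ 2 * η := by linarith
  have h6 : γ < Sig Φ A y e := by
    rw [← hxy, hin, lt_inv_mul_iff₀ hc0]
    have h7 := Finset.sum_lt_sum_of_nonempty hS' fun j hj => hγx j (hS'S hj)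
    simpa using h7
  have h7 := sig_cs Φ A y e
  have h8 := sig_nonneg Φ A e
  have h9 : Sig Φ A y y * Sig Φ A e e ≤ Λ * (2 * η) := by gcongr
  have h10 : Λ * (2 * η) = γ ^ 2 := by rw [hη]; field_simp
  nlinarith

end Pool.Agent.MP_fcb590_an.Q2

end

section
/-!
Bounded degree and the chaos theorem.
`degree`: choose k >= 0 with 4 exp (1 - kappa (k - 1)) <= gamma^2 / (2 Lam), rho = 2^k, delta = 1 / (2 rho), tau > 0 with
2 delta' / delta^2 <= gamma^2 / (2 Lam) for delta' = pi^2 exp (4 pi^2 L) 2 sqrt L sqrt tau, and Delta = 2 rho exp (L / tau).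
If card S > Delta then `subfamily` gives S' with card S' > 2 rho; e = mean of v over S' has gamma < inner x e = Sig y e, so
gamma^2 < Lam * Sig e e (`sig_cs`) <= gamma^2 by `estimator`, `sig_le_of_estimator`, `ambiguity`, `Spread`.
`chaos`: omega = rho / (2 L), T = 6 / rho, CT = T^4 exp (T^2 L), gamma = 1 / (8 CT L), Lam = L / (2 omega),
K = 2 CT L^3 Delta + 1. By `sig_resolvent` choose y j, u j for v j, and y' j, x j for u j. From u + omega y = v and
inner u x = Sig y x: norm v ^2 = norm u ^2 + 2 omega Sig y y + omega^2 norm y ^2, so norm u <= norm v and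
Sig y y <= norm v ^2 / (2 omega); Sig v u = Sig v v - omega inner u v >= rho / 2; inner (u j) (u k) = inner (x j) (v k)
(both equal inner (x j) (u k) + omega Sig (y' j) (y k)). Apply `chaos_ineq`, 0 <= exp s - 1 - s <= s^2 exp |s|.
For fixed j, the k with |inner (x j) (v k)| <= gamma contribute at most
gamma sum (inner (v j) (v k)^2 + inner (x j) (v k)^2) / 2 <= gamma B L, the others (at most 2 Delta by `degree` applied to
x and to - x; `Spread` passes to subsets of S) at most L^3 each.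
-/

set_option autoImplicit false

open scoped RealInnerProductSpace

namespace Pool.Agent.MP_fcb590_an.Q2

theorem chaos_exp (s : ℝ) : Real.exp s - 1 - s ≤ s ^ 2 * Real.exp |s| := by
  have h1 : Real.exp s - 1 ≤ s * Real.exp s := by
    have h2 := mul_le_mul_of_nonneg_right (Real.add_one_le_exp (-s)) (Real.exp_pos s).le
    rw [← Real.exp_add, neg_add_cancel, Real.exp_zero] at h2
    linarith
  have h3 := Real.add_one_le_exp s
  rcases le_total 0 s with h | h
  · rw [abs_of_nonneg h]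
    have h4 := mul_le_mul_of_nonneg_left h1 h
    linarith
  · have h4 := mul_le_mul_of_nonpos_left h3 h
    have h5 := mul_le_mul_of_nonneg_left (Real.one_le_exp (abs_nonneg s)) (sq_nonneg s)
    linarith

theorem chaos_inner {d : ℕ} {a b : E d} {L : ℝ} (ha : ‖a‖ ^ 2 ≤ L) (hb : ‖b‖ ^ 2 ≤ L) :
    |⟪a, b⟫| ≤ L := by
  have h1 := abs_real_inner_le_norm a b
  nlinarith [sq_nonneg (‖a‖ - ‖b‖)]

theorem chaos_res {d : ℕ} {α : Type} {Φ : α → E d} {A : Finset α} {ω L : ℝ} (hω : 0 < ω)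
    {v y u : E d} (h1 : u + ω • y = v) (h2 : ∀ x, ⟪u, x⟫ = Sig Φ A y x) (hv : ‖v‖ ^ 2 ≤ L) :
    ‖u‖ ^ 2 ≤ L ∧ Sig Φ A y y ≤ L / (2 * ω) := by
  have h3 := norm_add_sq_real u (ω • y)
  rw [h1, real_inner_smul_right, h2] at h3
  have h4 := mul_nonneg hω.le (sig_nonneg Φ A y)
  have h5 := sq_nonneg ‖ω • y‖
  have h6 := sq_nonneg ‖u‖
  refine ⟨by linarith, ?_⟩
  rw [le_div_iff₀ (by positivity)]
  linarith

theorem chaos_pt {a b γ L : ℝ} (hγ : 0 < γ) (ha : |a| ≤ L) (hb : |b| ≤ L) :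
    |a| * b ^ 2 ≤ γ / 2 * (a ^ 2 + b ^ 2) +
      ((if γ < b then L ^ 3 else 0) + if γ < -b then L ^ 3 else 0) := by
  have hL : 0 ≤ L := (abs_nonneg a).trans ha
  have h0 : 0 ≤ γ / 2 * (a ^ 2 + b ^ 2) := by positivity
  have h1 : |a| * b ^ 2 ≤ L ^ 3 := by
    rw [← sq_abs b, pow_succ' L 2]
    exact mul_le_mul ha (pow_le_pow_left₀ (abs_nonneg b) hb 2) (sq_nonneg _) hL
  have h2 : 0 ≤ L ^ 3 := by positivity
  split_ifs with c1 c2 c2
  · linarith
  · linarith
  · linarith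
  · have h3 : |b| ≤ γ := abs_le.2 ⟨by linarith, by linarith⟩
    have h4 : |a| * |b| ≤ (a ^ 2 + b ^ 2) / 2 := by
      rw [← sq_abs a, ← sq_abs b]
      nlinarith [sq_nonneg (|a| - |b|)]
    have h5 := mul_le_mul h3 h4 (mul_nonneg (abs_nonneg a) (abs_nonneg b)) hγ.le
    have h6 : |a| * b ^ 2 = |b| * (|a| * |b|) := by rw [← sq_abs b]; ring
    linarith

theorem chaos_neg {d : ℕ} {α : Type} (Φ : α → E d) (A : Finset α) (y z : E d) :
    Sig Φ A (-y) z = -Sig Φ A y z := by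
  rw [← neg_one_smul ℝ y, sig_smul_left, neg_one_mul]

theorem chaos {κ L ρ : ℝ} (hκ : 0 < κ) (hL : 0 < L) (hρ : 0 < ρ) :
    ∃ K : ℝ, 0 < K ∧ ∀ (d : ℕ) (α ι : Type) (Φ : α → E d) (A : Finset α) (S : Finset ι)
      (v : ι → E d) (R B : ℝ), A.Nonempty → 0 ≤ B → (∀ a ∈ A, ‖Φ a‖ ^ 2 ≤ R) →
      (∀ j ∈ S, ‖v j‖ ^ 2 ≤ L) → (∀ x : E d, ∑ j ∈ S, ⟪v j, x⟫ ^ 2 ≤ B * ‖x‖ ^ 2) →
      (∀ j ∈ S, ∀ a ∈ A, ⟪Φ a, v j⟫ = 1 ∨ ⟪Φ a, v j⟫ = -1) → Spread Φ A S v κ →
      (∀ j ∈ S, ρ ≤ Sig Φ A (v j) (v j)) → (S.card : ℝ) ≤ R * B / 8 + K * R := by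
  classical
  obtain ⟨ω, hωe⟩ : ∃ ω : ℝ, ω = ρ / (2 * L) := ⟨_, rfl⟩
  obtain ⟨T, hTe⟩ : ∃ T : ℝ, T = 6 / ρ := ⟨_, rfl⟩
  obtain ⟨C, hCe⟩ : ∃ C : ℝ, C = T ^ 4 * Real.exp (T ^ 2 * L) := ⟨_, rfl⟩
  obtain ⟨γ, hγe⟩ : ∃ γ : ℝ, γ = 1 / (8 * C * L) := ⟨_, rfl⟩
  have hω : 0 < ω := by rw [hωe]; positivity
  have hT : 0 < T := by rw [hTe]; positivity
  have hC : 0 < C := by rw [hCe]; positivity
  have hγ : 0 < γ := by rw [hγe]; positivity
  obtain ⟨Δ, hΔ, hdeg⟩ := degree (Λ := L / (2 * ω)) hκ hL (by positivity) hγ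
  refine ⟨2 * C * L ^ 3 * Δ + 1, by positivity, ?_⟩
  intro d α ι Φ A S v R B hA hB hR hv hq hpm hsp hρ'
  have hR0 : 0 ≤ R := by
    obtain ⟨a, ha⟩ := hA
    exact (sq_nonneg _).trans (hR a ha)
  choose y u hyu hu using fun j => sig_resolvent Φ A hω (v j)
  choose y' x hyx hx using fun j => sig_resolvent Φ A hω (u j)
  have hun : ∀ j ∈ S, ‖u j‖ ^ 2 ≤ L := fun j hj => (chaos_res hω (hyu j) (hu j) (hv j hj)).1
  have hxn := fun j (hj : j ∈ S) => chaos_res hω (hyx j) (hx j) (hun j hj)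
  have hsig : ∀ j ∈ S, 3 ≤ T * Sig Φ A (v j) (u j) := by
    intro j hj
    have h1 : Sig Φ A (v j) (v j) = Sig Φ A (v j) (u j) + ω * ⟪u j, v j⟫ := by
      rw [sig_symm Φ A (v j) (u j), hu, ← sig_smul_left, ← sig_add_left, hyu]
    have h2 := mul_le_mul_of_nonneg_left
      ((le_abs_self _).trans (chaos_inner (hun j hj) (hv j hj))) hω.le
    have h3 : ω * L = ρ / 2 := by rw [hωe]; field_simp
    have h4 : ρ / 2 ≤ Sig Φ A (v j) (u j) := by linarith [hρ' j hj]
    have h5 : T * (ρ / 2) = 3 := by rw [hTe]; field_simp; norm_num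
    exact h5.ge.trans (mul_le_mul_of_nonneg_left h4 hT.le)
  have huu : ∀ j k, ⟪u j, u k⟫ = ⟪x j, v k⟫ := by
    intro j k
    have h1 : ⟪u j, u k⟫ = ⟪x j, u k⟫ + ω * Sig Φ A (y k) (y' j) := by
      rw [← hu, real_inner_comm (y' j), ← real_inner_smul_left, ← inner_add_left, hyx]
    have h2 : ⟪x j, v k⟫ = ⟪x j, u k⟫ + ω * Sig Φ A (y' j) (y k) := by
      rw [← hx, ← real_inner_smul_right, ← inner_add_right, hyu]
    rw [h1, h2, sig_symm]
  have hcard : ∀ j ∈ S, ∀ x' y'' : E d, (∀ z, ⟪x', z⟫ = Sig Φ A y'' z) →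
      Sig Φ A y'' y'' ≤ L / (2 * ω) → ∑ k ∈ S, (if γ < ⟪x', v k⟫ then L ^ 3 else 0) ≤ Δ * L ^ 3 := by
    intro j hj x' y'' h1 h2
    have h3 := hdeg d α ι Φ A (S.filter fun k => γ < ⟪x', v k⟫) v x' y'' hA
      (fun k hk => hv k (Finset.mem_filter.1 hk).1) (fun k hk => hpm k (Finset.mem_filter.1 hk).1)
      (fun k J hJ => hsp k J (hJ.trans (Finset.filter_subset _ _))) h1 h2
      fun k hk => (Finset.mem_filter.1 hk).2
    rw [← Finset.sum_filter, Finset.sum_const, nsmul_eq_mul]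
    exact mul_le_mul_of_nonneg_right h3 (by positivity)
  have hrow : ∀ j ∈ S, ∑ k ∈ S, ⟪v j, v k⟫ *
      (Real.exp (T ^ 2 * ⟪u j, u k⟫) - 1 - T ^ 2 * ⟪u j, u k⟫) ≤ B / 8 + 2 * C * L ^ 3 * Δ := by
    intro j hj
    have h1 : ∀ k ∈ S, ⟪v j, v k⟫ * (Real.exp (T ^ 2 * ⟪u j, u k⟫) - 1 - T ^ 2 * ⟪u j, u k⟫) ≤
        C * (γ / 2 * (⟪v k, v j⟫ ^ 2 + ⟪v k, x j⟫ ^ 2) + ((if γ < ⟪x j, v k⟫ then L ^ 3 else 0) +
          if γ < ⟪-x j, v k⟫ then L ^ 3 else 0)) := by
      intro k hk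
      have h2 := chaos_pt hγ (chaos_inner (hv j hj) (hv k hk)) (chaos_inner (hxn j hj).1 (hv k hk))
      rw [real_inner_comm (v j) (v k), real_inner_comm (x j) (v k), inner_neg_left]
      refine le_trans ?_ (mul_le_mul_of_nonneg_left h2 hC.le)
      have h3 : 0 ≤ Real.exp (T ^ 2 * ⟪u j, u k⟫) - 1 - T ^ 2 * ⟪u j, u k⟫ := by
        linarith [Real.add_one_le_exp (T ^ 2 * ⟪u j, u k⟫)]
      have h4 : |T ^ 2 * ⟪u j, u k⟫| ≤ T ^ 2 * L := by
        rw [abs_mul, abs_of_nonneg (sq_nonneg T)]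
        exact mul_le_mul_of_nonneg_left (chaos_inner (hun j hj) (hun k hk)) (sq_nonneg T)
      have h5 := (chaos_exp (T ^ 2 * ⟪u j, u k⟫)).trans
        (mul_le_mul_of_nonneg_left (Real.exp_le_exp.2 h4) (sq_nonneg _))
      refine (mul_le_mul (le_abs_self _) h5 h3 (abs_nonneg _)).trans_eq ?_
      rw [huu, hCe]
      ring
    refine (Finset.sum_le_sum h1).trans ?_
    rw [← Finset.mul_sum, Finset.sum_add_distrib, Finset.sum_add_distrib, ← Finset.mul_sum,
      Finset.sum_add_distrib]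
    have h6 := hcard j hj (x j) (y' j) (hx j) (hxn j hj).2
    have h7 := hcard j hj (-x j) (-y' j) (fun z => by rw [inner_neg_left, chaos_neg, hx])
      (by rw [chaos_neg, sig_symm, chaos_neg, neg_neg]; exact (hxn j hj).2)
    have h8 := (hq (v j)).trans (mul_le_mul_of_nonneg_left (hv j hj) hB)
    have h9 := (hq (x j)).trans (mul_le_mul_of_nonneg_left (hxn j hj).1 hB)
    have h10 := mul_le_mul_of_nonneg_left (add_le_add h8 h9) (half_pos hγ).le
    refine (mul_le_mul_of_nonneg_left (add_le_add h10 (add_le_add h6 h7)) hC.le).trans_eq ?_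
    rw [hγe]
    field_simp
    ring
  have h1 := (chaos_ineq Φ hA S v u hR hpm hsig).trans
    (mul_le_mul_of_nonneg_left (Finset.sum_le_sum hrow) hR0)
  rw [Finset.sum_const, nsmul_eq_mul] at h1
  have h2 : 0 ≤ R * (B / 8 + 2 * C * L ^ 3 * Δ) := by positivity
  have h3 : (S.card : ℝ) ≤ R * (B / 8 + 2 * C * L ^ 3 * Δ) := by
    rcases (Nat.cast_nonneg (α := ℝ) S.card).eq_or_lt with h | h
    · rw [← h]; exact h2
    · refine le_of_mul_le_mul_left ?_ h
      linarith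
  linarith

end Pool.Agent.MP_fcb590_an.Q2

end

end

-- part MP_fcb590_an.Q2.Faces
section

section
/-!
Freezing with a convex bonus: a wide face with few coordinates has a subface with many vertices on which the
projection is bounded below.
`freeze_point`: maximise g y = eps (qf (y - y0) + norm (y - y0)^2) - norm (P y - P b)^2 over the compact set
hull (face y0). At the maximiser y, g y >= g b >= 0, and qf (y - y0) <= 4 m (`qf_le`), norm (y - y0)^2 <= 4 m.
For f, f' in face y and u = f - f', the points y + t u, y - t u are in hull (face y0) for small t > 0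
(`mem_hull_face`: inner u v = 0 if v is tight at y, in particular if it is tight at y0; for the finitely many other
v in V there is slack), and g (y + t u) + g (y - t u) <= 2 g y gives the claim by the parallelogram identities.
`card_faces`: for y in hull (face y0), face y is determined by the pattern j -> (inner y j = 1, = -1, or neither) on J:
face y = filter of face y0 by the tight coordinates in J (use `Rep` and `hull_inner_eq` with u = v - j).
`freeze`: t = min (r/8) (1/2), choose N with (N+1) c > K log 3 + 1, s = t^N r / 4, eps with sqrt (8 eps) <= s / 8,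
k >= 1 with 1 / sqrt k <= s / 8, psi = 1 / k. Apply `mult_packing` to the image of A under the projection P
(injective on A, D = 2 sqrt m, rho = r sqrt m). Each b in B is P b0 with b0 in hull A, inside hull (face y0). Suppose all
faces given by `freeze_point` have fewer than exp (psi m) vertices. Map b to (face y, g) with g from `maurey` applied
to y in hull (face y); norm (b - P (sum g / k)) <= s sqrt m / 4, so the map is injective, and
exp ((N+1) c m) <= card B <= 3^(K m) exp (psi m k), a contradiction.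
-/

set_option autoImplicit false

open scoped RealInnerProductSpace

namespace Pool.Agent.MP_fcb590_an.Q2

variable {m : ℕ}

theorem freezea_par (x u : E m) : ‖x + u‖ ^ 2 + ‖x - u‖ ^ 2 = 2 * ‖x‖ ^ 2 + 2 * ‖u‖ ^ 2 := by
  rw [norm_add_sq_real, norm_sub_sq_real]
  ring

/-- a small step in a direction that keeps the tight coordinates stays in the polar body -/
theorem freezea_step (C : Conf m) {y u : E m} (hy : C.InK y)
    (hu : ∀ v ∈ C.V, |⟪y, v⟫| = 1 → ⟪u, v⟫ = 0) :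
    ∃ t : ℝ, 0 < t ∧ C.InK (y + t • u) ∧ C.InK (y - t • u) := by
  have h : ∀ᶠ t : ℝ in nhdsWithin 0 (Set.Ioi 0), ∀ v ∈ C.V, |⟪y, v⟫| + t * |⟪u, v⟫| ≤ 1 := by
    refine (Filter.eventually_all_finset _).2 fun v hv => ?_
    rcases (hy v hv).eq_or_lt with h1 | h1
    · exact Filter.Eventually.of_forall fun t => by rw [hu v hv h1, h1]; simp
    · refine Filter.Eventually.filter_mono nhdsWithin_le_nhds ?_
      have hc : Continuous fun t : ℝ => |⟪y, v⟫| + t * |⟪u, v⟫| := by fun_prop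
      exact (hc.continuousAt.eventually_lt continuousAt_const (by simpa using h1)).mono
        fun t ht => ht.le
  obtain ⟨t, h1, h2⟩ := (h.and self_mem_nhdsWithin).exists
  have ht : 0 < t := h2
  refine ⟨t, ht, fun v hv => ?_, fun v hv => ?_⟩
  · rw [inner_add_left, real_inner_smul_left]
    refine (abs_add_le _ _).trans ?_
    rw [abs_mul, abs_of_pos ht]
    exact h1 v hv
  · rw [inner_sub_left, real_inner_smul_left]
    refine (abs_sub _ _).trans ?_
    rw [abs_mul, abs_of_pos ht]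
    exact h1 v hv

theorem freeze_point (C : Conf m) (G : Submodule ℝ (E m)) {w : E m → ℝ} (hw : IsProb C.V w)
    {J : Finset (E m)} (hJ : J ⊆ C.V) {y₀ : E m} (hy₀ : C.InK y₀) {ε : ℝ} (hε : 0 ≤ ε) {b : E m}
    (hb : b ∈ convexHull ℝ (C.face y₀ : Set (E m))) :
    ∃ y ∈ convexHull ℝ (C.face y₀ : Set (E m)), ‖G.starProjection (y - b)‖ ^ 2 ≤ 8 * ε * m ∧
      ∀ f ∈ C.face y, ∀ f' ∈ C.face y,
        ε * (qf C.V J w (f - f') + ‖f - f'‖ ^ 2) ≤ ‖G.starProjection (f - f')‖ ^ 2 := by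
  have hc : Continuous fun y : E m =>
      ε * (qf C.V J w y + ‖y‖ ^ 2) - ‖G.starProjection (y - b)‖ ^ 2 := by
    unfold qf
    fun_prop
  obtain ⟨y, hy, hmax⟩ := ((C.face y₀).finite_toSet.isCompact_convexHull ℝ).exists_isMaxOn
    ⟨b, hb⟩ hc.continuousOn
  have hF : y ∈ convexHull ℝ (C.F : Set (E m)) :=
    convexHull_mono (Finset.coe_subset.2 (C.face_subset y₀)) hy
  have hK := C.inK_of_hull hF
  refine ⟨y, hy, ?_, fun f hf f' hf' => ?_⟩
  · have h1 : ε * (qf C.V J w b + ‖b‖ ^ 2) - ‖G.starProjection (b - b)‖ ^ 2 ≤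
        ε * (qf C.V J w y + ‖y‖ ^ 2) - ‖G.starProjection (y - b)‖ ^ 2 := hmax hb
    rw [sub_self, map_zero, norm_zero] at h1
    have h2 := mul_nonneg hε (add_nonneg (qf_nonneg (J := J) hw b) (sq_nonneg ‖b‖))
    have h3 := mul_le_mul_of_nonneg_left
      (add_le_add (qf_le hw hJ hK) (hull_norm_sq_le hF C.normF)) hε
    have h4 := mul_nonneg hε (Nat.cast_nonneg (α := ℝ) m)
    linarith
  · have hu : ∀ v ∈ C.V, |⟪y, v⟫| = 1 → ⟪f - f', v⟫ = 0 := fun v hv h => by
      rw [inner_sub_left, (C.mem_face.1 hf).2 v hv h, (C.mem_face.1 hf').2 v hv h, sub_self]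
    generalize f - f' = u at hu ⊢
    obtain ⟨t, ht, k1, k2⟩ := freezea_step C hK hu
    have h0 : ∀ v ∈ C.V, |⟪y₀, v⟫| = 1 → ⟪y, v⟫ = ⟪y₀, v⟫ := fun v hv h =>
      hull_inner_eq hy fun f hf => (C.mem_face.1 hf).2 v hv h
    have m1 := C.mem_hull_face (y := y₀) k1 fun v hv h => by
      rw [inner_add_left, real_inner_smul_left, hu v hv (by rw [h0 v hv h, h]), h0 v hv h]
      simp
    have m2 := C.mem_hull_face (y := y₀) k2 fun v hv h => by
      rw [inner_sub_left, real_inner_smul_left, hu v hv (by rw [h0 v hv h, h]), h0 v hv h]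
      simp
    have h1 : ε * (qf C.V J w (y + t • u) + ‖y + t • u‖ ^ 2) -
        ‖G.starProjection (y + t • u - b)‖ ^ 2 ≤
        ε * (qf C.V J w y + ‖y‖ ^ 2) - ‖G.starProjection (y - b)‖ ^ 2 := hmax m1
    have h2 : ε * (qf C.V J w (y - t • u) + ‖y - t • u‖ ^ 2) -
        ‖G.starProjection (y - t • u - b)‖ ^ 2 ≤
        ε * (qf C.V J w y + ‖y‖ ^ 2) - ‖G.starProjection (y - b)‖ ^ 2 := hmax m2
    rw [add_sub_right_comm, map_add, map_smul] at h1
    rw [sub_right_comm, map_sub, map_smul] at h2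
    have e1 := qf_parallelogram C.V J w y (t • u)
    have e2 := freezea_par y (t • u)
    have e3 := freezea_par (G.starProjection (y - b)) (t • G.starProjection u)
    rw [qf_smul] at e1
    rw [norm_smul, mul_pow, Real.norm_eq_abs, sq_abs] at e2 e3
    have e4 : ε * (qf C.V J w (y + t • u) + ‖y + t • u‖ ^ 2) +
        ε * (qf C.V J w (y - t • u) + ‖y - t • u‖ ^ 2) =
        2 * (ε * (qf C.V J w y + ‖y‖ ^ 2)) + 2 * (t ^ 2 * (ε * (qf C.V J w u + ‖u‖ ^ 2))) := by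
      linear_combination ε * e1 + ε * e2
    exact le_of_mul_le_mul_left (a := t ^ 2) (by linarith) (by positivity)

theorem card_faces (C : Conf m) {J : Finset (E m)} (hJ : J ⊆ C.V) {y₀ : E m}
    (hrep : C.Rep (C.face y₀) J) :
    ∃ 𝓕 : Finset (Finset (E m)), 𝓕.card ≤ 3 ^ J.card ∧
      ∀ y ∈ convexHull ℝ (C.face y₀ : Set (E m)), C.face y ∈ 𝓕 := by
  classical
  refine ⟨(Fintype.piFinset fun _ : J => ({1, -1, 0} : Finset ℝ)).image fun σ =>
    (C.face y₀).filter fun f => ∀ j : J, σ j ≠ 0 → ⟪f, j.1⟫ = σ j, ?_, fun y hy => ?_⟩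
  · refine Finset.card_image_le.trans ?_
    rw [Fintype.card_piFinset, Finset.prod_const, Finset.card_univ, Fintype.card_coe]
    exact Nat.pow_le_pow_left Finset.card_le_three _
  · refine Finset.mem_image.2 ⟨fun j => if |⟪y, j.1⟫| = 1 then ⟪y, j.1⟫ else 0,
      Fintype.mem_piFinset.2 fun j => ?_, ?_⟩
    · split_ifs with h
      · rcases (abs_eq zero_le_one).1 h with h | h <;> simp [h]
      · simp
    · ext f
      rw [Finset.mem_filter]
      constructor
      · rintro ⟨h1, h2⟩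
        refine C.mem_face.2 ⟨C.face_subset _ h1, fun v hv h => ?_⟩
        obtain ⟨j, hj, hjv⟩ := hrep v hv
        have e : ⟪y, v - j⟫ = 0 := hull_inner_eq hy fun f hf => by
          rw [inner_sub_right, hjv f hf, sub_self]
        rw [inner_sub_right, sub_eq_zero] at e
        have h3 := h2 ⟨j, hj⟩
        rw [e] at h ⊢
        simp only [if_pos h] at h3
        rw [hjv f h1]
        exact h3 fun h0 => by simp [h0] at h
      · intro hf
        refine ⟨C.face_mono hy hf, fun j h => ?_⟩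
        by_cases h1 : |⟪y, j.1⟫| = 1
        · exact ((C.mem_face.1 hf).2 j (hJ j.2) h1).trans (if_pos h1).symm
        · exact absurd (if_neg h1) h

end Pool.Agent.MP_fcb590_an.Q2

end

section
/-!
Freezing with a convex bonus: a wide face with few coordinates has a subface with many vertices on which the
projection is bounded below.
`freeze_point`: maximise g y = eps (qf (y - y0) + norm (y - y0)^2) - norm (P y - P b)^2 over the compact set
hull (face y0). At the maximiser y, g y >= g b >= 0, and qf (y - y0) <= 4 m (`qf_le`), norm (y - y0)^2 <= 4 m.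
For f, f' in face y and u = f - f', the points y + t u, y - t u are in hull (face y0) for small t > 0
(`mem_hull_face`: inner u v = 0 if v is tight at y, in particular if it is tight at y0; for the finitely many other
v in V there is slack), and g (y + t u) + g (y - t u) <= 2 g y gives the claim by the parallelogram identities.
`card_faces`: for y in hull (face y0), face y is determined by the pattern j -> (inner y j = 1, = -1, or neither) on J:
face y = filter of face y0 by the tight coordinates in J (use `Rep` and `hull_inner_eq` with u = v - j).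
`freeze`: t = min (r/8) (1/2), choose N with (N+1) c > K log 3 + 1, s = t^N r / 4, eps with sqrt (8 eps) <= s / 8,
k >= 1 with 1 / sqrt k <= s / 8, psi = 1 / k. Apply `mult_packing` to the image of A under the projection P
(injective on A, D = 2 sqrt m, rho = r sqrt m). Each b in B is P b0 with b0 in hull A, inside hull (face y0). Suppose all
faces given by `freeze_point` have fewer than exp (psi m) vertices. Map b to (face y, g) with g from `maurey` applied
to y in hull (face y); norm (b - P (sum g / k)) <= s sqrt m / 4, so the map is injective, and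
exp ((N+1) c m) <= card B <= 3^(K m) exp (psi m k), a contradiction.
-/

set_option autoImplicit false

open scoped RealInnerProductSpace

namespace Pool.Agent.MP_fcb590_an.Q2

variable {m : ℕ}

theorem freeze_proj_norm_le (G : Submodule ℝ (E m)) (x : E m) : ‖G.starProjection x‖ ≤ ‖x‖ :=
  G.norm_starProjection_apply_le x

theorem freeze_norm_le {x : E m} {a : ℝ} (ha : 0 ≤ a) (h : ‖x‖ ^ 2 ≤ a ^ 2 * m) :
    ‖x‖ ≤ a * √m := by
  have hm : (0 : ℝ) ≤ m := Nat.cast_nonneg m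
  apply (pow_le_pow_iff_left₀ (norm_nonneg x) (by positivity) two_ne_zero).1
  rw [mul_pow, Real.sq_sqrt hm]
  exact h

theorem freeze_code (C : Conf m) (G : Submodule ℝ (E m)) {y b : E m} {a : ℝ} (ha : 0 < a)
    (hy : C.InK y) (hb : ‖G.starProjection (y - b)‖ ^ 2 ≤ a ^ 2 * m) {k : ℕ} (hk : 0 < k)
    (hka : 1 ≤ a ^ 2 * k) :
    ∃ g : Fin k → E m, (∀ i, g i ∈ C.face y) ∧
      ‖G.starProjection b - G.starProjection ((k : ℝ)⁻¹ • ∑ i, g i)‖ ≤ 2 * a * √m := by
  have hyf : y ∈ convexHull ℝ (C.face y : Set (E m)) := C.mem_hull_face hy fun _ _ _ => rfl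
  obtain ⟨g, hg, hn⟩ := maurey (C.face y : Set (E m)) (R := (m : ℝ))
    (fun s hs => C.normF s (C.face_subset y hs)) hyf k
  refine ⟨g, fun i => hg i, ?_⟩
  have hk' : (0 : ℝ) < k := Nat.cast_pos.2 hk
  have hm : (0 : ℝ) ≤ m := Nat.cast_nonneg m
  have h1 : ‖G.starProjection (y - b)‖ ≤ a * √m := freeze_norm_le ha.le hb
  have h2 : ‖(k : ℝ)⁻¹ • ∑ i, g i - y‖ ≤ a * √m := by
    apply freeze_norm_le ha.le
    have e : (k : ℝ)⁻¹ • ∑ i, g i - y = (k : ℝ)⁻¹ • (∑ i, g i - (k : ℝ) • y) := by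
      rw [smul_sub, smul_smul, inv_mul_cancel₀ hk'.ne', one_smul]
    rw [e, norm_smul, mul_pow, Real.norm_eq_abs, sq_abs]
    calc (k : ℝ)⁻¹ ^ 2 * ‖∑ i, g i - (k : ℝ) • y‖ ^ 2 ≤ (k : ℝ)⁻¹ ^ 2 * (k * m) :=
          mul_le_mul_of_nonneg_left hn (by positivity)
      _ = (k : ℝ)⁻¹ * 1 * m := by field_simp
      _ ≤ (k : ℝ)⁻¹ * (a ^ 2 * k) * m := by gcongr
      _ = a ^ 2 * m := by field_simp
  have e : G.starProjection b - G.starProjection ((k : ℝ)⁻¹ • ∑ i, g i) =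
      -(G.starProjection (y - b)) - G.starProjection ((k : ℝ)⁻¹ • ∑ i, g i - y) := by
    rw [map_sub, map_sub]; abel
  rw [e]
  calc ‖-(G.starProjection (y - b)) - G.starProjection ((k : ℝ)⁻¹ • ∑ i, g i - y)‖
      ≤ ‖-(G.starProjection (y - b))‖ + ‖G.starProjection ((k : ℝ)⁻¹ • ∑ i, g i - y)‖ :=
        norm_sub_le _ _
    _ ≤ a * √m + a * √m := by
        rw [norm_neg]
        exact add_le_add h1 ((freeze_proj_norm_le G _).trans h2)
    _ = 2 * a * √m := by ring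

theorem freeze_count {k : ℕ} (𝓕 : Finset (Finset (E m))) {L : ℝ} (hL : 0 ≤ L) (B : Finset (E m))
    (code : E m → Fin k → E m) (hinj : Set.InjOn code B)
    (hmem : ∀ b ∈ B, ∃ Φ ∈ 𝓕, (Φ.card : ℝ) ≤ L ∧ ∀ i, code b i ∈ Φ) :
    (B.card : ℝ) ≤ 𝓕.card * L ^ k := by
  classical
  set T : Finset (Fin k → E m) :=
    (𝓕.filter fun Φ => (Φ.card : ℝ) ≤ L).biUnion fun Φ => Fintype.piFinset fun _ => Φ with hT
  have h1 : B.card ≤ T.card := by
    apply Finset.card_le_card_of_injOn code _ hinj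
    intro b hb
    obtain ⟨Φ, hΦ, hc, hg⟩ := hmem b hb
    simp only [hT, Finset.coe_biUnion, Set.mem_iUnion, Finset.mem_coe]
    exact ⟨Φ, Finset.mem_filter.2 ⟨hΦ, hc⟩, Fintype.mem_piFinset.2 hg⟩
  have h2 : (T.card : ℝ) ≤ ∑ Φ ∈ 𝓕.filter fun Φ => (Φ.card : ℝ) ≤ L,
      ((Fintype.piFinset fun _ : Fin k => Φ).card : ℝ) := by
    exact_mod_cast Finset.card_biUnion_le
  have h3 : ∑ Φ ∈ 𝓕.filter fun Φ => (Φ.card : ℝ) ≤ L,
      ((Fintype.piFinset fun _ : Fin k => Φ).card : ℝ) ≤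
      ∑ Φ ∈ 𝓕.filter fun Φ => (Φ.card : ℝ) ≤ L, L ^ k := by
    apply Finset.sum_le_sum
    intro Φ hΦ
    rw [Fintype.card_piFinset_const]
    push_cast
    exact pow_le_pow_left₀ (Nat.cast_nonneg _) (Finset.mem_filter.1 hΦ).2 k
  have h4 : ∑ Φ ∈ 𝓕.filter fun Φ => (Φ.card : ℝ) ≤ L, L ^ k ≤ 𝓕.card * L ^ k := by
    rw [Finset.sum_const, nsmul_eq_mul]
    apply mul_le_mul_of_nonneg_right _ (pow_nonneg hL k)
    exact_mod_cast Finset.card_filter_le _ _
  calc (B.card : ℝ) ≤ T.card := by exact_mod_cast h1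
    _ ≤ _ := h2.trans (h3.trans h4)

theorem freeze_packing (C : Conf m) (hm : 1 ≤ m) (G : Submodule ℝ (E m)) {A : Finset (E m)}
    (hA : A ⊆ C.F) {r t : ℝ} (hr : 0 < r) (ht : 0 < t) (ht2 : t ≤ 1 / 2) (htr : t ≤ r / 8)
    (hs : ∀ f ∈ A, ∀ f' ∈ A, f ≠ f' → r * √m ≤ ‖G.starProjection (f - f')‖) (N : ℕ) :
    ∃ B : Finset (E m), B.card = A.card ^ (N + 1) ∧
      (∀ b ∈ B, ∃ b₀ ∈ convexHull ℝ (A : Set (E m)), G.starProjection b₀ = b) ∧
      ∀ a ∈ B, ∀ b ∈ B, a ≠ b → t ^ N * r / 4 * √m ≤ ‖a - b‖ := by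
  classical
  have hm' : (0 : ℝ) < m := by exact_mod_cast hm
  have hsq : 0 < √(m : ℝ) := Real.sqrt_pos.2 hm'
  have hinj : Set.InjOn (fun f : E m => G.starProjection f) A := by
    intro f hf f' hf' h
    by_contra hne
    have h1 := hs f hf f' hf' hne
    have h2 : G.starProjection (f - f') = 0 := by
      rw [map_sub]; exact sub_eq_zero.2 h
    rw [h2, norm_zero] at h1
    exact absurd h1 (not_le.2 (mul_pos hr hsq))
  have hn : ∀ f ∈ A, ‖G.starProjection f‖ ≤ √m := by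
    intro f hf
    have := freeze_norm_le (x := f) (a := 1) zero_le_one (by simpa using C.normF f (hA hf))
    exact (freeze_proj_norm_le G f).trans (by simpa using this)
  obtain ⟨B, hB, hcard, hsep⟩ := mult_packing (A.image fun f => G.starProjection f)
    (ρ := r * √m) (D := 2 * √m) (t := t) (mul_pos hr hsq) ht ht2
    (by
      calc 2 * √(m : ℝ) * t ≤ 2 * √(m : ℝ) * (r / 8) := by gcongr
        _ = r * √m / 4 := by ring)
    (by
      intro a ha b hb
      obtain ⟨f, hf, rfl⟩ := Finset.mem_image.1 ha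
      obtain ⟨f', hf', rfl⟩ := Finset.mem_image.1 hb
      calc _ ≤ ‖G.starProjection f‖ + ‖G.starProjection f'‖ := norm_sub_le _ _
        _ ≤ √m + √m := add_le_add (hn f hf) (hn f' hf')
        _ = 2 * √m := by ring)
    (by
      intro a ha b hb hab
      obtain ⟨f, hf, rfl⟩ := Finset.mem_image.1 ha
      obtain ⟨f', hf', rfl⟩ := Finset.mem_image.1 hb
      rw [← map_sub]
      exact hs f hf f' hf' fun h => hab (by rw [h])) N
  refine ⟨B, ?_, ?_, ?_⟩
  · rw [hcard, Finset.card_image_of_injOn hinj]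
  · intro b hb
    have h1 := hB hb
    rw [Finset.coe_image] at h1
    have h2 := LinearMap.image_convexHull (G.starProjection : E m →ₗ[ℝ] E m) (A : Set (E m))
    have h3 : b ∈ (G.starProjection : E m →ₗ[ℝ] E m) '' convexHull ℝ (A : Set (E m)) := by
      rw [h2]; exact h1
    obtain ⟨b₀, hb₀, e⟩ := h3
    exact ⟨b₀, hb₀, e⟩
  · intro a ha b hb hab
    have := hsep a ha b hb hab
    calc t ^ N * r / 4 * √(m : ℝ) = t ^ N * (r * √m) / 4 := by ring
      _ ≤ _ := this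

theorem freeze {K c r : ℝ} (hK : 0 < K) (hc : 0 < c) (hr : 0 < r) :
    ∃ ε ψ : ℝ, 0 < ε ∧ 0 < ψ ∧ ∀ (m : ℕ) (C : Conf m) (G : Submodule ℝ (E m)) (w : E m → ℝ)
      (J A : Finset (E m)) (y₀ : E m), 1 ≤ m → IsProb C.V w → J ⊆ C.V → (J.card : ℝ) ≤ K * m →
      C.InK y₀ → C.Rep (C.face y₀) J → A ⊆ C.face y₀ → Real.exp (c * m) ≤ A.card →
      (∀ f ∈ A, ∀ f' ∈ A, f ≠ f' → r * √m ≤ ‖G.starProjection (f - f')‖) →
      ∃ y ∈ convexHull ℝ (C.face y₀ : Set (E m)), Real.exp (ψ * m) ≤ (C.face y).card ∧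
        ∀ f ∈ C.face y, ∀ f' ∈ C.face y,
          ε * (qf C.V J w (f - f') + ‖f - f'‖ ^ 2) ≤ ‖G.starProjection (f - f')‖ ^ 2 := by
  obtain ⟨N, hN⟩ : ∃ N : ℕ, K * Real.log 3 + 1 < (N + 1) * c := by
    obtain ⟨N, hN⟩ := exists_nat_gt ((K * Real.log 3 + 1) / c)
    refine ⟨N, ?_⟩
    rw [div_lt_iff₀ hc] at hN
    linarith
  set t : ℝ := min (r / 8) (1 / 2) with htdef
  have ht : 0 < t := lt_min (by positivity) (by norm_num)
  have ht2 : t ≤ 1 / 2 := min_le_right _ _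
  have htr : t ≤ r / 8 := min_le_left _ _
  set s : ℝ := t ^ N * r / 4 with hsdef
  have hs : 0 < s := by positivity
  set a : ℝ := s / 8 with hadef
  have ha : 0 < a := by positivity
  obtain ⟨k, hk⟩ := exists_nat_gt (1 / a ^ 2)
  have hk' : (0 : ℝ) < k := lt_trans (by positivity) hk
  have hk0 : 0 < k := Nat.cast_pos.1 hk'
  have hka : 1 ≤ a ^ 2 * k := by
    rw [div_lt_iff₀ (by positivity)] at hk
    linarith
  refine ⟨a ^ 2 / 8, 1 / k, by positivity, by positivity, ?_⟩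
  intro m C G w J A y₀ hm hw hJ hJK hy₀ hrep hA hAc hsep
  by_contra hcon
  have hm' : (0 : ℝ) < m := by exact_mod_cast hm
  have hsq : 0 < √(m : ℝ) := Real.sqrt_pos.2 hm'
  obtain ⟨B, hBc, hBh, hBs⟩ := freeze_packing C hm G (hA.trans (C.face_subset y₀)) hr ht ht2 htr
    hsep N
  obtain ⟨𝓕, h𝓕c, h𝓕⟩ := card_faces C hJ hrep
  have key : ∀ b : E m, ∃ g : Fin k → E m, b ∈ B →
      (∃ Φ ∈ 𝓕, (Φ.card : ℝ) ≤ Real.exp (1 / k * m) ∧ ∀ i, g i ∈ Φ) ∧
      ‖b - G.starProjection ((k : ℝ)⁻¹ • ∑ i, g i)‖ ≤ 2 * a * √m := by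
    intro b
    by_cases hb : b ∈ B
    · obtain ⟨b₀, hb₀, rfl⟩ := hBh b hb
      have hb₁ : b₀ ∈ convexHull ℝ (C.face y₀ : Set (E m)) :=
        convexHull_mono (Finset.coe_subset.2 hA) hb₀
      obtain ⟨y, hy, hy1, hy2⟩ := freeze_point C G hw hJ hy₀ (ε := a ^ 2 / 8) (by positivity) hb₁
      have hyK : C.InK y :=
        C.inK_of_hull (convexHull_mono (Finset.coe_subset.2 (C.face_subset y₀)) hy)
      obtain ⟨g, hg, hn⟩ := freeze_code C G ha hyK (b := b₀) (by linarith) hk0 hka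
      refine ⟨g, fun _ => ⟨⟨C.face y, h𝓕 y hy, ?_, hg⟩, hn⟩⟩
      by_contra hlt
      exact hcon ⟨y, hy, (not_le.1 hlt).le, hy2⟩
    · exact ⟨fun _ => 0, fun h => absurd h hb⟩
  choose code hcode using key
  have hinj : Set.InjOn code B := by
    intro b hb b' hb' h
    by_contra hne
    have h1 : s * √(m : ℝ) ≤ ‖b - b'‖ := hBs b hb b' hb' hne
    have h2 := (hcode b hb).2
    have h3 := (hcode b' hb').2
    rw [h] at h2
    have h4 : ‖b - b'‖ ≤ 2 * a * √m + 2 * a * √m := by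
      have e : b - b' = (b - G.starProjection ((k : ℝ)⁻¹ • ∑ i, code b' i)) -
          (b' - G.starProjection ((k : ℝ)⁻¹ • ∑ i, code b' i)) := by abel
      rw [e]
      exact (norm_sub_le _ _).trans (add_le_add h2 h3)
    have h5 : 0 < s * √(m : ℝ) := mul_pos hs hsq
    have h6 : 2 * a * √(m : ℝ) + 2 * a * √m = s * √m / 2 := by rw [hadef]; ring
    linarith
  have hcount := freeze_count 𝓕 (Real.exp_pos (1 / k * m)).le B code hinj
    fun b hb => (hcode b hb).1
  have e1 : Real.exp (1 / k * m) ^ k = Real.exp m := by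
    rw [← Real.exp_nat_mul]; congr 1; field_simp
  have e2 : (𝓕.card : ℝ) ≤ Real.exp (K * Real.log 3 * m) := by
    have h3 : (0 : ℝ) ≤ Real.log 3 := Real.log_nonneg (by norm_num)
    calc (𝓕.card : ℝ) ≤ (3 : ℝ) ^ J.card := by exact_mod_cast h𝓕c
      _ = Real.exp (J.card * Real.log 3) := by
          rw [Real.exp_nat_mul, Real.exp_log (by norm_num)]
      _ ≤ Real.exp (K * Real.log 3 * m) := by
          apply Real.exp_le_exp.2
          calc (J.card : ℝ) * Real.log 3 ≤ K * m * Real.log 3 :=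
                mul_le_mul_of_nonneg_right hJK h3
            _ = K * Real.log 3 * m := by ring
  have e3 : Real.exp ((N + 1) * c * m) ≤ (B.card : ℝ) := by
    rw [hBc]
    push_cast
    calc Real.exp ((N + 1) * c * m) = Real.exp (c * m) ^ (N + 1) := by
          rw [← Real.exp_nat_mul]; congr 1; push_cast; ring
      _ ≤ _ := pow_le_pow_left₀ (Real.exp_pos _).le hAc _
  have e4 : Real.exp ((N + 1) * c * m) ≤ Real.exp ((K * Real.log 3 + 1) * m) := by
    calc _ ≤ (B.card : ℝ) := e3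
      _ ≤ 𝓕.card * Real.exp (1 / k * m) ^ k := hcount
      _ ≤ Real.exp (K * Real.log 3 * m) * Real.exp m := by
          rw [e1]; exact mul_le_mul_of_nonneg_right e2 (Real.exp_pos _).le
      _ = _ := by rw [← Real.exp_add]; congr 1; ring
  have e5 := Real.exp_le_exp.1 e4
  have e6 := mul_lt_mul_of_pos_right hN hm'
  linarith

end Pool.Agent.MP_fcb590_an.Q2

end

section
/-!
Regularisation and extraction for the short vector lemma.
`k1_reg`: among nonempty A inside Phi maximise log card A + lam qf (avg A) + kappa card (fr A), where fr A is the set of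
j in J on which all f in A agree (monotone: grows when A shrinks). 0 <= qf (avg A) <= m (`qf_le`).
For a proper nonempty A' with complement A'' and p, q their proportions, average the two maximality inequalities and use
`avg_split`, `qf_convex_eq`: lam (p qf (avg A' - avg A) + q qf (avg A'' - avg A)) + kappa (gain) <= p log (1/p) + q log (1/q).
With `ent_compl_le` this gives the second claim. For a non-frozen j split by the sign of inner f j: both parts gain kappa,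
so kappa <= 3 sqrt (p q) (`bin_ent_le`), hence min p q >= kappa^2 / 9 and |inner (avg A) j| = |p - q| = 1 - 2 min p q.
If all j in J were frozen, then by `Rep` and `sep` A would be a single point, but
log card A >= log card Phi - lam m - kappa card J > 0.
`k1_extract`: y' = f - t U with small t > 0 satisfies `InK` and agrees with y on the tight coordinates, so it is a convex
combination sum a g • g of vertices g of face y. For every v, sum a g |inner (f - g) v| = t |inner U v| because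
inner f v * inner (f - g) v >= 0. Hence sum a g l1 (f - g) = t l1 U and 2 sum over (g differing at i) a g = t |inner U i|
>= t a. Pick g differing at i with the smallest l1 (f - g).
-/

set_option autoImplicit false

open scoped RealInnerProductSpace

namespace Pool.Agent.MP_fcb590_an.Q2

variable {m : ℕ}

open Classical in
/-- the frozen coordinates -/
noncomputable def k1a_fr (J A : Finset (E m)) : Finset (E m) :=
  J.filter fun j => ∀ f ∈ A, ∀ f' ∈ A, ⟪f, j⟫ = ⟪f', j⟫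

theorem k1a_fr_mono (J : Finset (E m)) {A A' : Finset (E m)} (h : A' ⊆ A) :
    k1a_fr J A ⊆ k1a_fr J A' := fun j hj => by
  rw [k1a_fr, Finset.mem_filter] at hj ⊢
  exact ⟨hj.1, fun f hf f' hf' => hj.2 f (h hf) f' (h hf')⟩

theorem k1a_split [DecidableEq (E m)] (V J : Finset (E m)) (w : E m → ℝ) {A A' : Finset (E m)}
    (h : A' ⊆ A) (h1 : A'.Nonempty) (h2 : (A \ A').Nonempty) {lam g : ℝ}
    (e1 : Real.log A'.card + lam * qf V J w (avg A') + g ≤
      Real.log A.card + lam * qf V J w (avg A))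
    (e2 : Real.log (A \ A').card + lam * qf V J w (avg (A \ A')) + g ≤
      Real.log A.card + lam * qf V J w (avg A)) :
    ∃ p q : ℝ, 0 < p ∧ 0 < q ∧ p + q = 1 ∧ 1 / p = A.card / A'.card ∧
      avg A = p • avg A' + q • avg (A \ A') ∧
      lam * (p * qf V J w (avg A' - avg A) + q * qf V J w (avg (A \ A') - avg A)) + g ≤
        p * Real.log (1 / p) + q * Real.log (1 / q) := by
  have a0 : (0 : ℝ) < A.card := Nat.cast_pos.2 (h1.mono h).card_pos
  have a1 : (0 : ℝ) < A'.card := Nat.cast_pos.2 h1.card_pos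
  have a2 : (0 : ℝ) < (A \ A').card := Nat.cast_pos.2 h2.card_pos
  have a3 : ((A \ A').card : ℝ) + A'.card = A.card := by
    exact_mod_cast Finset.card_sdiff_add_card_eq_card h
  have hpq : (A'.card : ℝ) / A.card + (A \ A').card / A.card = 1 := by
    rw [← add_div, add_comm, a3, div_self a0.ne']
  have ha : avg A = ((A'.card : ℝ) / A.card) • avg A' +
      (((A \ A').card : ℝ) / A.card) • avg (A \ A') := by
    rw [div_eq_inv_mul, div_eq_inv_mul, mul_smul, mul_smul, ← smul_add, ← avg_split h, smul_smul,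
      inv_mul_cancel₀ a0.ne', one_smul]
  have hp := div_pos a1 a0
  have hq := div_pos a2 a0
  refine ⟨_, _, hp, hq, hpq, one_div_div _ _, ha, ?_⟩
  have hc := qf_convex_eq V J w hpq (avg A') (avg (A \ A'))
  rw [← ha] at hc
  rw [one_div_div, one_div_div, Real.log_div a0.ne' a1.ne', Real.log_div a0.ne' a2.ne']
  have b1 := mul_le_mul_of_nonneg_left e1 hp.le
  have b2 := mul_le_mul_of_nonneg_left e2 hq.le
  generalize (A'.card : ℝ) / A.card = p at *
  generalize ((A \ A').card : ℝ) / A.card = q at *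
  obtain rfl : q = 1 - p := by linarith
  have b3 := congrArg (lam * ·) hc
  linarith

theorem k1_reg (C : Conf m) {w : E m → ℝ} (hw : IsProb C.V w) {J Φ : Finset (E m)} (hJ : J ⊆ C.V)
    (hΦ : Φ ⊆ C.F) (hne : Φ.Nonempty) (hrep : C.Rep Φ J) {lam κ : ℝ} (hlam : 0 < lam) (hκ : 0 < κ)
    (hbig : lam * m + κ * J.card < Real.log Φ.card) :
    ∃ A ⊆ Φ, A.Nonempty ∧ (∃ i ∈ J, ∃ f ∈ A, ∃ f' ∈ A, ⟪f, i⟫ ≠ ⟪f', i⟫) ∧
      (∀ A' ⊆ A, A'.Nonempty →
        lam * qf C.V J w (avg A' - avg A) ≤ Real.log (A.card / A'.card) + 1) ∧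
      ∀ j ∈ J, (∃ f ∈ A, ∃ f' ∈ A, ⟪f, j⟫ ≠ ⟪f', j⟫) → |⟪avg A, j⟫| ≤ 1 - 2 * (κ ^ 2 / 9) := by
  classical
  obtain ⟨A, hA, hmax⟩ := Finset.exists_max_image (Φ.powerset.filter Finset.Nonempty)
    (fun A => Real.log A.card + lam * qf C.V J w (avg A) + κ * (k1a_fr J A).card)
    ⟨Φ, Finset.mem_filter.2 ⟨Finset.mem_powerset_self _, hne⟩⟩
  rw [Finset.mem_filter, Finset.mem_powerset] at hA
  have hm : ∀ A' ⊆ A, A'.Nonempty → ∀ g : ℕ, (k1a_fr J A).card + g ≤ (k1a_fr J A').card →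
      Real.log A'.card + lam * qf C.V J w (avg A') + κ * g ≤
        Real.log A.card + lam * qf C.V J w (avg A) := by
    intro A' h h' g hg
    have h1 := hmax A' (Finset.mem_filter.2 ⟨Finset.mem_powerset.2 (h.trans hA.1), h'⟩)
    have h2 := mul_le_mul_of_nonneg_left (Nat.cast_le (α := ℝ).2 hg) hκ.le
    push_cast at h2
    linarith
  refine ⟨A, hA.1, hA.2, ?_, fun A' h h' => ?_, fun j hj hf => ?_⟩
  · by_contra hc
    push Not at hc
    have h1 : A.card = 1 := by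
      refine le_antisymm (Finset.card_le_one.2 fun f hf f' hf' => sub_eq_zero.1 (C.sep ?_))
        hA.2.card_pos
      intro v hv
      obtain ⟨j, hj, e⟩ := hrep v hv
      rw [inner_sub_left, e f (hA.1 hf), e f' (hA.1 hf'), hc j hj f hf f' hf', sub_self]
    have h2 := hmax Φ (Finset.mem_filter.2 ⟨Finset.mem_powerset_self _, hne⟩)
    have h3 := mul_le_mul_of_nonneg_left (qf_le hw hJ (C.inK_of_hull
      (convexHull_mono (Finset.coe_subset.2 (hA.1.trans hΦ)) (avg_mem_hull hA.2)))) hlam.le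
    have h4 := mul_nonneg hlam.le (qf_nonneg (J := J) hw (avg Φ))
    have h5 := mul_nonneg hκ.le (Nat.cast_nonneg (α := ℝ) (k1a_fr J Φ).card)
    have h6 : κ * (k1a_fr J A).card ≤ κ * J.card := mul_le_mul_of_nonneg_left
      (Nat.cast_le.2 (Finset.card_le_card (Finset.filter_subset _ J))) hκ.le
    rw [h1, Nat.cast_one, Real.log_one] at h2
    linarith
  · rcases (A \ A').eq_empty_or_nonempty with h2 | h2
    · obtain rfl : A = A' := (Finset.sdiff_eq_empty_iff_subset.1 h2).antisymm h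
      rw [div_self (Nat.cast_pos.2 h'.card_pos).ne']
      simp [qf]
    obtain ⟨p, q, hp, hq, hpq, e, -, H⟩ := k1a_split C.V J w h h' h2
      (hm _ h h' 0 (Finset.card_le_card (k1a_fr_mono J h)))
      (hm _ Finset.sdiff_subset h2 0 (Finset.card_le_card (k1a_fr_mono J Finset.sdiff_subset)))
    have h3 := ent_compl_le hp.le hq hpq
    have h4 := mul_nonneg hlam.le (mul_nonneg hq.le (qf_nonneg (J := J) hw (avg (A \ A') - avg A)))
    rw [← e]
    refine le_of_mul_le_mul_left ?_ hp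
    push_cast at H
    linarith
  · have hv : ∀ f ∈ A, ⟪f, j⟫ = 1 ∨ ⟪f, j⟫ = -1 := fun f hf => C.pm f (hΦ (hA.1 hf)) j (hJ hj)
    have h1 : ∀ f ∈ A.filter fun f => ⟪f, j⟫ = 1, ⟪f, j⟫ = 1 := fun f hf =>
      (Finset.mem_filter.1 hf).2
    have h2 : ∀ f ∈ A \ A.filter fun f => ⟪f, j⟫ = 1, ⟪f, j⟫ = -1 := fun f hf => by
      obtain ⟨a, b⟩ := Finset.mem_sdiff.1 hf
      exact (hv f a).resolve_left fun e => b (Finset.mem_filter.2 ⟨a, e⟩)
    have h3 : ∀ A' ⊆ A, ∀ c : ℝ, (∀ f ∈ A', ⟪f, j⟫ = c) →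
        (k1a_fr J A).card + 1 ≤ (k1a_fr J A').card := fun A' h c hc => by
      refine Finset.card_lt_card ((Finset.ssubset_iff_of_subset (k1a_fr_mono J h)).2 ⟨j, ?_, ?_⟩)
      · exact Finset.mem_filter.2 ⟨hj, fun f a f' a' => (hc f a).trans (hc f' a').symm⟩
      · obtain ⟨f, a, f', a', hn⟩ := hf
        exact fun hh => hn ((Finset.mem_filter.1 hh).2 f a f' a')
    have h4 : (A.filter fun f => ⟪f, j⟫ = 1).Nonempty := by
      by_contra hc
      obtain ⟨f, a, f', a', hn⟩ := hf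
      rw [Finset.not_nonempty_iff_eq_empty.1 hc, Finset.sdiff_empty] at h2
      exact hn ((h2 f a).trans (h2 f' a').symm)
    have h5 : (A \ A.filter fun f => ⟪f, j⟫ = 1).Nonempty := by
      by_contra hc
      obtain ⟨f, a, f', a', hn⟩ := hf
      have := Finset.sdiff_eq_empty_iff_subset.1 (Finset.not_nonempty_iff_eq_empty.1 hc)
      exact hn ((h1 f (this a)).trans (h1 f' (this a')).symm)
    obtain ⟨p, q, hp, hq, hpq, -, e, H⟩ := k1a_split C.V J w (Finset.filter_subset _ A) h4 h5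
      (hm _ (Finset.filter_subset _ A) h4 1 (h3 _ (Finset.filter_subset _ A) _ h1))
      (hm _ Finset.sdiff_subset h5 1 (h3 _ Finset.sdiff_subset _ h2))
    have h6 : κ / 3 ≤ √(p * q) := by
      have := (le_add_of_nonneg_left (mul_nonneg hlam.le (add_nonneg
        (mul_nonneg hp.le (qf_nonneg hw _)) (mul_nonneg hq.le (qf_nonneg hw _))))).trans
        (H.trans (bin_ent_le hp hq hpq))
      push_cast at this
      linarith
    have h7 := (Real.le_sqrt' (by positivity)).1 h6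
    have h8 : p * q ≤ p := mul_le_of_le_one_right hp.le (by linarith)
    have h9 : p * q ≤ q := mul_le_of_le_one_left hq.le (by linarith)
    rw [e, inner_add_left, inner_smul_left, inner_smul_left, hull_inner_eq (avg_mem_hull h4) h1,
      hull_inner_eq (avg_mem_hull h5) h2, abs_le]
    simp only [conj_trivial]
    constructor <;> linarith

theorem k1_extract (C : Conf m) {w : E m → ℝ} (hw : IsProb C.V w) {J : Finset (E m)} (hJ : J ⊆ C.V)
    {y f U i : E m} (hf : f ∈ C.face y) (hi : i ∈ C.V) {a : ℝ} (ha : 0 < a)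
    (hsign : ∀ v ∈ C.V, 0 ≤ ⟪f, v⟫ * ⟪U, v⟫) (htight : ∀ v ∈ C.V, |⟪y, v⟫| = 1 → ⟪U, v⟫ = 0)
    (hUi : a ≤ ⟪f, i⟫ * ⟪U, i⟫) :
    ∃ f' ∈ C.face y, ⟪f', i⟫ ≠ ⟪f, i⟫ ∧ a * l1 C.V J w (f - f') ≤ 2 * l1 C.V J w U := by
  classical
  obtain ⟨hfF, hft⟩ := C.mem_face.1 hf
  obtain ⟨t, ht, htU⟩ : ∃ t : ℝ, 0 < t ∧ ∀ v ∈ C.V, t * |⟪U, v⟫| ≤ 1 := by
    refine ⟨(‖U‖ + 1)⁻¹, by positivity, fun v hv => ?_⟩
    rw [inv_mul_le_iff₀ (by positivity)]
    have := (abs_real_inner_le_norm U v).trans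
      (mul_le_of_le_one_right (norm_nonneg U) (C.normV v hv))
    linarith
  have hfU : ∀ v ∈ C.V, ⟪f, v⟫ * ⟪U, v⟫ = |⟪U, v⟫| := fun v hv => by
    rw [← abs_of_nonneg (hsign v hv), abs_mul]
    rcases C.pm f hfF v hv with e | e <;> simp [e]
  have hy : ∀ v, ⟪f - t • U, v⟫ = ⟪f, v⟫ - t * ⟪U, v⟫ := fun v => by
    rw [inner_sub_left, inner_smul_left, conj_trivial]
  obtain ⟨c, c0, c1, c2⟩ := Finset.mem_convexHull'.1 (C.mem_hull_face (y := y) (y' := f - t • U)
    (fun v hv => by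
      have h1 := htU v hv
      have h2 := mul_nonneg ht.le (abs_nonneg ⟪U, v⟫)
      rw [← hfU v hv] at h1 h2
      rw [hy, abs_le]
      rcases C.pm f hfF v hv with e | e <;> rw [e] at h1 h2 ⊢ <;> constructor <;> linarith)
    (fun v hv h => by rw [hy, htight v hv h, hft v hv h, mul_zero, sub_zero]))
  have key : ∀ v ∈ C.V, ∑ g ∈ C.face y, c g * |⟪f - g, v⟫| = t * |⟪U, v⟫| := fun v hv => by
    have h1 := congrArg (fun x => ⟪f, v⟫ * ⟪x, v⟫) c2
    simp only [sum_inner, inner_smul_left, conj_trivial, hy, Finset.mul_sum] at h1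
    have h2 : ∀ g ∈ C.face y, c g * |⟪f - g, v⟫| = c g - ⟪f, v⟫ * (c g * ⟪g, v⟫) := fun g hg => by
      rw [inner_sub_left]
      rcases C.pm f hfF v hv with e | e <;> rcases C.pm g (C.face_subset y hg) v hv with e' | e' <;>
        rw [e, e'] <;> norm_num <;> ring
    rw [Finset.sum_congr rfl h2, Finset.sum_sub_distrib, c1, h1, ← hfU v hv]
    rcases C.pm f hfF v hv with e | e <;> rw [e] <;> ring
  have k1 : ∑ g ∈ C.face y, c g * l1 C.V J w (f - g) = t * l1 C.V J w U := by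
    have e1 : ∑ g ∈ C.face y, c g * ∑ v ∈ C.V, w v * |⟪f - g, v⟫| =
        t * ∑ v ∈ C.V, w v * |⟪U, v⟫| := by
      simp only [Finset.mul_sum]
      rw [Finset.sum_comm]
      refine Finset.sum_congr rfl fun v hv => ?_
      rw [mul_left_comm, ← key v hv, Finset.mul_sum]
      exact Finset.sum_congr rfl fun g _ => mul_left_comm _ _ _
    have e2 : ∑ g ∈ C.face y, c g * ∑ v ∈ J, |⟪f - g, v⟫| = t * ∑ v ∈ J, |⟪U, v⟫| := by
      simp only [Finset.mul_sum]
      rw [Finset.sum_comm]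
      exact Finset.sum_congr rfl fun v hv => key v (hJ hv)
    unfold l1
    rw [mul_add, mul_left_comm t, mul_left_comm t, ← e1, ← e2, Finset.mul_sum, Finset.mul_sum,
      ← Finset.sum_add_distrib]
    exact Finset.sum_congr rfl fun g _ => by ring
  have k2 : t * a ≤ 2 * ∑ g ∈ (C.face y).filter fun g => ⟪g, i⟫ ≠ ⟪f, i⟫, c g := by
    refine (mul_le_mul_of_nonneg_left hUi ht.le).trans ?_
    rw [hfU i hi, ← key i hi, Finset.sum_filter, Finset.mul_sum]
    refine Finset.sum_le_sum fun g hg => ?_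
    rw [inner_sub_left]
    rcases C.pm f hfF i hi with e | e <;> rcases C.pm g (C.face_subset y hg) i hi with e' | e' <;>
      rw [e, e'] <;> norm_num [mul_comm]
  obtain ⟨g, hg, hmin⟩ := Finset.exists_min_image ((C.face y).filter fun g => ⟪g, i⟫ ≠ ⟪f, i⟫)
    (fun g => l1 C.V J w (f - g)) (Finset.nonempty_of_sum_ne_zero (f := c) fun h => by
      have := mul_pos ht ha
      rw [h] at k2
      linarith)
  refine ⟨g, (Finset.mem_filter.1 hg).1, (Finset.mem_filter.1 hg).2, le_of_mul_le_mul_left ?_ ht⟩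
  have k3 : (∑ g ∈ (C.face y).filter fun g => ⟪g, i⟫ ≠ ⟪f, i⟫, c g) * l1 C.V J w (f - g) ≤
      t * l1 C.V J w U := by
    rw [← k1, Finset.sum_mul]
    exact (Finset.sum_le_sum fun x hx => mul_le_mul_of_nonneg_left (hmin x hx)
      (c0 x (Finset.mem_filter.1 hx).1)).trans (Finset.sum_le_sum_of_subset_of_nonneg
        (Finset.filter_subset _ _) fun x hx _ => mul_nonneg (c0 x hx) (l1_nonneg hw _))
  have k4 := mul_le_mul_of_nonneg_right k2 (l1_nonneg (J := J) hw (f - g))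
  linarith

end Pool.Agent.MP_fcb590_an.Q2

end

section
/-!
The exploration and the short vector lemma.
`k1_explore`: induction on L with the invariant: a nonempty A_L inside A, log (card A / card A_L) + 1 <= 2 (1 + b)^L with
b = 2 K / (lam gamma^2); i is constant on A_L; a vector X = sum of the x_r = avg A_r - avg A (r < L) with the properties in
the statement for every f in A_L, where for each j in J either (j is constant on A_L and
inner f j * inner X j >= - (gamma L + 2)) or |inner X j| <= gamma L. Start: A_0 = the larger of the two sign classes of i.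
Step: x = avg A_L - avg A, lam qf x <= 2 (1+b)^L, so l1 x <= zeta (`l1_le_of_qf`), and the set B of j in J with
|inner x j| > gamma has card B * gamma^2 * m <= 2 card J * qf x (`sum_J_le_qf`), card B <= b * 2 (1+b)^L. Let A_(L+1) be
the most popular sign pattern on B, card A_(L+1) >= card A_L / 2^card B (pigeonhole; log 2 <= 1). For j constant on A_L,
inner x j = inner f j - inner (avg A) j has the sign of inner f j; always |inner x j| <= 2.
`k1`: lam = psi / 4, kappa = psi / (4 K), delta = kappa^2 / 9, then gamma and L with beta := (gamma + 2 / L) / (2 delta)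
<= theta delta / 4, zeta = theta delta / 2. U = L⁻¹ • X + beta • (f - avg A). For v in V take j from `Rep`
(inner X v = inner X j, inner f v = inner f j, same for avg A); if j is constant on A both terms vanish, otherwise
beta * inner f j * inner (f - avg A) j >= 2 beta delta. inner f i * inner U i >= 2 delta; l1 U <= zeta + 2 beta
<= theta delta (`l1_le`). `k1_extract` with a = 2 delta gives l1 (f - f') <= theta, then `qf_sub_eq`; positivity from
`sum_J_le_qf`.
-/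

set_option autoImplicit false

open scoped RealInnerProductSpace

namespace Pool.Agent.MP_fcb590_an.Q2

variable {m : ℕ}

theorem explore_pigeon (C : Conf m) {A : Finset (E m)} (hA : A ⊆ C.F) (hne : A.Nonempty)
    (B : Finset (E m)) (hB : B ⊆ C.V) :
    ∃ A' ⊆ A, A'.Nonempty ∧ A.card ≤ 2 ^ B.card * A'.card ∧
      ∀ j ∈ B, ∀ f ∈ A', ∀ f' ∈ A', ⟪f, j⟫ = ⟪f', j⟫ := by
  classical
  induction B using Finset.induction_on with
  | empty => exact ⟨A, subset_rfl, hne, by simp, by simp⟩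
  | insert j B hj ih =>
    obtain ⟨A', hA', hne', hc, hconst⟩ := ih ((Finset.subset_insert _ _).trans hB)
    have hjV : j ∈ C.V := hB (Finset.mem_insert_self _ _)
    have hsplit := Finset.card_filter_add_card_filter_not (s := A') (fun f => ⟪f, j⟫ = 1)
    have hpos := hne'.card_pos
    have key : ∀ A'' ⊆ A', A'.card ≤ 2 * A''.card → (∀ f ∈ A'', ∀ f' ∈ A'', ⟪f, j⟫ = ⟪f', j⟫) →
        ∃ A'' ⊆ A, A''.Nonempty ∧ A.card ≤ 2 ^ (insert j B).card * A''.card ∧
          ∀ j' ∈ insert j B, ∀ f ∈ A'', ∀ f' ∈ A'', ⟪f, j'⟫ = ⟪f', j'⟫ := by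
      intro A'' h1 h2 h3
      refine ⟨A'', h1.trans hA', Finset.card_pos.1 (by omega), ?_, ?_⟩
      · rw [Finset.card_insert_of_notMem hj, pow_succ, mul_assoc]
        exact hc.trans (Nat.mul_le_mul_left _ h2)
      · intro j' hj' f hf f' hf'
        rcases Finset.mem_insert.1 hj' with rfl | hj'
        · exact h3 f hf f' hf'
        · exact hconst j' hj' f (h1 hf) f' (h1 hf')
    by_cases h : A'.card ≤ 2 * (A'.filter fun f => ⟪f, j⟫ = 1).card
    · refine key _ (Finset.filter_subset _ _) h fun f hf f' hf' => ?_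
      rw [(Finset.mem_filter.1 hf).2, (Finset.mem_filter.1 hf').2]
    · refine key (A'.filter fun f => ¬ ⟪f, j⟫ = 1) (Finset.filter_subset _ _) (by omega)
        fun f hf f' hf' => ?_
      have h1 := Finset.mem_filter.1 hf
      have h2 := Finset.mem_filter.1 hf'
      rw [(C.pm f (hA (hA' h1.1)) j hjV).resolve_left h1.2,
        (C.pm f' (hA (hA' h2.1)) j hjV).resolve_left h2.2]

theorem explore_log {a a' a'' : ℕ} {k : ℕ} (ha : 0 < a) (ha' : 0 < a') (ha'' : 0 < a'')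
    (h : a' ≤ 2 ^ k * a'') : Real.log ((a : ℝ) / a'') ≤ Real.log ((a : ℝ) / a') + k := by
  have h0 : (0 : ℝ) < a := by exact_mod_cast ha
  have h1 : (0 : ℝ) < a' := by exact_mod_cast ha'
  have h2 : (0 : ℝ) < a'' := by exact_mod_cast ha''
  have h3 : (a' : ℝ) ≤ 2 ^ k * a'' := by exact_mod_cast h
  have h4 : Real.log (a' : ℝ) ≤ k * Real.log 2 + Real.log a'' := by
    rw [← Real.log_pow, ← Real.log_mul (by positivity) h2.ne']
    exact Real.log_le_log h1 h3
  have h5 : Real.log 2 ≤ 1 := by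
    have := Real.log_le_sub_one_of_pos (show (0 : ℝ) < 2 by norm_num)
    linarith
  have h6 : (k : ℝ) * Real.log 2 ≤ k := mul_le_of_le_one_right (Nat.cast_nonneg _) h5
  rw [Real.log_div h0.ne' h2.ne', Real.log_div h0.ne' h1.ne']
  linarith

theorem explore_avg_abs (C : Conf m) {A : Finset (E m)} (hA : A ⊆ C.F) (hne : A.Nonempty)
    {v : E m} (hv : v ∈ C.V) : |⟪avg A, v⟫| ≤ 1 :=
  C.inK_of_hull (convexHull_mono (Finset.coe_subset.2 hA) (avg_mem_hull hne)) v hv

theorem explore_avg_const {A : Finset (E m)} {u f : E m} (hf : f ∈ A)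
    (h : ∀ g ∈ A, ∀ g' ∈ A, ⟪g, u⟫ = ⟪g', u⟫) : ⟪avg A, u⟫ = ⟪f, u⟫ :=
  hull_inner_eq (avg_mem_hull ⟨f, hf⟩) fun g hg => h g hg f hf

theorem k1_explore (C : Conf m) (hm : 1 ≤ m) {w : E m → ℝ} (hw : IsProb C.V w)
    {J A : Finset (E m)} (hJ : J ⊆ C.V) (hA : A ⊆ C.F) (hne : A.Nonempty) {K lam γ ζ : ℝ}
    (hK : 0 < K) (hlam : 0 < lam) (hγ : 0 < γ) (hζ : 0 < ζ) (hJK : (J.card : ℝ) ≤ K * m)
    (hreg : ∀ A' ⊆ A, A'.Nonempty →
      lam * qf C.V J w (avg A' - avg A) ≤ Real.log (A.card / A'.card) + 1)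
    {i : E m} (hi : i ∈ J) (L : ℕ)
    (hL : 2 * (1 + 2 * K / (lam * γ ^ 2)) ^ L ≤ lam * ζ ^ 2 * m) :
    ∃ f ∈ A, ∃ X : E m, l1 C.V J w X ≤ L * ζ ∧
      (∀ u : E m, (∀ g ∈ A, ∀ g' ∈ A, ⟪g, u⟫ = ⟪g', u⟫) → ⟪X, u⟫ = 0) ∧
      (∀ j ∈ J, -(γ * L + 2) ≤ ⟪f, j⟫ * ⟪X, j⟫) ∧
      ⟪f, i⟫ * ⟪X, i⟫ = L * (1 - ⟪f, i⟫ * ⟪avg A, i⟫) := by
  classical
  set b : ℝ := 2 * K / (lam * γ ^ 2) with hb
  have hb0 : 0 < b := by positivity
  have hm0 : (0 : ℝ) < m := by exact_mod_cast hm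
  have main : ∀ r : ℕ, r ≤ L → ∃ A' ⊆ A, A'.Nonempty ∧
      Real.log ((A.card : ℝ) / A'.card) + 1 ≤ 2 * (1 + b) ^ r ∧
      (∀ f ∈ A', ∀ f' ∈ A', ⟪f, i⟫ = ⟪f', i⟫) ∧ ∃ X : E m, l1 C.V J w X ≤ r * ζ ∧
      (∀ u : E m, (∀ g ∈ A, ∀ g' ∈ A, ⟪g, u⟫ = ⟪g', u⟫) → ⟪X, u⟫ = 0) ∧
      (∀ f ∈ A', ⟪f, i⟫ * ⟪X, i⟫ = r * (1 - ⟪f, i⟫ * ⟪avg A, i⟫)) ∧
      ∀ j ∈ J, ((∀ f ∈ A', ∀ f' ∈ A', ⟪f, j⟫ = ⟪f', j⟫) ∧
        ∀ f ∈ A', -(γ * r + 2) ≤ ⟪f, j⟫ * ⟪X, j⟫) ∨ |⟪X, j⟫| ≤ γ * r := by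
    intro r
    induction r with
    | zero =>
      intro _
      obtain ⟨A', h1, h2, h3, h4⟩ := explore_pigeon C hA hne {i}
        (Finset.singleton_subset_iff.2 (hJ hi))
      refine ⟨A', h1, h2, ?_, h4 i (Finset.mem_singleton_self i), 0, ?_, ?_, ?_, ?_⟩
      · have h5 := explore_log hne.card_pos hne.card_pos h2.card_pos h3
        have h6 : (A.card : ℝ) ≠ 0 := by exact_mod_cast hne.card_pos.ne'
        rw [div_self h6, Real.log_one, Finset.card_singleton] at h5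
        norm_num at h5 ⊢
        linarith
      · have := l1_smul C.V J w 0 0
        simp only [zero_smul, abs_zero, zero_mul] at this
        simp [this]
      · intro u _; simp
      · intro f _; simp
      · intro j _; right; simp
    | succ r ih =>
      intro hr
      obtain ⟨A', hA', hne', hlog, hci, X, hX1, hX2, hX3, hX4⟩ := ih (by omega)
      have hq := (hreg A' hA' hne').trans hlog
      set x : E m := avg A' - avg A with hx
      have hpow : (1 + b) ^ r ≤ (1 + b) ^ L := pow_le_pow_right₀ (by linarith) (by omega)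
      have hq2 : qf C.V J w x ≤ ζ ^ 2 * m := by
        have : lam * qf C.V J w x ≤ lam * (ζ ^ 2 * m) := by linarith
        exact le_of_mul_le_mul_left this hlam
      have hl1 : l1 C.V J w x ≤ ζ := l1_le_of_qf hw hm hζ hq2
      set B : Finset (E m) := J.filter fun j => γ < |⟪x, j⟫| with hB
      have hBc : (B.card : ℝ) ≤ b * (2 * (1 + b) ^ r) := by
        have h1 : (B.card : ℝ) * γ ^ 2 ≤ ∑ j ∈ J, ⟪x, j⟫ ^ 2 := by
          calc (B.card : ℝ) * γ ^ 2 = ∑ _j ∈ B, γ ^ 2 := by simp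
            _ ≤ ∑ j ∈ B, ⟪x, j⟫ ^ 2 := by
                refine Finset.sum_le_sum fun j hj => ?_
                rw [← sq_abs ⟪x, j⟫]
                exact pow_le_pow_left₀ hγ.le (Finset.mem_filter.1 hj).2.le 2
            _ ≤ _ := Finset.sum_le_sum_of_subset_of_nonneg (Finset.filter_subset _ _)
                fun _ _ _ => sq_nonneg _
        have h2 := sum_J_le_qf hw ⟨i, hi⟩ x
        have h3 := qf_nonneg (J := J) hw x
        have h4 : (m : ℝ) * (B.card * γ ^ 2) ≤ m * (2 * K * qf C.V J w x) := by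
          calc (m : ℝ) * (B.card * γ ^ 2) ≤ m * ∑ j ∈ J, ⟪x, j⟫ ^ 2 := by gcongr
            _ ≤ 2 * J.card * qf C.V J w x := h2
            _ ≤ 2 * (K * m) * qf C.V J w x := by gcongr
            _ = _ := by ring
        have h5 := le_of_mul_le_mul_left h4 hm0
        have h6 : (B.card : ℝ) ≤ b * (lam * qf C.V J w x) := by
          have : b * (lam * qf C.V J w x) = 2 * K * qf C.V J w x / γ ^ 2 := by
            rw [hb]; field_simp
          rw [this, le_div_iff₀ (by positivity)]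
          exact h5
        exact h6.trans (mul_le_mul_of_nonneg_left hq hb0.le)
      obtain ⟨A'', h1, h2, h3, h4⟩ := explore_pigeon C (hA'.trans hA) hne' B
        ((Finset.filter_subset _ _).trans hJ)
      have hconst : ∀ j ∈ J, (∀ f ∈ A', ∀ f' ∈ A', ⟪f, j⟫ = ⟪f', j⟫) → ∀ f ∈ A',
          ⟪f, j⟫ * ⟪x, j⟫ = 1 - ⟪f, j⟫ * ⟪avg A, j⟫ := by
        intro j hj hc f hf
        rw [hx, inner_sub_left, explore_avg_const hf hc]
        rcases C.pm f (hA (hA' hf)) j (hJ hj) with h | h <;> rw [h] <;> ring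
      refine ⟨A'', h1.trans hA', h2, ?_, fun f hf f' hf' => hci f (h1 hf) f' (h1 hf'), X + x,
        ?_, ?_, ?_, ?_⟩
      · have h5 := explore_log hne.card_pos hne'.card_pos h2.card_pos h3
        rw [pow_succ]
        linarith
      · have := l1_add_le (J := J) hw X x
        push_cast
        linarith
      · intro u hu
        obtain ⟨f, hf⟩ := hne'
        rw [inner_add_left, hX2 u hu, hx, inner_sub_left,
          explore_avg_const hf fun g hg g' hg' => hu g (hA' hg) g' (hA' hg'),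
          explore_avg_const (hA' hf) hu]
        ring
      · intro f hf
        rw [inner_add_left, mul_add, hX3 f (h1 hf), hconst i hi hci f (h1 hf)]
        push_cast
        ring
      · intro j hj
        have ha := abs_le.1 (explore_avg_abs C hA hne (hJ hj))
        have ha' := abs_le.1 (explore_avg_abs C (hA'.trans hA) hne' (hJ hj))
        rcases hX4 j hj with ⟨hc, hd⟩ | hd
        · left
          refine ⟨fun f hf f' hf' => hc f (h1 hf) f' (h1 hf'), fun f hf => ?_⟩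
          have h5 := hd f (h1 hf)
          rw [inner_add_left, mul_add, hconst j hj hc f (h1 hf)]
          push_cast
          rcases C.pm f (hA (hA' (h1 hf))) j (hJ hj) with h | h <;> rw [h] at h5 ⊢ <;>
            linarith [ha.1, ha.2]
        · by_cases hjB : γ < |⟪x, j⟫|
          · left
            refine ⟨h4 j (Finset.mem_filter.2 ⟨hj, hjB⟩), fun f hf => ?_⟩
            have h5 := abs_le.1 hd
            rw [inner_add_left, hx, inner_sub_left]
            push_cast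
            rcases C.pm f (hA (hA' (h1 hf))) j (hJ hj) with h | h <;> rw [h] <;>
              linarith [ha.1, ha.2, ha'.1, ha'.2, h5.1, h5.2]
          · right
            rw [inner_add_left]
            refine (abs_add_le _ _).trans ?_
            push_cast
            linarith [not_lt.1 hjB]
  obtain ⟨A', hA', ⟨f, hf⟩, -, -, X, hX1, hX2, hX3, hX4⟩ := main L le_rfl
  refine ⟨f, hA' hf, X, hX1, hX2, fun j hj => ?_, hX3 f hf⟩
  rcases hX4 j hj with ⟨-, hd⟩ | hd
  · exact hd f hf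
  · have h5 := abs_le.1 hd
    rcases C.pm f (hA (hA' hf)) j (hJ hj) with h | h <;> rw [h] <;> linarith [h5.1, h5.2]

end Pool.Agent.MP_fcb590_an.Q2

end

section
/-!
The exploration and the short vector lemma.
`k1_explore`: induction on L with the invariant: a nonempty A_L inside A, log (card A / card A_L) + 1 <= 2 (1 + b)^L with
b = 2 K / (lam gamma^2); i is constant on A_L; a vector X = sum of the x_r = avg A_r - avg A (r < L) with the properties in
the statement for every f in A_L, where for each j in J either (j is constant on A_L and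
inner f j * inner X j >= - (gamma L + 2)) or |inner X j| <= gamma L. Start: A_0 = the larger of the two sign classes of i.
Step: x = avg A_L - avg A, lam qf x <= 2 (1+b)^L, so l1 x <= zeta (`l1_le_of_qf`), and the set B of j in J with
|inner x j| > gamma has card B * gamma^2 * m <= 2 card J * qf x (`sum_J_le_qf`), card B <= b * 2 (1+b)^L. Let A_(L+1) be
the most popular sign pattern on B, card A_(L+1) >= card A_L / 2^card B (pigeonhole; log 2 <= 1). For j constant on A_L,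
inner x j = inner f j - inner (avg A) j has the sign of inner f j; always |inner x j| <= 2.
`k1`: lam = psi / 4, kappa = psi / (4 K), delta = kappa^2 / 9, then gamma and L with beta := (gamma + 2 / L) / (2 delta)
<= theta delta / 4, zeta = theta delta / 2. U = L⁻¹ • X + beta • (f - avg A). For v in V take j from `Rep`
(inner X v = inner X j, inner f v = inner f j, same for avg A); if j is constant on A both terms vanish, otherwise
beta * inner f j * inner (f - avg A) j >= 2 beta delta. inner f i * inner U i >= 2 delta; l1 U <= zeta + 2 beta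
<= theta delta (`l1_le`). `k1_extract` with a = 2 delta gives l1 (f - f') <= theta, then `qf_sub_eq`; positivity from
`sum_J_le_qf`.
-/

set_option autoImplicit false

open scoped RealInnerProductSpace

namespace Pool.Agent.MP_fcb590_an.Q2

variable {m : ℕ}

theorem k1 {K ψ θ : ℝ} (hK : 0 < K) (hψ : 0 < ψ) (hθ : 0 < θ) :
    ∃ m₀ : ℕ, ∀ m ≥ m₀, ∀ (C : Conf m) (w : E m → ℝ) (J : Finset (E m)) (y : E m),
      IsProb C.V w → J ⊆ C.V → (J.card : ℝ) ≤ K * m → C.Rep (C.face y) J →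
      Real.exp (ψ * m) ≤ (C.face y).card →
      ∃ f ∈ C.face y, ∃ f' ∈ C.face y,
        0 < qf C.V J w (f - f') ∧ qf C.V J w (f - f') ≤ 2 * θ * m := by
  obtain ⟨lam, hlam⟩ : ∃ lam, lam = ψ / 4 := ⟨_, rfl⟩
  obtain ⟨κ, hκ⟩ : ∃ κ, κ = ψ / (4 * K) := ⟨_, rfl⟩
  have lam0 : 0 < lam := by rw [hlam]; positivity
  have κ0 : 0 < κ := by rw [hκ]; positivity
  obtain ⟨δ, hδ⟩ : ∃ δ, δ = κ ^ 2 / 9 := ⟨_, rfl⟩
  have δ0 : 0 < δ := by rw [hδ]; positivity
  obtain ⟨γ, hγ⟩ : ∃ γ, γ = θ * δ ^ 2 / 4 := ⟨_, rfl⟩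
  have γ0 : 0 < γ := by rw [hγ]; positivity
  obtain ⟨ζ, hζ⟩ : ∃ ζ, ζ = θ * δ / 2 := ⟨_, rfl⟩
  have ζ0 : 0 < ζ := by rw [hζ]; positivity
  obtain ⟨L, hL⟩ := exists_nat_gt (2 / γ)
  have L0 : (0 : ℝ) < L := lt_trans (by positivity) hL
  have hL2 : 2 / (L : ℝ) ≤ γ := by
    rw [div_lt_iff₀ γ0] at hL
    rw [div_le_iff₀ L0]
    linarith
  obtain ⟨β, hβ⟩ : ∃ β, β = (γ + 2 / (L : ℝ)) / (2 * δ) := ⟨_, rfl⟩
  have β0 : 0 ≤ β := by rw [hβ]; positivity
  have hβ1 : β * (2 * δ) = γ + 2 / (L : ℝ) := by rw [hβ]; field_simp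
  have hβ2 : 2 * β ≤ θ * δ / 2 := by
    refine le_of_mul_le_mul_right ?_ δ0
    have : θ * δ / 2 * δ = 2 * γ := by rw [hγ]; ring
    linarith
  obtain ⟨m₁, hm₁⟩ := exists_nat_ge (2 * (1 + 2 * K / (lam * γ ^ 2)) ^ L / (lam * ζ ^ 2))
  refine ⟨m₁ + 1, fun m hm C w J y hw hJ hJK hrep hcard => ?_⟩
  have hm1 : 1 ≤ m := by omega
  have m0 : (0 : ℝ) < m := by exact_mod_cast hm1
  have hΦ0 : (0 : ℝ) < (C.face y).card := lt_of_lt_of_le (Real.exp_pos _) hcard
  have hne : (C.face y).Nonempty := Finset.card_pos.1 (by exact_mod_cast hΦ0)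
  have hbig : lam * m + κ * J.card < Real.log (C.face y).card := by
    have h1 : ψ * m ≤ Real.log (C.face y).card := (Real.le_log_iff_exp_le hΦ0).2 hcard
    have h2 : κ * J.card ≤ κ * (K * m) := mul_le_mul_of_nonneg_left hJK κ0.le
    have h3 : κ * (K * m) = ψ / 4 * m := by rw [hκ]; field_simp
    have h4 : 0 < ψ * m := by positivity
    rw [hlam]
    linarith
  obtain ⟨A, hAΦ, hAne, ⟨i, hi, hi'⟩, hreg, hfree⟩ :=
    k1_reg C hw hJ (C.face_subset y) hne hrep lam0 κ0 hbig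
  rw [← hδ] at hfree
  have hAF : A ⊆ C.F := hAΦ.trans (C.face_subset y)
  obtain ⟨f, hf, X, hX1, hX2, hX3, hX4⟩ := k1_explore C hm1 hw hJ hAF hAne hK lam0 γ0 ζ0 hJK hreg
    hi L (by
      have h1 : (m₁ : ℝ) ≤ m := by exact_mod_cast (by omega : m₁ ≤ m)
      have h2 := hm₁.trans h1
      rw [div_le_iff₀ (by positivity)] at h2
      linarith)
  have hU : ∀ v : E m, ⟪(L : ℝ)⁻¹ • X + β • (f - avg A), v⟫ =
      (L : ℝ)⁻¹ * ⟪X, v⟫ + β * (⟪f, v⟫ - ⟪avg A, v⟫) := by
    intro v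
    rw [inner_add_left, real_inner_smul_left, real_inner_smul_left, inner_sub_left]
  have hconst : ∀ v : E m, (∀ g ∈ A, ∀ g' ∈ A, ⟪g, v⟫ = ⟪g', v⟫) →
      ⟪(L : ℝ)⁻¹ • X + β • (f - avg A), v⟫ = 0 := by
    intro v hv
    rw [hU, hX2 v hv, hull_inner_eq (avg_mem_hull hAne) fun g hg => hv g hg f hf]
    ring
  have hkey : ∀ j ∈ J, (∃ g ∈ A, ∃ g' ∈ A, ⟪g, j⟫ ≠ ⟪g', j⟫) →
      ⟪f, j⟫ * ⟪f, j⟫ = 1 ∧ 2 * δ ≤ 1 - ⟪f, j⟫ * ⟪avg A, j⟫ := by
    intro j hj h
    have h1 := abs_le.1 (hfree j hj h)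
    rcases C.pm f (hAF hf) j (hJ hj) with e | e <;> rw [e] <;> constructor <;> linarith
  obtain ⟨f', hf', hne', hl1⟩ := k1_extract C hw hJ (U := (L : ℝ)⁻¹ • X + β • (f - avg A))
    (hAΦ hf) (hJ hi) (a := 2 * δ) (by positivity) (by
      intro v hv
      obtain ⟨j, hj, hvj⟩ := hrep v hv
      have h0 : ∀ g ∈ A, ⟪g, v - j⟫ = 0 := fun g hg => by
        rw [inner_sub_right, hvj g (hAΦ hg), sub_self]
      have h1 := hconst (v - j) fun g hg g' hg' => by rw [h0 g hg, h0 g' hg']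
      rw [inner_sub_right, sub_eq_zero] at h1
      rw [h1, hvj f (hAΦ hf)]
      by_cases hc : ∃ g ∈ A, ∃ g' ∈ A, ⟪g, j⟫ ≠ ⟪g', j⟫
      · obtain ⟨a1, a2⟩ := hkey j hj hc
        have a3 := mul_le_mul_of_nonneg_left (hX3 j hj) (inv_nonneg.2 L0.le)
        have a4 : (L : ℝ)⁻¹ * -(γ * L + 2) = -(γ + 2 / (L : ℝ)) := by field_simp
        have a5 := mul_le_mul_of_nonneg_left a2 β0
        have a6 : ⟪f, j⟫ * ((L : ℝ)⁻¹ * ⟪X, j⟫ + β * (⟪f, j⟫ - ⟪avg A, j⟫)) =
            (L : ℝ)⁻¹ * (⟪f, j⟫ * ⟪X, j⟫) + β * (⟪f, j⟫ * ⟪f, j⟫ - ⟪f, j⟫ * ⟪avg A, j⟫) := by ring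
        rw [hU, a6, a1]
        linarith
      · push Not at hc
        rw [hconst j hc, mul_zero]) (by
      intro v hv hy
      refine hconst v fun g hg g' hg' => ?_
      rw [(C.mem_face.1 (hAΦ hg)).2 v hv hy, (C.mem_face.1 (hAΦ hg')).2 v hv hy]) (by
      obtain ⟨a1, a2⟩ := hkey i hi hi'
      have a6 : ⟪f, i⟫ * ((L : ℝ)⁻¹ * ⟪X, i⟫ + β * (⟪f, i⟫ - ⟪avg A, i⟫)) =
          (L : ℝ)⁻¹ * (⟪f, i⟫ * ⟪X, i⟫) + β * (⟪f, i⟫ * ⟪f, i⟫ - ⟪f, i⟫ * ⟪avg A, i⟫) := by ring
      have a7 : 0 ≤ β * (1 - ⟪f, i⟫ * ⟪avg A, i⟫) := mul_nonneg β0 (by linarith)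
      rw [hU, a6, a1, hX4, ← mul_assoc, inv_mul_cancel₀ L0.ne', one_mul]
      linarith)
  have hlU : l1 C.V J w ((L : ℝ)⁻¹ • X + β • (f - avg A)) ≤ θ * δ := by
    refine (l1_add_le hw _ _).trans ?_
    rw [l1_smul, l1_smul, abs_of_nonneg (inv_nonneg.2 L0.le), abs_of_nonneg β0]
    have a1 := mul_le_mul_of_nonneg_left hX1 (inv_nonneg.2 L0.le)
    rw [← mul_assoc, inv_mul_cancel₀ L0.ne', one_mul] at a1
    have a2 : l1 C.V J w (f - avg A) ≤ 2 := by
      refine l1_le hw hJ (by norm_num) fun v hv => ?_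
      have b1 := C.inK_of_hull (convexHull_mono (Finset.coe_subset.2 hAF) (avg_mem_hull hAne)) v hv
      have b2 := abs_le.1 b1
      rw [inner_sub_left, abs_le]
      rcases C.pm f (hAF hf) v hv with e | e <;> rw [e] <;> constructor <;> linarith
    have a3 := mul_le_mul_of_nonneg_left a2 β0
    linarith
  have hθ' : l1 C.V J w (f - f') ≤ θ := by
    refine le_of_mul_le_mul_left ?_ (show 0 < 2 * δ by positivity)
    linarith
  refine ⟨f, hAΦ hf, f', hf', ?_, ?_⟩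
  · have a1 := sum_J_le_qf (J := J) hw ⟨i, hi⟩ (f - f')
    have a2 : 0 < ∑ j ∈ J, ⟪f - f', j⟫ ^ 2 := by
      refine Finset.sum_pos' (fun j _ => sq_nonneg _) ⟨i, hi, ?_⟩
      rw [inner_sub_left]
      exact sq_pos_of_ne_zero (sub_ne_zero.2 hne'.symm)
    have a3 : 0 < 2 * (J.card : ℝ) * qf C.V J w (f - f') := lt_of_lt_of_le (mul_pos m0 a2) a1
    exact (pos_iff_pos_of_mul_pos a3).1 (by
      have : (0 : ℝ) < J.card := by exact_mod_cast Finset.card_pos.2 ⟨i, hi⟩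
      positivity)
  · rw [C.qf_sub_eq hJ w (hAF hf) (C.face_subset y hf')]
    have := mul_le_mul_of_nonneg_left hθ' (show (0 : ℝ) ≤ 2 * m by positivity)
    linarith

end Pool.Agent.MP_fcb590_an.Q2

end

end
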