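import Pool.Agent.MP_fcb590_an.Mg.Q2_Channel
import Pool.Agent.MP_fcb590_an.Mg.Q2_Faces

-- part MP_fcb590_an.Q2.Signs
section

section
/-!
Counting sign vectors, the merge lemma, the embedding in a Euclidean space.
`pm_rel`: choose finitely many points of A whose evaluations determine the restriction to A of elements of U: induction on
finrank U - finrank (U ⊓ ann A) (pick a in A where some element of U does not vanish, split S by the sign at a, and for
each half pass to differences), or take a basis of the span of the evaluation functionals in the dual of U.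
A convenient stronger form: for a finite set Y of values, elements of U with values in Y on A that are distinct on A
number at most card Y ^ (finrank U - finrank (U ⊓ ann A)).
`card_patterns`: the span of the d i has a basis among the d i (`exists_linearIndependent`); the pattern of a point is
determined by the values on that basis.
`merge`: r = finrank (ann A'). If r = 0 the bad elements are one and - one. Otherwise let U0 = ann A' ⊔ span one and choose
h_1..h_t among the merged elements, independent modulo U0, spanning the bad set together with U0; partners h'_i,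
d_i = h_i - h'_i in ann A', nonzero, with values 0, 2, -2 on A0. On the fibre of the pattern map through a, every h_i
with d_i a different from 0 is constant (equal to d_i a / 2), so finrank (ann fibre) >= number n a of such i
(h_i - c_i one are independent). Regularity: kappa n a <= log card A0 - log card (fibre a). Summing over a in A0 and using
log x <= x - 1 (or Jensen): kappa sum n a <= card A0 * log (number of patterns) <= card A0 * r log 3. The zero set of
d_i is empty or has card <= exp (-kappa) card A0, and 1 - exp (-kappa) >= kappa / 2. So t <= 3 r / kappa^2 and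
finrank <= 1 + r + t <= 5 r / kappa^2.
`embed`: d = card T, Phi a = sqrt (R / d) * (ev h a) for h in T (via `T.equivFin`), W = span of the Phi a, a in A0;
finrank W <= finrank span T because W lies in the image of the dual of span T under xi -> (xi h) for h in T.
v h = sqrt (d / R) • P_W (basis vector h); sum of norm (P_W e_h)^2 = finrank W (orthonormal basis of W).
-/

set_option autoImplicit false

open scoped RealInnerProductSpace

namespace Pool.Agent.MP_fcb590_an.Q2

open Module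

variable {X α : Type*} [AddCommGroup X] [Module ℝ X] [FiniteDimensional ℝ X]

theorem ann_mono (ev : X →ₗ[ℝ] (α → ℝ)) {A A' : Finset α} (h : A' ⊆ A) : ann ev A ≤ ann ev A' := by
  intro w hw a ha
  exact hw a (h ha)

theorem pm_aux (ev : X →ₗ[ℝ] (α → ℝ)) (A : Finset α) (n : ℕ) : ∀ U : Submodule ℝ X,
    finrank ℝ U - finrank ℝ ↥(U ⊓ ann ev A) ≤ n →
    ∃ B : Finset α, B ⊆ A ∧ B.card ≤ n ∧ ∀ w ∈ U, (∀ b ∈ B, ev w b = 0) → ∀ a ∈ A, ev w a = 0 := by
  classical
  induction n with
  | zero =>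
    intro U hU
    refine ⟨∅, Finset.empty_subset _, le_rfl, fun w hw _ => ?_⟩
    have h1 : U ⊓ ann ev A = U :=
      Submodule.eq_of_le_of_finrank_le inf_le_left (by omega)
    have : w ∈ U ⊓ ann ev A := by rw [h1]; exact hw
    exact this.2
  | succ n ih =>
    intro U hU
    by_cases h : ∀ w ∈ U, ∀ a ∈ A, ev w a = 0
    · exact ⟨∅, Finset.empty_subset _, Nat.zero_le _, fun w hw _ => h w hw⟩
    · push Not at h
      obtain ⟨u, hu, a, ha, hua⟩ := h
      have hlt : U ⊓ ann ev {a} < U := by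
        refine lt_of_le_of_ne inf_le_left fun he => hua ?_
        have : u ∈ U ⊓ ann ev {a} := by rw [he]; exact hu
        exact this.2 a (Finset.mem_singleton_self a)
      have hfr : finrank ℝ ↥(U ⊓ ann ev {a}) < finrank ℝ U := Submodule.finrank_lt_finrank_of_lt hlt
      have heq : (U ⊓ ann ev {a}) ⊓ ann ev A = U ⊓ ann ev A := by
        apply le_antisymm
        · exact inf_le_inf_right _ inf_le_left
        · exact le_inf (inf_le_inf_left _ (ann_mono ev (Finset.singleton_subset_iff.2 ha))) inf_le_right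
      obtain ⟨B, hBA, hBc, hB⟩ := ih (U ⊓ ann ev {a}) (by rw [heq]; omega)
      refine ⟨insert a B, Finset.insert_subset ha hBA, ?_, fun w hw hwb => ?_⟩
      · exact (Finset.card_insert_le a B).trans (by omega)
      · refine hB w ⟨hw, ?_⟩ fun b hb => hwb b (Finset.mem_insert_of_mem hb)
        intro x hx
        rw [Finset.mem_singleton.1 hx]
        exact hwb a (Finset.mem_insert_self a B)

theorem pm_gen (ev : X →ₗ[ℝ] (α → ℝ)) (U : Submodule ℝ X) (A : Finset α) (S : Finset X)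
    (hU : ∀ h ∈ S, ∀ h' ∈ S, h - h' ∈ U) (hpm : ∀ h ∈ S, ∀ a ∈ A, ev h a = 1 ∨ ev h a = -1)
    (hinj : ∀ h ∈ S, ∀ h' ∈ S, (∀ a ∈ A, ev h a = ev h' a) → h = h') :
    S.card ≤ 2 ^ (finrank ℝ U - finrank ℝ ↥(U ⊓ ann ev A)) := by
  classical
  obtain ⟨B, hBA, hBc, hB⟩ := pm_aux ev A _ U le_rfl
  have h1 : S.card ≤ B.powerset.card := by
    refine Finset.card_le_card_of_injOn (fun h => B.filter fun b => ev h b = 1) ?_ ?_
    · intro h _
      simp only [Finset.coe_powerset, Set.mem_preimage, Set.mem_powerset_iff, Finset.coe_subset]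
      exact Finset.filter_subset _ _
    · intro h hh h' hh' he
      have hh : h ∈ S := hh
      have hh' : h' ∈ S := hh'
      refine hinj h hh h' hh' fun a ha => ?_
      have := hB (h - h') (hU h hh h' hh') (fun b hb => ?_) a ha
      · simpa [sub_eq_zero] using this
      · have he' : (ev h b = 1) ↔ (ev h' b = 1) := by
          have := congrArg (fun T : Finset α => b ∈ T) he
          simpa [hb] using this
        have e1 := hpm h hh b (hBA hb)
        have e2 := hpm h' hh' b (hBA hb)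
        simp only [map_sub, Pi.sub_apply]
        rcases e1 with e1 | e1
        · rw [e1, he'.1 e1]; ring
        · rcases e2 with e2 | e2
          · rw [e2, he'.2 e2]; ring
          · rw [e1, e2]; ring
  rw [Finset.card_powerset] at h1
  exact h1.trans (Nat.pow_le_pow_right (by norm_num) hBc)

theorem pm_rel (ev : X →ₗ[ℝ] (α → ℝ)) (U : Submodule ℝ X) (A : Finset α) (S : Finset X)
    (hU : ∀ h ∈ S, h ∈ U) (hpm : ∀ h ∈ S, ∀ a ∈ A, ev h a = 1 ∨ ev h a = -1)
    (hinj : ∀ h ∈ S, ∀ h' ∈ S, (∀ a ∈ A, ev h a = ev h' a) → h = h') :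
    S.card ≤ 2 ^ (finrank ℝ U - finrank ℝ ↥(U ⊓ ann ev A)) :=
  pm_gen ev U A S (fun h hh h' hh' => U.sub_mem (hU h hh) (hU h' hh')) hpm hinj

/-- functions that agree on a smaller set `A'` with a fixed vector `o` -/
theorem pm_agree (ev : X →ₗ[ℝ] (α → ℝ)) {A A' : Finset α} (hA : A' ⊆ A) (S : Finset X) (o : X)
    (hpm : ∀ h ∈ S, ∀ a ∈ A, ev h a = 1 ∨ ev h a = -1)
    (hinj : ∀ h ∈ S, ∀ h' ∈ S, (∀ a ∈ A, ev h a = ev h' a) → h = h')
    (ho : ∀ h ∈ S, ∀ a ∈ A', ev h a = ev o a) :
    S.card ≤ 2 ^ (finrank ℝ (ann ev A') - finrank ℝ (ann ev A) + 1) := by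
  have h1 := pm_gen ev (ann ev A') A S (fun h hh h' hh' a ha => by
    simp only [map_sub, Pi.sub_apply]
    rw [ho h hh a ha, ho h' hh' a ha]; ring) hpm hinj
  have h2 : ann ev A' ⊓ ann ev A = ann ev A := inf_eq_right.2 (ann_mono ev hA)
  rw [h2] at h1
  exact h1.trans (Nat.pow_le_pow_right (by norm_num) (Nat.le_succ _))

open Classical in
theorem card_patterns {ι : Type*} [Fintype ι] (ev : X →ₗ[ℝ] (α → ℝ)) (R : Submodule ℝ X)
    (A : Finset α) (d : ι → X) (hd : ∀ i, d i ∈ R)
    (hv : ∀ i, ∀ a ∈ A, ev (d i) a = 0 ∨ ev (d i) a = 2 ∨ ev (d i) a = -2) :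
    (A.image fun a => fun i => ev (d i) a).card ≤ 3 ^ finrank ℝ R := by
  have hle0 : finrank ℝ (Submodule.span ℝ (Set.range d)) ≤ finrank ℝ R :=
    Submodule.finrank_mono (Submodule.span_le.2 (by rintro _ ⟨i, rfl⟩; exact hd i))
  obtain ⟨n, hle, f, hf, hspan⟩ : ∃ n : ℕ, n ≤ finrank ℝ R ∧ ∃ f : Fin n → X,
      (∀ i, f i ∈ Set.range d) ∧ Submodule.span ℝ (Set.range f) = Submodule.span ℝ (Set.range d) := by
    obtain ⟨f, hf, hspan, -⟩ := Submodule.exists_fun_fin_finrank_span_eq ℝ (Set.range d)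
    exact ⟨_, hle0, f, hf, hspan⟩
  choose g hg using hf
  have h1 : (A.image fun a => fun i => ev (d i) a).card ≤
      (Fintype.piFinset fun _ : Fin n => ({0, 2, -2} : Finset ℝ)).card := by
    refine Finset.card_le_card_of_injOn (fun p => fun j => p (g j)) ?_ ?_
    · intro p hp
      obtain ⟨a, ha, rfl⟩ := Finset.mem_image.1 (Finset.mem_coe.1 hp)
      simp only [Finset.mem_coe, Fintype.mem_piFinset, Finset.mem_insert, Finset.mem_singleton]
      intro j
      exact hv (g j) a ha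
    · intro p hp q hq he
      obtain ⟨a, ha, rfl⟩ := Finset.mem_image.1 (Finset.mem_coe.1 hp)
      obtain ⟨b, hb, rfl⟩ := Finset.mem_image.1 (Finset.mem_coe.1 hq)
      have key : ∀ x ∈ Submodule.span ℝ (Set.range f), ev x a = ev x b := by
        intro x hx
        induction hx using Submodule.span_induction with
        | mem x hx =>
          obtain ⟨j, rfl⟩ := hx
          rw [← hg j]
          exact congrFun he j
        | zero => simp
        | add x y _ _ hx hy => simp [hx, hy]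
        | smul c x _ hx => simp [hx]
      funext i
      refine key (d i) ?_
      rw [hspan]
      exact Submodule.subset_span ⟨i, rfl⟩
  have h2 : (Fintype.piFinset fun _ : Fin n => ({0, 2, -2} : Finset ℝ)).card ≤ 3 ^ n := by
    rw [Fintype.card_piFinset]
    simp only [Finset.prod_const, Finset.card_univ, Fintype.card_fin]
    exact Nat.pow_le_pow_left Finset.card_le_three _
  exact h1.trans (h2.trans (Nat.pow_le_pow_right (by norm_num) hle))

end Pool.Agent.MP_fcb590_an.Q2

end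

section
/-!
Counting sign vectors, the merge lemma, the embedding in a Euclidean space.
`pm_rel`: choose finitely many points of A whose evaluations determine the restriction to A of elements of U: induction on
finrank U - finrank (U ⊓ ann A) (pick a in A where some element of U does not vanish, split S by the sign at a, and for
each half pass to differences), or take a basis of the span of the evaluation functionals in the dual of U.
A convenient stronger form: for a finite set Y of values, elements of U with values in Y on A that are distinct on A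
number at most card Y ^ (finrank U - finrank (U ⊓ ann A)).
`card_patterns`: the span of the d i has a basis among the d i (`exists_linearIndependent`); the pattern of a point is
determined by the values on that basis.
`merge`: r = finrank (ann A'). If r = 0 the bad elements are one and - one. Otherwise let U0 = ann A' ⊔ span one and choose
h_1..h_t among the merged elements, independent modulo U0, spanning the bad set together with U0; partners h'_i,
d_i = h_i - h'_i in ann A', nonzero, with values 0, 2, -2 on A0. On the fibre of the pattern map through a, every h_i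
with d_i a different from 0 is constant (equal to d_i a / 2), so finrank (ann fibre) >= number n a of such i
(h_i - c_i one are independent). Regularity: kappa n a <= log card A0 - log card (fibre a). Summing over a in A0 and using
log x <= x - 1 (or Jensen): kappa sum n a <= card A0 * log (number of patterns) <= card A0 * r log 3. The zero set of
d_i is empty or has card <= exp (-kappa) card A0, and 1 - exp (-kappa) >= kappa / 2. So t <= 3 r / kappa^2 and
finrank <= 1 + r + t <= 5 r / kappa^2.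
`embed`: d = card T, Phi a = sqrt (R / d) * (ev h a) for h in T (via `T.equivFin`), W = span of the Phi a, a in A0;
finrank W <= finrank span T because W lies in the image of the dual of span T under xi -> (xi h) for h in T.
v h = sqrt (d / R) • P_W (basis vector h); sum of norm (P_W e_h)^2 = finrank W (orthonormal basis of W).
-/

set_option autoImplicit false

open scoped RealInnerProductSpace

namespace Pool.Agent.MP_fcb590_an.Q2

open Module

variable {X α : Type*} [AddCommGroup X] [Module ℝ X] [FiniteDimensional ℝ X]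

theorem merge_ent {β : Type*} [DecidableEq β] (A : Finset α) (π : α → β) :
    ∑ a ∈ A, (Real.log A.card - Real.log (A.filter fun b => π b = π a).card) ≤
      A.card * Real.log (A.image π).card := by
  rcases A.eq_empty_or_nonempty with rfl | hA
  · simp
  have hA0 : (0 : ℝ) < A.card := by exact_mod_cast hA.card_pos
  have hP : (0 : ℝ) < (A.image π).card := by exact_mod_cast (hA.image π).card_pos
  have h1 : ∑ a ∈ A, ((A.filter fun b => π b = π a).card : ℝ)⁻¹ = (A.image π).card := by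
    rw [Finset.sum_comp (fun y => ((A.filter fun b => π b = y).card : ℝ)⁻¹) π,
      Finset.card_eq_sum_ones (A.image π), Nat.cast_sum]
    refine Finset.sum_congr rfl fun y hy => ?_
    obtain ⟨a, ha, rfl⟩ := Finset.mem_image.1 hy
    have : (A.filter fun b => π b = π a).card ≠ 0 :=
      Finset.card_ne_zero.2 ⟨a, Finset.mem_filter.2 ⟨ha, rfl⟩⟩
    rw [nsmul_eq_mul, mul_inv_cancel₀ (Nat.cast_ne_zero.2 this), Nat.cast_one]
  calc _ ≤ ∑ a ∈ A, (Real.log (A.image π).card + ((A.card : ℝ) / (A.image π).card *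
        ((A.filter fun b => π b = π a).card : ℝ)⁻¹ - 1)) := by
        refine Finset.sum_le_sum fun a ha => ?_
        have hf : (0 : ℝ) < (A.filter fun b => π b = π a).card :=
          Nat.cast_pos.2 (Finset.card_pos.2 ⟨a, Finset.mem_filter.2 ⟨ha, rfl⟩⟩)
        have := Real.log_le_sub_one_of_pos (mul_pos (div_pos hA0 hP) (inv_pos.2 hf))
        rw [Real.log_mul (div_pos hA0 hP).ne' (inv_pos.2 hf).ne', Real.log_div hA0.ne' hP.ne',
          Real.log_inv] at this
        linarith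
    _ = _ := by
        rw [Finset.sum_add_distrib, Finset.sum_sub_distrib, ← Finset.mul_sum, h1,
          div_mul_cancel₀ _ hP.ne']
        simp

open Classical in
theorem merge_core (ev : X →ₗ[ℝ] (α → ℝ)) {κ : ℝ} (hκ : 0 < κ) (hκ1 : κ ≤ 1) {A₀ A' : Finset α}
    (hA' : A' ⊆ A₀) (hne : A'.Nonempty) {o : X} (ho : ∀ a ∈ A₀, ev o a = 1)
    (hreg : ∀ A ⊆ A₀, A.Nonempty →
      κ * finrank ℝ (ann ev A) ≤ Real.log A₀.card - Real.log A.card)
    {t : ℕ} (h h' : Fin t → X) (hp : ∀ i, ∀ a ∈ A₀, ev (h i) a = 1 ∨ ev (h i) a = -1)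
    (hp' : ∀ i, ∀ a ∈ A₀, ev (h' i) a = 1 ∨ ev (h' i) a = -1) (hn : ∀ i, h' i ≠ h i)
    (he : ∀ i, ∀ a ∈ A', ev (h i) a = ev (h' i) a) (U : Submodule ℝ X) (hU : o ∈ U)
    (hi : LinearIndependent ℝ fun i => U.mkQ (h i)) :
    t * κ ^ 2 ≤ 3 * finrank ℝ (ann ev A') := by
  obtain ⟨π, hπ⟩ : ∃ π : α → Fin t → ℝ, π = fun a i => ev (h i - h' i) a := ⟨_, rfl⟩
  have hπ' : ∀ a i, π a i = ev (h i) a - ev (h' i) a := fun a i => by simp [hπ]
  have hA0 : (0 : ℝ) < A₀.card := by exact_mod_cast (hne.mono hA').card_pos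
  have h1 : (A₀.image π).card ≤ 3 ^ finrank ℝ (ann ev A') := by
    rw [hπ]
    refine card_patterns ev _ A₀ (fun i => h i - h' i) (fun i a ha => by simp [he i a ha])
      fun i a ha => ?_
    rw [map_sub, Pi.sub_apply]
    rcases hp i a ha with e | e <;> rcases hp' i a ha with e' | e' <;> rw [e, e'] <;> norm_num
  have h2 : Real.log (A₀.image π).card ≤ finrank ℝ (ann ev A') * (3 / 2) := by
    have h3 : Real.log 3 ≤ 3 / 2 := by
      rw [Real.log_le_iff_le_exp (by norm_num)]
      exact le_trans (by norm_num) (Real.quadratic_le_exp_of_nonneg (by norm_num))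
    have h4 : (0 : ℝ) < (A₀.image π).card := by exact_mod_cast ((hne.mono hA').image π).card_pos
    refine (Real.log_le_log h4 (by exact_mod_cast h1 : _ ≤ (3 : ℝ) ^ _)).trans ?_
    rw [Real.log_pow]
    exact mul_le_mul_of_nonneg_left h3 (Nat.cast_nonneg _)
  have h3 : ∀ a ∈ A₀, κ * (Finset.univ.filter fun i => π a i ≠ 0).card ≤
      Real.log A₀.card - Real.log (A₀.filter fun b => π b = π a).card := by
    intro a ha
    refine le_trans (mul_le_mul_of_nonneg_left (Nat.cast_le.2 ?_) hκ.le)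
      (hreg _ (Finset.filter_subset _ _) ⟨a, Finset.mem_filter.2 ⟨ha, rfl⟩⟩)
    have hm : ∀ i : {i // π a i ≠ 0}, h i - (π a i / 2) • o ∈
        ann ev (A₀.filter fun b => π b = π a) := by
      rintro ⟨i, hi⟩ b hb
      obtain ⟨hb, hb'⟩ := Finset.mem_filter.1 hb
      rw [map_sub, map_smul, Pi.sub_apply, Pi.smul_apply, ho b hb, ← congrFun hb' i, hπ']
      rw [← congrFun hb' i, hπ'] at hi
      rcases hp i b hb with e | e <;> rcases hp' i b hb with e' | e' <;> rw [e, e'] at hi ⊢ <;>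
        first | exact absurd (sub_self _) hi | norm_num
    have hl : LinearIndependent ℝ fun i : {i // π a i ≠ 0} =>
        (⟨_, hm i⟩ : ann ev (A₀.filter fun b => π b = π a)) := by
      refine LinearIndependent.of_comp (U.mkQ ∘ₗ Submodule.subtype _) ?_
      have : U.mkQ o = 0 := (Submodule.Quotient.mk_eq_zero U).2 hU
      have e : (U.mkQ ∘ₗ Submodule.subtype _) ∘ (fun i : {i // π a i ≠ 0} =>
          (⟨_, hm i⟩ : ann ev (A₀.filter fun b => π b = π a))) =
          (fun i => U.mkQ (h i)) ∘ Subtype.val := by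
        funext i
        simp only [Function.comp, LinearMap.comp_apply, Submodule.subtype_apply, map_sub, map_smul,
          this, smul_zero, sub_zero]
      rw [e]
      exact hi.comp Subtype.val Subtype.val_injective
    rw [← Fintype.card_subtype]
    exact hl.fintype_card_le_finrank
  have h4 : ∀ i, κ / 2 * A₀.card ≤ (A₀.filter fun a => π a i ≠ 0).card := by
    intro i
    have hZ : (A₀.filter fun a => π a i = 0).Nonempty :=
      hne.mono fun a ha => Finset.mem_filter.2 ⟨hA' ha, by rw [hπ', he i a ha, sub_self]⟩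
    have hZ0 : (0 : ℝ) < (A₀.filter fun a => π a i = 0).card := by exact_mod_cast hZ.card_pos
    have h5 : (1 : ℝ) ≤ finrank ℝ (ann ev (A₀.filter fun a => π a i = 0)) := by
      rw [Nat.one_le_cast, Nat.one_le_iff_ne_zero, Ne, Submodule.finrank_eq_zero]
      intro hb
      have : h i - h' i ∈ ann ev (A₀.filter fun a => π a i = 0) := fun a ha => by
        have := (Finset.mem_filter.1 ha).2
        rwa [hπ] at this
      rw [hb, Submodule.mem_bot, sub_eq_zero] at this
      exact hn i this.symm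
    have h6 := (le_mul_of_one_le_right hκ.le h5).trans (hreg _ (Finset.filter_subset _ _) hZ)
    rw [← Real.log_div hA0.ne' hZ0.ne', Real.le_log_iff_exp_le (div_pos hA0 hZ0)] at h6
    have h7 := (le_div_iff₀ hZ0).1 ((Real.add_one_le_exp κ).trans h6)
    have h8 : ((A₀.filter fun a => π a i = 0).card : ℝ) + (A₀.filter fun a => π a i ≠ 0).card =
        A₀.card := by exact_mod_cast Finset.card_filter_add_card_filter_not _
    have h9 := mul_le_mul_of_nonneg_left h7 (by linarith : 0 ≤ 1 - κ / 2)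
    have h10 := mul_nonneg (mul_nonneg hκ.le (sub_nonneg.2 hκ1)) hZ0.le
    linarith
  have h5 : ∑ a ∈ A₀, ((Finset.univ.filter fun i => π a i ≠ 0).card : ℝ) =
      ∑ i, ((A₀.filter fun a => π a i ≠ 0).card : ℝ) := by
    simp only [Finset.card_filter, Nat.cast_sum]
    exact Finset.sum_comm
  have h6 := (Finset.sum_le_sum h3).trans (merge_ent A₀ π)
  have h7 := Finset.sum_le_sum fun i (_ : i ∈ Finset.univ) => h4 i
  rw [← Finset.mul_sum, h5] at h6
  rw [Finset.sum_const, Finset.card_univ, Fintype.card_fin, nsmul_eq_mul] at h7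
  have h8 := (mul_le_mul_of_nonneg_left h7 hκ.le).trans
    (h6.trans (mul_le_mul_of_nonneg_left h2 hA0.le))
  refine le_of_mul_le_mul_left ?_ hA0
  linarith

open Classical in
theorem merge (ev : X →ₗ[ℝ] (α → ℝ)) {κ : ℝ} (hκ : 0 < κ) (hκ1 : κ ≤ 1) {A₀ A' : Finset α}
    (hA' : A' ⊆ A₀) (hne : A'.Nonempty) (hinj : ann ev A₀ = ⊥) {o : X} (ho : ∀ a ∈ A₀, ev o a = 1)
    (hreg : ∀ A ⊆ A₀, A.Nonempty →
      κ * finrank ℝ (ann ev A) ≤ Real.log A₀.card - Real.log A.card)
    (T : Finset X) (hpm : ∀ h ∈ T, ∀ a ∈ A₀, ev h a = 1 ∨ ev h a = -1) :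
    let Bad := T.filter fun h => (∀ a ∈ A', ∀ a' ∈ A', ev h a = ev h a') ∨
      ∃ h' ∈ T, h' ≠ h ∧ ∀ a ∈ A', ev h a = ev h' a
    Bad.card ≤ 2 ∨ (finrank ℝ (Submodule.span ℝ (Bad : Set X)) : ℝ) ≤
      5 * finrank ℝ (ann ev A') / κ ^ 2 := by
  intro Bad
  have hc : ∀ h ∈ T, (∀ a ∈ A', ∀ a' ∈ A', ev h a = ev h a') →
      h - o ∈ ann ev A' ∨ h + o ∈ ann ev A' := by
    intro h hT hh
    obtain ⟨a, ha⟩ := hne
    refine (hpm h hT a (hA' ha)).imp (fun e b hb => ?_) fun e b hb => ?_ <;>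
      simp [hh b hb a ha, e, ho b (hA' hb)]
  by_cases hr : finrank ℝ (ann ev A') = 0
  · rw [Submodule.finrank_eq_zero] at hr
    refine Or.inl ((Finset.card_le_card (t := {o, -o}) fun h hh => ?_).trans Finset.card_le_two)
    obtain ⟨hT, hh | ⟨h', -, hn, he⟩⟩ := Finset.mem_filter.1 hh
    · simpa [hr, sub_eq_zero, add_eq_zero_iff_eq_neg] using hc h hT hh
    · have : h - h' ∈ ann ev A' := fun a ha => by simp [he a ha]
      rw [hr, Submodule.mem_bot, sub_eq_zero] at this
      exact absurd this.symm hn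
  right
  obtain ⟨U, hU⟩ : ∃ U, U = ann ev A' ⊔ Submodule.span ℝ {o} := ⟨_, rfl⟩
  have hoU : o ∈ U := hU ▸ Submodule.mem_sup_right (Submodule.mem_span_singleton_self o)
  have hRU : ann ev A' ≤ U := hU ▸ le_sup_left
  obtain ⟨f, hf, hs, hi⟩ := Submodule.exists_fun_fin_finrank_span_eq ℝ
    (U.mkQ '' {h | h ∈ T ∧ ∃ h' ∈ T, h' ≠ h ∧ ∀ a ∈ A', ev h a = ev h' a})
  generalize finrank ℝ (Submodule.span ℝ (U.mkQ '' _)) = t at f hf hs hi
  choose h hh hhf using hf
  choose h' hT' hn he using fun i => (hh i).2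
  obtain rfl : f = fun i => U.mkQ (h i) := funext fun i => (hhf i).symm
  have h1 := merge_core ev hκ hκ1 hA' hne ho hreg h h' (fun i => hpm _ (hh i).1)
    (fun i => hpm _ (hT' i)) hn he U hoU hi
  have h2 : Submodule.span ℝ (Bad : Set X) ≤ U ⊔ Submodule.span ℝ (Set.range h) := by
    rw [Submodule.span_le]
    intro x hx
    obtain ⟨hT, hx | hx⟩ := Finset.mem_filter.1 hx
    · refine Submodule.mem_sup_left ?_
      rcases hc x hT hx with e | e
      · simpa using U.add_mem (hRU e) hoU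
      · simpa using U.sub_mem (hRU e) hoU
    · have : U.mkQ x ∈ (Submodule.span ℝ (Set.range h)).map U.mkQ := by
        rw [Submodule.map_span, ← Set.range_comp]
        exact hs.ge (Submodule.subset_span ⟨x, ⟨hT, hx⟩, rfl⟩)
      rwa [← Submodule.mem_comap, Submodule.comap_map_mkQ] at this
  have h3 : finrank ℝ (Submodule.span ℝ (Bad : Set X)) ≤ finrank ℝ (ann ev A') + 1 + t := by
    refine (Submodule.finrank_mono h2).trans ((Submodule.finrank_add_le_finrank_add_finrank _ _).trans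
      (add_le_add ?_ ((finrank_range_le_card h).trans (Fintype.card_fin t).le)))
    rw [hU]
    refine (Submodule.finrank_add_le_finrank_add_finrank _ _).trans (add_le_add_right ?_ _)
    exact (finrank_span_le_card _).trans (by simp)
  have h4 : (1 : ℝ) ≤ finrank ℝ (ann ev A') := by exact_mod_cast Nat.one_le_iff_ne_zero.2 hr
  have h5 : κ ^ 2 ≤ 1 := pow_le_one₀ hκ.le hκ1
  have h6 := mul_le_mul_of_nonneg_right (Nat.cast_le (α := ℝ).2 h3) (sq_nonneg κ)
  have h7 := mul_le_of_le_one_right (Nat.cast_nonneg (α := ℝ) (finrank ℝ (ann ev A'))) h5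
  rw [le_div_iff₀ (by positivity)]
  push_cast at h6
  linarith

end Pool.Agent.MP_fcb590_an.Q2

end

section
/-!
Counting sign vectors, the merge lemma, the embedding in a Euclidean space.
`pm_rel`: choose finitely many points of A whose evaluations determine the restriction to A of elements of U: induction on
finrank U - finrank (U ⊓ ann A) (pick a in A where some element of U does not vanish, split S by the sign at a, and for
each half pass to differences), or take a basis of the span of the evaluation functionals in the dual of U.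
A convenient stronger form: for a finite set Y of values, elements of U with values in Y on A that are distinct on A
number at most card Y ^ (finrank U - finrank (U ⊓ ann A)).
`card_patterns`: the span of the d i has a basis among the d i (`exists_linearIndependent`); the pattern of a point is
determined by the values on that basis.
`merge`: r = finrank (ann A'). If r = 0 the bad elements are one and - one. Otherwise let U0 = ann A' ⊔ span one and choose
h_1..h_t among the merged elements, independent modulo U0, spanning the bad set together with U0; partners h'_i,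
d_i = h_i - h'_i in ann A', nonzero, with values 0, 2, -2 on A0. On the fibre of the pattern map through a, every h_i
with d_i a different from 0 is constant (equal to d_i a / 2), so finrank (ann fibre) >= number n a of such i
(h_i - c_i one are independent). Regularity: kappa n a <= log card A0 - log card (fibre a). Summing over a in A0 and using
log x <= x - 1 (or Jensen): kappa sum n a <= card A0 * log (number of patterns) <= card A0 * r log 3. The zero set of
d_i is empty or has card <= exp (-kappa) card A0, and 1 - exp (-kappa) >= kappa / 2. So t <= 3 r / kappa^2 and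
finrank <= 1 + r + t <= 5 r / kappa^2.
`embed`: d = card T, Phi a = sqrt (R / d) * (ev h a) for h in T (via `T.equivFin`), W = span of the Phi a, a in A0;
finrank W <= finrank span T because W lies in the image of the dual of span T under xi -> (xi h) for h in T.
v h = sqrt (d / R) • P_W (basis vector h); sum of norm (P_W e_h)^2 = finrank W (orthonormal basis of W).
-/

set_option autoImplicit false

open scoped RealInnerProductSpace

namespace Pool.Agent.MP_fcb590_an.Q2

open Module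

variable {X α : Type*} [AddCommGroup X] [Module ℝ X] [FiniteDimensional ℝ X]

theorem embed_trace {d : ℕ} (W : Submodule ℝ (E d)) :
    ∑ i, ‖W.starProjection (EuclideanSpace.single i 1)‖ ^ 2 = finrank ℝ W := by
  have h1 : ∀ i, ‖W.starProjection (EuclideanSpace.single i 1)‖ ^ 2 =
      ∑ j, ((stdOrthonormalBasis ℝ W j : E d) i) ^ 2 := fun i => by
    rw [Submodule.starProjection_apply, ← Submodule.coe_norm,
      ← (stdOrthonormalBasis ℝ W).sum_sq_inner_right]
    refine Finset.sum_congr rfl fun j _ => ?_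
    rw [Submodule.inner_orthogonalProjectionOnto_eq_of_mem_left, EuclideanSpace.inner_single_right]
    simp
  simp only [h1]
  rw [Finset.sum_comm]
  have h2 : ∀ j, ∑ i, ((stdOrthonormalBasis ℝ W j : E d) i) ^ 2 = 1 := fun j => by
    rw [← EuclideanSpace.real_norm_sq_eq, ← Submodule.coe_norm,
      (stdOrthonormalBasis ℝ W).orthonormal.1 j, one_pow]
  simp [h2]

theorem embed_frame {d : ℕ} (W : Submodule ℝ (E d)) (x : E d) :
    ∑ i, ⟪W.starProjection (EuclideanSpace.single i 1), x⟫ ^ 2 ≤ ‖x‖ ^ 2 := by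
  refine le_trans (le_of_eq ?_)
    (pow_le_pow_left₀ (norm_nonneg _) (W.norm_starProjection_apply_le x) 2)
  rw [EuclideanSpace.real_norm_sq_eq]
  refine Finset.sum_congr rfl fun i _ => ?_
  rw [Submodule.inner_starProjection_left_eq_right, EuclideanSpace.inner_single_left]
  simp

theorem embed (ev : X →ₗ[ℝ] (α → ℝ)) (A₀ : Finset α) (T : Finset X) (hT : T.Nonempty)
    (hpm : ∀ h ∈ T, ∀ a ∈ A₀, ev h a = 1 ∨ ev h a = -1) {R : ℝ} (hR : 0 < R) :
    ∃ (d : ℕ) (Φ : α → E d) (v : X → E d), (∀ a ∈ A₀, ‖Φ a‖ ^ 2 ≤ R) ∧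
      (∀ h ∈ T, ∀ a ∈ A₀, ⟪Φ a, v h⟫ = ev h a) ∧
      ∑ h ∈ T, ‖v h‖ ^ 2 ≤ T.card * finrank ℝ (Submodule.span ℝ (T : Set X)) / R ∧
      ∀ x : E d, ∑ h ∈ T, ⟪v h, x⟫ ^ 2 ≤ T.card / R * ‖x‖ ^ 2 := by
  classical
  have hd : (0 : ℝ) < T.card := Nat.cast_pos.2 hT.card_pos
  let e := T.equivFin
  let Φ : α → E T.card := fun a => √(R / T.card) • WithLp.toLp 2 fun i => ev (e.symm i) a
  let W : Submodule ℝ (E T.card) := Submodule.span ℝ (Φ '' (A₀ : Set α))
  let u : Fin T.card → E T.card := fun i =>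
    √(T.card / R) • W.starProjection (EuclideanSpace.single i 1)
  have hsum : ∀ f : E T.card → ℝ,
      ∑ h ∈ T, f (if hh : h ∈ T then u (e ⟨h, hh⟩) else 0) = ∑ i, f (u i) := fun f => by
    rw [← Finset.sum_coe_sort, ← e.sum_comp]
    exact Finset.sum_congr rfl fun h _ => by rw [dif_pos h.2]
  have hq : √(T.card / R) ^ 2 = T.card / R := Real.sq_sqrt (by positivity)
  have hW : finrank ℝ W ≤ finrank ℝ (Submodule.span ℝ (T : Set X)) := by
    let ψ : Dual ℝ (Submodule.span ℝ (T : Set X)) →ₗ[ℝ] E T.card :=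
      (WithLp.linearEquiv 2 ℝ (Fin T.card → ℝ)).symm.toLinearMap ∘ₗ LinearMap.pi fun i =>
        Dual.eval ℝ _ ⟨(e.symm i).1, Submodule.subset_span (e.symm i).2⟩
    have h1 : W ≤ LinearMap.range ψ := by
      refine Submodule.span_le.2 ?_
      rintro _ ⟨a, -, rfl⟩
      exact Submodule.smul_mem _ _ ⟨(LinearMap.proj a ∘ₗ ev) ∘ₗ Submodule.subtype _, rfl⟩
    exact (Submodule.finrank_mono h1).trans (ψ.finrank_range_le.trans Subspace.dual_finrank_eq.le)
  refine ⟨T.card, Φ, fun h => if hh : h ∈ T then u (e ⟨h, hh⟩) else 0, fun a ha => ?_,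
    fun h hh a ha => ?_, ?_, fun x => ?_⟩
  · have h1 : ∀ i, ev (e.symm i) a ^ 2 = 1 := fun i => by
      rcases hpm _ (e.symm i).2 a ha with h | h <;> simp [h]
    simp only [Φ]
    rw [norm_smul, mul_pow, EuclideanSpace.real_norm_sq_eq, Real.norm_eq_abs, sq_abs,
      Real.sq_sqrt (by positivity)]
    simp [h1, hd.ne']
  · have h1 : W.starProjection (Φ a) = Φ a :=
      Submodule.starProjection_eq_self_iff.2 (Submodule.subset_span ⟨a, ha, rfl⟩)
    simp only [dif_pos hh, u]
    rw [real_inner_smul_right, ← Submodule.inner_starProjection_left_eq_right, h1,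
      EuclideanSpace.inner_single_right]
    simp only [Φ, PiLp.smul_apply, smul_eq_mul, Equiv.symm_apply_apply, one_mul, conj_trivial]
    rw [← mul_assoc, ← Real.sqrt_mul (by positivity), div_mul_div_cancel₀ hR.ne', div_self hd.ne',
      Real.sqrt_one, one_mul]
  · rw [hsum fun y => ‖y‖ ^ 2]
    simp only [u, norm_smul, mul_pow, Real.norm_eq_abs, sq_abs, hq]
    rw [← Finset.mul_sum, embed_trace, div_mul_eq_mul_div]
    gcongr
  · rw [hsum fun y => ⟪y, x⟫ ^ 2]
    simp only [u, real_inner_smul_left, mul_pow, hq]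
    rw [← Finset.mul_sum]
    exact mul_le_mul_of_nonneg_left (embed_frame W x) (by positivity)

end Pool.Agent.MP_fcb590_an.Q2

end

section
/-!
A regular set carries only linearly many sign functions.
`reg_channel`: let A' maximise Ent Phi A' + (kappa / 2) finrank (ann A') over nonempty subsets of A0. Comparing with A0
(`ent_ge`, `ent_le`, regularity, ann A0 = bot): (kappa / 2) r <= 2 R. If h is not constant on A', split A' by the sign of h:
on both parts finrank ann grows by at least one (h - one or h + one is new), so `ent_split_prod` with a = kappa / 4 and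
`sig_pm` give kappa / 2 <= kappa / 4 + (3 / kappa) Sig, so Sig >= kappa^2 / 12. For `Spread`: J with 2^k elements that are
distinct on A', A'' the set where they all agree; if A'' is empty, or k = 0 (then exp (1 + kappa / 2) >= 1), it is
trivial; `pm_agree` gives finrank ann A'' - finrank ann A' >= k - 1; if A'' = A' then k <= 1 and the bound is trivial;
otherwise `ent_split_card`, maximality for A'' and for the complement (`ann_mono`).
`s1_inj`: WLOG kappa <= 1 is assumed. s = kappa^3 / 160, L = 2 / s, K1 from `chaos` with (kappa / 2, L, kappa^2 / 12),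
K = max 16 (4 K1 s). Strong induction on m0 = finrank (span T). Suppose card T > K m0; T is nonempty and its elements are
nonzero so m0 >= 1. R = s m0, `embed`, `reg_channel`, `merge`: card Bad <= card T / 8 (either <= 2, or
finrank span Bad <= 20 s m0 / kappa^3 = m0 / 8 < m0 and the induction hypothesis). At most half of T has
norm (v h)^2 > L (Markov). The remaining set S has card >= 3 card T / 8 and `chaos` with B = card T / R gives
card S <= card T / 8 + K1 s m0.
`s1`: replace X by the range X' of ev0, ev0 w a = if a in A0 then ev w a else 0, with ev' the inclusion;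
finrank (ann ev' A) + finrank (ann ev A0) = finrank (ann ev A) for A inside A0 (rank-nullity), and T injects in X'.
-/

set_option autoImplicit false

open scoped RealInnerProductSpace

namespace Pool.Agent.MP_fcb590_an.Q2

open Module

theorem regchan_lt {X α : Type} [AddCommGroup X] [Module ℝ X] [FiniteDimensional ℝ X]
    (ev : X →ₗ[ℝ] (α → ℝ)) {A A' : Finset α} (h : A' ⊆ A) {w : X} (h1 : w ∈ ann ev A')
    (h2 : w ∉ ann ev A) : (finrank ℝ (ann ev A) : ℝ) + 1 ≤ finrank ℝ (ann ev A') := by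
  have : finrank ℝ (ann ev A) < finrank ℝ (ann ev A') :=
    Submodule.finrank_lt_finrank_of_lt (lt_of_le_of_ne (ann_mono ev h) fun e => h2 (e ▸ h1))
  exact_mod_cast this

theorem reg_channel {X α : Type} [AddCommGroup X] [Module ℝ X] [FiniteDimensional ℝ X]
    (ev : X →ₗ[ℝ] (α → ℝ)) {κ : ℝ} (hκ : 0 < κ) {A₀ : Finset α} (hne : A₀.Nonempty)
    (hinj : ann ev A₀ = ⊥) {o : X} (ho : ∀ a ∈ A₀, ev o a = 1)
    (hreg : ∀ A ⊆ A₀, A.Nonempty →
      κ * finrank ℝ (ann ev A) ≤ Real.log A₀.card - Real.log A.card)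
    (T : Finset X) (hpm : ∀ h ∈ T, ∀ a ∈ A₀, ev h a = 1 ∨ ev h a = -1) {d : ℕ} (Φ : α → E d)
    (v : X → E d) {R : ℝ} (hR : ∀ a ∈ A₀, ‖Φ a‖ ^ 2 ≤ R)
    (hv : ∀ h ∈ T, ∀ a ∈ A₀, ⟪Φ a, v h⟫ = ev h a) :
    ∃ A' ⊆ A₀, A'.Nonempty ∧ κ * finrank ℝ (ann ev A') ≤ 4 * R ∧
      (∀ h ∈ T, (∃ a ∈ A', ∃ a' ∈ A', ev h a ≠ ev h a') → κ ^ 2 / 12 ≤ Sig Φ A' (v h) (v h)) ∧
      ∀ S ⊆ T, (∀ h ∈ S, ∀ h' ∈ S, (∀ a ∈ A', ev h a = ev h' a) → h = h') →
        Spread Φ A' S v (κ / 2) := by
  classical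
  obtain ⟨A, hA, hmax⟩ := Finset.exists_max_image (A₀.powerset.filter Finset.Nonempty)
    (fun A => Ent Φ A + κ / 2 * finrank ℝ (ann ev A))
    ⟨A₀, Finset.mem_filter.2 ⟨Finset.mem_powerset_self _, hne⟩⟩
  obtain ⟨hA0, hAne⟩ := Finset.mem_filter.1 hA
  rw [Finset.mem_powerset] at hA0
  have hApos : (0 : ℝ) < A.card := by exact_mod_cast hAne.card_pos
  have hsub : ∀ B ⊆ A, B.Nonempty → ∀ t : ℝ,
      (finrank ℝ (ann ev A) : ℝ) + t ≤ finrank ℝ (ann ev B) → Ent Φ B ≤ Ent Φ A - κ / 2 * t := by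
    intro B hB hBne t ht
    have h1 := hmax B (Finset.mem_filter.2 ⟨Finset.mem_powerset.2 (hB.trans hA0), hBne⟩)
    have h2 := mul_le_mul_of_nonneg_left ht (half_pos hκ).le
    linarith
  have hcard : ∀ B ⊆ A, (B.card : ℝ) + (A \ B).card = A.card := fun B hB => by
    have := Finset.card_sdiff_add_card_eq_card hB
    exact_mod_cast (by omega : B.card + (A \ B).card = A.card)
  refine ⟨A, hA0, hAne, ?_, ?_, ?_⟩
  · have h1 := hmax A₀ (Finset.mem_filter.2 ⟨Finset.mem_powerset_self _, hne⟩)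
    rw [hinj, finrank_bot] at h1
    have h2 := ent_ge Φ hne hR
    have h3 := ent_le Φ hAne
    have h4 := hreg A hA0 hAne
    push_cast at h1
    linarith
  · rintro h hh ⟨a, ha, a', ha', hne'⟩
    set B := A.filter fun a => ev h a = 1 with hB
    have hBA : B ⊆ A := Finset.filter_subset _ _
    have hB1 : ∀ b ∈ B, ev h b = 1 := fun b hb => (Finset.mem_filter.1 hb).2
    have hB2 : ∀ b ∈ A \ B, ev h b = -1 := fun b hb => by
      obtain ⟨hb1, hb2⟩ := Finset.mem_sdiff.1 hb
      exact (hpm h hh b (hA0 hb1)).resolve_left fun e => hb2 (Finset.mem_filter.2 ⟨hb1, e⟩)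
    have hex : B.Nonempty ∧ (A \ B).Nonempty := by
      have mem1 : ∀ b ∈ A, ev h b = 1 → b ∈ B := fun b hb e => Finset.mem_filter.2 ⟨hb, e⟩
      have mem2 : ∀ b ∈ A, ev h b = -1 → b ∈ A \ B := fun b hb e =>
        Finset.mem_sdiff.2 ⟨hb, fun hb' => by have := hB1 b hb'; linarith⟩
      rcases hpm h hh a (hA0 ha) with e | e <;> rcases hpm h hh a' (hA0 ha') with e' | e'
      · exact absurd (e.trans e'.symm) hne'
      · exact ⟨⟨a, mem1 a ha e⟩, ⟨a', mem2 a' ha' e'⟩⟩
      · exact ⟨⟨a', mem1 a' ha' e'⟩, ⟨a, mem2 a ha e⟩⟩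
      · exact absurd (e.trans e'.symm) hne'
    obtain ⟨⟨b₁, hb₁⟩, ⟨b₂, hb₂⟩⟩ := hex
    have e1 := hsub B hBA ⟨b₁, hb₁⟩ 1 (regchan_lt ev hBA (w := h - o)
      (fun b hb => by rw [map_sub, Pi.sub_apply, hB1 b hb, ho b (hA0 (hBA hb)), sub_self])
      (fun hw => by
        have := hw b₂ (Finset.mem_sdiff.1 hb₂).1
        rw [map_sub, Pi.sub_apply, hB2 b₂ hb₂, ho b₂ (hA0 (Finset.mem_sdiff.1 hb₂).1)] at this
        norm_num at this))
    have e2 := hsub (A \ B) Finset.sdiff_subset ⟨b₂, hb₂⟩ 1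
      (regchan_lt ev Finset.sdiff_subset (w := h + o)
      (fun b hb => by
        rw [map_add, Pi.add_apply, hB2 b hb, ho b (hA0 (Finset.mem_sdiff.1 hb).1)]; norm_num)
      (fun hw => by
        have := hw b₁ (hBA hb₁)
        rw [map_add, Pi.add_apply, hB1 b₁ hb₁, ho b₁ (hA0 (hBA hb₁))] at this
        norm_num at this))
    have e3 := ent_split_prod Φ hBA ⟨b₁, hb₁⟩ ⟨b₂, hb₂⟩ (a := κ / 4) (by positivity)
    have e4 := sig_pm Φ hBA hAne (v := v h)
      (fun b hb => by rw [hv h hh b (hA0 (hBA hb)), hB1 b hb])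
      (fun b hb => by rw [hv h hh b (hA0 (Finset.mem_sdiff.1 hb).1), hB2 b hb])
    have e5 := hcard B hBA
    have e6 := mul_le_mul_of_nonneg_left e1 (Nat.cast_nonneg (α := ℝ) B.card)
    have e7 := mul_le_mul_of_nonneg_left e2 (Nat.cast_nonneg (α := ℝ) (A \ B).card)
    generalize (∫ y, Zf Φ B y * Zf Φ (A \ B) y / Zf Φ A y ∂ProbabilityTheory.stdGaussian (E d)) = I
      at e3 e4
    generalize Sig Φ A (v h) (v h) = sg at e4 ⊢
    have e8 : 3 / (κ / 4) * I = A.card * (3 / κ * sg) := by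
      have : I = A.card * sg / 4 := by linarith
      rw [this, div_div_eq_mul_div]
      ring
    have e9 : (A.card : ℝ) * (κ / 4) ≤ A.card * (3 / κ * sg) := by
      rw [← e8]
      have : (B.card : ℝ) * (Ent Φ A - κ / 2 * 1) + (A \ B).card * (Ent Φ A - κ / 2 * 1) =
          A.card * (Ent Φ A - κ / 2 * 1) := by rw [← add_mul, e5]
      linarith
    have e10 := le_of_mul_le_mul_left e9 hApos
    rw [div_mul_eq_mul_div, le_div_iff₀ hκ] at e10
    linarith
  · intro S hS hdis k J hJ hJc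
    set B := A.filter fun a => ∀ j ∈ J, ∀ j' ∈ J, ⟪Φ a, v j⟫ = ⟪Φ a, v j'⟫ with hB
    have hBA : B ⊆ A := Finset.filter_subset _ _
    rcases B.eq_empty_or_nonempty with h0 | hBne
    · rw [h0, Finset.card_empty, Nat.cast_zero]
      positivity
    have hBpos : (0 : ℝ) < B.card := by exact_mod_cast hBne.card_pos
    obtain ⟨j₀, hj₀⟩ : J.Nonempty := Finset.card_pos.1 (by rw [hJc]; positivity)
    have h1 := pm_agree ev hBA J j₀ (fun h hh a ha => hpm h (hS (hJ hh)) a (hA0 ha))
      (fun h hh h' hh' => hdis h (hJ hh) h' (hJ hh'))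
      (fun h hh a ha => by
        rw [← hv h (hS (hJ hh)) a (hA0 (hBA ha)), ← hv j₀ (hS (hJ hj₀)) a (hA0 (hBA ha))]
        exact (Finset.mem_filter.1 ha).2 h hh j₀ hj₀)
    rw [hJc, Nat.pow_le_pow_iff_right (by norm_num)] at h1
    have h2 := Submodule.finrank_mono (ann_mono ev hBA)
    have h3 : (finrank ℝ (ann ev A) : ℝ) + (k - 1) ≤ finrank ℝ (ann ev B) := by
      have : finrank ℝ (ann ev A) + k ≤ finrank ℝ (ann ev B) + 1 := by omega
      have : (finrank ℝ (ann ev A) : ℝ) + k ≤ finrank ℝ (ann ev B) + 1 := by exact_mod_cast this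
      linarith
    have e1 := hsub B hBA hBne _ h3
    have main : κ / 2 * (k - 1) ≤ Real.log (A.card / B.card) + 1 := by
      rcases (A \ B).eq_empty_or_nonempty with h0 | hC
      · have hAB : B = A := hBA.antisymm (Finset.sdiff_eq_empty_iff_subset.1 h0)
        rw [hAB] at e1 ⊢
        rw [div_self hApos.ne', Real.log_one]
        linarith
      · have e2 := hsub (A \ B) Finset.sdiff_subset hC 0 (by
          rw [add_zero]
          exact_mod_cast Submodule.finrank_mono (ann_mono ev Finset.sdiff_subset))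
        have e3 := ent_split_card Φ hBA hBne hC
        have e5 := hcard B hBA
        have e6 := mul_le_mul_of_nonneg_left e1 hBpos.le
        have e7 := mul_le_mul_of_nonneg_left e2 (Nat.cast_nonneg (α := ℝ) (A \ B).card)
        have e8 : (B.card : ℝ) * Ent Φ A + (A \ B).card * Ent Φ A = A.card * Ent Φ A := by
          rw [← add_mul, e5]
        refine le_of_mul_le_mul_left ?_ hBpos
        linarith
    have e9 : Real.exp (κ / 2 * (k - 1) - 1) ≤ A.card / B.card :=
      (Real.le_log_iff_exp_le (by positivity)).1 (by linarith)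
    rw [le_div_iff₀ hBpos] at e9
    have e10 : Real.exp (1 - κ / 2 * (k - 1)) * Real.exp (κ / 2 * (k - 1) - 1) = 1 := by
      rw [← Real.exp_add]; simp
    calc (B.card : ℝ) = Real.exp (1 - κ / 2 * (k - 1)) *
          (Real.exp (κ / 2 * (k - 1) - 1) * B.card) := by rw [← mul_assoc, e10, one_mul]
      _ ≤ _ := mul_le_mul_of_nonneg_left e9 (Real.exp_pos _).le

end Pool.Agent.MP_fcb590_an.Q2

end

section
/-!
A regular set carries only linearly many sign functions.
`reg_channel`: let A' maximise Ent Phi A' + (kappa / 2) finrank (ann A') over nonempty subsets of A0. Comparing with A0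
(`ent_ge`, `ent_le`, regularity, ann A0 = bot): (kappa / 2) r <= 2 R. If h is not constant on A', split A' by the sign of h:
on both parts finrank ann grows by at least one (h - one or h + one is new), so `ent_split_prod` with a = kappa / 4 and
`sig_pm` give kappa / 2 <= kappa / 4 + (3 / kappa) Sig, so Sig >= kappa^2 / 12. For `Spread`: J with 2^k elements that are
distinct on A', A'' the set where they all agree; if A'' is empty, or k = 0 (then exp (1 + kappa / 2) >= 1), it is
trivial; `pm_agree` gives finrank ann A'' - finrank ann A' >= k - 1; if A'' = A' then k <= 1 and the bound is trivial;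
otherwise `ent_split_card`, maximality for A'' and for the complement (`ann_mono`).
`s1_inj`: WLOG kappa <= 1 is assumed. s = kappa^3 / 160, L = 2 / s, K1 from `chaos` with (kappa / 2, L, kappa^2 / 12),
K = max 16 (4 K1 s). Strong induction on m0 = finrank (span T). Suppose card T > K m0; T is nonempty and its elements are
nonzero so m0 >= 1. R = s m0, `embed`, `reg_channel`, `merge`: card Bad <= card T / 8 (either <= 2, or
finrank span Bad <= 20 s m0 / kappa^3 = m0 / 8 < m0 and the induction hypothesis). At most half of T has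
norm (v h)^2 > L (Markov). The remaining set S has card >= 3 card T / 8 and `chaos` with B = card T / R gives
card S <= card T / 8 + K1 s m0.
`s1`: replace X by the range X' of ev0, ev0 w a = if a in A0 then ev w a else 0, with ev' the inclusion;
finrank (ann ev' A) + finrank (ann ev A0) = finrank (ann ev A) for A inside A0 (rank-nullity), and T injects in X'.
-/

set_option autoImplicit false

open scoped RealInnerProductSpace

namespace Pool.Agent.MP_fcb590_an.Q2

open Module

theorem s1_markov {X : Type} (T : Finset X) (g : X → ℝ) (hg : ∀ h, 0 ≤ g h) {L : ℝ} (hL : 0 < L)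
    (hs : ∑ h ∈ T, g h ≤ T.card * L / 2) :
    ((T.filter fun h => L < g h).card : ℝ) ≤ T.card / 2 := by
  have h1 : ((T.filter fun h => L < g h).card : ℝ) * L ≤ ∑ h ∈ T.filter fun h => L < g h, g h := by
    rw [← nsmul_eq_mul]
    exact Finset.card_nsmul_le_sum _ _ _ fun h hh => (Finset.mem_filter.1 hh).2.le
  have h2 : ∑ h ∈ T.filter (fun h => L < g h), g h ≤ ∑ h ∈ T, g h :=
    Finset.sum_le_sum_of_subset_of_nonneg (Finset.filter_subset _ _) fun h _ _ => hg h
  have h3 : ((T.filter fun h => L < g h).card : ℝ) * L ≤ T.card / 2 * L := by linarith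
  exact le_of_mul_le_mul_right h3 hL

theorem s1_inj {κ : ℝ} (hκ : 0 < κ) (hκ1 : κ ≤ 1) :
    ∃ K : ℝ, 0 < K ∧ ∀ (X α : Type) [AddCommGroup X] [Module ℝ X] [FiniteDimensional ℝ X]
      (ev : X →ₗ[ℝ] (α → ℝ)) (A₀ : Finset α) (o : X), A₀.Nonempty → ann ev A₀ = ⊥ →
      (∀ a ∈ A₀, ev o a = 1) →
      (∀ A ⊆ A₀, A.Nonempty → κ * finrank ℝ (ann ev A) ≤ Real.log A₀.card - Real.log A.card) →
      ∀ T : Finset X, (∀ h ∈ T, ∀ a ∈ A₀, ev h a = 1 ∨ ev h a = -1) →
        (T.card : ℝ) ≤ K * finrank ℝ (Submodule.span ℝ (T : Set X)) := by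
  classical
  obtain ⟨s, hsd⟩ : ∃ s : ℝ, s = κ ^ 3 / 160 := ⟨_, rfl⟩
  have hs : 0 < s := by rw [hsd]; positivity
  obtain ⟨K₁, hK₁, hch⟩ := chaos (κ := κ / 2) (L := 2 / s) (ρ := κ ^ 2 / 12) (half_pos hκ)
    (by positivity) (by positivity)
  obtain ⟨K, hK16, hK4⟩ : ∃ K : ℝ, 16 ≤ K ∧ 4 * K₁ * s ≤ K := ⟨max 16 (4 * K₁ * s),
    le_max_left _ _, le_max_right _ _⟩
  refine ⟨K, by linarith, fun X α _ _ _ ev A₀ o hne hinj ho hreg => ?_⟩
  suffices H : ∀ n : ℕ, ∀ T : Finset X, finrank ℝ (Submodule.span ℝ (T : Set X)) = n →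
      (∀ h ∈ T, ∀ a ∈ A₀, ev h a = 1 ∨ ev h a = -1) → (T.card : ℝ) ≤ K * n from
    fun T hT => H _ T rfl hT
  intro n
  induction n using Nat.strong_induction_on with
  | _ n ih =>
  intro T hn hpm
  by_contra hbig
  push Not at hbig
  have hn0 : (0 : ℝ) ≤ n := Nat.cast_nonneg n
  have hTpos : (0 : ℝ) < T.card := lt_of_le_of_lt (by positivity) hbig
  have hT : T.Nonempty := Finset.card_pos.1 (by exact_mod_cast hTpos)
  have hn1 : 1 ≤ n := by
    obtain ⟨h, hh⟩ := hT
    obtain ⟨a, ha⟩ := hne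
    by_contra h0
    have h1 : Submodule.span ℝ (T : Set X) = ⊥ := Submodule.finrank_eq_zero.1 (by omega)
    have h2 : h = 0 := by
      have : h ∈ Submodule.span ℝ (T : Set X) := Submodule.subset_span hh
      rwa [h1, Submodule.mem_bot] at this
    rcases hpm h hh a ha with h3 | h3 <;> rw [h2] at h3 <;> norm_num at h3
  have hn1' : (1 : ℝ) ≤ n := by exact_mod_cast hn1
  have hR : 0 < s * n := by positivity
  obtain ⟨d, Φ, v, hΦ, hv, hsum, hframe⟩ := embed ev A₀ T hT hpm hR
  obtain ⟨A', hA', hne', hr, hsig, hspr⟩ := reg_channel ev hκ hne hinj ho hreg T hpm Φ v hΦ hv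
  have hm := merge ev hκ hκ1 hA' hne' hinj ho hreg T hpm
  simp only at hm
  set Bad := T.filter fun h => (∀ a ∈ A', ∀ a' ∈ A', ev h a = ev h a') ∨
      ∃ h' ∈ T, h' ≠ h ∧ ∀ a ∈ A', ev h a = ev h' a with hBad
  have hBc : (Bad.card : ℝ) ≤ T.card / 8 := by
    rcases hm with hm | hm
    · have : (Bad.card : ℝ) ≤ 2 := by exact_mod_cast hm
      nlinarith
    · have h1 : 5 * (finrank ℝ (ann ev A') : ℝ) / κ ^ 2 ≤ n / 8 := by
        rw [div_le_iff₀ (by positivity)]
        have h2 : κ * (5 * (finrank ℝ (ann ev A') : ℝ)) ≤ κ * (n / 8 * κ ^ 2) := by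
          rw [hsd] at hr
          nlinarith
        exact le_of_mul_le_mul_left h2 hκ
      have h3 := hm.trans h1
      have h4 : finrank ℝ (Submodule.span ℝ (Bad : Set X)) < n := by
        have : (finrank ℝ (Submodule.span ℝ (Bad : Set X)) : ℝ) < n := by linarith
        exact_mod_cast this
      have h5 := ih _ h4 Bad rfl fun h hh => hpm h (Finset.mem_filter.1 hh).1
      have h6 : K * (finrank ℝ (Submodule.span ℝ (Bad : Set X)) : ℝ) ≤ K * (n / 8) :=
        mul_le_mul_of_nonneg_left h3 (by linarith)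
      linarith
  have hHi := s1_markov T (fun h => ‖v h‖ ^ 2) (fun h => by positivity) (L := 2 / s)
    (by positivity) (hsum.trans (le_of_eq (by rw [hn]; field_simp)))
  set Hi := T.filter fun h => 2 / s < ‖v h‖ ^ 2 with hHid
  set S := T \ (Bad ∪ Hi) with hS
  have hST : S ⊆ T := Finset.sdiff_subset
  have hSc : (T.card : ℝ) ≤ S.card + Bad.card + Hi.card := by
    have h1 : T.card ≤ S.card + (Bad ∪ Hi).card := Finset.card_le_card_sdiff_add_card
    have h2 := Finset.card_union_le Bad Hi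
    exact_mod_cast h1.trans (by omega)
  have hSB : ∀ h ∈ S, ¬ ((∀ a ∈ A', ∀ a' ∈ A', ev h a = ev h a') ∨
      ∃ h' ∈ T, h' ≠ h ∧ ∀ a ∈ A', ev h a = ev h' a) := fun h hh hb =>
    (Finset.mem_sdiff.1 hh).2 (Finset.mem_union_left _ (Finset.mem_filter.2 ⟨hST hh, hb⟩))
  have hmain := hch d α X Φ A' S v (s * n) (T.card / (s * n)) hne' (by positivity)
    (fun a ha => hΦ a (hA' ha))
    (fun h hh => not_lt.1 fun hb =>
      (Finset.mem_sdiff.1 hh).2 (Finset.mem_union_right _ (Finset.mem_filter.2 ⟨hST hh, hb⟩)))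
    (fun x => le_trans (Finset.sum_le_sum_of_subset_of_nonneg hST fun h _ _ => sq_nonneg _)
      (hframe x))
    (fun h hh a ha => by rw [hv h (hST hh) a (hA' ha)]; exact hpm h (hST hh) a (hA' ha))
    (hspr S hST fun h hh h' hh' he => by
      by_contra hne2
      exact hSB h hh (Or.inr ⟨h', hST hh', fun e => hne2 e.symm, he⟩))
    (fun h hh => hsig h (hST hh) (by
      by_contra hc
      push Not at hc
      exact hSB h hh (Or.inl hc)))
  have e1 : s * n * (T.card / (s * n)) / 8 = T.card / 8 := by field_simp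
  rw [e1] at hmain
  have : 4 * K₁ * s * n ≤ K * n := mul_le_mul_of_nonneg_right hK4 hn0
  linarith

theorem s1 {κ : ℝ} (hκ : 0 < κ) (hκ1 : κ ≤ 1) :
    ∃ K : ℝ, 0 < K ∧ ∀ (X α : Type) [AddCommGroup X] [Module ℝ X] [FiniteDimensional ℝ X]
      (ev : X →ₗ[ℝ] (α → ℝ)) (A₀ : Finset α) (o : X), A₀.Nonempty → (∀ a ∈ A₀, ev o a = 1) →
      (∀ A ⊆ A₀, A.Nonempty → κ * ((finrank ℝ (ann ev A) : ℝ) - finrank ℝ (ann ev A₀)) ≤
        Real.log A₀.card - Real.log A.card) →
      ∀ T : Finset X, (∀ h ∈ T, ∀ a ∈ A₀, ev h a = 1 ∨ ev h a = -1) →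
        (∀ h ∈ T, ∀ h' ∈ T, (∀ a ∈ A₀, ev h a = ev h' a) → h = h') →
        (T.card : ℝ) ≤ K * finrank ℝ X := by
  classical
  obtain ⟨K, hK, H⟩ := s1_inj hκ hκ1
  refine ⟨K, hK, fun X α _ _ _ ev A₀ o hne ho hreg T hpm hinj => ?_⟩
  obtain ⟨W, hW⟩ := (ann ev A₀).exists_isCompl
  let π : X →ₗ[ℝ] W := Submodule.projectionOnto W (ann ev A₀) hW.symm
  let ev' : W →ₗ[ℝ] (α → ℝ) := ev ∘ₗ W.subtype
  have hπ : ∀ x : X, ∀ a ∈ A₀, ev' (π x) a = ev x a := by
    intro x a ha
    have h1 : x - (π x : X) ∈ ann ev A₀ := by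
      rw [← Submodule.projectionOnto_apply_eq_zero_iff hW.symm, map_sub,
        Submodule.projectionOnto_apply_left, sub_self]
    have h2 := h1 a ha
    rw [map_sub, Pi.sub_apply, sub_eq_zero] at h2
    exact h2.symm
  have hfin : ∀ A ⊆ A₀, finrank ℝ (ann ev' A) + finrank ℝ (ann ev A₀) ≤ finrank ℝ (ann ev A) := by
    intro A hA
    have h1 : (ann ev' A).map W.subtype ≤ ann ev A := by
      rintro x ⟨y, hy, rfl⟩
      exact hy
    have h2 : (ann ev' A).map W.subtype ⊓ ann ev A₀ = ⊥ := by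
      rw [eq_bot_iff, ← hW.disjoint.eq_bot, inf_comm]
      exact inf_le_inf le_rfl (Submodule.map_subtype_le _ _)
    have h3 := Submodule.finrank_sup_add_finrank_inf_eq ((ann ev' A).map W.subtype) (ann ev A₀)
    rw [h2, finrank_bot, Submodule.finrank_map_subtype_eq] at h3
    have h4 := Submodule.finrank_mono (sup_le h1 (ann_mono ev hA))
    omega
  have hbot : ann ev' A₀ = ⊥ := by
    have := hfin A₀ subset_rfl
    exact Submodule.finrank_eq_zero.1 (by omega)
  have h := H W α ev' A₀ (π o) hne hbot (fun a ha => by rw [hπ o a ha, ho a ha])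
    (fun A hA hAne => le_trans (mul_le_mul_of_nonneg_left (by
      have : ((finrank ℝ (ann ev' A) : ℝ)) + finrank ℝ (ann ev A₀) ≤ finrank ℝ (ann ev A) := by
        exact_mod_cast hfin A hA
      linarith) hκ.le) (hreg A hA hAne)) (T.image π) (by
      intro h hh a ha
      obtain ⟨x, hx, rfl⟩ := Finset.mem_image.1 hh
      rw [hπ x a ha]
      exact hpm x hx a ha)
  rw [Finset.card_image_of_injOn fun x hx y hy e => hinj x hx y hy fun a ha => by
    rw [← hπ x a ha, ← hπ y a ha, e]] at h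
  refine h.trans (mul_le_mul_of_nonneg_left ?_ hK.le)
  exact_mod_cast (Submodule.finrank_le _).trans (Submodule.finrank_le W)

end Pool.Agent.MP_fcb590_an.Q2

end

section
/-!
Reduction to a face with linearly many coordinates, and the core lemma.
`reduce`: kappa = min (c / 8) 1, K0 from `s1`, n0 = ceiling of (log 2 / kappa), K = K0 * 2^(n0 + 1). Take v0 in V
(`V_nonempty`), a sign sigma and A1 inside A0 with card A1 >= card A0 / 2 and inner f v0 = sigma on A1; o = sigma • v0 has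
inner f o = 1 on A1 and on the face of avg A for every nonempty A inside A1. With ev = evE m and cod A = finrank (ann ev A) <= m,
maximise log card A + kappa cod A + kappa cod (face (avg A)) over nonempty A inside A1. Then
log card A >= c m - log 2 - 2 kappa m >= c m / 2 for large m. For nonempty A' inside A both cod differences are
nonnegative (`ann_mono`, `face_avg_mono`), so each times kappa is at most log card A - log card A'. Let J inside V be a set of
representatives of the functions (f -> inner f v) on Phi = face (avg A) (one v for each function), so `Rep` holds, and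
T inside J a set of representatives of the functions on A; card T <= K0 m by `s1`. For h in T let A' be the larger sign class of
h on A, with sign tau; every v in J that agrees with h on A equals tau on A', hence is tight at avg A' and agrees with
tau • o on face (avg A'). By `pm_agree` (for face (avg A') inside Phi) there are at most 2^(n0 + 1) such v.
`core`: `wide`, `reduce`, `freeze` (with c / 2), `k1` (for the face of y, `Rep.mono`, `face_mono`), and
z = (1/2) • (f - f'), q = qf z = qf (f - f') / 4; `sum_w_le_qf`.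
-/

set_option autoImplicit false

open scoped RealInnerProductSpace

namespace Pool.Agent.MP_fcb590_an.Q2

theorem reduce_half {α : Type} (A : Finset α) (g : α → ℝ) (hg : ∀ a ∈ A, g a = 1 ∨ g a = -1) :
    ∃ τ : ℝ, (τ = 1 ∨ τ = -1) ∧ ∃ A' ⊆ A, A.card ≤ 2 * A'.card ∧ ∀ a ∈ A', g a = τ := by
  classical
  have h := Finset.card_filter_add_card_filter_not (s := A) fun a => g a = 1
  by_cases hc : A.card ≤ 2 * (A.filter fun a => g a = 1).card
  · exact ⟨1, Or.inl rfl, _, Finset.filter_subset _ _, hc, fun a ha => (Finset.mem_filter.1 ha).2⟩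
  · refine ⟨-1, Or.inr rfl, A.filter fun a => ¬ g a = 1, Finset.filter_subset _ _, by omega,
      fun a ha => ?_⟩
    exact (hg a (Finset.mem_filter.1 ha).1).resolve_left (Finset.mem_filter.1 ha).2

theorem reduce_reps {β γ : Type} (S : Finset β) (g : β → γ) :
    ∃ T ⊆ S, (∀ x ∈ T, ∀ y ∈ T, g x = g y → x = y) ∧ ∀ x ∈ S, ∃ t ∈ T, g x = g t := by
  classical
  obtain ⟨T, hT, hinj, him⟩ := Finset.exists_subset_injOn_image_eq_of_surjOn (f := g)
    (S : Set β) (S.image g) (by rw [Finset.coe_image]; exact Set.surjOn_image _ _)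
  refine ⟨T, by exact_mod_cast hT, fun x hx y hy e => hinj hx hy e, fun x hx => ?_⟩
  have : g x ∈ T.image g := by rw [him]; exact Finset.mem_image_of_mem _ hx
  obtain ⟨t, ht, e⟩ := Finset.mem_image.1 this
  exact ⟨t, ht, e.symm⟩

theorem reduce_log {a b : ℕ} (hb : 0 < b) (h : a ≤ 2 * b) (ha : 0 < a) :
    Real.log a - Real.log b ≤ Real.log 2 := by
  have hb' : (0 : ℝ) < b := by exact_mod_cast hb
  have ha' : (0 : ℝ) < a := by exact_mod_cast ha
  have h' : (a : ℝ) ≤ 2 * b := by exact_mod_cast h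
  have := Real.log_le_log ha' h'
  rw [Real.log_mul (by norm_num) hb'.ne'] at this
  linarith

theorem reduce {c : ℝ} (hc : 0 < c) :
    ∃ K : ℝ, 0 < K ∧ ∃ m₀ : ℕ, ∀ m ≥ m₀, ∀ (C : Conf m) (A₀ : Finset (E m)), A₀ ⊆ C.F →
      Real.exp (c * m) ≤ A₀.card →
      ∃ A ⊆ A₀, Real.exp (c / 2 * m) ≤ A.card ∧ ∃ J ⊆ C.V, (J.card : ℝ) ≤ K * m ∧
        C.Rep (C.face (avg A)) J := by
  classical
  obtain ⟨κ, hκ, hκ1, hκc⟩ : ∃ κ : ℝ, 0 < κ ∧ κ ≤ 1 ∧ κ ≤ c / 8 :=
    ⟨min 1 (c / 8), lt_min one_pos (by positivity), min_le_left _ _, min_le_right _ _⟩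
  obtain ⟨K₀, hK₀, hs1⟩ := s1 hκ hκ1
  obtain ⟨n₀, hn₀⟩ := exists_nat_ge (Real.log 2 / κ)
  obtain ⟨m₀, hm₀⟩ := exists_nat_ge (4 / c)
  refine ⟨K₀ * 2 ^ (n₀ + 1), by positivity, max m₀ 1, fun m hm C A₀ hA₀ hcard => ?_⟩
  have hm1 : 1 ≤ m := le_trans (le_max_right _ _) hm
  have hcm : 4 ≤ c * m := by
    have h1 : (m₀ : ℝ) ≤ m := by exact_mod_cast le_trans (le_max_left _ _) hm
    have h2 : 4 / c ≤ m := hm₀.trans h1
    rwa [div_le_iff₀ hc, mul_comm] at h2
  have hmpos : (0 : ℝ) < m := by exact_mod_cast hm1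
  have hA₀pos : 0 < A₀.card := by
    have := Real.exp_pos (c * m)
    exact_mod_cast lt_of_lt_of_le this hcard
  obtain ⟨v₀, hv₀⟩ := C.V_nonempty hm1
  obtain ⟨σ, hσ, A₁, hA₁, hA₁c, hA₁v⟩ := reduce_half A₀ (fun f => ⟪f, v₀⟫)
    fun f hf => C.pm f (hA₀ hf) v₀ hv₀
  have hA₁pos : 0 < A₁.card := by omega
  let cod : Finset (E m) → ℕ := fun A => Module.finrank ℝ (ann (evE m) A)
  have hcod : ∀ A, (cod A : ℝ) ≤ m := fun A => by
    have := Submodule.finrank_le (ann (evE m) A)
    rw [finrank_euclideanSpace_fin] at this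
    exact_mod_cast this
  have hcodm : ∀ {A A' : Finset (E m)}, A' ⊆ A → cod A ≤ cod A' := fun h =>
    Submodule.finrank_mono (ann_mono _ h)
  obtain ⟨A, hA, hmax⟩ := Finset.exists_max_image (A₁.powerset.filter Finset.Nonempty)
    (fun A => Real.log A.card + κ * cod A + κ * cod (C.face (avg A)))
    ⟨A₁, Finset.mem_filter.2 ⟨Finset.mem_powerset_self _, Finset.card_pos.1 hA₁pos⟩⟩
  obtain ⟨hA1, hAne⟩ := Finset.mem_filter.1 hA
  rw [Finset.mem_powerset] at hA1
  have hAF : A ⊆ C.F := hA1.trans (hA₁.trans hA₀)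
  have hApos : (0 : ℝ) < A.card := by exact_mod_cast hAne.card_pos
  have hsub : ∀ A' ⊆ A, A'.Nonempty →
      κ * ((cod A' : ℝ) - cod A) ≤ Real.log A.card - Real.log A'.card ∧
      κ * ((cod (C.face (avg A')) : ℝ) - cod (C.face (avg A))) ≤
        Real.log A.card - Real.log A'.card := by
    intro A' h hne
    have h1 := hmax A' (Finset.mem_filter.2 ⟨Finset.mem_powerset.2 (h.trans hA1), hne⟩)
    have h2 : (cod A : ℝ) ≤ cod A' := by exact_mod_cast hcodm h
    have h3 : (cod (C.face (avg A)) : ℝ) ≤ cod (C.face (avg A')) := by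
      exact_mod_cast hcodm (C.face_avg_mono hAF h hne)
    have h4 := mul_le_mul_of_nonneg_left h2 hκ.le
    have h5 := mul_le_mul_of_nonneg_left h3 hκ.le
    constructor <;> linarith
  have tight : ∀ A' ⊆ A, A'.Nonempty → ∀ v ∈ C.V, ∀ τ : ℝ, (τ = 1 ∨ τ = -1) →
      (∀ f ∈ A', ⟪f, v⟫ = τ) → ∀ f ∈ C.face (avg A'), ⟪f, v⟫ = τ := by
    intro A' _ hne v hv τ hτ h f hf
    have h1 : ⟪avg A', v⟫ = τ := hull_inner_eq (avg_mem_hull hne) h
    rw [← h1]
    refine (C.mem_face.1 hf).2 v hv ?_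
    rcases hτ with rfl | rfl <;> rw [h1] <;> norm_num
  have hσ2 : σ * σ = 1 := by rcases hσ with rfl | rfl <;> norm_num
  refine ⟨A, hA1.trans hA₁, ?_, ?_⟩
  · have h1 := hmax A₁
      (Finset.mem_filter.2 ⟨Finset.mem_powerset_self _, Finset.card_pos.1 hA₁pos⟩)
    have h2 := reduce_log hA₁pos hA₁c hA₀pos
    have h3 : c * m ≤ Real.log A₀.card :=
      (Real.le_log_iff_exp_le (by exact_mod_cast hA₀pos)).2 hcard
    have h4 := mul_le_mul_of_nonneg_left (hcod A) hκ.le
    have h5 := mul_le_mul_of_nonneg_left (hcod (C.face (avg A))) hκ.le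
    have h6 : 0 ≤ κ * cod A₁ := by positivity
    have h7 : 0 ≤ κ * cod (C.face (avg A₁)) := by positivity
    have h8 : κ * m ≤ c / 8 * m := mul_le_mul_of_nonneg_right hκc hmpos.le
    have h9 := Real.log_two_lt_d9
    rw [← Real.le_log_iff_exp_le hApos]
    linarith
  obtain ⟨J, hJ, hJinj, hJrep⟩ := reduce_reps C.V fun v => fun f : C.face (avg A) => ⟪f.1, v⟫
  obtain ⟨T, hT, hTinj, hTrep⟩ := reduce_reps J fun v => fun f : A => ⟪f.1, v⟫
  refine ⟨J, hJ, ?_, fun v hv => ?_⟩
  swap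
  · obtain ⟨j, hj, e⟩ := hJrep v hv
    exact ⟨j, hj, fun f hf => congrFun e ⟨f, hf⟩⟩
  have hTc := hs1 (E m) (E m) (evE m) A (σ • v₀) hAne
    (fun f hf => by rw [evE_apply, real_inner_smul_right, hA₁v f (hA1 hf), hσ2])
    (fun A' h hne => (hsub A' h hne).1) T
    (fun h hh f hf => C.pm f (hAF hf) h (hJ (hT hh)))
    (fun h hh h' hh' e => hTinj h hh h' hh' (funext fun f => e f.1 f.2))
  rw [finrank_euclideanSpace_fin] at hTc
  have hfib : ∀ h ∈ T, (J.filter fun v => ∀ f ∈ A, ⟪f, v⟫ = ⟪f, h⟫).card ≤ 2 ^ (n₀ + 1) := by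
    intro h hh
    obtain ⟨τ, hτ, A', hA', hA'c, hA'v⟩ := reduce_half A (fun f => ⟪f, h⟫)
      fun f hf => C.pm f (hAF hf) h (hJ (hT hh))
    have hA'pos : 0 < A'.card := by have := hAne.card_pos; omega
    have hne' := Finset.card_pos.1 hA'pos
    have h1 := pm_agree (evE m) (C.face_avg_mono hAF hA' hne')
      (J.filter fun v => ∀ f ∈ A, ⟪f, v⟫ = ⟪f, h⟫) ((τ * σ) • v₀)
      (fun v hv f hf => C.pm f (C.face_subset _ hf) v (hJ (Finset.mem_filter.1 hv).1))
      (fun v hv v' hv' e => hJinj v (Finset.mem_filter.1 hv).1 v' (Finset.mem_filter.1 hv').1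
        (funext fun f => e f.1 f.2))
      (fun v hv f hf => by
        rw [evE_apply, evE_apply, real_inner_smul_right,
          tight A' hA' hne' v₀ hv₀ σ hσ (fun g hg => hA₁v g (hA1 (hA' hg))) f hf,
          tight A' hA' hne' v (hJ (Finset.mem_filter.1 hv).1) τ hτ
            (fun g hg => ((Finset.mem_filter.1 hv).2 g (hA' hg)).trans (hA'v g hg)) f hf,
          mul_assoc, hσ2, mul_one])
    refine h1.trans (Nat.pow_le_pow_right (by norm_num) ?_)
    have h2 := (hsub A' hA' hne').2.trans (reduce_log hA'pos hA'c hAne.card_pos)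
    have h3 : (cod (C.face (avg A')) : ℝ) ≤ cod (C.face (avg A)) + n₀ := by
      rw [div_le_iff₀ hκ] at hn₀
      have : κ * ((cod (C.face (avg A')) : ℝ) - cod (C.face (avg A))) ≤ κ * n₀ := by linarith
      have := le_of_mul_le_mul_left this hκ
      linarith
    have h4 : cod (C.face (avg A')) ≤ cod (C.face (avg A)) + n₀ := by exact_mod_cast h3
    simp only [cod] at h4
    omega
  have hJc : J.card ≤ T.card * 2 ^ (n₀ + 1) := by
    have h1 : J ⊆ T.biUnion fun h => J.filter fun v => ∀ f ∈ A, ⟪f, v⟫ = ⟪f, h⟫ := by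
      intro v hv
      obtain ⟨t, ht, e⟩ := hTrep v hv
      exact Finset.mem_biUnion.2 ⟨t, ht, Finset.mem_filter.2 ⟨hv, fun f hf => congrFun e ⟨f, hf⟩⟩⟩
    exact (Finset.card_le_card h1).trans (Finset.card_biUnion_le_card_mul _ _ _ hfib)
  have hJc' : (J.card : ℝ) ≤ T.card * 2 ^ (n₀ + 1) := by exact_mod_cast hJc
  have := mul_le_mul_of_nonneg_right hTc (by positivity : (0 : ℝ) ≤ 2 ^ (n₀ + 1))
  linarith

end Pool.Agent.MP_fcb590_an.Q2

end

section
/-!
The core lemma: a wide projection of the facet normals contains a short ternary vector with a large projection.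
-/

set_option autoImplicit false

open scoped RealInnerProductSpace

namespace Pool.Agent.MP_fcb590_an.Q2

theorem core {c r : ℝ} (hc : 0 < c) (hr : 0 < r) :
    ∃ ε : ℝ, 0 < ε ∧ ∀ θ : ℝ, 0 < θ → ∃ m₀ : ℕ, ∀ m ≥ m₀, ∀ (C : Conf m) (G : Submodule ℝ (E m))
      (w : E m → ℝ), ¬ Narrow C.F G c r → IsProb C.V w →
      ∃ (z : E m) (q : ℝ), 0 < q ∧ q ≤ θ * m ∧ (∀ v ∈ C.V, |⟪z, v⟫| = ⟪z, v⟫ ^ 2) ∧
        (m : ℝ) * ∑ v ∈ C.V, w v * ⟪z, v⟫ ^ 2 ≤ 2 * q ∧
        ε * (q + ‖z‖ ^ 2) ≤ ‖G.starProjection z‖ ^ 2 := by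
  obtain ⟨K, hK, m₁, hred⟩ := reduce hc
  obtain ⟨ε, ψ, hε, hψ, hfr⟩ := freeze hK (half_pos hc) hr
  refine ⟨ε, hε, fun θ hθ => ?_⟩
  obtain ⟨m₂, hk1⟩ := k1 hK hψ hθ
  refine ⟨max (max m₁ m₂) 1, fun m hm C G w hN hw => ?_⟩
  have hm1 : m₁ ≤ m := le_trans (le_trans (le_max_left _ _) (le_max_left _ _)) hm
  have hm2 : m₂ ≤ m := le_trans (le_trans (le_max_right _ _) (le_max_left _ _)) hm
  have hm3 : 1 ≤ m := le_trans (le_max_right _ _) hm
  obtain ⟨A₀, hA₀, hcard, hsep⟩ := wide C.normF hr.le hN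
  obtain ⟨A, hA, hAc, J, hJ, hJK, hrep⟩ := hred m hm1 C A₀ hA₀ hcard.le
  have hAF : A ⊆ C.F := hA.trans hA₀
  have hne : A.Nonempty := by
    rw [← Finset.card_pos]
    have := Real.exp_pos (c / 2 * m)
    exact_mod_cast lt_of_lt_of_le this hAc
  have hin : C.InK (avg A) :=
    C.inK_of_hull (convexHull_mono (by exact_mod_cast hAF) (avg_mem_hull hne))
  obtain ⟨y, hy, hyc, hgood⟩ := hfr m C G w J A (avg A) hm3 hw hJ hJK hin hrep
    (C.subset_face_avg hAF) hAc (fun f hf f' hf' h => hsep f (hA hf) f' (hA hf') h)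
  obtain ⟨f, hf, f', hf', hpos, hle⟩ :=
    hk1 m hm2 C w J y hw hJ hJK (hrep.mono (C.face_mono hy)) hyc
  have hmpos : (0 : ℝ) ≤ m := Nat.cast_nonneg m
  refine ⟨(1 / 2 : ℝ) • (f - f'), qf C.V J w ((1 / 2 : ℝ) • (f - f')), ?_, ?_, ?_,
    sum_w_le_qf _, ?_⟩
  · rw [qf_smul]; positivity
  · rw [qf_smul]; nlinarith [mul_nonneg hθ.le hmpos]
  · intro v hv
    rw [real_inner_smul_left, inner_sub_left]
    rcases C.pm f (C.face_subset y hf) v hv with h | h <;>
      rcases C.pm f' (C.face_subset y hf') v hv with h' | h' <;> rw [h, h'] <;> norm_num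
  · have := hgood f hf f' hf'
    rw [qf_smul, map_smul, norm_smul, norm_smul, mul_pow, mul_pow, Real.norm_eq_abs, sq_abs]
    nlinarith

end Pool.Agent.MP_fcb590_an.Q2

end

end

-- part MP_fcb590_an.Q2.Design
section

section
/-!
Determinant inequalities and optimal designs.
Hints. `det_le_exp`: eigenvalues (`Matrix.IsHermitian.det_eq_prod_eigenvalues`, `trace_eq_sum_eigenvalues`),
each eigenvalue t satisfies t <= exp (t - 1).
`det_mul_le_exp`: write N = B^T B (`exists_factor`), apply `det_le_exp` to B D B^T.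
`exists_factor`: B = CFC.sqrt N or any Cholesky type factorisation (`Matrix.posDef_iff_eq_conjTranspose_mul_self`,
`CStarAlgebra.nonneg_iff_eq_star_mul_self`, `LDL`).
`det_add_rank_one`: `Matrix.det_add_replicateCol_mul_replicateRow` or `det_one_add_replicateCol_mul_replicateRow`.
`design`: maximise the continuous function c -> det (Dm c) * exp (alpha * sum c l) over the compact simplex
`stdSimplex` on the subtype of V; the uniform weight gives a positive definite Dm (V spans), so the maximum is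
positive and the maximiser (PSD with nonzero determinant) is positive definite.
First order condition: c_t = (1-t) c + t delta_v has Dm c_t = (1-t) D + t v v^T, determinant
(1-t)^m det D (1 + t sigma / (1-t)); so m log(1-t) + log(1 + t sigma/(1-t)) + alpha t (l v - sum c l) <= 0
for t in (0,1); take the derivative at t = 0 from the right (or divide by t and let t tend to 0).
-/

set_option autoImplicit false

open scoped RealInnerProductSpace

namespace Pool.Agent.MP_fcb590_an.Q2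

open Matrix

section General

variable {n : Type*} [Fintype n] [DecidableEq n]

theorem det_le_exp {A : Matrix n n ℝ} (hA : A.PosSemidef) :
    A.det ≤ Real.exp (A.trace - Fintype.card n) := by
  rw [hA.1.det_eq_prod_eigenvalues, hA.1.trace_eq_sum_eigenvalues]
  have e : ∑ i, hA.1.eigenvalues i - (Fintype.card n : ℝ) = ∑ i, (hA.1.eigenvalues i - 1) := by
    simp [Finset.sum_sub_distrib]
  simp only [RCLike.ofReal_real_eq_id, id]
  rw [e, Real.exp_sum]
  exact Finset.prod_le_prod (fun i _ => hA.eigenvalues_nonneg i) fun i _ => by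
    linarith [Real.add_one_le_exp (hA.1.eigenvalues i - 1)]

open scoped MatrixOrder in
theorem logdet_factor {N : Matrix n n ℝ} (hN : N.PosSemidef) : ∃ B : Matrix n n ℝ, N = Bᵀ * B := by
  obtain ⟨B, hB⟩ := CStarAlgebra.nonneg_iff_eq_star_mul_self.mp hN.nonneg
  exact ⟨B, by rwa [star_eq_conjTranspose, conjTranspose_eq_transpose_of_trivial] at hB⟩

omit [DecidableEq n] in
theorem logdet_conj {D : Matrix n n ℝ} (hD : D.PosSemidef) (B : Matrix n n ℝ) :
    (B * D * Bᵀ).PosSemidef := by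
  simpa only [conjTranspose_eq_transpose_of_trivial] using hD.mul_mul_conjTranspose_same B

theorem exists_factor {N : Matrix n n ℝ} (hN : N.PosDef) :
    ∃ B : Matrix n n ℝ, IsUnit B.det ∧ N = Bᵀ * B := by
  obtain ⟨B, hB⟩ := logdet_factor hN.posSemidef
  refine ⟨B, isUnit_iff_ne_zero.2 fun h => hN.det_pos.ne' ?_, hB⟩
  rw [hB, det_mul, h, mul_zero]

theorem det_mul_le_exp {D N : Matrix n n ℝ} (hD : D.PosSemidef) (hN : N.PosDef) :
    D.det * N.det ≤ Real.exp ((D * N).trace - Fintype.card n) := by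
  obtain ⟨B, rfl⟩ := logdet_factor hN.posSemidef
  have h := det_le_exp (logdet_conj hD B)
  rw [trace_mul_cycle, trace_mul_comm, det_mul, det_mul] at h
  rw [det_mul]
  exact le_of_eq_of_le (by ring) h

/-- scaled form: `det A ≤ a ^ n * exp (tr A / a - n)` -/
theorem det_le_pow_mul_exp {A : Matrix n n ℝ} (hA : A.PosSemidef) {a : ℝ} (ha : 0 < a) :
    A.det ≤ a ^ Fintype.card n * Real.exp (A.trace / a - Fintype.card n) := by
  have h := det_le_exp (hA.smul (inv_nonneg.2 ha.le))
  rw [det_smul, trace_smul, smul_eq_mul, inv_pow, inv_mul_le_iff₀ (pow_pos ha _),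
    inv_mul_eq_div] at h
  exact h

theorem det_add_rank_one {D : Matrix n n ℝ} (hD : IsUnit D.det) (t : ℝ) (v : n → ℝ) :
    (D + t • vecMulVec v v).det = D.det * (1 + t * (v ⬝ᵥ D⁻¹ *ᵥ v)) := by
  have e : D + t • vecMulVec v v =
      D * (1 + replicateCol Unit (t • D⁻¹ *ᵥ v) * replicateRow Unit v) := by
    rw [← vecMulVec_eq, Matrix.mul_add, Matrix.mul_one, mul_vecMulVec, mulVec_smul, mulVec_mulVec,
      mul_nonsing_inv _ hD, one_mulVec, smul_vecMulVec]
  rw [e, det_mul, det_one_add_replicateCol_mul_replicateRow, dotProduct_smul, smul_eq_mul]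

theorem trace_mul_nonneg' {A B : Matrix n n ℝ} (hA : A.PosSemidef) (hB : B.PosSemidef) :
    0 ≤ (A * B).trace := by
  obtain ⟨C, rfl⟩ := logdet_factor hB
  have h := (logdet_conj hA C).trace_nonneg
  rwa [trace_mul_cycle, trace_mul_comm] at h

/-- Cauchy-Schwarz for a positive definite matrix and its inverse -/
theorem dot_sq_le_form {D : Matrix n n ℝ} (hD : D.PosDef) (x y : n → ℝ) :
    (x ⬝ᵥ y) ^ 2 ≤ (x ⬝ᵥ D⁻¹ *ᵥ x) * (y ⬝ᵥ D *ᵥ y) := by
  obtain ⟨B, hB, rfl⟩ := exists_factor hD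
  have hB' : IsUnit Bᵀ.det := by rwa [det_transpose]
  have e1 : x ⬝ᵥ y = (Bᵀ⁻¹ *ᵥ x) ⬝ᵥ (B *ᵥ y) := by
    rw [dotProduct_mulVec, ← mulVec_transpose, mulVec_mulVec, mul_nonsing_inv _ hB', one_mulVec]
  have e2 : x ⬝ᵥ (Bᵀ * B)⁻¹ *ᵥ x = (Bᵀ⁻¹ *ᵥ x) ⬝ᵥ (Bᵀ⁻¹ *ᵥ x) := by
    rw [Matrix.mul_inv_rev, ← mulVec_mulVec, dotProduct_mulVec, ← mulVec_transpose,
      transpose_nonsing_inv]
  have e3 : y ⬝ᵥ (Bᵀ * B) *ᵥ y = (B *ᵥ y) ⬝ᵥ (B *ᵥ y) := by
    rw [← mulVec_mulVec, dotProduct_mulVec, vecMul_transpose]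
  rw [e1, e2, e3]
  simpa only [dotProduct, sq] using
    Finset.sum_mul_sq_le_sq_mul_sq Finset.univ (Bᵀ⁻¹ *ᵥ x) (B *ᵥ y)

end General

end Pool.Agent.MP_fcb590_an.Q2

end

section
/-!
Determinant inequalities and optimal designs.
Hints. `det_le_exp`: eigenvalues (`Matrix.IsHermitian.det_eq_prod_eigenvalues`, `trace_eq_sum_eigenvalues`),
each eigenvalue t satisfies t <= exp (t - 1).
`det_mul_le_exp`: write N = B^T B (`exists_factor`), apply `det_le_exp` to B D B^T.
`exists_factor`: B = CFC.sqrt N or any Cholesky type factorisation (`Matrix.posDef_iff_eq_conjTranspose_mul_self`,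
`CStarAlgebra.nonneg_iff_eq_star_mul_self`, `LDL`).
`det_add_rank_one`: `Matrix.det_add_replicateCol_mul_replicateRow` or `det_one_add_replicateCol_mul_replicateRow`.
`design`: maximise the continuous function c -> det (Dm c) * exp (alpha * sum c l) over the compact simplex
`stdSimplex` on the subtype of V; the uniform weight gives a positive definite Dm (V spans), so the maximum is
positive and the maximiser (PSD with nonzero determinant) is positive definite.
First order condition: c_t = (1-t) c + t delta_v has Dm c_t = (1-t) D + t v v^T, determinant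
(1-t)^m det D (1 + t sigma / (1-t)); so m log(1-t) + log(1 + t sigma/(1-t)) + alpha t (l v - sum c l) <= 0
for t in (0,1); take the derivative at t = 0 from the right (or divide by t and let t tend to 0).
-/

set_option autoImplicit false

open scoped RealInnerProductSpace

namespace Pool.Agent.MP_fcb590_an.Q2

open Matrix

variable {m : ℕ}

theorem design_inner (x v : E m) : ⟪x, v⟫ = x.ofLp ⬝ᵥ v.ofLp := by
  rw [EuclideanSpace.inner_eq_star_dotProduct, star_trivial, dotProduct_comm]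

theorem Dm_form (V : Finset (E m)) (c : E m → ℝ) (x : E m) :
    x.ofLp ⬝ᵥ Dm V c *ᵥ x.ofLp = ∑ v ∈ V, c v * ⟪x, v⟫ ^ 2 := by
  rw [Dm, sum_mulVec, dotProduct_sum]
  refine Finset.sum_congr rfl fun v _ => ?_
  rw [smul_mulVec, vecMulVec_mulVec, dotProduct_smul, design_inner, dotProduct_comm v.ofLp]
  simp only [op_smul_eq_smul, dotProduct_smul, smul_eq_mul]
  ring

theorem Dm_posSemidef {V : Finset (E m)} {c : E m → ℝ} (hc : ∀ v ∈ V, 0 ≤ c v) :
    (Dm V c).PosSemidef := by
  refine posSemidef_sum V fun v hv => PosSemidef.smul ?_ (hc v hv)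
  simpa using posSemidef_vecMulVec_self_star v.ofLp

theorem trace_Dm_mul (V : Finset (E m)) (c : E m → ℝ) (N : Matrix (Fin m) (Fin m) ℝ) :
    (Dm V c * N).trace = ∑ v ∈ V, c v * (v.ofLp ⬝ᵥ N *ᵥ v.ofLp) := by
  rw [Dm, Finset.sum_mul, trace_sum]
  refine Finset.sum_congr rfl fun v _ => ?_
  rw [smul_mul, trace_smul, vecMulVec_mul, trace_vecMulVec, dotProduct_comm, dotProduct_mulVec,
    smul_eq_mul]

theorem design_posDef {V : Finset (E m)} (hsp : ∀ y : E m, (∀ v ∈ V, ⟪y, v⟫ = 0) → y = 0)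
    {c : E m → ℝ} (hc : ∀ v ∈ V, 0 < c v) : (Dm V c).PosDef := by
  refine PosDef.of_dotProduct_mulVec_pos (Dm_posSemidef fun v hv => (hc v hv).le).isHermitian
    fun x hx => ?_
  have e := Dm_form V c (WithLp.toLp 2 x)
  rw [star_trivial]
  refine lt_of_lt_of_eq ?_ e.symm
  have h0 : ∀ v ∈ V, 0 ≤ c v * ⟪(WithLp.toLp 2 x : E m), v⟫ ^ 2 := fun v hv =>
    mul_nonneg (hc v hv).le (sq_nonneg _)
  refine lt_of_le_of_ne (Finset.sum_nonneg h0) fun h => hx ?_
  have h1 := hsp (WithLp.toLp 2 x) fun v hv => by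
    have := (Finset.sum_eq_zero_iff_of_nonneg h0).1 h.symm v hv
    exact pow_eq_zero_iff two_ne_zero |>.1 ((mul_eq_zero.1 this).resolve_left (hc v hv).ne')
  simpa using congrArg WithLp.ofLp h1

theorem design_first {n : ℕ} {α σ L y : ℝ}
    (h : ∀ s : ℝ, 0 < s → (1 + s)⁻¹ ^ n * (1 + s * σ) * Real.exp (α * ((1 + s)⁻¹ * (L + s * y)))
      ≤ Real.exp (α * L)) : α * y + σ ≤ α * L + n := by
  have d0 : HasDerivAt (fun s : ℝ => (1 + s)⁻¹) (-1) 0 := by
    simpa using ((hasDerivAt_id (0 : ℝ)).const_add 1).fun_inv (by simp)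
  have d1 : HasDerivAt (fun s : ℝ => 1 + s * σ) σ 0 := by
    simpa using ((hasDerivAt_id (0 : ℝ)).mul_const σ).const_add 1
  have d2 : HasDerivAt (fun s : ℝ => L + s * y) y 0 := by
    simpa using ((hasDerivAt_id (0 : ℝ)).mul_const y).const_add L
  have d : HasDerivAt (fun s : ℝ => (1 + s)⁻¹ ^ n * (1 + s * σ)
      * Real.exp (α * ((1 + s)⁻¹ * (L + s * y)))) (Real.exp (α * L) * (α * y + σ - (α * L + n))) 0 := by
    refine (((d0.fun_pow n).fun_mul d1).fun_mul ((d0.fun_mul d2).const_mul α).exp).congr_deriv ?_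
    simp
    ring
  have h1 := (hasDerivAt_iff_tendsto_slope.1 d).mono_left
    (nhdsWithin_mono _ fun r (hr : r ∈ Set.Ioi (0 : ℝ)) => ne_of_gt hr)
  have h2 := le_of_tendsto h1 (b := 0) (by
    filter_upwards [self_mem_nhdsWithin] with s hs
    rw [slope_def_field, sub_zero]
    refine div_nonpos_of_nonpos_of_nonneg ?_ (le_of_lt hs)
    simpa using h s hs)
  have := nonpos_of_mul_nonpos_right h2 (Real.exp_pos _)
  linarith

theorem design (V : Finset (E m)) (hV : V.Nonempty)
    (hsp : ∀ y : E m, (∀ v ∈ V, ⟪y, v⟫ = 0) → y = 0) (l : E m → ℝ) (α : ℝ) :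
    ∃ c, IsProb V c ∧ (Dm V c).PosDef ∧
      (∀ c', IsProb V c' → (Dm V c').det * Real.exp (α * ∑ v ∈ V, c' v * l v) ≤
        (Dm V c).det * Real.exp (α * ∑ v ∈ V, c v * l v)) ∧
      ∀ v ∈ V, α * l v + v.ofLp ⬝ᵥ (Dm V c)⁻¹ *ᵥ v.ofLp ≤ α * ∑ u ∈ V, c u * l u + m := by
  classical
  set g : (E m → ℝ) → ℝ := fun c => (Dm V c).det * Real.exp (α * ∑ v ∈ V, c v * l v) with hg
  have hcont : Continuous g := by
    refine Continuous.mul (Continuous.matrix_det ?_) (Real.continuous_exp.comp (by fun_prop))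
    unfold Dm
    fun_prop
  set K : Set (E m → ℝ) := (Set.univ.pi fun _ => Set.Icc (0 : ℝ) 1) ∩ {c | ∑ v ∈ V, c v = 1} with hK
  have hKc : IsCompact K := (isCompact_univ_pi fun _ => isCompact_Icc).inter_right
    (isClosed_eq (by fun_prop) continuous_const)
  have cut : ∀ c, IsProb V c → ∃ c' ∈ K, g c' = g c := by
    intro c hc
    have e : ∀ v ∈ V, (if v ∈ V then c v else 0) = c v := fun v hv => if_pos hv
    refine ⟨fun v => if v ∈ V then c v else 0, ⟨fun v _ => ?_, ?_⟩, ?_⟩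
    · dsimp only
      split_ifs with hv
      · exact ⟨hc.1 v hv, hc.2 ▸ Finset.single_le_sum hc.1 hv⟩
      · exact ⟨le_rfl, zero_le_one⟩
    · exact (Finset.sum_congr rfl e).trans hc.2
    · simp only [hg, Dm]
      rw [Finset.sum_congr rfl fun v hv => by rw [e v hv],
        Finset.sum_congr (g := fun v => c v * l v) rfl fun v hv => by rw [e v hv]]
  have hcard : (0 : ℝ) < V.card := by exact_mod_cast hV.card_pos
  have hu : IsProb V fun _ => (V.card : ℝ)⁻¹ :=
    ⟨fun _ _ => by positivity, by rw [Finset.sum_const, nsmul_eq_mul, mul_inv_cancel₀ hcard.ne']⟩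
  obtain ⟨u, huK, -⟩ := cut _ hu
  obtain ⟨c, hcK, hmax⟩ := hKc.exists_isMaxOn ⟨u, huK⟩ hcont.continuousOn
  have hc : IsProb V c := ⟨fun v _ => (hcK.1 v trivial).1, hcK.2⟩
  have hbest : ∀ c', IsProb V c' → g c' ≤ g c := fun c' h' => by
    obtain ⟨c'', h1, h2⟩ := cut c' h'
    exact h2 ▸ hmax h1
  have hpos : 0 < (Dm V c).det := by
    have h1 := (design_posDef hsp (c := fun _ => (V.card : ℝ)⁻¹) fun _ _ => by positivity).det_pos
    exact (mul_pos_iff_of_pos_right (Real.exp_pos _)).1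
      ((mul_pos h1 (Real.exp_pos _)).trans_le (hbest _ hu))
  refine ⟨c, hc, (Dm_posSemidef hc.1).posDef_iff_det_ne_zero.2 hpos.ne', hbest, fun v hv => ?_⟩
  refine design_first fun s hs => ?_
  have h1 : (0 : ℝ) < 1 + s := by linarith
  have key : ∀ {M : Type} [AddCommGroup M] [Module ℝ M] (f : E m → M),
      ∑ w ∈ V, ((1 + s)⁻¹ * (c w + if w = v then s else 0)) • f w
        = (1 + s)⁻¹ • (∑ w ∈ V, c w • f w + s • f v) := by
    intro M _ _ f
    simp only [mul_smul, add_smul, ite_smul, zero_smul, ← Finset.smul_sum, Finset.sum_add_distrib,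
      Finset.sum_ite_eq', if_pos hv]
  have hp : IsProb V fun w => (1 + s)⁻¹ * (c w + if w = v then s else 0) := by
    refine ⟨fun w hw => mul_nonneg (inv_nonneg.2 h1.le) (add_nonneg (hc.1 w hw) ?_), ?_⟩
    · split_ifs
      · exact hs.le
      · exact le_rfl
    · have := key fun _ => (1 : ℝ)
      simp only [smul_eq_mul, mul_one, hc.2] at this
      rw [this, inv_mul_cancel₀ h1.ne']
  have h2 := hbest _ hp
  have h3 := key l
  simp only [smul_eq_mul] at h3
  simp only [hg] at h2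
  rw [h3, Dm, key, det_smul, Fintype.card_fin, ← Dm, det_add_rank_one hpos.ne'.isUnit] at h2
  refine le_of_mul_le_mul_left ?_ hpos
  linarith

end Pool.Agent.MP_fcb590_an.Q2

end

section
/-!
The online potential for the vertex sums, and John position.
`omega`: let c0 be the design for l = 0 and put
Good k l := (all l v >= 0) and for all probability weights c', det (Dm c') exp ((m/4) sum c' l) <= 2^k det (Dm c0).
Step: let w be the design for (l, alpha = m/4), D = Dm w, N = D⁻¹ - alpha psi psi^T. Since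
alpha psi^T D psi <= 1/2 (`Dm_form`), N is positive definite (`dot_sq_le_form` applied to D⁻¹) and
det N = (1 - alpha psi^T D psi) / det D >= 1 / (2 det D) (`det_add_rank_one` for D⁻¹). Averaging the first order
condition against c' gives alpha sum c' l + tr (D' D⁻¹) <= alpha sum w l + m, so
alpha sum c' (l + psi^2) <= alpha sum w l + m - tr (D' N), and `det_mul_le_exp` finishes.
Bound: use c' = (delta_v + c0) / 2; det (Dm c') >= 2^(-m) det (Dm c0) by `det_add_rank_one`; so
exp ((m/8) l v) <= 2^(k+m) <= 4^m and l v <= 16 log 2 <= 12.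
`position`: F spans (from `hullV`, boundedness), F is nonempty (from `hullF` at 0). Take the design c on F with
l = 0, D = Dm F c = B^T B; L = B, L' = (B^T)⁻¹ as linear equivalences of E m (`Matrix.toEuclideanLin`, or
`Matrix.toLinearEquiv'` conjugated by `WithLp.linearEquiv`). Then sum c f (inner (L' f) x)^2 = norm x ^ 2 for all x,
norm (L' f)^2 = f^T D⁻¹ f <= m, norm (L v)^2 = sum c (inner f v)^2 = 1. For `iso` sum over an orthonormal basis of the
orthogonal complement of H: the c-average of norm (P (L' f))^2 is its dimension m - finrank H.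
-/

set_option autoImplicit false

open scoped RealInnerProductSpace

namespace Pool.Agent.MP_fcb590_an.Q2

variable {m : ℕ}

open Matrix

theorem omega_dot (x y : E m) : x.ofLp ⬝ᵥ y.ofLp = ⟪x, y⟫ := by
  simp [PiLp.inner_apply, dotProduct, mul_comm]

theorem omega_form (M : Matrix (Fin m) (Fin m) ℝ) (t : ℝ) (p x : Fin m → ℝ) :
    x ⬝ᵥ (M + t • vecMulVec p p) *ᵥ x = x ⬝ᵥ M *ᵥ x + t * (x ⬝ᵥ p) ^ 2 := by
  rw [add_mulVec, dotProduct_add, smul_mulVec, dotProduct_smul, vecMulVec_mulVec, smul_eq_mul]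
  congr 2
  rw [op_smul_eq_smul, dotProduct_smul, smul_eq_mul, dotProduct_comm p x, sq]

theorem omega_nonneg {M : Matrix (Fin m) (Fin m) ℝ} (hM : M.PosDef) (x : Fin m → ℝ) :
    0 ≤ x ⬝ᵥ M *ᵥ x := by
  simpa using hM.posSemidef.dotProduct_mulVec_nonneg x

theorem omega_posDef {D : Matrix (Fin m) (Fin m) ℝ} (hD : D.PosDef) {α : ℝ} (hα : 0 ≤ α)
    (p : Fin m → ℝ) (hp : α * (p ⬝ᵥ D *ᵥ p) ≤ 1 / 2) :
    (D⁻¹ + (-α) • vecMulVec p p).PosDef := by
  refine PosDef.of_dotProduct_mulVec_pos ?_ fun x hx => ?_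
  · refine hD.inv.isHermitian.add ?_
    ext i j
    simp [vecMulVec_apply, mul_comm]
  · have h1 := dot_sq_le_form hD x p
    have h2 : 0 < x ⬝ᵥ D⁻¹ *ᵥ x := by simpa using hD.inv.dotProduct_mulVec_pos hx
    have h3 : star x = x := by simp
    rw [h3, omega_form]
    have h4 : α * (x ⬝ᵥ p) ^ 2 ≤ (x ⬝ᵥ D⁻¹ *ᵥ x) * (1 / 2) :=
      calc α * (x ⬝ᵥ p) ^ 2 ≤ α * ((x ⬝ᵥ D⁻¹ *ᵥ x) * (p ⬝ᵥ D *ᵥ p)) := by gcongr
        _ = (x ⬝ᵥ D⁻¹ *ᵥ x) * (α * (p ⬝ᵥ D *ᵥ p)) := by ring
        _ ≤ _ := by gcongr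
    linarith

theorem omega_det {D : Matrix (Fin m) (Fin m) ℝ} (hD : D.PosDef) {α : ℝ}
    (p : Fin m → ℝ) (hp : α * (p ⬝ᵥ D *ᵥ p) ≤ 1 / 2) :
    1 ≤ 2 * D.det * (D⁻¹ + (-α) • vecMulVec p p).det := by
  have h0 : 0 < D.det := hD.det_pos
  have hu : IsUnit D.det := h0.ne'.isUnit
  rw [det_add_rank_one hD.inv.det_pos.ne'.isUnit, nonsing_inv_nonsing_inv _ hu, det_nonsing_inv,
    Ring.inverse_eq_inv', mul_assoc, ← mul_assoc D.det, mul_inv_cancel₀ h0.ne']
  linarith

theorem omega_step {V : Finset (E m)} {l w c : E m → ℝ} {α : ℝ} (hα : 0 ≤ α) (hD : (Dm V w).PosDef)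
    (hf : ∀ v ∈ V, α * l v + v.ofLp ⬝ᵥ (Dm V w)⁻¹ *ᵥ v.ofLp ≤ α * ∑ u ∈ V, w u * l u + m)
    (ψ : E m) (hψ : α * ∑ v ∈ V, w v * ⟪ψ, v⟫ ^ 2 ≤ 1 / 2) (hc : IsProb V c) :
    (Dm V c).det * Real.exp (α * ∑ v ∈ V, c v * (l v + ⟪ψ, v⟫ ^ 2)) ≤
      2 * ((Dm V w).det * Real.exp (α * ∑ v ∈ V, w v * l v)) := by
  rw [← Dm_form] at hψ
  have hN := omega_posDef hD hα ψ.ofLp hψ
  have h1 := omega_det hD ψ.ofLp hψ
  have hc' := Dm_posSemidef hc.1
  have h2 := det_mul_le_exp hc' hN
  have h3 : α * ∑ v ∈ V, c v * (l v + ⟪ψ, v⟫ ^ 2) ≤ α * ∑ v ∈ V, w v * l v +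
      -((Dm V c * ((Dm V w)⁻¹ + (-α) • vecMulVec ψ.ofLp ψ.ofLp)).trace - Fintype.card (Fin m)) := by
    rw [trace_Dm_mul, Fintype.card_fin]
    have h4 : ∑ v ∈ V, c v * (α * l v + v.ofLp ⬝ᵥ (Dm V w)⁻¹ *ᵥ v.ofLp) ≤
        ∑ v ∈ V, c v * (α * ∑ u ∈ V, w u * l u + m) :=
      Finset.sum_le_sum fun v hv => mul_le_mul_of_nonneg_left (hf v hv) (hc.1 v hv)
    rw [← Finset.sum_mul, hc.2, one_mul] at h4
    have h5 : α * ∑ v ∈ V, c v * (l v + ⟪ψ, v⟫ ^ 2) +
        ∑ v ∈ V, c v * (v.ofLp ⬝ᵥ ((Dm V w)⁻¹ + (-α) • vecMulVec ψ.ofLp ψ.ofLp) *ᵥ v.ofLp) =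
        ∑ v ∈ V, c v * (α * l v + v.ofLp ⬝ᵥ (Dm V w)⁻¹ *ᵥ v.ofLp) := by
      rw [Finset.mul_sum, ← Finset.sum_add_distrib]
      refine Finset.sum_congr rfl fun v _ => ?_
      rw [omega_form, omega_dot v ψ, real_inner_comm ψ v]
      ring
    linarith
  have h6 := hc'.det_nonneg
  have h7 := hD.det_pos
  generalize (Dm V c * ((Dm V w)⁻¹ + (-α) • vecMulVec ψ.ofLp ψ.ofLp)).trace - Fintype.card (Fin m) = T at *
  generalize ((Dm V w)⁻¹ + (-α) • vecMulVec ψ.ofLp ψ.ofLp).det = dN at *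
  generalize (Dm V c).det = dc at *
  generalize (Dm V w).det = dw at *
  have h8 : dc ≤ 2 * dw * Real.exp T :=
    calc dc = dc * 1 := (mul_one _).symm
      _ ≤ dc * (2 * dw * dN) := by gcongr
      _ = 2 * dw * (dc * dN) := by ring
      _ ≤ _ := by gcongr
  calc _ ≤ (2 * dw * Real.exp T) * Real.exp (α * ∑ v ∈ V, w v * l v + -T) := by gcongr
    _ = _ := by rw [Real.exp_add, Real.exp_neg]; field_simp

open Classical in
theorem omega_bound {V : Finset (E m)} {l c : E m → ℝ} (hc : IsProb V c) (hD : (Dm V c).PosDef)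
    (hl : ∀ v ∈ V, 0 ≤ l v) {v : E m} (hv : v ∈ V) :
    ∃ c', IsProb V c' ∧ (1 / 2) ^ m * (Dm V c).det ≤ (Dm V c').det ∧
      l v / 2 ≤ ∑ u ∈ V, c' u * l u := by
  refine ⟨fun u => 1 / 2 * (c u + if u = v then 1 else 0), ⟨fun u hu => ?_, ?_⟩, ?_, ?_⟩
  · have := hc.1 u hu
    beta_reduce
    split_ifs <;> positivity
  · rw [← Finset.mul_sum, Finset.sum_add_distrib, hc.2, Finset.sum_ite_eq' V v, if_pos hv]
    norm_num
  · have h1 : Dm V (fun u => 1 / 2 * (c u + if u = v then 1 else 0)) =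
        (1 / 2 : ℝ) • (Dm V c + (1 : ℝ) • vecMulVec v.ofLp v.ofLp) := by
      simp only [Dm, mul_smul, add_smul, ← Finset.smul_sum, Finset.sum_add_distrib, ite_smul, zero_smul,
        Finset.sum_ite_eq' V v, if_pos hv]
    rw [h1, det_smul, Fintype.card_fin, det_add_rank_one hD.det_pos.ne'.isUnit]
    have h2 := omega_nonneg hD.inv v.ofLp
    have h3 := hD.det_pos
    refine mul_le_mul_of_nonneg_left (le_mul_of_one_le_right h3.le (by linarith)) (by positivity)
  · have h1 : ∑ u ∈ V, 1 / 2 * (c u + if u = v then 1 else 0) * l u =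
        1 / 2 * (∑ u ∈ V, c u * l u + l v) := by
      simp only [mul_assoc, ← Finset.mul_sum, add_mul, Finset.sum_add_distrib, ite_mul, one_mul, zero_mul,
        Finset.sum_ite_eq' V v, if_pos hv]
    have h2 : 0 ≤ ∑ u ∈ V, c u * l u := Finset.sum_nonneg fun u hu => mul_nonneg (hc.1 u hu) (hl u hu)
    rw [h1]
    linarith

theorem omega (V : Finset (E m)) (hm : 1 ≤ m) (hV : V.Nonempty)
    (hsp : ∀ y : E m, (∀ v ∈ V, ⟪y, v⟫ = 0) → y = 0) :
    ∃ Gd : ℕ → (E m → ℝ) → Prop, Gd 0 (fun _ => 0) ∧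
      (∀ k l, Gd k l → ∃ w, IsProb V w ∧ ∀ ψ : E m, (m : ℝ) * ∑ v ∈ V, w v * ⟪ψ, v⟫ ^ 2 ≤ 2 →
        Gd (k + 1) (fun v => l v + ⟪ψ, v⟫ ^ 2)) ∧
      ∀ k l, k ≤ m → Gd k l → ∀ v ∈ V, l v ≤ 12 := by
  obtain ⟨c0, hc0, hD0, hmax0, -⟩ := design V hV hsp (fun _ => 0) 0
  have hm' : (1 : ℝ) ≤ m := by exact_mod_cast hm
  refine ⟨fun k l => (∀ v ∈ V, 0 ≤ l v) ∧ ∀ c', IsProb V c' →
    (Dm V c').det * Real.exp ((m : ℝ) / 4 * ∑ v ∈ V, c' v * l v) ≤ 2 ^ k * (Dm V c0).det,
    ⟨fun _ _ => le_rfl, fun c' hc' => ?_⟩, fun k l hG => ?_, fun k l hk hG v hv => ?_⟩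
  · simpa using hmax0 c' hc'
  · obtain ⟨w, hw, hD, -, hf⟩ := design V hV hsp l ((m : ℝ) / 4)
    refine ⟨w, hw, fun ψ hψ => ⟨fun v hv => add_nonneg (hG.1 v hv) (sq_nonneg _), fun c' hc' => ?_⟩⟩
    refine (omega_step (by positivity) hD hf ψ (by linarith) hc').trans ?_
    have := hG.2 w hw
    rw [pow_succ]
    linarith
  · obtain ⟨c', hc', h1, h2⟩ := omega_bound hc0 hD0 hG.1 hv
    have h3 := hG.2 c' hc'
    have h4 := hD0.det_pos
    have h5 : (1 / 2) ^ m * (Dm V c0).det * Real.exp ((m : ℝ) / 4 * (l v / 2)) ≤ 2 ^ m * (Dm V c0).det := by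
      have h6 : (0 : ℝ) ≤ (Dm V c').det := le_trans (by positivity) h1
      calc _ ≤ (Dm V c').det * Real.exp ((m : ℝ) / 4 * ∑ v ∈ V, c' v * l v) := by gcongr
        _ ≤ 2 ^ k * (Dm V c0).det := h3
        _ ≤ _ := by gcongr; norm_num
    have h7 : Real.exp ((m : ℝ) / 4 * (l v / 2)) ≤ Real.exp (m * (2 * Real.log 2)) := by
      have h8 : Real.exp (m * (2 * Real.log 2)) = 2 ^ m * 2 ^ m := by
        rw [Real.exp_nat_mul, two_mul, Real.exp_add, Real.exp_log (by norm_num), mul_pow]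
      rw [h8]
      have h9 : (1 / 2 : ℝ) ^ m * Real.exp ((m : ℝ) / 4 * (l v / 2)) ≤ 2 ^ m := by
        refine le_of_mul_le_mul_right ?_ h4
        linarith
      rwa [one_div, inv_pow, inv_mul_le_iff₀ (by positivity)] at h9
    have h10 := Real.exp_le_exp.mp h7
    have h11 : l v / 8 ≤ 2 * Real.log 2 := by
      refine le_of_mul_le_mul_left ?_ (show (0 : ℝ) < m by linarith)
      linarith
    have := Real.log_two_lt_d9
    linarith

end Pool.Agent.MP_fcb590_an.Q2

end

section
/-!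
John position from the optimal design on the facet normals.
-/

set_option autoImplicit false

open scoped RealInnerProductSpace

namespace Pool.Agent.MP_fcb590_an.Q2

open Matrix

variable {m : ℕ}

theorem position_inner (x y : E m) : ⟪x, y⟫ = x.ofLp ⬝ᵥ y.ofLp := by
  simp [PiLp.inner_apply, dotProduct, mul_comm]

theorem position_equiv {A : Matrix (Fin m) (Fin m) ℝ} (hA : IsUnit A.det) :
    ∃ L : E m ≃ₗ[ℝ] E m, ∀ x, (L x).ofLp = A *ᵥ x.ofLp :=
  ⟨((WithLp.linearEquiv 2 ℝ (Fin m → ℝ)).trans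
    (A.toLinearEquiv' (A.invertibleOfIsUnitDet hA))).trans
      (WithLp.linearEquiv 2 ℝ (Fin m → ℝ)).symm, fun _ => rfl⟩

theorem position_span (P : Pre m) (y : E m) (hy : ∀ f ∈ P.F, ⟪y, f⟫ = 0) : y = 0 := by
  by_contra h0
  have hn : 0 < ‖y‖ := norm_pos_iff.2 h0
  obtain ⟨R, hR, hV⟩ : ∃ R : ℝ, 0 ≤ R ∧ ∀ v ∈ P.V, ‖v‖ ≤ R :=
    ⟨∑ v ∈ P.V, ‖v‖, Finset.sum_nonneg fun _ _ => norm_nonneg _, fun v hv =>
      Finset.single_le_sum (f := fun v : E m => ‖v‖) (fun _ _ => norm_nonneg _) hv⟩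
  have h1 : convexHull ℝ (P.V : Set (E m)) ⊆ Metric.closedBall 0 R :=
    convexHull_min (fun v hv => mem_closedBall_zero_iff.2 (hV v hv)) (convex_closedBall _ _)
  have h2 := mem_closedBall_zero_iff.1 (h1 (P.hullV (((R + 1) / ‖y‖) • y)
    fun f hf => by rw [inner_smul_right, real_inner_comm, hy f hf]; simp))
  have h3 : 0 ≤ (R + 1) / ‖y‖ := div_nonneg (by linarith) hn.le
  rw [norm_smul, Real.norm_of_nonneg h3, div_mul_cancel₀ _ hn.ne'] at h2
  linarith

theorem position_iso {F : Finset (E m)} {c : E m → ℝ} (hc : IsProb F c) (g : E m → E m)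
    (hg : ∀ z, ∑ f ∈ F, c f * ⟪z, g f⟫ ^ 2 = ‖z‖ ^ 2) (H : Submodule ℝ (E m)) :
    ∃ f ∈ F, (m : ℝ) - Module.finrank ℝ H ≤ ‖Hᗮ.starProjection (g f)‖ ^ 2 := by
  have h1 : ∀ x : E m, ‖Hᗮ.starProjection x‖ ^ 2 =
      ∑ i, ⟪(stdOrthonormalBasis ℝ Hᗮ i : E m), x⟫ ^ 2 := fun x => by
    rw [Submodule.starProjection_apply, ← Submodule.coe_norm,
      ← (stdOrthonormalBasis ℝ Hᗮ).sum_sq_inner_right]
    simp only [Submodule.inner_orthogonalProjectionOnto_eq_of_mem_left]
  have h2 : ∑ f ∈ F, c f * ‖Hᗮ.starProjection (g f)‖ ^ 2 = m - Module.finrank ℝ H := by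
    simp only [h1, Finset.mul_sum]
    rw [Finset.sum_comm]
    simp only [hg, ← Submodule.coe_norm, OrthonormalBasis.norm_eq_one]
    have h3 := H.finrank_add_finrank_orthogonal
    rw [finrank_euclideanSpace, Fintype.card_fin] at h3
    have h4 : (Module.finrank ℝ H : ℝ) + Module.finrank ℝ Hᗮ = m := by exact_mod_cast h3
    simp
    linarith
  by_contra hne
  push Not at hne
  have h3 : ∑ f ∈ F, c f * ((m : ℝ) - Module.finrank ℝ H - ‖Hᗮ.starProjection (g f)‖ ^ 2) = 0 := by
    simp only [mul_sub _ ((m : ℝ) - Module.finrank ℝ H)]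
    rw [Finset.sum_sub_distrib, ← Finset.sum_mul, hc.2, h2]
    ring
  rw [Finset.sum_eq_zero_iff_of_nonneg fun f hf =>
    mul_nonneg (hc.1 f hf) (sub_nonneg.2 (hne f hf).le)] at h3
  have h4 := hc.2
  rw [Finset.sum_eq_zero fun f hf =>
    (mul_eq_zero.1 (h3 f hf)).resolve_right (sub_pos.2 (hne f hf)).ne'] at h4
  exact zero_ne_one h4

theorem position (hm : 1 ≤ m) (P : Pre m) :
    ∃ (L L' : E m ≃ₗ[ℝ] E m) (C : Conf m), (∀ f x, ⟪L' f, L x⟫ = ⟪f, x⟫) ∧
      (∀ v ∈ P.V, L v ∈ C.V) ∧ (∀ f ∈ P.F, L' f ∈ C.F) := by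
  classical
  have hF : P.F.Nonempty := by
    have h := P.hullF 0 fun v _ => by simp
    exact Finset.coe_nonempty.1 (convexHull_nonempty_iff.1 ⟨_, h⟩)
  obtain ⟨c, hc, hD, -, h1⟩ := design P.F hF (position_span P) (fun _ => 0) 0
  obtain ⟨B, hB, hDB⟩ := exists_factor hD
  have hBt : IsUnit Bᵀ.det := by rwa [det_transpose]
  obtain ⟨L, hL⟩ := position_equiv hB
  obtain ⟨L', hL'⟩ := position_equiv (A := Bᵀ⁻¹) (isUnit_nonsing_inv_det _ hBt)
  have hBL : ∀ f, Bᵀ *ᵥ (L' f).ofLp = f.ofLp := fun f => by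
    rw [hL', mulVec_mulVec, mul_nonsing_inv _ hBt, one_mulVec]
  have adj : ∀ f x, ⟪L' f, L x⟫ = ⟪f, x⟫ := fun f x => by
    rw [position_inner, position_inner, hL, dotProduct_mulVec, ← mulVec_transpose, hBL]
  have nL : ∀ x, ∑ f ∈ P.F, c f * ⟪x, f⟫ ^ 2 = ‖L x‖ ^ 2 := fun x => by
    rw [← Dm_form, hDB, ← mulVec_mulVec, dotProduct_mulVec, vecMul_transpose,
      ← real_inner_self_eq_norm_sq, position_inner, hL]
  refine ⟨L, L', ⟨P.V.image L, P.F.image L', ?_, ?_, ?_, ?_, ?_⟩, adj,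
    fun v hv => Finset.mem_image_of_mem _ hv, fun f hf => Finset.mem_image_of_mem _ hf⟩
  · simp only [Finset.forall_mem_image, adj]
    exact fun f hf v hv => P.pm f hf v hv
  · intro y hy
    obtain ⟨y, rfl⟩ := L'.surjective y
    simp only [Finset.forall_mem_image, adj] at hy
    rw [Finset.coe_image]
    have h2 := L'.toLinearMap.image_convexHull (P.F : Set (E m))
    simp only [LinearEquiv.coe_coe] at h2
    rw [← h2]
    exact Set.mem_image_of_mem _ (P.hullF y fun v hv => hy hv)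
  · simp only [Finset.forall_mem_image]
    intro v hv
    have h2 : ‖L v‖ ^ 2 = 1 := by
      rw [← nL, ← hc.2]
      refine Finset.sum_congr rfl fun f hf => ?_
      rw [real_inner_comm]
      rcases P.pm f hf v hv with h | h <;> rw [h] <;> ring
    exact (sq_le_one_iff₀ (norm_nonneg _)).1 h2.le
  · simp only [Finset.forall_mem_image]
    intro f hf
    obtain ⟨x, hx⟩ := L.surjective (L' f)
    have h2 : (Dm P.F c)⁻¹ *ᵥ f.ofLp = x.ofLp := by
      rw [← hBL f, ← hx, hL, mulVec_mulVec, mulVec_mulVec, Matrix.mul_assoc, ← hDB,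
        nonsing_inv_mul _ (isUnit_iff_ne_zero.2 hD.det_pos.ne'), one_mulVec]
    have h3 := h1 f hf
    rw [h2, ← position_inner, ← adj, hx, real_inner_self_eq_norm_sq] at h3
    simpa using h3
  · intro H
    obtain ⟨f, hf, h2⟩ := position_iso hc L' (fun z => by
      obtain ⟨x, rfl⟩ := L.surjective z
      rw [← nL]
      exact Finset.sum_congr rfl fun f _ => by
        rw [real_inner_comm, adj, real_inner_comm]) H
    exact ⟨L' f, Finset.mem_image_of_mem _ hf, h2⟩

end Pool.Agent.MP_fcb590_an.Q2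

end

section
/-!
The leftover block.
Proof. alpha = min (eta^2 / 16) (1/2), epsilon = eta^2 / (32 log (1/alpha)). Let e be an orthonormal basis of G indexed
by Fin n, g = f / sqrt m, gbar l = inner (e l) g, gperp = g - sum gbar l • e l (in the orthogonal complement,
norm at most 1). For a list (or multiset) c of elements of F of length N put S c = alpha 1 + sum gbar gbar^T (n x n,
positive definite), Qf c B = alpha sum_l norm (B l)^2 + sum over c of norm (gperp - sum_l gbar l • B l)^2 for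
B : Fin n -> E m, and Bs c l = sum_l' (S c)⁻¹ l l' • (sum over c of gbar l' • gperp). Completing the square:
Qf c B = Qf c (Bs c) + sum_(l,l') S l l' inner (B l - Bs l) (B l' - Bs l'). Potential
Phi c = log det (S c) + Qf c (Bs c) - 2 N. We have Qf c (Bs c) <= Qf c 0 <= N and log det S <= N / 2
(`det_le_pow_mul_exp` with a = 2), so Phi c <= - N / 2, while Phi [] = n log alpha. Hence (induction on N, by
contradiction) there is c with Phi c >= Phi [] and Phi (f :: c) <= Phi c for all f in F, and N <= 2 n log (1/alpha).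
For f in F let sigma = gbar S⁻¹ gbar, r = gperp - sum gbar l • Bs l. det S (f :: c) = det S (1 + sigma) and
Qf (f :: c) B >= Qf c (Bs c) + norm r ^ 2 / (1 + sigma) for every B: with X = B - Bs and q the double sum above,
norm (sum gbar l • X l)^2 <= sigma q (`dot_sq_le_form` coordinatewise), and q + (|r| - sqrt (sigma q))^2 >= |r|^2/(1+sigma)
(equivalently |r|^2 <= (1 + sigma) (q + |r - y|^2) whenever |y|^2 <= sigma q). So log (1 + sigma) + |r|^2 / (1 + sigma) <= 2,
1 + sigma <= 8, |r|^2 <= 16. Put rho l = e l + Bs l, a l = inner (rho l) v. Then S a = alpha vbar + sum over c of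
gbar * inner g v, and by Cauchy-Schwarz a S a <= alpha + N / m =: tau^2 (each abs (inner g v) <= 1 / sqrt m).
With S = B^T B (`exists_factor`), xi l = tau⁻¹ • sum_l' B l l' • rho l', and s = sqrt m tau (B^T)⁻¹ gbar,
sum s^2 = m tau^2 sigma <= 8 m (alpha + 2 epsilon log (1/alpha)) <= eta^2 m, and f - sum s l • xi l = sqrt m • r.
-/

set_option autoImplicit false

open scoped RealInnerProductSpace

namespace Pool.Agent.MP_fcb590_an.Q2

section Aux

open Matrix

variable {X : Type*} {n : ℕ}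

/-- the regularised second moment matrix of a list -/
noncomputable def left_S (α : ℝ) (g : X → Fin n → ℝ) : List X → Matrix (Fin n) (Fin n) ℝ
  | [] => α • 1
  | f :: c => left_S α g c + vecMulVec (g f) (g f)

/-- the mixed moment of a list -/
noncomputable def left_T (g : X → Fin n → ℝ) (h : X → ℝ) : List X → Fin n → ℝ
  | [] => 0
  | f :: c => left_T g h c + h f • g f

/-- the sum of squares along a list -/
noncomputable def left_A (h : X → ℝ) : List X → ℝ
  | [] => 0
  | f :: c => left_A h c + h f ^ 2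

theorem left_vv (v a : Fin n → ℝ) : vecMulVec v v *ᵥ a = (v ⬝ᵥ a) • v := by
  ext i
  simp only [mulVec, dotProduct, vecMulVec_apply, Pi.smul_apply, smul_eq_mul, Finset.sum_mul]
  exact Finset.sum_congr rfl fun j _ => by ring

theorem left_pd {α : ℝ} (hα : 0 < α) (g : X → Fin n → ℝ) (c : List X) : (left_S α g c).PosDef := by
  induction c with
  | nil => exact PosDef.one.smul hα
  | cons f c ih =>
    refine ih.add_posSemidef ?_
    simpa using posSemidef_vecMulVec_self_star (g f)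

theorem left_mul (α : ℝ) (g : X → Fin n → ℝ) (h : X → ℝ) (a : Fin n → ℝ) (c : List X) :
    left_S α g c *ᵥ a + left_T g h c = α • a + left_T g (fun f => g f ⬝ᵥ a + h f) c := by
  induction c with
  | nil => simp [left_S, left_T, smul_mulVec]
  | cons f c ih =>
    simp only [left_S, left_T, add_mulVec, left_vv, add_smul]
    rw [← add_assoc (α • a), ← ih]
    abel

theorem left_form (α : ℝ) (g : X → Fin n → ℝ) (a : Fin n → ℝ) (c : List X) :
    a ⬝ᵥ left_S α g c *ᵥ a = α * (a ⬝ᵥ a) + left_A (fun f => g f ⬝ᵥ a) c := by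
  induction c with
  | nil => simp [left_S, left_A, smul_mulVec]
  | cons f c ih =>
    simp only [left_S, left_A, add_mulVec, left_vv, dotProduct_add, ih, dotProduct_smul, smul_eq_mul,
      dotProduct_comm a (g f)]
    ring

theorem left_am (g : X → Fin n → ℝ) (h : X → ℝ) (a : Fin n → ℝ) (c : List X) :
    2 * (a ⬝ᵥ left_T g h c) ≤ left_A (fun f => g f ⬝ᵥ a) c + left_A h c := by
  induction c with
  | nil => simp [left_T, left_A]
  | cons f c ih =>
    simp only [left_T, left_A, dotProduct_add, dotProduct_smul, smul_eq_mul, dotProduct_comm a (g f)]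
    nlinarith [sq_nonneg (h f - g f ⬝ᵥ a)]

theorem left_A_le {ι : Type*} [Fintype ι] (h : ι → X → ℝ) {κ : ℝ} (c : List X)
    (hc : ∀ f ∈ c, ∑ i, h i f ^ 2 ≤ κ) : ∑ i, left_A (h i) c ≤ c.length * κ := by
  induction c with
  | nil => simp [left_A]
  | cons f c ih =>
    have h1 := ih fun x hx => hc x (List.mem_cons_of_mem _ hx)
    have h2 := hc f List.mem_cons_self
    simp only [left_A, Finset.sum_add_distrib, List.length_cons]
    push_cast
    linarith

theorem left_trace (α : ℝ) (g : X → Fin n → ℝ) (c : List X) (hc : ∀ f ∈ c, g f ⬝ᵥ g f ≤ 1) :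
    (left_S α g c).trace ≤ α * n + c.length := by
  induction c with
  | nil => simp [left_S]
  | cons f c ih =>
    have h1 := ih fun x hx => hc x (List.mem_cons_of_mem _ hx)
    have h2 := hc f List.mem_cons_self
    simp only [left_S, trace_add, trace_vecMulVec, List.length_cons]
    push_cast
    linarith

theorem left_inv {S : Matrix (Fin n) (Fin n) ℝ} (hS : S.PosDef) (x : Fin n → ℝ) :
    S *ᵥ S⁻¹ *ᵥ x = x := by
  rw [mulVec_mulVec, mul_nonsing_inv _ hS.det_pos.ne'.isUnit, one_mulVec]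

theorem left_inv' {S : Matrix (Fin n) (Fin n) ℝ} (hS : S.PosDef) (x : Fin n → ℝ) :
    S⁻¹ *ᵥ S *ᵥ x = x := by
  rw [mulVec_mulVec, nonsing_inv_mul _ hS.det_pos.ne'.isUnit, one_mulVec]

theorem left_symm {S : Matrix (Fin n) (Fin n) ℝ} (hS : S.PosDef) (x y : Fin n → ℝ) :
    x ⬝ᵥ S *ᵥ y = y ⬝ᵥ S *ᵥ x := by
  have h : Sᵀ = S := by simpa using hS.isHermitian.eq
  rw [dotProduct_mulVec, ← mulVec_transpose, h, dotProduct_comm]

theorem left_nonneg {S : Matrix (Fin n) (Fin n) ℝ} (hS : S.PosDef) (x : Fin n → ℝ) :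
    0 ≤ x ⬝ᵥ S *ᵥ x := by
  simpa using hS.posSemidef.dotProduct_mulVec_nonneg x

theorem left_step {S : Matrix (Fin n) (Fin n) ℝ} (hS : S.PosDef) {g : Fin n → ℝ}
    (hS' : (S + vecMulVec g g).PosDef) (T : Fin n → ℝ) (t : ℝ) :
    t ^ 2 - (T + t • g) ⬝ᵥ (S + vecMulVec g g)⁻¹ *ᵥ (T + t • g) =
      (t - g ⬝ᵥ S⁻¹ *ᵥ T) ^ 2 / (1 + g ⬝ᵥ S⁻¹ *ᵥ g) - T ⬝ᵥ S⁻¹ *ᵥ T := by
  have h1 := left_inv hS' (T + t • g)
  generalize (S + vecMulVec g g)⁻¹ *ᵥ (T + t • g) = b at h1 ⊢
  rw [add_mulVec, left_vv] at h1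
  have h2 : b = S⁻¹ *ᵥ T + (t - g ⬝ᵥ b) • S⁻¹ *ᵥ g := by
    rw [← mulVec_smul, ← mulVec_add, sub_smul, ← add_sub_assoc, ← h1, add_sub_cancel_right, left_inv' hS]
  have h3 := congrArg (fun x => g ⬝ᵥ x) h2
  have h4 := congrArg (fun x => T ⬝ᵥ x) h2
  simp only [dotProduct_add, dotProduct_smul, smul_eq_mul] at h3 h4
  rw [left_symm hS.inv T g] at h4
  have h5 := left_nonneg hS.inv g
  rw [add_dotProduct, smul_dotProduct, smul_eq_mul, h4]
  generalize g ⬝ᵥ b = β at *
  generalize g ⬝ᵥ S⁻¹ *ᵥ T = μ at *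
  generalize g ⬝ᵥ S⁻¹ *ᵥ g = σ at *
  have h6 : t - μ = (t - β) * (1 + σ) := by linarith
  rw [h6, mul_pow, sq (1 + σ), ← mul_assoc, mul_div_cancel_right₀ _ (by linarith)]
  have h7 : μ = t - (t - β) * (1 + σ) := by linarith
  rw [h7]
  ring

theorem left_core {ι : Type*} [Fintype ι] {α : ℝ} (hα : 0 < α) (hα' : α ≤ 1 / 2) (F : Set X)
    (g : X → Fin n → ℝ) (h : ι → X → ℝ) (hg : ∀ f ∈ F, g f ⬝ᵥ g f ≤ 1)
    (hh : ∀ f ∈ F, ∑ i, h i f ^ 2 ≤ 1) :
    ∃ c : List X, (∀ f ∈ c, f ∈ F) ∧ (c.length : ℝ) ≤ 2 * n * Real.log α⁻¹ ∧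
      ∀ f ∈ F, g f ⬝ᵥ (left_S α g c)⁻¹ *ᵥ g f ≤ 7 ∧
        ∑ i, (h i f - g f ⬝ᵥ (left_S α g c)⁻¹ *ᵥ left_T g (h i) c) ^ 2 ≤ 16 := by
  set Φ : List X → ℝ := fun c => Real.log (left_S α g c).det +
    ∑ i, (left_A (h i) c - left_T g (h i) c ⬝ᵥ (left_S α g c)⁻¹ *ᵥ left_T g (h i) c) -
      2 * c.length with hΦ
  have h0 : Φ [] = n * Real.log α := by
    simp [hΦ, left_S, left_A, left_T]
  have h1 : ∀ c : List X, (∀ f ∈ c, f ∈ F) → Φ c ≤ -(c.length / 2) := by
    intro c hc
    have hp := left_pd hα g c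
    have e1 := Real.log_le_log hp.det_pos (det_le_pow_mul_exp hp.posSemidef two_pos)
    rw [Real.log_mul (by positivity) (Real.exp_pos _).ne', Real.log_pow, Real.log_exp,
      Fintype.card_fin] at e1
    have e2 := left_trace α g c fun f hf => hg f (hc f hf)
    have e3 := left_A_le h c fun f hf => hh f (hc f hf)
    have e4 : 0 ≤ ∑ i, left_T g (h i) c ⬝ᵥ (left_S α g c)⁻¹ *ᵥ left_T g (h i) c :=
      Finset.sum_nonneg fun i _ => left_nonneg hp.inv _
    have e5 := mul_le_mul_of_nonneg_left Real.log_two_lt_d9.le (Nat.cast_nonneg (α := ℝ) n)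
    have e6 := mul_le_mul_of_nonneg_right hα' (Nat.cast_nonneg (α := ℝ) n)
    have e7 : (0 : ℝ) ≤ n := n.cast_nonneg
    simp only [hΦ, Finset.sum_sub_distrib]
    linarith
  have h2 : ∃ c : List X, (∀ f ∈ c, f ∈ F) ∧ Φ [] ≤ Φ c ∧ ∀ f ∈ F, Φ (f :: c) ≤ Φ c := by
    by_contra hcon
    push Not at hcon
    have e1 : ∀ N : ℕ, ∃ c : List X, (∀ f ∈ c, f ∈ F) ∧ Φ [] ≤ Φ c ∧ c.length = N := by
      intro N
      induction N with
      | zero => exact ⟨[], by simp, le_rfl, rfl⟩
      | succ N ih =>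
        obtain ⟨c, a1, a2, a3⟩ := ih
        obtain ⟨f, b1, b2⟩ := hcon c a1 a2
        exact ⟨f :: c, List.forall_mem_cons.2 ⟨b1, a1⟩, a2.trans b2.le, by simp [a3]⟩
    obtain ⟨N, hN⟩ := exists_nat_gt (-2 * Φ [])
    obtain ⟨c, a1, a2, a3⟩ := e1 N
    have := h1 c a1
    rw [a3] at this
    linarith
  obtain ⟨c, a1, a2, a3⟩ := h2
  refine ⟨c, a1, ?_, fun f hf => ?_⟩
  · have := h1 c a1
    rw [Real.log_inv]
    linarith
  have hp := left_pd hα g c
  have hp' : (left_S α g c + vecMulVec (g f) (g f)).PosDef := left_pd hα g (f :: c)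
  have b0 := left_nonneg hp.inv (g f)
  have b1 := det_add_rank_one hp.det_pos.ne'.isUnit 1 (g f)
  rw [one_smul, one_mul] at b1
  have b2 := a3 f hf
  have b3 : ∑ i, (left_A (h i) (f :: c) - left_T g (h i) (f :: c) ⬝ᵥ (left_S α g (f :: c))⁻¹ *ᵥ
      left_T g (h i) (f :: c)) =
      ∑ i, (left_A (h i) c - left_T g (h i) c ⬝ᵥ (left_S α g c)⁻¹ *ᵥ left_T g (h i) c) +
        (∑ i, (h i f - g f ⬝ᵥ (left_S α g c)⁻¹ *ᵥ left_T g (h i) c) ^ 2) /
          (1 + g f ⬝ᵥ (left_S α g c)⁻¹ *ᵥ g f) := by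
    rw [Finset.sum_div, ← Finset.sum_add_distrib]
    refine Finset.sum_congr rfl fun i _ => ?_
    have := left_step hp hp' (left_T g (h i) c) (h i f)
    simp only [left_A, left_T, left_S]
    linarith
  simp only [hΦ] at b2
  rw [b3, left_S, b1, Real.log_mul hp.det_pos.ne' (by linarith), List.length_cons] at b2
  have b4 : 0 ≤ ∑ i, (h i f - g f ⬝ᵥ (left_S α g c)⁻¹ *ᵥ left_T g (h i) c) ^ 2 :=
    Finset.sum_nonneg fun i _ => sq_nonneg _
  generalize ∑ i, (h i f - g f ⬝ᵥ (left_S α g c)⁻¹ *ᵥ left_T g (h i) c) ^ 2 = R at *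
  generalize g f ⬝ᵥ (left_S α g c)⁻¹ *ᵥ g f = σ at *
  push_cast at b2
  have b5 : 0 ≤ R / (1 + σ) := by positivity
  have b6 : 0 ≤ Real.log (1 + σ) := Real.log_nonneg (by linarith)
  have b7 : 1 + σ ≤ Real.exp 2 := (Real.log_le_iff_le_exp (by linarith)).1 (by linarith)
  have b8 : Real.exp 2 ≤ 8 := by
    have := Real.exp_one_lt_d9
    have e := Real.exp_pos 1
    rw [show (2 : ℝ) = 1 + 1 by norm_num, Real.exp_add]
    nlinarith
  have b9 : R ≤ 2 * (1 + σ) := (div_le_iff₀ (by linarith)).1 (by linarith)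
  exact ⟨by linarith, by linarith⟩

/-- vector valued mixed moment -/
noncomputable def left_W {m : ℕ} (g : X → Fin n → ℝ) (p : X → E m) : List X → Fin n → E m
  | [] => 0
  | f :: c => fun l => left_W g p c l + g f l • p f

theorem left_W_mem {m : ℕ} (g : X → Fin n → ℝ) {p : X → E m} {H : Submodule ℝ (E m)}
    (hp : ∀ f, p f ∈ H) (c : List X) (l : Fin n) : left_W g p c l ∈ H := by
  induction c with
  | nil => exact H.zero_mem
  | cons f c ih => exact H.add_mem ih (H.smul_mem _ (hp f))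

theorem left_W_inner {m : ℕ} (g : X → Fin n → ℝ) (p : X → E m) (v : E m) (c : List X) (l : Fin n) :
    ⟪left_W g p c l, v⟫ = left_T g (fun f => ⟪p f, v⟫) c l := by
  induction c with
  | nil => simp [left_W, left_T]
  | cons f c ih => simp [left_W, left_T, inner_add_left, inner_smul_left, ih, mul_comm]

theorem left_comb {m : ℕ} (M : Matrix (Fin n) (Fin n) ℝ) (x : Fin n → E m) (v : E m) (l : Fin n) :
    ⟪∑ l', M l l' • x l', v⟫ = (M *ᵥ fun l' => ⟪x l', v⟫) l := by
  simp [sum_inner, inner_smul_left, mulVec, dotProduct]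

theorem left_comb' {m : ℕ} (M : Matrix (Fin n) (Fin n) ℝ) (x : Fin n → E m) (s : Fin n → ℝ) (t : ℝ) :
    ∑ l, s l • t • ∑ l', M l l' • x l' = ∑ l, (t * (Mᵀ *ᵥ s) l) • x l := by
  simp only [Finset.smul_sum, smul_smul, mulVec, dotProduct, transpose_apply, Finset.mul_sum,
    Finset.sum_smul]
  rw [Finset.sum_comm]
  exact Finset.sum_congr rfl fun l _ => Finset.sum_congr rfl fun l' _ => by congr 1; ring

theorem left_fac (B : Matrix (Fin n) (Fin n) ℝ) (a : Fin n → ℝ) :
    ∑ l, (B *ᵥ a) l ^ 2 = a ⬝ᵥ (Bᵀ * B) *ᵥ a := by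
  rw [← mulVec_mulVec, dotProduct_mulVec, vecMul_transpose]
  simp [dotProduct, sq]

end Aux

open Matrix in
theorem leftover {η : ℝ} (hη : 0 < η) :
    ∃ ε : ℝ, 0 < ε ∧ ∀ (m n : ℕ) (V F : Finset (E m)) (G : Submodule ℝ (E m)), 1 ≤ m →
      (∀ v ∈ V, ‖v‖ ≤ 1) → (∀ f ∈ F, ‖f‖ ^ 2 ≤ m) → (∀ f ∈ F, ∀ v ∈ V, |⟪f, v⟫| ≤ 1) →
      Module.finrank ℝ G = n → (n : ℝ) ≤ ε * m →
      ∃ ξ : Fin n → E m, (∀ v ∈ V, ∑ l, ⟪ξ l, v⟫ ^ 2 ≤ 1) ∧
        (∀ s : Fin n → ℝ, ∑ l, s l • ξ l ∈ Gᗮ → s = 0) ∧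
        ∀ f ∈ F, ∃ s : Fin n → ℝ, ∑ l, s l ^ 2 ≤ η ^ 2 * m ∧ f - ∑ l, s l • ξ l ∈ Gᗮ ∧
          ‖f - ∑ l, s l • ξ l‖ ^ 2 ≤ 16 * m := by
  set α : ℝ := min (η ^ 2 / 16) (1 / 2) with hαd
  have hα : 0 < α := lt_min (by positivity) (by norm_num)
  have hα1 : α ≤ η ^ 2 / 16 := min_le_left _ _
  have hα2 : α ≤ 1 / 2 := min_le_right _ _
  have hL : 0 < Real.log α⁻¹ := Real.log_pos ((one_lt_inv₀ hα).2 (by linarith))
  refine ⟨η ^ 2 / (32 * Real.log α⁻¹), by positivity, fun m n V F G hm hV hF hFV hG hn => ?_⟩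
  subst hG
  have hm0 : (0 : ℝ) < m := by exact_mod_cast hm
  have hM : (0 : ℝ) < √m := Real.sqrt_pos.2 hm0
  have hM2 : √(m : ℝ) ^ 2 = m := Real.sq_sqrt hm0.le
  set b := stdOrthonormalBasis ℝ G with hb
  set e : Fin (Module.finrank ℝ G) → E m := fun l => (b l : E m) with he
  have heo : Orthonormal ℝ e := b.orthonormal.comp_linearIsometry G.subtypeₗᵢ
  have hes : ∀ x : E m, ∑ l, ⟪e l, x⟫ ^ 2 ≤ ‖x‖ ^ 2 := fun x => by
    simpa using heo.sum_inner_products_le (s := Finset.univ) x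
  have hdec : ∀ x : E m, Gᗮ.starProjection x = x - ∑ l, ⟪e l, x⟫ • e l := fun x => by
    rw [Submodule.starProjection_orthogonal_val, Submodule.starProjection_apply,
      b.orthogonalProjectionOnto_apply_eq_sum]
    simp [he]
  set y : E m → E m := fun f => (√(m : ℝ))⁻¹ • f with hy
  have hy1 : ∀ f ∈ F, ‖y f‖ ^ 2 ≤ 1 := fun f hf => by
    rw [hy, norm_smul, mul_pow, Real.norm_eq_abs, sq_abs, inv_pow, hM2, inv_mul_le_iff₀ hm0, mul_one]
    exact hF f hf
  have hy2 : ∀ f, √(m : ℝ) • y f = f := fun f => smul_inv_smul₀ hM.ne' f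
  set g : E m → Fin (Module.finrank ℝ G) → ℝ := fun f l => ⟪e l, y f⟫ with hg
  set p : E m → E m := fun f => Gᗮ.starProjection (y f) with hp
  have hpG : ∀ f, p f ∈ Gᗮ := fun f => Gᗮ.starProjection_apply_mem _
  have hnorm : ∀ x : E m, ∑ i, ⟪x, EuclideanSpace.single i (1 : ℝ)⟫ ^ 2 = ‖x‖ ^ 2 := fun x => by
    simp [EuclideanSpace.inner_single_right, EuclideanSpace.norm_sq_eq]
  obtain ⟨c, c1, c2, c3⟩ := left_core hα hα2 (F : Set (E m)) g
    (fun i f => ⟪p f, EuclideanSpace.single i (1 : ℝ)⟫)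
    (fun f hf => by simpa [dotProduct, sq] using (hes (y f)).trans (hy1 f hf))
    (fun f hf => by
      rw [hnorm]
      exact (pow_le_pow_left₀ (norm_nonneg _) (Gᗮ.norm_starProjection_apply_le _) 2).trans (hy1 f hf))
  have hS := left_pd hα g c
  obtain ⟨B, hB, hSB⟩ := exists_factor hS
  set S := left_S α g c with hSd
  set Bs : Fin (Module.finrank ℝ G) → E m := fun l => ∑ l', S⁻¹ l l' • left_W g p c l' with hBs
  have hBsG : ∀ l, Bs l ∈ Gᗮ := fun l =>
    Gᗮ.sum_mem fun l' _ => Gᗮ.smul_mem _ (left_W_mem g hpG c l')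
  have hBsi : ∀ v l, ⟪Bs l, v⟫ = (S⁻¹ *ᵥ left_T g (fun f => ⟪p f, v⟫) c) l := fun v l => by
    rw [hBs, left_comb]
    simp only [left_W_inner]
  have hτ : (0 : ℝ) < 9 / 25 * η := by positivity
  have hN : (c.length : ℝ) * (m : ℝ)⁻¹ ≤ η ^ 2 / 16 := by
    rw [← div_eq_mul_inv, div_le_iff₀ hm0]
    rw [div_mul_eq_mul_div, le_div_iff₀ (by positivity)] at hn
    linarith
  refine ⟨fun l => (9 / 25 * η)⁻¹ • ∑ l', B l l' • (e l' + Bs l'), fun v hv => ?_, fun s hs => ?_,
    fun f hf => ?_⟩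
  · simp only [real_inner_smul_left, left_comb, mul_pow, ← Finset.mul_sum]
    rw [left_fac, ← hSB, inv_pow, inv_mul_le_iff₀ (by positivity), mul_one]
    set vb : Fin (Module.finrank ℝ G) → ℝ := fun l => ⟪e l, v⟫ with hvb
    set a : Fin (Module.finrank ℝ G) → ℝ := fun l => ⟪e l + Bs l, v⟫ with ha
    have d1 : a = vb + S⁻¹ *ᵥ left_T g (fun f => ⟪p f, v⟫) c := by
      ext l
      simp only [ha, hvb, inner_add_left, hBsi, Pi.add_apply]
    have d2 : (fun f => g f ⬝ᵥ vb + ⟪p f, v⟫) = fun f => ⟪y f, v⟫ := by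
      ext f
      simp only [hp, hdec, inner_sub_left, sum_inner, real_inner_smul_left, hg, hvb, dotProduct]
      ring
    have d3 : S *ᵥ a = α • vb + left_T g (fun f => ⟪y f, v⟫) c := by
      rw [d1, mulVec_add, left_inv hS, hSd, left_mul, d2]
    have d4 := congrArg (fun x => a ⬝ᵥ x) d3
    simp only [dotProduct_add, dotProduct_smul, smul_eq_mul] at d4
    have d5 := left_form α g a c
    have d6 := left_am g (fun f => ⟪y f, v⟫) a c
    have d7 := left_A_le (ι := Unit) (fun _ f => ⟪y f, v⟫) (κ := (m : ℝ)⁻¹) c fun f hf => by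
      have := hFV f (c1 f hf) v hv
      simp only [Finset.univ_unique, Finset.sum_singleton, hy, real_inner_smul_left, mul_pow, inv_pow, hM2]
      exact mul_le_of_le_one_right (by positivity) (by rwa [sq_le_one_iff_abs_le_one])
    simp only [Finset.univ_unique, Finset.sum_singleton] at d7
    have d8 : vb ⬝ᵥ vb ≤ 1 := by
      have := (hes v).trans (pow_le_one₀ (norm_nonneg _) (hV v hv))
      simpa [dotProduct, sq] using this
    have d9 : 2 * (a ⬝ᵥ vb) ≤ a ⬝ᵥ a + 1 := by
      have : 0 ≤ (a - vb) ⬝ᵥ (a - vb) := Finset.sum_nonneg fun l _ => mul_self_nonneg _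
      rw [sub_dotProduct, dotProduct_sub, dotProduct_sub, dotProduct_comm vb a] at this
      linarith
    have d10 := mul_le_mul_of_nonneg_left d9 hα.le
    have d11 := sq_nonneg η
    rw [← hSd] at d5
    linarith
  · rw [left_comb'] at hs
    simp only [smul_add, Finset.sum_add_distrib] at hs
    have d1 := (Gᗮ.add_mem_iff_left (Gᗮ.sum_mem fun l _ => Gᗮ.smul_mem _ (hBsG l))).1 hs
    have d2 : Bᵀ *ᵥ s = 0 := by
      ext l
      have := Submodule.inner_right_of_mem_orthogonal (b l).2 d1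
      rw [show ((b l : G) : E m) = e l from rfl, heo.inner_right_fintype] at this
      exact (mul_eq_zero.1 this).resolve_left (by positivity)
    exact eq_zero_of_mulVec_eq_zero (by rw [det_transpose]; exact hB.ne_zero) d2
  · obtain ⟨c4, c5⟩ := c3 f hf
    have d1 : Bᵀ *ᵥ B *ᵥ S⁻¹ *ᵥ g f = g f := by
      rw [mulVec_mulVec, ← hSB, left_inv hS]
    have d2 : f - ∑ l, ((√(m : ℝ) * (9 / 25 * η)) • B *ᵥ S⁻¹ *ᵥ g f) l •
        (9 / 25 * η)⁻¹ • ∑ l', B l l' • (e l' + Bs l') = √(m : ℝ) • (p f - ∑ l, g f l • Bs l) := by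
      rw [left_comb', mulVec_smul, d1, hp]
      simp only [hdec, smul_sub, hy2, Finset.smul_sum, smul_smul, smul_add, Finset.sum_add_distrib,
        Pi.smul_apply, smul_eq_mul]
      have : ∀ x : ℝ, (9 / 25 * η)⁻¹ * (√(m : ℝ) * (9 / 25 * η) * x) = √(m : ℝ) * x := fun x => by
        field_simp
      simp only [this, hg]
      abel
    refine ⟨(√(m : ℝ) * (9 / 25 * η)) • B *ᵥ S⁻¹ *ᵥ g f, ?_, ?_, ?_⟩
    · simp only [Pi.smul_apply, smul_eq_mul, mul_pow, ← Finset.mul_sum]
      rw [left_fac, ← hSB, left_inv hS, dotProduct_comm, hM2]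
      have := mul_le_mul_of_nonneg_left c4 (show 0 ≤ η ^ 2 * m by positivity)
      have h0 : 0 ≤ η ^ 2 * m := by positivity
      nlinarith
    · rw [d2]
      exact Gᗮ.smul_mem _ (Gᗮ.sub_mem (hpG f) (Gᗮ.sum_mem fun l _ => Gᗮ.smul_mem _ (hBsG l)))
    · rw [d2, norm_smul, mul_pow, Real.norm_eq_abs, sq_abs, hM2, mul_comm, ← hnorm]
      refine mul_le_mul_of_nonneg_right (le_of_eq_of_le ?_ c5) hm0.le
      refine Finset.sum_congr rfl fun i _ => ?_
      simp only [inner_sub_left, sum_inner, real_inner_smul_left, hBsi, dotProduct]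

end Pool.Agent.MP_fcb590_an.Q2

end

end
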