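import Pool.Agent.MP_fcb590_an.Mg.Q2_Channel
import Pool.Agent.MP_fcb590_an.Defs

section
/-!
Volume of the random polytope.
`vol_ball_le`: on the set, exp (- m / 2) <= exp (- m sum z^2 / (2 t^2)); integrate the product of Gaussians
(`integral_gaussian`, `integral_fintype_prod_volume_eq_pow`, Markov), giving (sqrt (2 pi e) t / sqrt m)^m; or use
`EuclideanSpace.volume_ball` with a bound for Gamma.
`vol_Bd_le`: z / rho lies in the convex hull of S = {0, e_i, - e_i, G j, - G j} inside E m (at most 4 m + 1 points of norm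
<= 1). `maurey` with k = m: z / rho is within 1 / sqrt m of m⁻¹ • sum g i. The sum depends only on the multiset, so there
are at most choose (5 m) m <= 2^(5 m) centres (`Sym.card_sym_eq_choose`, or `Finset.sym`, or `finsuppAntidiag`).
Translation invariance and `vol_ball_le` with t = rho / sqrt m.
-/

set_option autoImplicit false

open scoped RealInnerProductSpace

namespace Pool.Agent.MP_fcb590_an.Q2

open MeasureTheory

theorem glusa_num : Real.exp (1 / 2) * √(2 * Real.pi) ≤ 5 := by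
  have h1 : Real.exp (1 / 2) ≤ 1.7 := by
    have h : Real.exp (1 / 2) ^ 2 = Real.exp 1 := by
      rw [← Real.exp_nat_mul]; norm_num
    have h2 := Real.exp_one_lt_d9
    have h3 := Real.exp_pos (1 / 2)
    nlinarith
  have h2 : √(2 * Real.pi) ≤ 2.6 := by
    rw [Real.sqrt_le_iff]
    have := Real.pi_lt_d2
    constructor
    · norm_num
    · nlinarith
  calc Real.exp (1 / 2) * √(2 * Real.pi) ≤ 1.7 * 2.6 :=
        mul_le_mul h1 h2 (Real.sqrt_nonneg _) (by norm_num)
    _ ≤ 5 := by norm_num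

theorem vol_ball_le {m : ℕ} (hm : 1 ≤ m) {t : ℝ} (ht : 0 < t) :
    volume {z : Fin m → ℝ | ∑ i, z i ^ 2 ≤ t ^ 2} ≤ ENNReal.ofReal ((5 * t / √m) ^ m) := by
  have hm0 : (0 : ℝ) < m := by exact_mod_cast hm
  obtain ⟨b, hb⟩ : ∃ b : ℝ, b = m / (2 * t ^ 2) := ⟨_, rfl⟩
  have hb0 : 0 < b := by rw [hb]; positivity
  obtain ⟨g, hg⟩ : ∃ g : ℝ → ℝ, g = fun x => Real.exp (1 / 2) * Real.exp (-b * x ^ 2) := ⟨_, rfl⟩
  have hgi : Integrable g := by rw [hg]; exact (integrable_exp_neg_mul_sq hb0).const_mul _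
  have hg0 : ∀ x, 0 ≤ g x := fun x => by rw [hg]; positivity
  have hF : Integrable (fun z : Fin m → ℝ => ∏ i, g (z i)) :=
    Integrable.fintype_prod (f := fun _ => g) (μ := fun _ => volume) fun _ => hgi
  have hI : ∫ x, g x = Real.exp (1 / 2) * √(2 * Real.pi) * (t / √m) := by
    rw [hg, integral_const_mul, integral_gaussian, mul_assoc]
    congr 1
    have e : Real.pi / b = 2 * Real.pi * (t / √m) ^ 2 := by
      rw [div_pow, Real.sq_sqrt hm0.le, hb]; field_simp
    rw [e, Real.sqrt_mul (by positivity), Real.sqrt_sq (by positivity)]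
  calc volume {z : Fin m → ℝ | ∑ i, z i ^ 2 ≤ t ^ 2}
      ≤ ∫⁻ z : Fin m → ℝ, ENNReal.ofReal (∏ i, g (z i)) := by
        refine meas_le_lintegral₀ hF.aemeasurable.ennreal_ofReal fun z hz => ?_
        rw [ENNReal.one_le_ofReal]
        have e : ∏ i, g (z i) = Real.exp (∑ i, (1 / 2 + -b * z i ^ 2)) := by
          rw [Real.exp_sum]
          refine Finset.prod_congr rfl fun i _ => ?_
          rw [hg, Real.exp_add]
        rw [e]
        apply Real.one_le_exp
        rw [Finset.sum_add_distrib, ← Finset.mul_sum]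
        have hz' : ∑ i, z i ^ 2 ≤ t ^ 2 := hz
        have h1 := mul_le_mul_of_nonneg_left hz' hb0.le
        have h2 : b * t ^ 2 = m / 2 := by rw [hb]; field_simp
        simp only [Finset.sum_const, Finset.card_univ, Fintype.card_fin, nsmul_eq_mul]
        linarith
    _ = ENNReal.ofReal (∫ z : Fin m → ℝ, ∏ i, g (z i)) :=
        (ofReal_integral_eq_lintegral_ofReal hF
          (Filter.Eventually.of_forall fun z => Finset.prod_nonneg fun i _ => hg0 _)).symm
    _ ≤ ENNReal.ofReal ((5 * t / √m) ^ m) := by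
        apply ENNReal.ofReal_le_ofReal
        rw [integral_fintype_prod_volume_eq_pow, Fintype.card_fin, hI, mul_div_assoc]
        exact pow_le_pow_left₀ (by positivity)
          (mul_le_mul_of_nonneg_right glusa_num (by positivity)) m

/-- the signed points -/
def glusa_pt {W κ : Type*} [AddCommGroup W] (q : κ → W) : Option (κ × Bool) → W
  | none => 0
  | some (k, true) => q k
  | some (k, false) => -q k

theorem glusa_hull {W κ : Type*} [AddCommGroup W] [Module ℝ W] [Fintype κ] (q : κ → W) (c : κ → ℝ)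
    (hc : ∑ k, |c k| ≤ 1) : ∑ k, c k • q k ∈ convexHull ℝ (Set.range (glusa_pt q)) := by
  classical
  have h := (convex_convexHull ℝ (Set.range (glusa_pt q))).sum_mem (t := Finset.univ)
    (w := fun o : Option κ => o.elim (1 - ∑ k, |c k|) fun k => |c k|)
    (z := fun o : Option κ => o.elim 0 fun k => if 0 ≤ c k then q k else -q k)
    (fun o _ => by
      cases o with
      | none => simpa using hc
      | some k => simp)
    (by rw [Fintype.sum_option]; simp)
    (fun o _ => by
      apply subset_convexHull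
      cases o with
      | none => exact ⟨none, rfl⟩
      | some k =>
        by_cases h : 0 ≤ c k
        · exact ⟨some (k, true), by simp [glusa_pt, h]⟩
        · exact ⟨some (k, false), by simp [glusa_pt, h]⟩)
  rw [Fintype.sum_option] at h
  simp only [Option.elim_none, Option.elim_some, smul_zero, zero_add] at h
  convert h using 2 with k
  by_cases h : 0 ≤ c k
  · rw [if_pos h, abs_of_nonneg h]
  · rw [if_neg h, abs_of_neg (not_le.mp h), smul_neg, neg_smul, neg_neg]

theorem glusa_cover {m : ℕ} (hm : 1 ≤ m) {G : Fin m → Fin m → ℝ} (hG : G ∈ Cube m) {ρ : ℝ}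
    (hρ : 0 < ρ) : ∃ ctr : Sym (Option ((Fin m ⊕ Fin m) × Bool)) m → Fin m → ℝ,
      ∀ z ∈ Bd G ρ, ∃ s, ∑ i, (z i - ctr s i) ^ 2 ≤ (ρ / √m) ^ 2 := by
  have hm0 : (0 : ℝ) < m := by exact_mod_cast hm
  obtain ⟨q, hq⟩ : ∃ q : Fin m ⊕ Fin m → E m, q = Sum.elim
    (fun i => EuclideanSpace.single i (1 : ℝ)) (fun j => WithLp.toLp 2 (G j)) := ⟨_, rfl⟩
  have hq1 : ∀ k, ‖q k‖ ^ 2 ≤ 1 := by
    intro k
    rw [hq]
    cases k with
    | inl i => simp
    | inr j =>
      rw [Sum.elim_inr, EuclideanSpace.real_norm_sq_eq]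
      have h : ∀ i, G j i ^ 2 ≤ 1 / m := fun i => by
        have h1 := pow_le_pow_left₀ (abs_nonneg _) (hG j i) 2
        rwa [sq_abs, div_pow, Real.sq_sqrt hm0.le, one_pow] at h1
      calc ∑ i, G j i ^ 2 ≤ ∑ _i : Fin m, (1 / m : ℝ) := Finset.sum_le_sum fun i _ => h i
        _ = 1 := by
          simp only [Finset.sum_const, Finset.card_univ, Fintype.card_fin, nsmul_eq_mul]
          field_simp
  have hS : ∀ s ∈ Set.range (glusa_pt q), ‖s‖ ^ 2 ≤ 1 := by
    rintro s ⟨o, rfl⟩
    rcases o with _ | ⟨k, _ | _⟩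
    · simp [glusa_pt]
    · simpa [glusa_pt] using hq1 k
    · exact hq1 k
  refine ⟨fun s => ((ρ / m) • ((s : Multiset _).map (glusa_pt q)).sum).ofLp, ?_⟩
  rintro z ⟨y, hy⟩
  obtain ⟨c, hc⟩ : ∃ c : Fin m ⊕ Fin m → ℝ, c = Sum.elim
    (fun i => (z i - ∑ j, y j * G j i) / ρ) (fun j => y j / ρ) := ⟨_, rfl⟩
  have hc1 : ∑ k, |c k| ≤ 1 := by
    rw [hc, Fintype.sum_sum_type]
    simp only [Sum.elim_inl, Sum.elim_inr, abs_div, abs_of_pos hρ]
    rw [← Finset.sum_div, ← Finset.sum_div, ← add_div, div_le_one hρ]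
    exact hy.le
  have hu : ∀ i, (∑ k, c k • q k) i = z i / ρ := by
    intro i
    rw [hc, hq, Fintype.sum_sum_type]
    simp only [Sum.elim_inl, Sum.elim_inr, PiLp.add_apply, WithLp.ofLp_sum, Finset.sum_apply,
      PiLp.smul_apply, smul_eq_mul, PiLp.single_apply, mul_ite, mul_one, mul_zero,
      Finset.sum_ite_eq, Finset.mem_univ, if_true]
    have e : ∑ j, y j / ρ * G j i = (∑ j, y j * G j i) / ρ := by
      rw [Finset.sum_div]; exact Finset.sum_congr rfl fun j _ => by ring
    rw [e]; ring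
  obtain ⟨g, hg, hg2⟩ := maurey _ hS (glusa_hull q c hc1) m
  choose a ha using hg
  refine ⟨⟨Finset.univ.val.map a, by simp⟩, ?_⟩
  have e1 : ((Finset.univ.val.map a).map (glusa_pt q)).sum = ∑ i, g i := by
    rw [Multiset.map_map]
    exact Finset.sum_congr rfl fun i _ => ha i
  simp only [Sym.coe_mk]
  erw [e1]
  rw [EuclideanSpace.real_norm_sq_eq] at hg2
  have e2 : ∀ i, (z i - ((ρ / m) • ∑ i, g i).ofLp i) ^ 2 =
      (ρ / m) ^ 2 * ((∑ i, g i - (m : ℝ) • ∑ k, c k • q k).ofLp i) ^ 2 := by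
    intro i
    rw [PiLp.sub_apply, PiLp.smul_apply, PiLp.smul_apply, hu i, smul_eq_mul, smul_eq_mul]
    field_simp
    ring
  rw [Finset.sum_congr rfl fun i _ => e2 i, ← Finset.mul_sum, div_pow ρ (√m), Real.sq_sqrt hm0.le]
  calc _ ≤ (ρ / m) ^ 2 * (m * 1) := mul_le_mul_of_nonneg_left hg2 (by positivity)
    _ = ρ ^ 2 / m := by field_simp

theorem vol_Bd_le {m : ℕ} (hm : 1 ≤ m) {G : Fin m → Fin m → ℝ} (hG : G ∈ Cube m) {ρ : ℝ}
    (hρ : 0 < ρ) : volume (Bd G ρ) ≤ ENNReal.ofReal ((160 * ρ / m) ^ m) := by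
  classical
  have hm0 : (0 : ℝ) < m := by exact_mod_cast hm
  obtain ⟨ctr, hctr⟩ := glusa_cover hm hG hρ
  have ht : 0 < ρ / √m := by positivity
  have hcard : (Fintype.card (Sym (Option ((Fin m ⊕ Fin m) × Bool)) m) : ℝ) ≤ 32 ^ m := by
    rw [Sym.card_sym_eq_choose]
    have h1 : Fintype.card (Option ((Fin m ⊕ Fin m) × Bool)) + m - 1 = 5 * m := by
      simp only [Fintype.card_option, Fintype.card_prod, Fintype.card_sum, Fintype.card_fin,
        Fintype.card_bool]
      omega
    rw [h1]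
    have h2 := Nat.choose_le_two_pow (5 * m) m
    rw [pow_mul] at h2
    exact_mod_cast h2
  calc volume (Bd G ρ)
      ≤ volume (⋃ s, (fun z => z - ctr s) ⁻¹' {z : Fin m → ℝ | ∑ i, z i ^ 2 ≤ (ρ / √m) ^ 2}) := by
        refine measure_mono fun z hz => ?_
        obtain ⟨s, hs⟩ := hctr z hz
        exact Set.mem_iUnion.2 ⟨s, hs⟩
    _ ≤ ∑ s, volume ((fun z => z - ctr s) ⁻¹' {z : Fin m → ℝ | ∑ i, z i ^ 2 ≤ (ρ / √m) ^ 2}) :=
        measure_iUnion_fintype_le _ _
    _ ≤ ∑ _s : Sym (Option ((Fin m ⊕ Fin m) × Bool)) m,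
          ENNReal.ofReal ((5 * (ρ / √m) / √m) ^ m) := by
        refine Finset.sum_le_sum fun s _ => ?_
        simp only [sub_eq_add_neg]
        rw [measure_preimage_add_right]
        exact vol_ball_le hm ht
    _ ≤ ENNReal.ofReal ((160 * ρ / m) ^ m) := by
        rw [Finset.sum_const, Finset.card_univ, nsmul_eq_mul, ← ENNReal.ofReal_natCast,
          ← ENNReal.ofReal_mul (Nat.cast_nonneg _)]
        apply ENNReal.ofReal_le_ofReal
        have e : 160 * ρ / m = 32 * (5 * (ρ / √m) / √m) := by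
          rw [mul_div_assoc 5, div_div, Real.mul_self_sqrt hm0.le]; ring
        rw [e, mul_pow 32]
        exact mul_le_mul_of_nonneg_right hcard (by positivity)

end Pool.Agent.MP_fcb590_an.Q2

end

section
/-!
One good operator gives a set of good operators of large volume.
s = rho / (2 m). For a matrix Z with entries in the interval from -s to s (Z i = column i) there is a sign pattern eps i r with
(1) for each row r, sum_j (sum_i G j i * eps i r * Z i r)^2 <= m s^2 (average over the signs of the row: cross terms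
cancel, and sum_i (G j i)^2 <= 1), and (2) |det (T0 + eps Z)| >= |det T0|: flip whole rows, which keeps (1); the average of
det over the 2^m row flips is det T0 by multilinearity (`MultilinearMap.map_sum`, or induction on rows: for an
affine function p, max |p y| |p (- y)| >= |p 0|). Then T = T0 + eps Z is in Good G G' (2 rho): the l1 norm of a column
of Z is at most m s <= rho; sum_j norm (eps Z (G j))^2 <= m^2 s^2 so at least half of the j have squared norm <= 2 m s^2,
l1 norm <= sqrt m * sqrt (2 m) s <= 2 m s = rho (`Bd_add`). So the cube of side 2 s is covered by the 2^(m^2) preimages of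
Good under the measure preserving maps Z -> T0 + eps Z, and volume Good >= (2 s)^(m^2) / 2^(m^2).
Measurability: the set of (G', z) with z in Bd G' rho is open (union over y of open sets).
-/

set_option autoImplicit false

open scoped RealInnerProductSpace

namespace Pool.Agent.MP_fcb590_an.Q2

open MeasureTheory

variable {m : ℕ}

theorem Bd_add {G : Fin m → Fin m → ℝ} {ρ σ : ℝ} {z u : Fin m → ℝ} (hz : z ∈ Bd G ρ)
    (hu : ∑ i, |u i| ≤ σ) : z + u ∈ Bd G (ρ + σ) := by
  obtain ⟨y, hy⟩ := hz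
  refine ⟨y, ?_⟩
  have h : ∑ i, |(z + u) i - ∑ j, y j * G j i| ≤
      ∑ i, |z i - ∑ j, y j * G j i| + ∑ i, |u i| := by
    rw [← Finset.sum_add_distrib]
    refine Finset.sum_le_sum fun i _ => ?_
    rw [Pi.add_apply, add_sub_right_comm]
    exact abs_add_le _ _
  linarith

theorem isOpen_Bd (ρ : ℝ) :
    IsOpen {p : (Fin m → Fin m → ℝ) × (Fin m → ℝ) | p.2 ∈ Bd p.1 ρ} := by
  have e : {p : (Fin m → Fin m → ℝ) × (Fin m → ℝ) | p.2 ∈ Bd p.1 ρ} = ⋃ y : Fin m → ℝ,
      {p | ∑ i, |p.2 i - ∑ j, y j * p.1 j i| + ∑ j, |y j| < ρ} := by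
    ext p
    simp [Bd]
  rw [e]
  exact isOpen_iUnion fun y => isOpen_lt (by fun_prop) continuous_const

theorem measurableSet_Good (ρ : ℝ) : MeasurableSet
    {p : ((Fin m → Fin m → ℝ) × (Fin m → Fin m → ℝ)) × (Fin m → Fin m → ℝ) |
      p.2 ∈ Good p.1.1 p.1.2 ρ} := by
  have hB : ∀ f : ((Fin m → Fin m → ℝ) × (Fin m → Fin m → ℝ)) × (Fin m → Fin m → ℝ) → Fin m → ℝ,
      Continuous f → Measurable fun p => f p ∈ Bd p.1.2 ρ := fun f hf =>
    measurableSet_setOfPred.1 ((isOpen_Bd ρ).preimage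
      ((continuous_snd.comp continuous_fst).prodMk hf)).measurableSet
  refine measurableSet_setOfPred.2 ((Measurable.forall fun i => hB _ (by fun_prop)).and
    (Measurable.and ?_ (Measurable.exists fun J => measurable_const.and
      (Measurable.forall fun j => measurable_const.imp (hB _ (by fun_prop))))))
  refine measurableSet_setOfPred.1 (isClosed_le continuous_const ?_).measurableSet
  exact (Continuous.matrix_det (A := fun p : _ × (Fin m → Fin m → ℝ) => Matrix.of p.2)
    continuous_snd).abs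

theorem glusb_signs (v : Fin m → Fin m → ℝ) (A : Finset (Fin m)) :
    ∃ ε : Fin m → ℝ, (∀ i, ε i = 1 ∨ ε i = -1) ∧
      ∑ j, (∑ i ∈ A, ε i * v i j) ^ 2 ≤ ∑ i ∈ A, ∑ j, v i j ^ 2 := by
  induction A using Finset.induction_on with
  | empty => exact ⟨fun _ => 1, fun _ => Or.inl rfl, by simp⟩
  | insert a A ha ih =>
    obtain ⟨ε, h1, h2⟩ := ih
    obtain ⟨c, hc, hc'⟩ : ∃ c : ℝ, (c = 1 ∨ c = -1) ∧
        c * ∑ j, v a j * ∑ i ∈ A, ε i * v i j ≤ 0 := by
      rcases le_total (∑ j, v a j * ∑ i ∈ A, ε i * v i j) 0 with h | h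
      · exact ⟨1, Or.inl rfl, by linarith⟩
      · exact ⟨-1, Or.inr rfl, by linarith⟩
    have hc2 : c ^ 2 = 1 := by rcases hc with rfl | rfl <;> norm_num
    refine ⟨Function.update ε a c, fun i => ?_, ?_⟩
    · by_cases h : i = a
      · rwa [h, Function.update_self]
      · rw [Function.update_of_ne h]
        exact h1 i
    · have e : ∀ j, (∑ i ∈ insert a A, Function.update ε a c i * v i j) ^ 2 =
          v a j ^ 2 + 2 * c * (v a j * ∑ i ∈ A, ε i * v i j) + (∑ i ∈ A, ε i * v i j) ^ 2 := by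
        intro j
        rw [Finset.sum_insert ha, Function.update_self, Finset.sum_congr rfl fun i hi => by
          rw [Function.update_of_ne (ne_of_mem_of_not_mem hi ha)]]
        linear_combination v a j ^ 2 * hc2
      simp only [e, Finset.sum_add_distrib, ← Finset.mul_sum]
      rw [Finset.sum_insert ha]
      linarith

theorem glusb_det (A W : Fin m → Fin m → ℝ) (R : Finset (Fin m)) :
    ∃ c : Fin m → ℝ, (∀ r ∈ R, c r = 1 ∨ c r = -1) ∧ (∀ r ∉ R, c r = 0) ∧
      |(Matrix.of A).det| ≤ |(Matrix.of fun i r => A i r + c r * W i r).det| := by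
  induction R using Finset.induction_on with
  | empty => exact ⟨fun _ => 0, by simp, by simp, by simp⟩
  | insert a R ha ih =>
    obtain ⟨c, h1, h2, h3⟩ := ih
    have e : ∀ t : ℝ, (Matrix.of fun i r => A i r + Function.update c a t r * W i r).det =
        (Matrix.of fun i r => A i r + c r * W i r).det +
          t * ((Matrix.of fun i r => A i r + c r * W i r).updateCol a fun i => W i a).det := by
      intro t
      rw [← Matrix.det_updateCol_smul]
      conv_rhs => enter [1]; rw [← Matrix.updateCol_eq_self (Matrix.of _) a]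
      rw [← Matrix.det_updateCol_add]
      congr 1
      ext i r
      by_cases h : r = a
      · subst h
        simp [h2 r ha]
      · simp [h]
    obtain ⟨t, ht, ht'⟩ : ∃ t : ℝ, (t = 1 ∨ t = -1) ∧ |(Matrix.of A).det| ≤
        |(Matrix.of fun i r => A i r + Function.update c a t r * W i r).det| := by
      simp only [e]
      generalize (Matrix.of fun i r => A i r + c r * W i r).det = x at h3 ⊢
      generalize ((Matrix.of fun i r => A i r + c r * W i r).updateCol a fun i => W i a).det = y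
      by_contra hn
      push Not at hn
      have k1 := abs_lt.1 ((hn 1 (Or.inl rfl)).trans_le h3)
      have k2 := abs_lt.1 ((hn (-1) (Or.inr rfl)).trans_le h3)
      exact lt_irrefl _ (abs_lt.2 ⟨by linarith, by linarith⟩ : |x| < |x|)
    refine ⟨Function.update c a t, fun r hr => ?_, fun r hr => ?_, ht'⟩
    · by_cases h : r = a
      · rwa [h, Function.update_self]
      · rw [Function.update_of_ne h]
        exact h1 r ((Finset.mem_insert.1 hr).resolve_left h)
    · rw [Finset.mem_insert, not_or] at hr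
      rw [Function.update_of_ne hr.1]
      exact h2 r hr.2

theorem glusb_good (hm : 1 ≤ m) {G G' T₀ : Fin m → Fin m → ℝ} (hG : G ∈ Cube m) {s : ℝ}
    (hs : 0 < s) (h1 : ∀ i, T₀ i ∈ Bd G' (2 * m * s))
    (h2 : ∀ j, ∑ i, G j i • T₀ i ∈ Bd G' (2 * m * s)) (hdet : 1 ≤ |(Matrix.of T₀).det|)
    {Z : Fin m → Fin m → ℝ} (hZ : ∀ i r, |Z i r| ≤ s) :
    ∃ e : Fin m → Fin m → ℝ, (∀ i r, e i r = 1 ∨ e i r = -1) ∧
      (fun i r => T₀ i r + e i r * Z i r) ∈ Good G G' (2 * (2 * m * s)) := by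
  have hm1 : (1 : ℝ) ≤ m := by exact_mod_cast hm
  have hm0 : (0 : ℝ) < m := by linarith
  choose ε hε hε' using fun r => glusb_signs (fun i j => G j i * Z i r) Finset.univ
  obtain ⟨c, hc, -, hc'⟩ := glusb_det T₀ (fun i r => ε r i * Z i r) Finset.univ
  have he : ∀ i r, c r * ε r i = 1 ∨ c r * ε r i = -1 := fun i r => by
    rcases hc r (Finset.mem_univ r) with h | h <;> rcases hε r i with h' | h' <;> simp [h, h']
  refine ⟨fun i r => c r * ε r i, he, fun i => ?_, ?_, ?_⟩
  · rw [two_mul]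
    refine Bd_add (u := fun r => c r * ε r i * Z i r) (h1 i) ?_
    refine (Finset.sum_le_card_nsmul _ _ s fun r _ => ?_).trans ?_
    · rcases he i r with h | h <;> simpa [h] using hZ i r
    · simp only [Finset.card_univ, Fintype.card_fin, nsmul_eq_mul]
      linarith [mul_pos hm0 hs]
  · simpa only [mul_assoc] using hdet.trans hc'
  · obtain ⟨u, hu⟩ : ∃ u : Fin m → Fin m → ℝ, ∀ j r,
        u j r = ∑ i, G j i * (c r * ε r i * Z i r) := ⟨_, fun _ _ => rfl⟩
    have k1 : ∀ r, ∑ j, u j r ^ 2 ≤ m * s ^ 2 := fun r => by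
      have e1 : ∀ j, u j r ^ 2 = (∑ i, ε r i * (G j i * Z i r)) ^ 2 := fun j => by
        have : u j r = c r * ∑ i, ε r i * (G j i * Z i r) := by
          rw [hu, Finset.mul_sum]
          exact Finset.sum_congr rfl fun i _ => by ring
        rw [this, mul_pow]
        rcases hc r (Finset.mem_univ r) with h | h <;> simp [h]
      have e2 : ∀ i j, (G j i * Z i r) ^ 2 ≤ 1 / m * s ^ 2 := fun i j => by
        have a1 := pow_le_pow_left₀ (abs_nonneg _) (hG j i) 2
        have a2 := pow_le_pow_left₀ (abs_nonneg _) (hZ i r) 2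
        rw [sq_abs] at a1 a2
        rw [div_pow, one_pow, Real.sq_sqrt hm0.le] at a1
        rw [mul_pow]
        exact mul_le_mul a1 a2 (sq_nonneg _) (by positivity)
      simp only [e1]
      refine (hε' r).trans ((Finset.sum_le_sum fun i _ => Finset.sum_le_sum fun j _ =>
        e2 i j).trans (le_of_eq ?_))
      simp only [Finset.sum_const, Finset.card_univ, Fintype.card_fin, nsmul_eq_mul]
      field_simp
    have k2 : ∑ j, ∑ r, u j r ^ 2 ≤ m * (m * s ^ 2) := by
      rw [Finset.sum_comm]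
      refine (Finset.sum_le_card_nsmul _ _ _ fun r _ => k1 r).trans (le_of_eq ?_)
      simp
    refine ⟨Finset.univ.filter fun j => ∑ r, u j r ^ 2 ≤ 2 * (m * s ^ 2), ?_, fun j hj => ?_⟩
    · have a1 := Finset.card_filter_add_card_filter_not (s := Finset.univ)
        fun j => ∑ r, u j r ^ 2 ≤ 2 * (m * s ^ 2)
      have a2 := Finset.card_nsmul_le_sum
        (Finset.univ.filter fun j => ¬ ∑ r, u j r ^ 2 ≤ 2 * (m * s ^ 2)) (fun j => ∑ r, u j r ^ 2)
        (2 * (m * s ^ 2)) fun j hj => (not_le.1 (Finset.mem_filter.1 hj).2).le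
      have a3 := (a2.trans (Finset.sum_le_sum_of_subset_of_nonneg (Finset.filter_subset _ _)
        fun j _ _ => by positivity)).trans k2
      rw [nsmul_eq_mul, ← mul_assoc] at a3
      have a4 := le_of_mul_le_mul_right a3 (by positivity)
      rw [Finset.card_univ, Fintype.card_fin] at a1
      have a5 : (Finset.univ.filter fun j => ¬ ∑ r, u j r ^ 2 ≤ 2 * (m * s ^ 2)).card * 2 ≤ m := by
        exact_mod_cast a4
      omega
    · have e : (∑ i, G j i • fun r => T₀ i r + c r * ε r i * Z i r) =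
          ∑ i, G j i • T₀ i + u j := by
        ext r
        simp [hu, mul_add, Finset.sum_add_distrib]
      rw [e, two_mul]
      refine Bd_add (h2 j) (abs_le_of_sq_le_sq' ?_ (by positivity)).2
      have a1 := sq_sum_le_card_mul_sum_sq (s := Finset.univ) (f := fun r => |u j r|)
      simp only [sq_abs, Finset.card_univ, Fintype.card_fin] at a1
      have a2 := mul_le_mul_of_nonneg_left (Finset.mem_filter.1 hj).2 hm0.le
      have a3 : 0 ≤ (m * s) ^ 2 := sq_nonneg _
      linarith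

theorem vol_Good_ge (hm : 1 ≤ m) {G G' T₀ : Fin m → Fin m → ℝ} (hG : G ∈ Cube m) {ρ : ℝ}
    (hρ : 0 < ρ) (h1 : ∀ i, T₀ i ∈ Bd G' ρ) (h2 : ∀ j, ∑ i, G j i • T₀ i ∈ Bd G' ρ)
    (hdet : 1 ≤ |(Matrix.of T₀).det|) :
    ENNReal.ofReal ((ρ / (2 * m)) ^ (m * m)) ≤ volume (Good G G' (2 * ρ)) := by
  have hm0 : (0 : ℝ) < m := by exact_mod_cast hm
  obtain ⟨s, hs⟩ : ∃ s, s = ρ / (2 * m) := ⟨_, rfl⟩
  have hs0 : 0 < s := by rw [hs]; positivity
  obtain rfl : ρ = 2 * m * s := by rw [hs]; field_simp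
  rw [← hs]
  let S : Finset (Fin m → Fin m → ℝ) :=
    Fintype.piFinset fun _ => Fintype.piFinset fun _ => ({1, -1} : Finset ℝ)
  have hS : S.card = 2 ^ (m * m) := by
    simp only [S, Fintype.card_piFinset, Finset.prod_const, Finset.card_univ, Fintype.card_fin,
      ← pow_mul]
    rw [Finset.card_pair (by norm_num)]
  have hc : (Set.univ.pi fun _ : Fin m => Set.univ.pi fun _ : Fin m => Set.Icc (-s) s) ⊆
      ⋃ e ∈ S, (fun Z i r => T₀ i r + e i r * Z i r) ⁻¹' Good G G' (2 * (2 * m * s)) := by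
    intro Z hZ
    obtain ⟨e, he, h⟩ := glusb_good hm hG hs0 h1 h2 hdet
      fun i r => abs_le.2 (hZ i trivial r trivial)
    exact Set.mem_biUnion (by simpa [S] using he) h
  have hp : ∀ e ∈ S, volume ((fun (Z : Fin m → Fin m → ℝ) i r => T₀ i r + e i r * Z i r) ⁻¹'
      Good G G' (2 * (2 * m * s))) ≤ volume (Good G G' (2 * (2 * m * s))) := fun e he => by
    refine MeasurePreserving.measure_preimage_le (volume_preserving_pi fun i =>
      volume_preserving_pi (f := fun r x => T₀ i r + e i r * x) fun r => ?_) _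
    have : e i r = 1 ∨ e i r = -1 := by
      simpa using Fintype.mem_piFinset.1 (Fintype.mem_piFinset.1 he i) r
    rcases this with h | h
    · simpa only [h, one_mul] using measurePreserving_add_left volume (T₀ i r)
    · simpa only [h, neg_one_mul, ← sub_eq_add_neg] using
        Measure.measurePreserving_sub_left volume (T₀ i r)
  have h := ((measure_mono hc).trans (measure_biUnion_finset_le _ _)).trans
    (Finset.sum_le_card_nsmul _ _ _ hp)
  simp only [volume_pi_pi, Real.volume_Icc, Finset.prod_const, Finset.card_univ, Fintype.card_fin,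
    ← pow_mul, hS, nsmul_eq_mul, sub_neg_eq_add, ← two_mul, Nat.cast_pow, Nat.cast_ofNat] at h
  rw [ENNReal.ofReal_mul zero_le_two, ENNReal.ofReal_ofNat, mul_pow,
    ENNReal.mul_le_mul_iff_right (by simp) (by simp)] at h
  rwa [ENNReal.ofReal_pow hs0.le]

end Pool.Agent.MP_fcb590_an.Q2

end

section
/-!
The first moment bound and the choice of two polytopes.
`vol_section_le`: for fixed T with |det T| >= 1 the set of g with sum g i • T i in Bd G' rho has volume at most
volume (Bd G' rho) (`Measure.addHaar_preimage_linearMap`, `Matrix.toLin'`, det of the transpose). For fixed J the set of G in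
the cube with the J-conditions is a product set (`Measure.pi_pi`, `volume_pi_pi`) of volume at most
V^card J * Q^(m - card J) with V = (160 rho / m)^m and Q = (2 / sqrt m)^m; write V = Q * x^m with x = 80 rho / sqrt m <= 1,
so the bound is Q^m x^(m card J) <= Q^m (sqrt x)^(m m) as m <= 2 card J. Union over at most 2^m sets J.
`exists_far`: c = 1 / 10^15 say, rho = c sqrt m. Let W G G' = volume (Good G G' (2 rho)), w0 = (rho / (2 m))^(m m).
If W G G' >= w0 or W G' G >= w0 for all G, G' in the cube, integrate W G G' + W G' G over cube x cube (measurable by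
`measurableSet_Good`, `measurable_measure_prodMk_left`; Tonelli): w0 Q^(2 m) <= 2 Q^m sup over G' of the integral of W G G' over G,
and by Tonelli in (G, T) that integral is at most volume {T | all columns in Bd G' (2 rho)} * (bound of `vol_section_le`)
<= (320 rho / m)^(m m) * 2^m Q^m (sqrt (160 c))^(m m). So 1 <= 2 * 2^m * (640 sqrt (160 c))^(m m), false when
640 sqrt (160 c) <= 1 / 8.
-/

set_option autoImplicit false

open scoped RealInnerProductSpace

namespace Pool.Agent.MP_fcb590_an.Q2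

open MeasureTheory

variable {m : ℕ}

theorem glusc_lin {G' T : Fin m → Fin m → ℝ} {ρ : ℝ} (hT : 1 ≤ |(Matrix.of T).det|) :
    volume {g : Fin m → ℝ | ∑ i, g i • T i ∈ Bd G' ρ} ≤ volume (Bd G' ρ) := by
  have h1 : {g : Fin m → ℝ | ∑ i, g i • T i ∈ Bd G' ρ} =
      Matrix.toLin' (Matrix.of T).transpose ⁻¹' Bd G' ρ := by
    ext g
    have : Matrix.toLin' (Matrix.of T).transpose g = ∑ i, g i • T i := by
      ext r
      simp [Matrix.mulVec, dotProduct, Finset.sum_apply, mul_comm]
    simp only [Set.mem_ofPred_eq, Set.mem_preimage, this]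
  have h2 : LinearMap.det (Matrix.toLin' (Matrix.of T).transpose) = (Matrix.of T).det := by
    rw [LinearMap.det_toLin', Matrix.det_transpose]
  have h3 : (Matrix.of T).det ≠ 0 := fun h => by rw [h, abs_zero] at hT; norm_num at hT
  rw [h1, Measure.addHaar_preimage_linearMap volume (by rwa [h2]), h2]
  refine (mul_le_mul_left ?_ _).trans (one_mul _).le
  rw [ENNReal.ofReal_le_one, abs_inv]
  exact inv_le_one_of_one_le₀ hT

theorem glusc_q (m : ℕ) :
    volume {g : Fin m → ℝ | ∀ i, |g i| ≤ 1 / √m} = ENNReal.ofReal ((2 / √m) ^ m) := by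
  have h1 : {g : Fin m → ℝ | ∀ i, |g i| ≤ 1 / √m} =
      Set.pi Set.univ fun _ => Set.Icc (-(1 / √m)) (1 / √m) := by
    ext g
    simp only [Set.mem_ofPred_eq, Set.mem_pi, Set.mem_univ, true_imp_iff, Set.mem_Icc, abs_le]
  rw [h1, volume_pi_pi, Real.volume_Icc, Finset.prod_const, Finset.card_univ, Fintype.card_fin,
    ENNReal.ofReal_pow (by positivity)]
  congr 2
  ring

theorem glusc_cube (m : ℕ) : volume (Cube m) = ENNReal.ofReal ((2 / √m) ^ (m * m)) := by
  have h1 : Cube m = Set.pi Set.univ fun _ => {g : Fin m → ℝ | ∀ i, |g i| ≤ 1 / √m} := by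
    ext g
    simp only [Cube, Set.mem_ofPred_eq, Set.mem_pi, Set.mem_univ, true_imp_iff]
  rw [h1, volume_pi_pi, glusc_q, Finset.prod_const, Finset.card_univ, Fintype.card_fin,
    ← ENNReal.ofReal_pow (by positivity), ← pow_mul]

theorem glusc_meas (m : ℕ) : MeasurableSet (Cube m) := by
  unfold Cube
  simp only [Set.ofPred_forall]
  exact MeasurableSet.iInter fun j => MeasurableSet.iInter fun i =>
    measurableSet_le (by fun_prop) measurable_const

theorem glusc_prod (hm : 1 ≤ m) {G' T : Fin m → Fin m → ℝ} (hG' : G' ∈ Cube m) {ρ : ℝ}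
    (hρ : 0 < ρ) (hx : 80 * ρ / √m ≤ 1) (hT : 1 ≤ |(Matrix.of T).det|) {J : Finset (Fin m)}
    (hJ : m ≤ 2 * J.card) :
    volume {G | G ∈ Cube m ∧ ∀ j ∈ J, ∑ i, G j i • T i ∈ Bd G' ρ} ≤
      ENNReal.ofReal ((2 / √m) ^ (m * m) * √(80 * ρ / √m) ^ (m * m)) := by
  have hm0 : (0 : ℝ) < m := by exact_mod_cast hm
  have hs : 0 < √(m : ℝ) := Real.sqrt_pos.2 hm0
  set x := 80 * ρ / √m with hxd
  have hx0 : 0 ≤ x := by positivity
  have h1 : {G | G ∈ Cube m ∧ ∀ j ∈ J, ∑ i, G j i • T i ∈ Bd G' ρ} ⊆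
      Set.pi Set.univ fun j => if j ∈ J then {g : Fin m → ℝ | ∑ i, g i • T i ∈ Bd G' ρ}
        else {g : Fin m → ℝ | ∀ i, |g i| ≤ 1 / √m} := by
    rintro G ⟨h2, h3⟩ j -
    dsimp only
    split_ifs with hj
    · exact h3 j hj
    · exact h2 j
  refine (measure_mono h1).trans ?_
  rw [volume_pi_pi]
  have h2 : (160 * ρ / m) ^ m = (2 / √m) ^ m * x ^ m := by
    rw [← mul_pow, hxd]
    congr 1
    field_simp
    rw [Real.sq_sqrt hm0.le]
    ring
  calc _ ≤ ∏ j : Fin m, ENNReal.ofReal ((2 / √m) ^ m * if j ∈ J then x ^ m else 1) := by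
        refine Finset.prod_le_prod' fun j _ => ?_
        split_ifs
        · exact (glusc_lin hT).trans (h2 ▸ vol_Bd_le hm hG' hρ)
        · rw [glusc_q, mul_one]
    _ = ENNReal.ofReal ((2 / √m) ^ (m * m) * √x ^ (2 * J.card * m)) := by
        rw [← ENNReal.ofReal_prod_of_nonneg fun j _ => by positivity, Finset.prod_mul_distrib,
          Finset.prod_const, Finset.card_univ, Fintype.card_fin, Finset.prod_ite_mem,
          Finset.univ_inter, Finset.prod_const, ← pow_mul, ← pow_mul, mul_assoc 2, pow_mul _ 2,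
          Real.sq_sqrt hx0, mul_comm m J.card]
    _ ≤ _ := by
        refine ENNReal.ofReal_le_ofReal (mul_le_mul_of_nonneg_left ?_ (by positivity))
        exact pow_le_pow_of_le_one (Real.sqrt_nonneg _) (Real.sqrt_le_one.2 hx)
          (Nat.mul_le_mul_right _ hJ)

theorem vol_section_le (hm : 1 ≤ m) {G' T : Fin m → Fin m → ℝ} (hG' : G' ∈ Cube m) {ρ : ℝ}
    (hρ : 0 < ρ) (hx : 80 * ρ / √m ≤ 1) :
    volume {G | G ∈ Cube m ∧ T ∈ Good G G' ρ} ≤
      ENNReal.ofReal (2 ^ m * ((2 / √m) ^ (m * m) * √(80 * ρ / √m) ^ (m * m))) := by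
  by_cases hT : 1 ≤ |(Matrix.of T).det|
  swap
  · have : {G | G ∈ Cube m ∧ T ∈ Good G G' ρ} = ∅ :=
      Set.eq_empty_of_forall_notMem fun G h => hT h.2.2.1
    rw [this, measure_empty]
    exact zero_le
  have h1 : {G | G ∈ Cube m ∧ T ∈ Good G G' ρ} ⊆
      ⋃ J ∈ Finset.univ.filter fun J : Finset (Fin m) => m ≤ 2 * J.card,
        {G | G ∈ Cube m ∧ ∀ j ∈ J, ∑ i, G j i • T i ∈ Bd G' ρ} := by
    rintro G ⟨h2, -, -, J, h3, h4⟩
    exact Set.mem_biUnion (Finset.mem_coe.2 (Finset.mem_filter.2 ⟨Finset.mem_univ J, h3⟩)) ⟨h2, h4⟩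
  refine (measure_mono h1).trans ((measure_biUnion_finset_le _ _).trans ?_)
  refine (Finset.sum_le_card_nsmul _ _ _ fun J hJ =>
    glusc_prod hm hG' hρ hx hT (Finset.mem_filter.1 hJ).2).trans ?_
  rw [nsmul_eq_mul, ENNReal.ofReal_mul (p := 2 ^ m) (by positivity)]
  refine mul_le_mul_left ?_ _
  rw [ENNReal.ofReal_pow (by norm_num), ENNReal.ofReal_ofNat]
  have := Finset.card_filter_le (Finset.univ : Finset (Finset (Fin m))) fun J => m ≤ 2 * J.card
  rw [Finset.card_univ, Fintype.card_finset, Fintype.card_fin] at this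
  exact_mod_cast this

theorem glusc_int (hm : 1 ≤ m) {G' : Fin m → Fin m → ℝ} (hG' : G' ∈ Cube m) {ρ : ℝ}
    (hρ : 0 < ρ) (hx : 80 * ρ / √m ≤ 1) :
    ∫⁻ G in Cube m, volume (Good G G' ρ) ≤
      ENNReal.ofReal (2 ^ m * ((2 / √m) ^ (m * m) * √(80 * ρ / √m) ^ (m * m))) *
        ENNReal.ofReal ((160 * ρ / m) ^ (m * m)) := by
  set S : Set ((Fin m → Fin m → ℝ) × (Fin m → Fin m → ℝ)) :=
    {p | p.1 ∈ Cube m ∧ p.2 ∈ Good p.1 G' ρ} with hS
  have hSm : MeasurableSet S := by
    have h1 : Measurable fun p : (Fin m → Fin m → ℝ) × (Fin m → Fin m → ℝ) =>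
        ((p.1, G'), p.2) := by fun_prop
    exact (measurable_fst (glusc_meas m)).inter (h1 (measurableSet_Good ρ))
  set C : Set (Fin m → Fin m → ℝ) := Set.pi Set.univ fun _ => Bd G' ρ with hC
  have hB : MeasurableSet (Bd G' ρ) :=
    ((isOpen_Bd ρ).preimage (f := fun z : Fin m → ℝ => (G', z)) (by fun_prop)).measurableSet
  have hCm : MeasurableSet C := MeasurableSet.univ_pi fun _ => hB
  calc ∫⁻ G in Cube m, volume (Good G G' ρ) = ∫⁻ G, volume (Prod.mk G ⁻¹' S) := by
        rw [← lintegral_indicator (glusc_meas m)]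
        refine lintegral_congr fun G => ?_
        by_cases hG : G ∈ Cube m
        · rw [Set.indicator_of_mem hG]
          congr 1
          ext T
          simp [hS, hG]
        · rw [Set.indicator_of_notMem hG]
          have : Prod.mk G ⁻¹' S = ∅ := Set.eq_empty_of_forall_notMem fun T h => hG h.1
          rw [this, measure_empty]
    _ = ∫⁻ T, volume ((fun G => (G, T)) ⁻¹' S) := by
        rw [← Measure.prod_apply hSm, Measure.prod_apply_symm hSm]
    _ ≤ ∫⁻ T, C.indicator (fun _ => ENNReal.ofReal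
          (2 ^ m * ((2 / √m) ^ (m * m) * √(80 * ρ / √m) ^ (m * m)))) T := by
        refine lintegral_mono fun T => ?_
        by_cases hT : T ∈ C
        · rw [Set.indicator_of_mem hT]
          exact vol_section_le hm hG' hρ hx
        · have : (fun G => (G, T)) ⁻¹' S = ∅ :=
            Set.eq_empty_of_forall_notMem fun G h => hT fun i _ => h.2.1 i
          simp only [this, measure_empty, zero_le]
    _ ≤ _ := by
        rw [lintegral_indicator_const hCm]
        refine mul_le_mul_right ?_ _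
        rw [hC, volume_pi_pi, Finset.prod_const, Finset.card_univ, Fintype.card_fin, pow_mul,
          ENNReal.ofReal_pow (by positivity)]
        exact pow_le_pow_left' (vol_Bd_le hm hG' hρ) _

theorem glusc_sym {X : Type*} [MeasurableSpace X] (μ : Measure X) [SFinite μ] {S : Set X}
    (hS : MeasurableSet S) {W : X → X → ENNReal} (hW : Measurable (Function.uncurry W))
    {w K : ENNReal} (h1 : ∀ x ∈ S, ∀ y ∈ S, w ≤ W x y ∨ w ≤ W y x)
    (h2 : ∀ y ∈ S, ∫⁻ x in S, W x y ∂μ ≤ K) : w * μ S * μ S ≤ 2 * K * μ S := by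
  have hW' : Measurable (Function.uncurry fun y x => W x y) := hW.comp measurable_swap
  have h3 : ∫⁻ y in S, ∫⁻ x in S, W x y ∂μ ∂μ ≤ K * μ S := by
    rw [← setLIntegral_const]
    exact setLIntegral_mono' hS h2
  calc w * μ S * μ S = ∫⁻ _ in S, ∫⁻ _ in S, w ∂μ ∂μ := by
        rw [setLIntegral_const, setLIntegral_const]
    _ ≤ ∫⁻ y in S, (∫⁻ x in S, W x y ∂μ + ∫⁻ x in S, W y x ∂μ) ∂μ := by
        refine setLIntegral_mono' hS fun y hy => ?_
        rw [← lintegral_add_left (hW'.of_uncurry_left)]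
        refine setLIntegral_mono' hS fun x hx => ?_
        rcases h1 x hx y hy with h | h
        · exact h.trans le_self_add
        · exact h.trans le_add_self
    _ = ∫⁻ y in S, ∫⁻ x in S, W x y ∂μ ∂μ + ∫⁻ y in S, ∫⁻ x in S, W x y ∂μ ∂μ := by
        rw [lintegral_add_left hW'.lintegral_prod_right, lintegral_lintegral_swap hW.aemeasurable]
    _ ≤ _ := by
        rw [mul_assoc, two_mul]
        exact add_le_add h3 h3

theorem exists_far : ∃ c : ℝ, 0 < c ∧ ∀ m : ℕ, 1 ≤ m → ∃ G ∈ Cube m, ∃ G' ∈ Cube m,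
    volume (Good G G' (2 * (c * √m))) < ENNReal.ofReal ((c * √m / (2 * m)) ^ (m * m)) ∧
    volume (Good G' G (2 * (c * √m))) < ENNReal.ofReal ((c * √m / (2 * m)) ^ (m * m)) := by
  refine ⟨1 / (160 * 5120 ^ 2), by positivity, fun m hm => ?_⟩
  set c : ℝ := 1 / (160 * 5120 ^ 2) with hc
  have hc0 : 0 < c := by positivity
  have hm0 : (0 : ℝ) < m := by exact_mod_cast hm
  have hs : 0 < √(m : ℝ) := Real.sqrt_pos.2 hm0
  have hx : 80 * (2 * (c * √m)) / √m = (1 / 5120) ^ 2 := by
    rw [hc]; field_simp; norm_num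
  by_contra hcon
  have key := glusc_sym volume (glusc_meas m)
    (W := fun G G' => volume (Good G G' (2 * (c * √m))))
    (measurable_measure_prodMk_left (measurableSet_Good (2 * (c * √m))))
    (w := ENNReal.ofReal ((c * √m / (2 * m)) ^ (m * m)))
    (fun G hG G' hG' => by
      by_contra h
      rw [not_or, not_le, not_le] at h
      exact hcon ⟨G, hG, G', hG', h⟩)
    fun G' hG' => glusc_int hm hG' (by positivity) (by rw [hx]; norm_num)
  rw [glusc_cube, hx, Real.sqrt_sq (by norm_num), ← ENNReal.ofReal_ofNat 2,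
    ← ENNReal.ofReal_mul (by positivity), ← ENNReal.ofReal_mul (by positivity),
    ← ENNReal.ofReal_mul (by positivity), ← ENNReal.ofReal_mul (by positivity),
    ← ENNReal.ofReal_mul (by positivity), ENNReal.ofReal_le_ofReal_iff (by positivity),
    show 160 * (2 * (c * √m)) / m = 640 * (c * √m / (2 * m)) by field_simp; norm_num,
    mul_pow] at key
  have ha : 0 < (c * √m / (2 * m)) ^ (m * m) := by positivity
  have hb : 0 < (2 / √(m : ℝ)) ^ (m * m) := by positivity
  generalize (c * √m / (2 * m)) ^ (m * m) = a at key ha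
  generalize (2 / √(m : ℝ)) ^ (m * m) = b at key hb
  have h1 : (1 / 5120 : ℝ) ^ (m * m) * 640 ^ (m * m) ≤ (1 / 8) ^ m := by
    rw [← mul_pow, show (1 / 5120 : ℝ) * 640 = 1 / 8 by norm_num]
    exact pow_le_pow_of_le_one (by norm_num) (by norm_num) (Nat.le_mul_self m)
  have h2 : (2 : ℝ) ^ m * (1 / 8) ^ m ≤ 1 / 4 := by
    rw [← mul_pow, show (2 : ℝ) * (1 / 8) = 1 / 4 by norm_num]
    exact pow_le_of_le_one (by norm_num) (by norm_num) (by omega)
  have h3 : (2 : ℝ) ^ m * ((1 / 5120 : ℝ) ^ (m * m) * 640 ^ (m * m)) ≤ 1 / 4 :=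
    (mul_le_mul_of_nonneg_left h1 (by positivity)).trans h2
  have h4 : 0 < a * b * b := by positivity
  have h5 : 2 * (2 ^ m * (b * (1 / 5120 : ℝ) ^ (m * m)) * (640 ^ (m * m) * a)) * b =
      2 * (a * b * b) * (2 ^ m * ((1 / 5120 : ℝ) ^ (m * m) * 640 ^ (m * m))) := by ring
  rw [h5] at key
  have h6 := mul_le_mul_of_nonneg_left h3 (by positivity : 0 ≤ 2 * (a * b * b))
  linarith

end Pool.Agent.MP_fcb590_an.Q2

end

section
/-!
Two spaces at distance of order m.
`exists_space`: the quotient of `PiLp 1 (fun _ : Fin m ⊕ Fin m => ℝ)` by the kernel of the surjection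
q (x, y) = x + sum y j • G j, with the quotient norm (`Submodule.Quotient.normedAddCommGroup`, closed because finite
dimensional; `QuotientAddGroup.norm_lt_iff`, `LinearMap.quotKerEquivOfSurjective`); or a type synonym of
Fin m -> R with the infimum as a norm.
`gluskin`: c0 from `exists_far`, rho = c0 sqrt m, c = c0^2. `le_csInf`; suppose norm T * norm T⁻¹ < rho^2; both norms are
positive; rescale by t with t norm T < rho and norm T⁻¹ / t < rho. The basis vectors and the G j have norm at most 1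
(norm < 1 + delta for all delta). So the matrix T0 of e' ∘ (t T) ∘ e⁻¹ (columns T0 i = image of Pi.single i 1) satisfies the
hypotheses of `vol_Good_ge` for (G, G') except for the determinant, the matrix of the inverse does for (G', G), and the
product of the two determinants is 1, so one has absolute value at least 1.
-/

set_option autoImplicit false

open scoped RealInnerProductSpace

namespace Pool.Agent.MP_fcb590_an.Q2

open Pool.Agent.MP_fcb590_an

/-- the quotient map -/
noncomputable def glusd_q {m : ℕ} (G : Fin m → Fin m → ℝ) :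
    PiLp 1 (fun _ : Fin m ⊕ Fin m => ℝ) →ₗ[ℝ] (Fin m → ℝ) where
  toFun w := fun i => w (Sum.inl i) + ∑ j, w (Sum.inr j) * G j i
  map_add' a b := by
    funext i
    simp only [PiLp.add_apply, add_mul, Finset.sum_add_distrib, Pi.add_apply]
    ring
  map_smul' c a := by
    funext i
    simp only [PiLp.smul_apply, smul_eq_mul, RingHom.id_apply, Pi.smul_apply, mul_add,
      Finset.mul_sum, mul_assoc]

theorem glusd_q_elim {m : ℕ} (G : Fin m → Fin m → ℝ) (z y : Fin m → ℝ) :
    glusd_q G (WithLp.toLp 1 (Sum.elim (fun i => z i - ∑ j, y j * G j i) y)) = z :=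
  funext fun i => sub_add_cancel (z i) _

theorem glusd_norm {m : ℕ} (w : PiLp 1 (fun _ : Fin m ⊕ Fin m => ℝ)) :
    ‖w‖ = ∑ i, |w (Sum.inl i)| + ∑ j, |w (Sum.inr j)| := by
  rw [PiLp.norm_eq_of_L1, Fintype.sum_sum_type]
  rfl

theorem exists_space {m : ℕ} (G : Fin m → Fin m → ℝ) :
    ∃ (X : Type) (_ : NormedAddCommGroup X) (_ : NormedSpace ℝ X) (_ : FiniteDimensional ℝ X)
      (e : X ≃ₗ[ℝ] (Fin m → ℝ)), ∀ (x : X) (ρ : ℝ), ‖x‖ < ρ ↔ e x ∈ Bd G ρ := by
  have hq : Function.Surjective (glusd_q G) := fun z => ⟨_, glusd_q_elim G z 0⟩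
  have hc : IsClosed ((LinearMap.ker (glusd_q G) : Submodule ℝ _) :
      Set (PiLp 1 (fun _ : Fin m ⊕ Fin m => ℝ))) := Submodule.closed_of_finiteDimensional _
  refine ⟨_ ⧸ LinearMap.ker (glusd_q G), inferInstance, inferInstance, inferInstance,
    (glusd_q G).quotKerEquivOfSurjective hq, fun x ρ => ?_⟩
  refine (QuotientAddGroup.norm_lt_iff (S := (LinearMap.ker (glusd_q G)).toAddSubgroup)).trans ?_
  constructor
  · rintro ⟨w, rfl, hw⟩
    refine ⟨fun j => w (Sum.inr j), ?_⟩
    rw [glusd_norm] at hw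
    refine lt_of_eq_of_lt (congrArg (· + _) (Finset.sum_congr rfl fun i _ => ?_)) hw
    exact congrArg abs (add_sub_cancel_right (w (Sum.inl i)) _)
  · rintro ⟨y, hy⟩
    refine ⟨WithLp.toLp 1 (Sum.elim (fun i => (glusd_q G).quotKerEquivOfSurjective hq x i -
      ∑ j, y j * G j i) y), ((glusd_q G).quotKerEquivOfSurjective hq).injective ?_, ?_⟩
    · exact glusd_q_elim G _ y
    · rw [glusd_norm]
      exact hy

theorem glusd_good {m : ℕ} (hm : 1 ≤ m) {G G' : Fin m → Fin m → ℝ} (hG : G ∈ Cube m)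
    {X Y : Type} [NormedAddCommGroup X] [NormedSpace ℝ X] [NormedAddCommGroup Y] [NormedSpace ℝ Y]
    (e : X ≃ₗ[ℝ] (Fin m → ℝ)) (e' : Y ≃ₗ[ℝ] (Fin m → ℝ))
    (he : ∀ (x : X) (ρ : ℝ), ‖x‖ < ρ ↔ e x ∈ Bd G ρ)
    (he' : ∀ (y : Y) (ρ : ℝ), ‖y‖ < ρ ↔ e' y ∈ Bd G' ρ) {ρ : ℝ} (S : X →L[ℝ] Y) (hS : ‖S‖ < ρ)
    (hd : 1 ≤ |LinearMap.det (e'.toLinearMap ∘ₗ S.toLinearMap ∘ₗ e.symm.toLinearMap)|) :
    ENNReal.ofReal ((ρ / (2 * m)) ^ (m * m)) ≤ MeasureTheory.volume (Good G G' (2 * ρ)) := by
  set L := e'.toLinearMap ∘ₗ S.toLinearMap ∘ₗ e.symm.toLinearMap with hL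
  have key : ∀ z : Fin m → ℝ, (∀ r : ℝ, 1 < r → z ∈ Bd G r) → L z ∈ Bd G' ρ := by
    intro z hz
    have h1 : ‖e.symm z‖ ≤ 1 := le_of_forall_gt_imp_ge_of_dense fun r hr =>
      ((he _ r).2 (by rw [e.apply_symm_apply]; exact hz r hr)).le
    exact (he' (S (e.symm z)) ρ).1 (((S.le_opNorm _).trans
      (mul_le_of_le_one_right (norm_nonneg _) h1)).trans_lt hS)
  have hs : ∀ i : Fin m, ∑ k, |(Pi.single i 1 : Fin m → ℝ) k| = 1 := fun i => by
    rw [Finset.sum_eq_single i (fun k _ hk => by rw [Pi.single_eq_of_ne hk, abs_zero])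
      (fun h => absurd (Finset.mem_univ i) h), Pi.single_eq_same, abs_one]
  refine vol_Good_ge hm (T₀ := fun i => L (Pi.single i 1)) hG ((norm_nonneg _).trans_lt hS)
    (fun i => key _ fun r hr => ⟨0, ?_⟩) (fun j => ?_) ?_
  · simpa only [Pi.zero_apply, zero_mul, Finset.sum_const_zero, sub_zero, abs_zero, add_zero,
      hs] using hr
  · have h1 : ∑ i, G j i • L (Pi.single i 1) = L (G j) := by
      simp only [← map_smul, ← map_sum]
      exact congrArg L (pi_eq_sum_univ' (G j)).symm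
    rw [h1]
    refine key _ fun r hr => ⟨Pi.single j 1, ?_⟩
    have h2 : ∀ i, ∑ k, (Pi.single j 1 : Fin m → ℝ) k * G k i = G j i := fun i => by
      rw [Finset.sum_eq_single j (fun k _ hk => by rw [Pi.single_eq_of_ne hk, zero_mul])
        (fun h => absurd (Finset.mem_univ j) h), Pi.single_eq_same, one_mul]
    simpa only [h2, sub_self, abs_zero, Finset.sum_const_zero, zero_add, hs] using hr
  · rw [← LinearMap.det_toMatrix', ← Matrix.det_transpose] at hd
    refine hd.trans_eq (congrArg (fun M => |Matrix.det M|) ?_)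
    ext i k
    rw [Matrix.transpose_apply, LinearMap.toMatrix'_apply, Matrix.of_apply]

theorem gluskin : ∃ c : ℝ, 0 < c ∧ ∀ m : ℕ, 1 ≤ m →
    ∃ (X : Type) (_ : NormedAddCommGroup X) (_ : NormedSpace ℝ X) (_ : FiniteDimensional ℝ X)
      (Y : Type) (_ : NormedAddCommGroup Y) (_ : NormedSpace ℝ Y) (_ : FiniteDimensional ℝ Y),
      Module.finrank ℝ X = m ∧ Module.finrank ℝ Y = m ∧ c * m ≤ bmDist X Y := by
  obtain ⟨c, hc, h⟩ := exists_far
  refine ⟨c ^ 2, by positivity, fun m hm => ?_⟩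
  obtain ⟨G, hG, G', hG', h1, h2⟩ := h m hm
  obtain ⟨X, i1, i2, i3, e, he⟩ := exists_space G
  obtain ⟨Y, j1, j2, j3, e', he'⟩ := exists_space G'
  refine ⟨X, i1, i2, i3, Y, j1, j2, j3, by rw [e.finrank_eq, Module.finrank_fin_fun],
    by rw [e'.finrank_eq, Module.finrank_fin_fun], le_csInf
      ⟨_, (e.trans e'.symm).toContinuousLinearEquiv, rfl⟩ ?_⟩
  rintro _ ⟨T, rfl⟩
  by_contra hlt
  have m0 : (0 : ℝ) < m := Nat.cast_pos.2 hm
  have r0 : 0 < c * √m := by positivity
  have r2 : c ^ 2 * m = c * √m * (c * √m) := by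
    rw [mul_mul_mul_comm, Real.mul_self_sqrt m0.le, sq]
  generalize c * √m = ρ at h1 h2 r0 r2
  rw [r2, not_le] at hlt
  have h3 : ‖(T.symm : Y →L[ℝ] X)‖ / ρ * ‖(T : X →L[ℝ] Y)‖ < ρ := by
    rwa [div_mul_eq_mul_div, div_lt_iff₀ r0, mul_comm]
  obtain ⟨t, t1, t2⟩ := ((((continuous_mul_const ‖(T : X →L[ℝ] Y)‖).continuousAt.eventually_lt
    continuousAt_const h3).filter_mono nhdsWithin_le_nhds).and
      (self_mem_nhdsWithin (s := Set.Ioi (‖(T.symm : Y →L[ℝ] X)‖ / ρ)))).exists
  have t3 : ‖(T.symm : Y →L[ℝ] X)‖ / ρ < t := t2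
  have t0 : 0 < t := lt_of_le_of_lt (by positivity) t3
  have n1 : ‖t • (T : X →L[ℝ] Y)‖ < ρ := by
    rwa [norm_smul, Real.norm_of_nonneg t0.le]
  have n2 : ‖t⁻¹ • (T.symm : Y →L[ℝ] X)‖ < ρ := by
    rwa [norm_smul, Real.norm_of_nonneg (inv_pos.2 t0).le, inv_mul_lt_iff₀ t0, ← div_lt_iff₀ r0]
  have d1 := mt (glusd_good hm hG e e' he he' _ n1) h1.not_ge
  have d2 := mt (glusd_good hm hG' e' e he' he _ n2) h2.not_ge
  have d3 := mul_lt_one_of_nonneg_of_lt_one_left (abs_nonneg _) (not_le.1 d1) (not_le.1 d2).le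
  rw [← abs_mul, ← LinearMap.det_comp] at d3
  have d4 : (e'.toLinearMap ∘ₗ (t • (T : X →L[ℝ] Y)).toLinearMap ∘ₗ e.symm.toLinearMap) ∘ₗ
      (e.toLinearMap ∘ₗ (t⁻¹ • (T.symm : Y →L[ℝ] X)).toLinearMap ∘ₗ e'.symm.toLinearMap) =
        LinearMap.id := by
    refine LinearMap.ext fun z => ?_
    show e' (t • T (e.symm (e (t⁻¹ • T.symm (e'.symm z))))) = z
    rw [e.symm_apply_apply, map_smul T, T.apply_symm_apply, smul_inv_smul₀ t0.ne',
      e'.apply_symm_apply]
  rw [d4, LinearMap.det_id, abs_one] at d3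
  exact lt_irrefl _ d3

end Pool.Agent.MP_fcb590_an.Q2

end
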