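import Pool.Agent.MP_fcb590_an.Mg.Q2_Design
import Pool.Agent.MP_fcb590_an.Mg.Q2_Channel
import Pool.Agent.MP_fcb590_an.McGregor

-- part MP_fcb590_an.Q2.Invert
section

section
/-!
Restricted invertibility, matrix form.
`ri_core`: choose c in (0,1) with a := sqrt c * (2 + 1/delta) < min 1 (beta^(1/delta)), mu = 1 / sqrt c.
Among the sets S with M_S - c positive definite (the empty set qualifies) maximise det (M_S - c) * mu^card S.
Let N = M_S - c, m_i = (M j i) for j in S. Adding i outside S does not help: s_i := M i i - c - m_i N⁻¹ m_i <= sqrt c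
(if s_i > 0 the bigger block is positive definite with determinant det N * s_i, Schur complement;
`Matrix.det_fromBlocks₁₁`, `Matrix.PosDef.fromBlocks₁₁` or a direct completion of the square).
Removing j in S does not help: (N⁻¹) j j = det N_(S - j) / det N <= mu (adjugate, or the Schur formula again), so
tr N⁻¹ <= k / sqrt c. Let sigma_i = M i i - m_i (M_S)⁻¹ m_i, W = N⁻¹ - (M_S)⁻¹ = (M_S)⁻¹ (c + c^2 N⁻¹) (M_S)⁻¹ PSD,
W M_S = c N⁻¹. Then the sum over i outside S of m_i W m_i is at most the sum over all i, which is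
tr (W (M M)_SS) <= tr (W M_S) = c tr N⁻¹. If j := k - card S >= delta k then sum sigma_i <= a j, so
det M = det M_S * det (Schur complement) <= 1 * a^j <= a^(delta k) < beta^k when k >= 1 (`det_le_exp`, diagonal
entries of M are at most 1, `det_le_pow_mul_exp`), a contradiction.
-/

set_option autoImplicit false

open scoped RealInnerProductSpace

namespace Pool.Agent.MP_fcb590_an.Q2

open Matrix

section Aux

variable {n : Type*} [Fintype n] [DecidableEq n]

omit [DecidableEq n] in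
lemma ricore_symm {N : Matrix n n ℝ} (hN : Nᵀ = N) (a b : n → ℝ) :
    a ⬝ᵥ N *ᵥ b = b ⬝ᵥ N *ᵥ a := by
  rw [dotProduct_mulVec, ← mulVec_transpose, hN, dotProduct_comm]

omit [DecidableEq n] [Fintype n] in
lemma ricore_tr {N : Matrix n n ℝ} (hN : N.IsHermitian) : Nᵀ = N := by
  simpa using hN.eq

omit [DecidableEq n] [Fintype n] in
lemma ricore_herm {N : Matrix n n ℝ} (hN : Nᵀ = N) : N.IsHermitian := by
  simpa [IsHermitian] using hN

omit [DecidableEq n] in
lemma ricore_vv (a b y : n → ℝ) : vecMulVec a b *ᵥ y = (b ⬝ᵥ y) • a := by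
  rw [vecMulVec_mulVec]; simp

/-- bordering a matrix -/
def ricore_up (N : Matrix n n ℝ) (e m : n → ℝ) (x : ℝ) : Matrix n n ℝ :=
  N + vecMulVec e m + vecMulVec m e + (x - 1) • vecMulVec e e

omit [DecidableEq n] in
lemma ricore_up_mulVec (N : Matrix n n ℝ) (e m : n → ℝ) (x : ℝ) (y : n → ℝ) :
    ricore_up N e m x *ᵥ y = N *ᵥ y + (m ⬝ᵥ y) • e + (e ⬝ᵥ y) • m + ((x - 1) * (e ⬝ᵥ y)) • e := by
  simp only [ricore_up, add_mulVec, smul_mulVec, ricore_vv, smul_smul]

omit [DecidableEq n] [Fintype n] in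
lemma ricore_up_tr {N : Matrix n n ℝ} (hN : Nᵀ = N) (e m : n → ℝ) (x : ℝ) :
    (ricore_up N e m x)ᵀ = ricore_up N e m x := by
  simp only [ricore_up, transpose_add, transpose_smul, transpose_vecMulVec, hN]
  abel

omit [DecidableEq n] in
lemma ricore_up_form (N : Matrix n n ℝ) (e m : n → ℝ) (x : ℝ) (y : n → ℝ) :
    y ⬝ᵥ ricore_up N e m x *ᵥ y =
      y ⬝ᵥ N *ᵥ y + 2 * (m ⬝ᵥ y) * (e ⬝ᵥ y) + (x - 1) * (e ⬝ᵥ y) ^ 2 := by
  rw [ricore_up_mulVec]
  simp only [dotProduct_add, dotProduct_smul, smul_eq_mul, dotProduct_comm y e, dotProduct_comm y m]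
  ring

omit [DecidableEq n] in
lemma ricore_split {N : Matrix n n ℝ} (hN : Nᵀ = N) (a b : n → ℝ) (t : ℝ) :
    (a + t • b) ⬝ᵥ N *ᵥ (a + t • b) = a ⬝ᵥ N *ᵥ a + 2 * t * (a ⬝ᵥ N *ᵥ b) + t ^ 2 * (b ⬝ᵥ N *ᵥ b) := by
  simp only [mulVec_add, mulVec_smul, add_dotProduct, dotProduct_add, smul_dotProduct,
    dotProduct_smul, smul_eq_mul, ricore_symm hN b a]
  ring

omit [DecidableEq n] in
lemma ricore_down {N : Matrix n n ℝ} (hN : Nᵀ = N) {e m : n → ℝ} {x : ℝ} (he : N *ᵥ e = e)
    (hee : e ⬝ᵥ e = 1) (h : (ricore_up N e m x).PosDef) : N.PosDef := by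
  refine PosDef.of_dotProduct_mulVec_pos (ricore_herm hN) fun y hy => ?_
  simp only [star_trivial]
  set t := e ⬝ᵥ y with ht
  have h1 : e ⬝ᵥ (y - t • e) = 0 := by
    rw [dotProduct_sub, dotProduct_smul, hee, ← ht]; simp
  have h2 := ricore_split hN (y - t • e) e t
  rw [sub_add_cancel, he, hee, dotProduct_comm _ e, h1] at h2
  have h3 := ricore_up_form N e m x (y - t • e)
  rw [h1] at h3
  by_cases h0 : y - t • e = 0
  · have : t ≠ 0 := by
      intro h4
      apply hy
      simpa [h4] using h0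
    rw [h2, h0]
    simp only [zero_dotProduct]
    have h5 : 0 < t ^ 2 := by positivity
    nlinarith
  · have h4 := h.dotProduct_mulVec_pos h0
    simp only [star_trivial] at h4
    rw [h2]
    nlinarith [sq_nonneg t]

lemma ricore_step {N : Matrix n n ℝ} (hN : N.PosDef) {e m : n → ℝ} (x : ℝ) (he : N *ᵥ e = e)
    (hee : e ⬝ᵥ e = 1) (hm : e ⬝ᵥ m = 0) :
    (ricore_up N e m x).det = N.det * (x - m ⬝ᵥ N⁻¹ *ᵥ m) ∧
    ricore_up N e m x *ᵥ (e - N⁻¹ *ᵥ m) = (x - m ⬝ᵥ N⁻¹ *ᵥ m) • e ∧ e ⬝ᵥ N⁻¹ *ᵥ m = 0 ∧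
    (0 < x - m ⬝ᵥ N⁻¹ *ᵥ m → (ricore_up N e m x).PosDef) := by
  have hT := ricore_tr hN.1
  have hU : IsUnit N.det := (isUnit_iff_isUnit_det N).1 hN.isUnit
  set u := N⁻¹ *ᵥ m with hu
  have h1 : N *ᵥ u = m := by rw [hu, mulVec_mulVec, mul_nonsing_inv _ hU, one_mulVec]
  have h2 : e ⬝ᵥ u = 0 := by
    have := ricore_symm hT e u
    rw [h1, he, hm, dotProduct_comm] at this
    exact this.symm
  have h3 : N⁻¹ *ᵥ e = e := by
    conv_lhs => rw [← he]
    rw [mulVec_mulVec, nonsing_inv_mul _ hU, one_mulVec]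
  have h4 : u ᵥ* N = m := by rw [← mulVec_transpose, hT, h1]
  set s := x - m ⬝ᵥ u with hs
  refine ⟨?_, ?_, h2, fun hpos => ?_⟩
  · have e1 : ricore_up N e m x =
        (1 + vecMulVec e u) * (N + (s - 1) • vecMulVec e e) * (1 + vecMulVec u e) := by
      have a1 : (1 + vecMulVec e u) * (N + (s - 1) • vecMulVec e e) =
          N + (s - 1) • vecMulVec e e + vecMulVec e m := by
        rw [add_mul, one_mul, mul_add, vecMulVec_mul, h4, Matrix.mul_smul, vecMulVec_mul_vecMulVec,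
          dotProduct_comm u e, h2]
        simp
      rw [a1, mul_add, mul_one, add_mul, add_mul, mul_vecMulVec, h1, Matrix.smul_mul,
        vecMulVec_mul_vecMulVec, h2, vecMulVec_mul_vecMulVec, vecMulVec_smul, vecMulVec_smul, ricore_up, hs]
      module
    have e2 : (1 + vecMulVec e u).det = 1 := by
      rw [vecMulVec_eq Unit, det_one_add_replicateCol_mul_replicateRow, dotProduct_comm, h2, add_zero]
    have e3 : (1 + vecMulVec u e).det = 1 := by
      rw [vecMulVec_eq Unit, det_one_add_replicateCol_mul_replicateRow, h2, add_zero]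
    rw [e1, det_mul, det_mul, e2, e3, det_add_rank_one hU, h3, hee]
    ring
  · rw [ricore_up_mulVec, mulVec_sub, he, h1, dotProduct_sub, dotProduct_sub, hee, h2,
      dotProduct_comm m e, hm, hs]
    module
  · refine PosDef.of_dotProduct_mulVec_pos (ricore_herm (ricore_up_tr hT e m x)) fun y hy => ?_
    simp only [star_trivial]
    rw [ricore_up_form]
    set t := e ⬝ᵥ y with ht
    have a1 := ricore_split hT y (u - e) t
    have a2 : y ⬝ᵥ N *ᵥ (u - e) = m ⬝ᵥ y - t := by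
      rw [mulVec_sub, h1, he, dotProduct_sub, dotProduct_comm y m, dotProduct_comm y e]
    have a3 : (u - e) ⬝ᵥ N *ᵥ (u - e) = m ⬝ᵥ u + 1 := by
      rw [mulVec_sub, h1, he, sub_dotProduct, dotProduct_sub, dotProduct_sub, hee, hm,
        dotProduct_comm u e, h2, dotProduct_comm u m]
      ring
    rw [a2, a3] at a1
    have a4 : y ⬝ᵥ N *ᵥ y + 2 * (m ⬝ᵥ y) * t + (x - 1) * t ^ 2 =
        (y + t • (u - e)) ⬝ᵥ N *ᵥ (y + t • (u - e)) + s * t ^ 2 := by
      rw [a1, hs]; ring
    rw [a4]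
    by_cases h0 : t = 0
    · have := hN.dotProduct_mulVec_pos hy
      simpa [h0] using this
    · have b1 := hN.posSemidef.dotProduct_mulVec_nonneg (y + t • (u - e))
      simp only [star_trivial] at b1
      have b2 : 0 < s * t ^ 2 := by positivity
      linarith

/-- the principal block, completed by the identity -/
def ricore_blk (S : Finset n) (X : Matrix n n ℝ) : Matrix n n ℝ :=
  Matrix.of fun i j => if i ∈ S ∧ j ∈ S then X i j else if i = j then 1 else 0

/-- a column restricted to `S` -/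
def ricore_col (S : Finset n) (X : Matrix n n ℝ) (i : n) : n → ℝ := fun j => if j ∈ S then X j i else 0

/-- the coordinate projection -/
def ricore_P (S : Finset n) : Matrix n n ℝ := diagonal fun i => if i ∈ S then 1 else 0

omit [Fintype n] in
lemma ricore_blk_tr (S : Finset n) {X : Matrix n n ℝ} (hX : Xᵀ = X) :
    (ricore_blk S X)ᵀ = ricore_blk S X := by
  ext i j
  have : X j i = X i j := by simpa using congrFun (congrFun hX i) j
  simp only [ricore_blk, transpose_apply, of_apply, this, and_comm, eq_comm]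

omit [Fintype n] in
lemma ricore_blk_insert {S : Finset n} {X : Matrix n n ℝ} (hX : Xᵀ = X) {i : n} (hi : i ∉ S) :
    ricore_blk (insert i S) X =
      ricore_up (ricore_blk S X) (Pi.single i 1) (ricore_col S X i) (X i i) := by
  ext a b
  have h1 : X i b = X b i := by simpa using congrFun (congrFun hX b) i
  simp only [ricore_blk, ricore_up, ricore_col, of_apply, Matrix.add_apply, Matrix.smul_apply, vecMulVec_apply,
    Finset.mem_insert, Pi.single_apply, smul_eq_mul]
  by_cases ha : a = i <;> by_cases hb : b = i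
  · subst ha; subst hb; simp [hi]
  · subst ha
    have : ¬a = b := fun h => hb h.symm
    by_cases hb' : b ∈ S <;> simp [hi, hb, hb', h1, this]
  · subst hb
    by_cases ha' : a ∈ S <;> simp [hi, ha, ha']
  · simp [ha, hb]

lemma ricore_blk_single {S : Finset n} (X : Matrix n n ℝ) {i : n} (hi : i ∉ S) :
    ricore_blk S X *ᵥ Pi.single i 1 = Pi.single i 1 := by
  ext a
  simp [ricore_blk, hi, Pi.single_apply]

lemma ricore_blk_eq (S : Finset n) (X : Matrix n n ℝ) :
    ricore_blk S X = ricore_P S * X * ricore_P S + (1 - ricore_P S) := by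
  ext a b
  simp only [ricore_blk, ricore_P, of_apply, Matrix.add_apply, Matrix.sub_apply, diagonal_mul, mul_diagonal,
    Matrix.one_apply, diagonal_apply]
  by_cases ha : a ∈ S <;> by_cases hb : b ∈ S <;> by_cases h : a = b <;> simp_all

lemma ricore_PP (S : Finset n) : ricore_P S * ricore_P S = ricore_P S := by
  simp only [ricore_P, diagonal_mul_diagonal]
  congr 1
  ext i
  split_ifs <;> simp

omit [Fintype n] in
lemma ricore_P_tr (S : Finset n) : (ricore_P S)ᵀ = ricore_P S := by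
  simp [ricore_P]

omit [Fintype n] in
lemma ricore_P_psd (S : Finset n) : (ricore_P S).PosSemidef :=
  PosSemidef.diagonal fun i => by
    simp only [Pi.zero_apply]
    split_ifs <;> norm_num

lemma ricore_P_mulVec (S : Finset n) (v : n → ℝ) (i : n) :
    (ricore_P S *ᵥ v) i = if i ∈ S then v i else 0 := by
  simp [ricore_P, mulVec_diagonal]

lemma ricore_col_eq (S : Finset n) (X : Matrix n n ℝ) (i : n) :
    ricore_col S X i = (ricore_P S * X) *ᵥ Pi.single i 1 := by
  ext j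
  simp [ricore_col, ricore_P]

/-- the two optimality conditions -/
lemma ricore_opt {X : Matrix n n ℝ} (hX : Xᵀ = X) {r : ℝ} (hr : 0 < r) :
    ∃ S : Finset n, (ricore_blk S X).PosDef ∧
      (∀ i, i ∉ S → X i i - ricore_col S X i ⬝ᵥ (ricore_blk S X)⁻¹ *ᵥ ricore_col S X i ≤ r) ∧
      ∀ j ∈ S, (ricore_blk S X)⁻¹ j j ≤ r⁻¹ := by
  classical
  have h0 : (ricore_blk ∅ X).PosDef := by
    have : ricore_blk ∅ X = 1 := by ext i j; simp [ricore_blk, Matrix.one_apply]
    rw [this]; exact PosDef.one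
  obtain ⟨S, hS, hmax⟩ := Finset.exists_max_image
    (Finset.univ.filter fun S : Finset n => (ricore_blk S X).PosDef)
    (fun S => (ricore_blk S X).det * r⁻¹ ^ S.card) ⟨∅, by simpa using h0⟩
  simp only [Finset.mem_filter, Finset.mem_univ, true_and] at hS hmax
  have hee : ∀ i : n, (Pi.single i 1 : n → ℝ) ⬝ᵥ Pi.single i 1 = 1 := fun i => by simp
  have hem : ∀ (T : Finset n) (i : n), i ∉ T → (Pi.single i 1 : n → ℝ) ⬝ᵥ ricore_col T X i = 0 :=
    fun T i hi => by simp [ricore_col, hi]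
  have hri : 0 < r⁻¹ := inv_pos.2 hr
  refine ⟨S, hS, fun i hi => ?_, fun j hj => ?_⟩
  · obtain ⟨h1, -, -, h4⟩ := ricore_step hS (X i i) (ricore_blk_single X hi) (hee i) (hem S i hi)
    rw [← ricore_blk_insert hX hi] at h1 h4
    set s := X i i - ricore_col S X i ⬝ᵥ (ricore_blk S X)⁻¹ *ᵥ ricore_col S X i
    by_contra hc
    push Not at hc
    have h5 := hmax _ (h4 (hr.trans hc))
    rw [h1, Finset.card_insert_of_notMem hi, pow_succ] at h5
    have h6 : 0 < (ricore_blk S X).det * r⁻¹ ^ S.card := mul_pos hS.det_pos (pow_pos hri _)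
    have h7 : 1 < s * r⁻¹ := by rw [← div_eq_mul_inv, lt_div_iff₀ hr]; linarith
    nlinarith
  · have hi : j ∉ S.erase j := Finset.notMem_erase j S
    have e1 := ricore_blk_insert hX hi
    rw [Finset.insert_erase hj] at e1
    have hS' : (ricore_blk (S.erase j) X).PosDef :=
      ricore_down (ricore_blk_tr _ hX) (ricore_blk_single X hi) (hee j) (e1 ▸ hS)
    obtain ⟨h1, h2, h3, -⟩ := ricore_step hS' (X j j) (ricore_blk_single X hi) (hee j) (hem _ j hi)
    rw [← e1] at h1 h2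
    set s := X j j - ricore_col (S.erase j) X j ⬝ᵥ (ricore_blk (S.erase j) X)⁻¹ *ᵥ
      ricore_col (S.erase j) X j
    have h5 := hmax _ hS'
    have e2 : S.card = (S.erase j).card + 1 := (Finset.card_erase_add_one hj).symm
    rw [h1, e2, pow_succ] at h5
    have h6 : 0 < (ricore_blk (S.erase j) X).det * r⁻¹ ^ (S.erase j).card :=
      mul_pos hS'.det_pos (pow_pos hri _)
    have h7 : 1 ≤ s * r⁻¹ := by
      by_contra hc
      push Not at hc
      nlinarith
    have hU : IsUnit (ricore_blk S X).det := (isUnit_iff_isUnit_det _).1 hS.isUnit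
    have h8 := congrArg (fun v => (Pi.single j 1 : n → ℝ) ⬝ᵥ (ricore_blk S X)⁻¹ *ᵥ v) h2
    simp only [mulVec_mulVec, nonsing_inv_mul _ hU, one_mulVec, dotProduct_sub, hee, h3,
      mulVec_smul, dotProduct_smul, smul_eq_mul] at h8
    have h9 : (Pi.single j 1 : n → ℝ) ⬝ᵥ (ricore_blk S X)⁻¹ *ᵥ Pi.single j 1 =
        (ricore_blk S X)⁻¹ j j := by simp
    rw [h9] at h8
    have h10 : 0 < (ricore_blk S X)⁻¹ j j := hS.inv.diag_pos
    nlinarith

/-- the trace estimate -/
lemma ricore_trace {M : Matrix n n ℝ} (hM : M.PosSemidef) (hM2 : (M - M * M).PosSemidef)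
    {S : Finset n} {c : ℝ} (hc : 0 ≤ c) (hN : (ricore_blk S (M - c • 1)).PosDef) :
    (ricore_blk S M).PosDef ∧
    ∑ i ∈ Sᶜ, (ricore_col S M i ⬝ᵥ (ricore_blk S (M - c • 1))⁻¹ *ᵥ ricore_col S M i -
      ricore_col S M i ⬝ᵥ (ricore_blk S M)⁻¹ *ᵥ ricore_col S M i) ≤
      c * ∑ j ∈ S, (ricore_blk S (M - c • 1))⁻¹ j j := by
  set N := ricore_blk S (M - c • 1) with hNd
  set A := ricore_blk S M with hAd
  set P := ricore_P S with hP
  have hPP : P * P = P := ricore_PP S
  have hPt : Pᵀ = P := ricore_P_tr S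
  have hMt := ricore_tr hM.1
  have e1 : A = N + c • P := by
    rw [hAd, hNd, ricore_blk_eq, ricore_blk_eq, ← hP, mul_sub, sub_mul, Matrix.mul_smul, mul_one,
      Matrix.smul_mul, hPP]
    abel
  have hA : A.PosDef := by
    rw [e1]
    exact hN.add_posSemidef ((ricore_P_psd S).smul hc)
  refine ⟨hA, ?_⟩
  have hUN : IsUnit N.det := (isUnit_iff_isUnit_det _).1 hN.isUnit
  have hUA : IsUnit A.det := (isUnit_iff_isUnit_det _).1 hA.isUnit
  have hAt : (A⁻¹)ᵀ = A⁻¹ := ricore_tr hA.inv.1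
  set W := N⁻¹ - A⁻¹ with hW
  have e2 : A * N⁻¹ * A - A = c • P + (c * c) • (P * N⁻¹ * P) := by
    have a1 : A * N⁻¹ = 1 + c • (P * N⁻¹) := by
      rw [e1, add_mul, mul_nonsing_inv _ hUN, Matrix.smul_mul]
    have a2 : N⁻¹ * A = 1 + c • (N⁻¹ * P) := by
      rw [e1, mul_add, nonsing_inv_mul _ hUN, Matrix.mul_smul]
    rw [a1, add_mul, one_mul, Matrix.smul_mul, mul_assoc, a2, mul_add, mul_one, Matrix.mul_smul,
      ← mul_assoc, smul_add, smul_smul]
    abel
  have e3 : W = A⁻¹ * (c • P + (c * c) • (P * N⁻¹ * P)) * A⁻¹ := by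
    rw [← e2, mul_sub, sub_mul, nonsing_inv_mul _ hUA, one_mul, ← mul_assoc, ← mul_assoc,
      nonsing_inv_mul _ hUA, one_mul, mul_assoc, mul_nonsing_inv _ hUA, mul_one]
  have hWp : W.PosSemidef := by
    have b1 : (P * N⁻¹ * P).PosSemidef := by
      have := hN.inv.posSemidef.mul_mul_conjTranspose_same P
      rwa [conjTranspose_eq_transpose_of_trivial, hPt] at this
    have b2 := (((ricore_P_psd S).smul hc).add (b1.smul (mul_nonneg hc hc))).mul_mul_conjTranspose_same A⁻¹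
    rwa [conjTranspose_eq_transpose_of_trivial, hAt, ← hP, ← e3] at b2
  have hZ : (P * W * P).PosSemidef := by
    have := hWp.mul_mul_conjTranspose_same P
    rwa [conjTranspose_eq_transpose_of_trivial, hPt] at this
  have e4 : ∀ i, ricore_col S M i ⬝ᵥ N⁻¹ *ᵥ ricore_col S M i -
      ricore_col S M i ⬝ᵥ A⁻¹ *ᵥ ricore_col S M i = (M * (P * W * P) * M) i i := by
    intro i
    rw [← dotProduct_sub, ← sub_mulVec, ← hW, ricore_col_eq, ← hP, mulVec_mulVec,
      dotProduct_comm, dotProduct_mulVec, ← mulVec_transpose, mulVec_mulVec, transpose_mul, hMt, hPt]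
    simp [mul_assoc]
  have hY : (M * (P * W * P) * M).PosSemidef := by
    have := hZ.mul_mul_conjTranspose_same M
    rwa [conjTranspose_eq_transpose_of_trivial, hMt] at this
  have e5 : ∑ i ∈ Sᶜ, (M * (P * W * P) * M) i i ≤ (M * (P * W * P) * M).trace :=
    Finset.sum_le_sum_of_subset_of_nonneg (Finset.subset_univ _) fun i _ _ => hY.diag_nonneg
  have e6 : (M * (P * W * P) * M).trace ≤ (P * W * P * M).trace := by
    have := trace_mul_nonneg' hZ hM2
    rw [mul_sub, trace_sub, ← mul_assoc, trace_mul_comm (P * W * P * M) M, ← mul_assoc] at this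
    linarith
  have e7 : (P * W * P * M).trace = c * ∑ j ∈ S, N⁻¹ j j := by
    have a1 : P * M * P = A * P := by
      rw [hAd, ricore_blk_eq, ← hP, add_mul, sub_mul, one_mul, hPP, sub_self, add_zero,
        mul_assoc (P * M), hPP]
    have a2 : W * A = c • (N⁻¹ * P) := by
      rw [hW, sub_mul, nonsing_inv_mul _ hUA, e1, mul_add, nonsing_inv_mul _ hUN, Matrix.mul_smul]
      abel
    have a3 : (P * W * P * M).trace = (W * (P * M * P)).trace := by
      rw [mul_assoc, mul_assoc, trace_mul_comm, mul_assoc]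
    rw [a3, a1, ← mul_assoc, a2, Matrix.smul_mul, mul_assoc, hPP, trace_smul, smul_eq_mul]
    congr 1
    simp [hP, ricore_P, trace]
  simp only [e4]
  linarith

/-- the determinant estimate -/
lemma ricore_det {M : Matrix n n ℝ} (hM : M.PosSemidef) (hM2 : (M - M * M).PosSemidef)
    {S : Finset n} (hA : (ricore_blk S M).PosDef) {a : ℝ} (ha : 0 < a)
    (h : ∑ i ∈ Sᶜ, (M i i - ricore_col S M i ⬝ᵥ (ricore_blk S M)⁻¹ *ᵥ ricore_col S M i) ≤
      a * (Sᶜ).card) : M.det ≤ a ^ (Sᶜ).card := by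
  set A := ricore_blk S M with hAd
  have hMt := ricore_tr hM.1
  have hUA : IsUnit A.det := (isUnit_iff_isUnit_det _).1 hA.isUnit
  set u : n → n → ℝ := fun i => A⁻¹ *ᵥ ricore_col S M i with hu
  have h1 : ∀ i, A *ᵥ u i = ricore_col S M i := fun i => by
    rw [hu, mulVec_mulVec, mul_nonsing_inv _ hUA, one_mulVec]
  have h2 : ∀ i j, j ∉ S → u i j = 0 := by
    intro i j hj
    have a1 := ricore_symm (ricore_blk_tr S hMt) (Pi.single j 1) (u i)
    rw [← hAd, h1, hAd, ricore_blk_single M hj] at a1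
    simpa [ricore_col, hj] using a1.symm
  have h3 : ∀ i, ricore_P S *ᵥ u i = u i := fun i => by
    ext j
    rw [ricore_P_mulVec]
    split_ifs with hj
    · rfl
    · exact (h2 i j hj).symm
  set L : Matrix n n ℝ := 1 - (1 - ricore_P S) * Matrix.of u * ricore_P S with hL
  have hLd : L.det = 1 := by
    rw [hL, det_one_sub_mul_comm, ← mul_assoc, mul_sub, mul_one, ricore_PP, sub_self, zero_mul,
      sub_zero, det_one]
  have hrow : ∀ i, L i = if i ∈ S then Pi.single i 1 else Pi.single i 1 - u i := by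
    intro i
    ext j
    have e : (1 : Matrix n n ℝ) - ricore_P S = diagonal fun i => if i ∈ S then 0 else 1 := by
      ext a b
      simp only [ricore_P, Matrix.sub_apply, Matrix.one_apply, diagonal_apply]
      by_cases hab : a = b <;> by_cases ha' : a ∈ S <;> simp [hab, ha']
      all_goals (subst hab; simp [ha'])
    rw [hL, e]
    simp only [ricore_P, Matrix.sub_apply, mul_diagonal, diagonal_mul, of_apply, Matrix.one_apply]
    by_cases hi : i ∈ S <;> by_cases hj : j ∈ S <;>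
      simp [hi, hj, Pi.single_apply, eq_comm, h2 i j]
  have hT : (L * M * Lᵀ).PosSemidef := by
    have := hM.mul_mul_conjTranspose_same L
    rwa [conjTranspose_eq_transpose_of_trivial] at this
  have hdiag : ∀ i, (L * M * Lᵀ) i i = L i ⬝ᵥ M *ᵥ L i := fun i => by
    rw [mul_assoc]
    simp only [mul_apply, dotProduct, mulVec, transpose_apply]
  have hle : ∀ i, M i i ≤ 1 := by
    intro i
    have a1 : 0 ≤ (M - M * M) i i := hM2.diag_nonneg
    have a2 : M i i * M i i ≤ (M * M) i i := by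
      rw [mul_apply]
      refine Finset.single_le_sum (f := fun j => M i j * M j i) (fun j _ => ?_) (Finset.mem_univ i)
      have : M j i = M i j := by simpa using congrFun (congrFun hMt i) j
      rw [this]
      exact mul_self_nonneg _
    rw [Matrix.sub_apply] at a1
    nlinarith
  have hout : ∀ i, i ∉ S → (L * M * Lᵀ) i i = M i i - ricore_col S M i ⬝ᵥ u i := by
    intro i hi
    rw [hdiag, hrow, if_neg hi]
    have a1 := ricore_split hMt (Pi.single i 1) (u i) (-1)
    rw [neg_one_smul, ← sub_eq_add_neg] at a1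
    have a2 : (Pi.single i 1 : n → ℝ) ⬝ᵥ M *ᵥ u i = ricore_col S M i ⬝ᵥ u i := by
      rw [ricore_symm hMt, ricore_col_eq, ← mulVec_mulVec, dotProduct_comm _ (u i),
        ricore_symm (ricore_P_tr S), h3, dotProduct_comm]
    have a3 : u i ⬝ᵥ M *ᵥ u i = ricore_col S M i ⬝ᵥ u i := by
      rw [← h1, hAd, ricore_blk_eq, add_mulVec, sub_mulVec, one_mulVec, h3, sub_self, add_zero,
        ← mulVec_mulVec, h3, ← mulVec_mulVec, dotProduct_comm _ (u i), ricore_symm (ricore_P_tr S),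
        h3, dotProduct_comm]
    rw [a1, a2, a3]
    simp
    ring
  have hD : (diagonal fun i => if i ∈ S then (1 : ℝ) else a⁻¹).PosDef :=
    PosDef.diagonal fun i => by split_ifs <;> positivity
  have h4 := det_mul_le_exp hT hD
  have h5 : ((L * M * Lᵀ) * diagonal fun i => if i ∈ S then (1 : ℝ) else a⁻¹).trace ≤
      Fintype.card n := by
    simp only [trace, diag_apply, mul_diagonal]
    rw [← Finset.sum_add_sum_compl S, ← Finset.card_add_card_compl S]
    push_cast
    refine add_le_add ?_ ?_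
    · rw [Finset.card_eq_sum_ones]
      push_cast
      refine Finset.sum_le_sum fun i hi => ?_
      rw [if_pos hi, mul_one, hdiag, hrow, if_pos hi]
      simpa using hle i
    · rw [Finset.sum_congr rfl (g := fun i => (M i i - ricore_col S M i ⬝ᵥ u i) * a⁻¹)
        (fun i hi => by rw [if_neg (Finset.mem_compl.1 hi), hout i (Finset.mem_compl.1 hi)]),
        ← Finset.sum_mul, ← div_eq_mul_inv, div_le_iff₀ ha]
      linarith
  have h6 : (diagonal fun i => if i ∈ S then (1 : ℝ) else a⁻¹).det = a⁻¹ ^ (Sᶜ).card := by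
    rw [det_diagonal, ← Finset.prod_mul_prod_compl S, Finset.prod_congr rfl (fun i hi => if_pos hi),
      Finset.prod_congr rfl (fun i hi => if_neg (Finset.mem_compl.1 hi))]
    simp
  rw [h6, det_mul, det_mul, det_transpose, hLd, one_mul, mul_one] at h4
  have h7 : M.det * a⁻¹ ^ (Sᶜ).card ≤ 1 :=
    h4.trans (Real.exp_le_one_iff.2 (by linarith))
  rw [inv_pow, ← div_eq_mul_inv, div_le_one (pow_pos ha _)] at h7
  exact h7

end Aux

theorem ri_core {β δ : ℝ} (hβ : 0 < β) (hδ : 0 < δ) :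
    ∃ c : ℝ, 0 < c ∧ ∀ (k : ℕ) (M : Matrix (Fin k) (Fin k) ℝ), M.PosSemidef →
      (M - M * M).PosSemidef → β ^ k ≤ M.det →
      ∃ S : Finset (Fin k), (k : ℝ) - δ * k ≤ S.card ∧ ∀ t : Fin k → ℝ, (∀ i, i ∉ S → t i = 0) →
        c * ∑ i, t i ^ 2 ≤ t ⬝ᵥ M *ᵥ t := by
  set a := Real.exp (-(|Real.log β| / δ + 1)) with ha
  have ha0 : 0 < a := Real.exp_pos _
  have ha1 : a ≤ 1 := Real.exp_le_one_iff.2 (by
    have : 0 ≤ |Real.log β| / δ := by positivity
    linarith)
  have hd : 0 < 2 + δ⁻¹ := by positivity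
  set r := a / (2 + δ⁻¹) with hr
  have hr0 : 0 < r := div_pos ha0 hd
  have hra : r * (2 + δ⁻¹) = a := div_mul_cancel₀ _ hd.ne'
  have hδi : 0 < δ⁻¹ := inv_pos.2 hδ
  have hr1 : r ≤ 1 := by nlinarith
  refine ⟨r * r, mul_pos hr0 hr0, fun k M hM hM2 hdet => ?_⟩
  have hMt := ricore_tr hM.1
  have hX : (M - (r * r) • (1 : Matrix (Fin k) (Fin k) ℝ))ᵀ = M - (r * r) • 1 := by
    rw [transpose_sub, transpose_smul, transpose_one, hMt]
  obtain ⟨S, hN, h1, h2⟩ := ricore_opt hX hr0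
  refine ⟨S, ?_, fun t ht => ?_⟩
  · by_contra hc
    push Not at hc
    obtain ⟨hA, h3⟩ := ricore_trace hM hM2 (mul_pos hr0 hr0).le hN
    have e1 : ((S.card : ℝ) + (Sᶜ).card) = k := by
      have := Finset.card_add_card_compl S
      rw [Fintype.card_fin] at this
      exact_mod_cast this
    set j : ℝ := ((Sᶜ).card : ℝ) with hj
    have hk0 : (0 : ℝ) ≤ k := Nat.cast_nonneg _
    have hS0 : (0 : ℝ) ≤ S.card := Nat.cast_nonneg _
    have hj1 : δ * k < j := by linarith
    have hj0 : 0 < j := lt_of_le_of_lt (by positivity) hj1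
    have hj2 : (k : ℝ) ≤ δ⁻¹ * j := by
      rw [← div_eq_inv_mul, le_div_iff₀ hδ]; linarith
    have h4 : ∑ i ∈ Sᶜ, (M i i - ricore_col S M i ⬝ᵥ (ricore_blk S (M - (r * r) • 1))⁻¹ *ᵥ
        ricore_col S M i) ≤ (r + r * r) * j := by
      rw [hj, mul_comm (r + r * r), ← nsmul_eq_mul, ← Finset.sum_const]
      refine Finset.sum_le_sum fun i hi => ?_
      have hi' := Finset.mem_compl.1 hi
      have e2 : ricore_col S (M - (r * r) • 1) i = ricore_col S M i := by
        ext l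
        simp only [ricore_col, Matrix.sub_apply, Matrix.smul_apply, Matrix.one_apply, smul_eq_mul]
        split_ifs with b1 b2
        · exact absurd (b2 ▸ b1) hi'
        · simp
        · rfl
      have := h1 i hi'
      rw [e2] at this
      simp only [Matrix.sub_apply, Matrix.smul_apply, Matrix.one_apply_eq, smul_eq_mul, mul_one] at this
      linarith
    have h5 : ∑ l ∈ S, (ricore_blk S (M - (r * r) • 1))⁻¹ l l ≤ S.card * r⁻¹ := by
      rw [← nsmul_eq_mul, ← Finset.sum_const]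
      exact Finset.sum_le_sum h2
    have h6 : r * r * ∑ l ∈ S, (ricore_blk S (M - (r * r) • 1))⁻¹ l l ≤ r * (δ⁻¹ * j) := by
      refine (mul_le_mul_of_nonneg_left h5 (mul_pos hr0 hr0).le).trans ?_
      have : r * r * (S.card * r⁻¹) = r * S.card := by field_simp
      rw [this]
      exact mul_le_mul_of_nonneg_left (by linarith) hr0.le
    have h7 := ricore_det hM hM2 hA ha0 (by
      rw [Finset.sum_sub_distrib] at h3 h4 ⊢
      have b1 : r * r * j ≤ r * j := by
        have := mul_le_mul_of_nonneg_left hr1 (mul_pos hr0 hj0).le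
        linarith
      rw [← hra, ← hj]
      linarith)
    have h8 : a ^ (Sᶜ).card < β ^ k := by
      rw [ha, ← Real.exp_nat_mul, ← Real.exp_log hβ, ← Real.exp_nat_mul, Real.log_exp, Real.exp_lt_exp,
        ← hj]
      have b1 : -|Real.log β| ≤ Real.log β := neg_abs_le _
      have b2 : (k : ℝ) * |Real.log β| ≤ δ⁻¹ * j * |Real.log β| :=
        mul_le_mul_of_nonneg_right hj2 (abs_nonneg _)
      have b3 := mul_le_mul_of_nonneg_left b1 hk0
      rw [div_eq_mul_inv]
      linarith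
    linarith
  · have h3 := hN.posSemidef.dotProduct_mulVec_nonneg t
    have h4 : ricore_P S *ᵥ t = t := by
      ext i
      rw [ricore_P_mulVec]
      split_ifs with hi
      · rfl
      · exact (ht i hi).symm
    rw [star_trivial, ricore_blk_eq, add_mulVec, sub_mulVec 1, one_mulVec, h4, sub_self, add_zero,
      ← mulVec_mulVec, h4, ← mulVec_mulVec, ricore_symm (ricore_P_tr S), h4, dotProduct_comm,
      sub_mulVec, smul_mulVec, one_mulVec, dotProduct_sub, dotProduct_smul, smul_eq_mul] at h3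
    have h5 : t ⬝ᵥ t = ∑ i, t i ^ 2 := by simp [dotProduct, sq]
    rw [h5] at h3
    linarith

end Pool.Agent.MP_fcb590_an.Q2

end

section
/-!
Restricted invertibility for a sequence of vectors.
`gram_det_ge`: induction on k. For the Gram matrix of k + 1 vectors, det = det G_k * (norm x^2 - g G_k⁻¹ g) and the
last factor is norm (x - sum t_j x_j)^2 with t = G_k⁻¹ g, at least epsilon. (Or subtract from the last vector its
orthogonal projection on the span of the others: a row and column operation that keeps the determinant.)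
`ri`: G Gram matrix, M := 1 - (1 + G)⁻¹ = G (1 + G)⁻¹. M and M - M M = (1+G)⁻¹ G (1+G)⁻¹ are PSD,
G - M = G (1+G)⁻¹ G is PSD, det M = det G / det (1 + G) >= (epsilon exp (-C))^k by `det_le_exp`. Apply `ri_core`.
`seq_finrank`: the first k vectors are linearly independent; induction on k with strict inclusion of spans.
-/

set_option autoImplicit false

open scoped RealInnerProductSpace

namespace Pool.Agent.MP_fcb590_an.Q2

variable {m : ℕ}

theorem gram_det_ge {x : ℕ → E m} {k : ℕ} {ε : ℝ} (hε : 0 < ε) (h : Seq x k ε) :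
    ε ^ k ≤ (Matrix.of fun i j : Fin k => ⟪x i, x j⟫).det := by
  set f : Fin k → E m := fun i => x i with hf
  set g := InnerProductSpace.gramSchmidt ℝ f with hg
  set L : Matrix (Fin k) (Fin k) ℝ := Matrix.of fun i j =>
    if j < i then ⟪g j, f i⟫ / ‖g j‖ ^ 2 else if j = i then 1 else 0 with hL
  have h1 : ∀ i, f i = ∑ j, L i j • g j := by
    intro i
    rw [InnerProductSpace.gramSchmidt_def'' ℝ f i, ← hg]
    have : ∀ j, L i j • g j = (if j = i then g j else 0) +
        (if j ∈ Finset.Iio i then (⟪g j, f i⟫ / ‖g j‖ ^ 2) • g j else 0) := by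
      intro j
      simp only [hL, Matrix.of_apply, Finset.mem_Iio]
      rcases lt_trichotomy j i with h | h | h
      · simp [h, h.ne]
      · simp [h]
      · simp [h.ne', h.not_gt]
    simp only [this, Finset.sum_add_distrib, Finset.sum_ite_eq', Finset.mem_univ, if_true,
      Finset.sum_ite_mem, Finset.univ_inter]
    rfl
  have h2 : (Matrix.of fun i j : Fin k => ⟪x i, x j⟫) =
      L * Matrix.diagonal (fun j => ‖g j‖ ^ 2) * L.transpose := by
    ext i j
    change ⟪f i, f j⟫ = _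
    rw [h1 i, h1 j, sum_inner, Matrix.mul_apply]
    refine Finset.sum_congr rfl fun a _ => ?_
    rw [inner_sum, Finset.sum_eq_single a, Matrix.mul_diagonal, Matrix.transpose_apply,
      real_inner_smul_left, real_inner_smul_right, real_inner_self_eq_norm_sq]
    · ring
    · intro b _ hb
      rw [real_inner_smul_left, real_inner_smul_right, hg,
        InnerProductSpace.gramSchmidt_orthogonal ℝ f hb.symm]
      simp
    · simp
  have h3 : L.det = 1 := by
    rw [Matrix.det_of_isLowerTriangular L fun i j hij => ?_]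
    · simp [hL]
    · have : i < j := hij
      simp [hL, this.ne', this.not_gt]
  rw [h2, Matrix.det_mul, Matrix.det_mul, Matrix.det_transpose, h3, Matrix.det_diagonal, one_mul,
    mul_one]
  calc ε ^ k = ∏ _i : Fin k, ε := by simp
    _ ≤ _ := by
      refine Finset.prod_le_prod (fun _ _ => hε.le) fun i _ => ?_
      have h4 : f i - g i ∈ Submodule.span ℝ (x '' Set.Iio (i : ℕ)) := by
        rw [InnerProductSpace.gramSchmidt_def'' ℝ f i, ← hg, add_sub_cancel_left]
        refine Submodule.sum_mem _ fun j hj => Submodule.smul_mem _ _ ?_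
        refine Submodule.span_mono ?_ (InnerProductSpace.gramSchmidt_mem_span ℝ f (le_refl j))
        rintro _ ⟨a, ha, rfl⟩
        exact ⟨a, lt_of_le_of_lt (show (a : ℕ) ≤ j from ha) (show j < i from Finset.mem_Iio.1 hj), rfl⟩
      have := h i i.2 _ h4
      rwa [show x i - (f i - g i) = g i from sub_sub_cancel _ _] at this

theorem ri_range (x : ℕ → E m) (k : ℕ) : x '' Set.Iio k = Set.range fun i : Fin k => x i := by
  ext y
  exact ⟨fun ⟨i, hi, h⟩ => ⟨⟨i, hi⟩, h⟩, fun ⟨i, h⟩ => ⟨i, i.2, h⟩⟩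

theorem seq_finrank {x : ℕ → E m} {k : ℕ} {ε : ℝ} (hε : 0 < ε) (h : Seq x k ε) :
    Module.finrank ℝ (Submodule.span ℝ (x '' Set.Iio k)) = k := by
  have h1 : LinearIndependent ℝ fun i : Fin k => x i :=
    Matrix.linearIndependent_of_det_gram_ne_zero
      ((pow_pos hε k).trans_le (gram_det_ge hε h)).ne'
  rw [ri_range, finrank_span_eq_card h1, Fintype.card_fin]

theorem finrank_span_Iio_le (x : ℕ → E m) (k : ℕ) :
    Module.finrank ℝ (Submodule.span ℝ (x '' Set.Iio k)) ≤ k := by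
  rw [ri_range]
  exact (finrank_range_le_card _).trans_eq (Fintype.card_fin k)

theorem ri {C ε δ : ℝ} (hε : 0 < ε) (hδ : 0 < δ) :
    ∃ c : ℝ, 0 < c ∧ ∀ (m k : ℕ) (x : ℕ → E m), (∀ i < k, ‖x i‖ ^ 2 ≤ C) → Seq x k ε →
      ∃ S ⊆ Finset.range k, (k : ℝ) - δ * k ≤ S.card ∧ ∀ t : ℕ → ℝ,
        c * ∑ i ∈ S, t i ^ 2 ≤ ‖∑ i ∈ S, t i • x i‖ ^ 2 := by
  obtain ⟨c, hc, h⟩ := ri_core (β := ε * Real.exp (-C)) (by positivity) hδ
  refine ⟨c, hc, fun m k x hx hs => ?_⟩
  set G : Matrix (Fin k) (Fin k) ℝ := Matrix.gram ℝ fun i : Fin k => x i with hG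
  have g0 : G.PosSemidef := Matrix.posSemidef_gram ℝ _
  have g1 : (1 + G).PosDef := Matrix.PosDef.one.add_posSemidef g0
  have g2 : IsUnit (1 + G).det := (Matrix.isUnit_iff_isUnit_det _).1 g1.isUnit
  set P := (1 + G)⁻¹ with hP
  have p0 : P.PosSemidef := g1.inv.posSemidef
  have p1 : G * P = 1 - P := by
    have := Matrix.mul_nonsing_inv _ g2
    rw [← hP, add_mul, one_mul] at this
    exact eq_sub_of_add_eq' this
  have p2 : P * G = 1 - P := by
    have := Matrix.nonsing_inv_mul _ g2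
    rw [← hP, mul_add, mul_one] at this
    exact eq_sub_of_add_eq' this
  have m1 : ((1 - P) - (1 - P) * (1 - P)).PosSemidef := by
    have := g0.mul_mul_conjTranspose_same P
    rw [p0.1, p2] at this
    convert this using 1
    noncomm_ring
  have m0 : (1 - P).PosSemidef := by
    have := m1.add (Matrix.posSemidef_conjTranspose_mul_self (1 - P))
    rwa [(Matrix.isHermitian_one.sub p0.1).eq, sub_add_cancel] at this
  have m2 : (G - (1 - P)).PosSemidef := by
    have := p0.mul_mul_conjTranspose_same G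
    rw [g0.1, p1, sub_mul, one_mul, p2] at this
    exact this
  have m3 : (ε * Real.exp (-C)) ^ k ≤ (1 - P).det := by
    have a1 : ε ^ k ≤ G.det := gram_det_ge hε hs
    have a2 := det_le_exp g1.posSemidef
    have a3 : G.trace ≤ k * C := by
      calc G.trace = ∑ i : Fin k, ‖x i‖ ^ 2 := by
            simp [Matrix.trace, hG]
        _ ≤ ∑ _i : Fin k, C := Finset.sum_le_sum fun i _ => hx i i.2
        _ = _ := by simp
    rw [Matrix.trace_add, Matrix.trace_one, add_sub_cancel_left] at a2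
    rw [← p1, Matrix.det_mul, hP, Matrix.det_nonsing_inv, Ring.inverse_eq_inv', mul_pow,
      ← Real.exp_nat_mul, mul_neg, Real.exp_neg]
    have a4 := g1.det_pos
    have a5 := a2.trans (Real.exp_le_exp.2 a3)
    have a6 := (pow_pos hε k).le.trans a1
    gcongr
  obtain ⟨S, hS, h1⟩ := h k (1 - P) m0 m1 m3
  refine ⟨S.map Fin.valEmbedding, fun i hi => ?_, by rwa [Finset.card_map], fun t => ?_⟩
  · obtain ⟨j, -, rfl⟩ := Finset.mem_map.1 hi
    exact Finset.mem_range.2 j.2
  · have h2 := h1 (fun i => if i ∈ S then t i else 0) fun i hi => if_neg hi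
    have h3 := m2.dotProduct_mulVec_nonneg fun i => if i ∈ S then t i else 0
    have h4 := Matrix.star_dotProduct_gram_mulVec (𝕜 := ℝ) (fun i : Fin k => x i)
      (fun i => if i ∈ S then t i else 0) (fun i => if i ∈ S then t i else 0)
    rw [Matrix.sub_mulVec, dotProduct_sub, h4, real_inner_self_eq_norm_sq, star_trivial] at h3
    simp only [ite_pow, ite_smul, zero_smul, Finset.sum_ite_mem, Finset.univ_inter, ne_eq,
      OfNat.ofNat_ne_zero, not_false_eq_true, zero_pow] at h2 h3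
    simp only [Finset.sum_map, Fin.valEmbedding_apply]
    linarith

end Pool.Agent.MP_fcb590_an.Q2

end

end

-- part MP_fcb590_an.Q2.Rotate
section

section
/-!
An orthogonal map that almost decorrelates two finite sets.
Proof. Index set I = A x B x Bool (sign), x p (U) = sign * inner a (U b). Minimise F U = sum_p exp (lam * x p U) over the
compact set of orthogonal matrices (closed, entries in the interval from -1 to 1). Fix c, s with c^2 + s^2 = 1, c < 1,
(1 - c)(n - 1) <= 1/4 and lam (2 (1 - c) + 2 |s|) <= 1. For i different from j let R i j be the rotation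
(R b) i = c b i + s b j, (R b) j = c b j - s b i. With b' = U b:
inner a (R b') = x + (c - 1) p + s q, p = a i b' i + a j b' j, q = a i b' j - a j b' i, |p| <= 2, |q| <= 2.
Use exp y <= 1 + y + y^2 for |y| <= 1 (`Real.abs_exp_sub_one_sub_id_le`) and sum F (R i j U) - F U >= 0 over ordered
pairs: sum q = 0, sum p = 2 (n-1) x, sum p^2 <= 4 (n - 1), sum q^2 <= 2, s^2 <= 2 (1 - c). This gives
(n - 1) sum_p w p x p <= 5 lam for the Gibbs weights w p = exp (lam x p) / F U. Finally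
lam x p <= log F = lam sum w x + sum w log (1 / w) <= 5 lam^2 / (n-1) + log card I (log t <= t - 1).
Turn the matrix into a linear isometry equivalence (`Matrix.toEuclideanLin`, `LinearMap.isometryOfInner`,
`LinearIsometry.toLinearIsometryEquiv`).
-/

set_option autoImplicit false

open scoped RealInnerProductSpace

namespace Pool.Agent.MP_fcb590_an.Q2

/-- the rotation in the plane of the coordinates `i` and `j` -/
def givens_rot {n : ℕ} (i j : Fin n) (c s : ℝ) (u : Fin n → ℝ) : Fin n → ℝ := fun k =>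
  u k + (if k = i then (c - 1) * u i + s * u j else 0) +
    (if k = j then (c - 1) * u j - s * u i else 0)

theorem givens_dot {n : ℕ} (i j : Fin n) (c s : ℝ) (a u : Fin n → ℝ) :
    ∑ k, a k * givens_rot i j c s u k =
      ∑ k, a k * u k + ((c - 1) * (a i * u i + a j * u j) + s * (a i * u j - a j * u i)) := by
  simp only [givens_rot, mul_add, Finset.sum_add_distrib, mul_ite, mul_zero, Finset.sum_ite_eq',
    Finset.mem_univ, if_true]
  ring

theorem givens_iso {n : ℕ} {i j : Fin n} (hij : i ≠ j) {c s : ℝ} (h : c ^ 2 + s ^ 2 = 1)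
    (u v : Fin n → ℝ) :
    ∑ k, givens_rot i j c s u k * givens_rot i j c s v k = ∑ k, u k * v k := by
  rw [givens_dot]
  have h1 : ∑ k, givens_rot i j c s u k * v k = ∑ k, v k * givens_rot i j c s u k :=
    Finset.sum_congr rfl fun k _ => mul_comm _ _
  have h2 : ∑ k, v k * u k = ∑ k, u k * v k := Finset.sum_congr rfl fun k _ => mul_comm _ _
  rw [h1, givens_dot, h2]
  have hi : givens_rot i j c s u i = c * u i + s * u j := by
    simp only [givens_rot, if_true, if_neg hij]; ring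
  have hj : givens_rot i j c s u j = c * u j - s * u i := by
    simp only [givens_rot, if_true, if_neg hij.symm]; ring
  rw [hi, hj]
  linear_combination (u i * v i + u j * v j) * h

theorem givens_lin {n : ℕ} (i j : Fin n) (c s : ℝ) (U : Fin n → Fin n → ℝ) (b : Fin n → ℝ)
    (k : Fin n) :
    ∑ l, givens_rot i j c s (fun k => U k l) k * b l =
      givens_rot i j c s (fun k => ∑ l, U k l * b l) k := by
  simp only [givens_rot, add_mul, Finset.sum_add_distrib]
  congr 1
  · congr 1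
    split_ifs
    · simp only [Finset.mul_sum, ← Finset.sum_add_distrib]
      exact Finset.sum_congr rfl fun l _ => by ring
    · simp
  · split_ifs
    · simp only [Finset.mul_sum, ← Finset.sum_sub_distrib]
      exact Finset.sum_congr rfl fun l _ => by ring
    · simp

/-- arrays with orthonormal columns -/
def givens_O (n : ℕ) : Set (Fin n → Fin n → ℝ) :=
  {U | ∀ a b, ∑ k, U k a * U k b = if a = b then 1 else 0}

theorem givens_compact (n : ℕ) : IsCompact (givens_O n) := by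
  have hc : IsCompact (Set.pi Set.univ fun _ : Fin n => Set.pi Set.univ fun _ : Fin n =>
      Set.Icc (-1 : ℝ) 1) :=
    isCompact_univ_pi fun _ => isCompact_univ_pi fun _ => isCompact_Icc
  refine hc.of_isClosed_subset ?_ ?_
  · have : givens_O n = ⋂ a, ⋂ b, {U : Fin n → Fin n → ℝ |
        ∑ k, U k a * U k b = if a = b then 1 else 0} := by
      ext U; simp [givens_O]
    rw [this]
    refine isClosed_iInter fun a => isClosed_iInter fun b => isClosed_eq ?_ continuous_const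
    fun_prop
  · intro U hU k _ a _
    have h1 := hU a a
    rw [if_pos rfl] at h1
    have h2 : U k a * U k a ≤ ∑ k, U k a * U k a :=
      Finset.single_le_sum (f := fun k => U k a * U k a) (fun k _ => mul_self_nonneg _)
        (Finset.mem_univ k)
    rw [h1] at h2
    exact abs_le.1 (abs_le_one_iff_mul_self_le_one.2 h2)

theorem givens_one (n : ℕ) : (fun k a : Fin n => if k = a then (1 : ℝ) else 0) ∈ givens_O n := by
  intro a b
  simp only [ite_mul, one_mul, zero_mul, Finset.sum_ite_eq', Finset.mem_univ, if_true]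

theorem givens_inner {n : ℕ} {U : Fin n → Fin n → ℝ} (hU : U ∈ givens_O n) (x y : Fin n → ℝ) :
    ∑ k, (∑ l, U k l * x l) * (∑ l, U k l * y l) = ∑ l, x l * y l := by
  simp only [Finset.sum_mul_sum]
  rw [Finset.sum_comm]
  refine Finset.sum_congr rfl fun a _ => ?_
  rw [Finset.sum_comm]
  have : ∀ b, ∑ k, U k a * x a * (U k b * y b) = x a * y b * if a = b then 1 else 0 := by
    intro b
    rw [← hU a b, Finset.mul_sum]
    exact Finset.sum_congr rfl fun k _ => by ring
  simp only [this, mul_ite, mul_one, mul_zero, Finset.sum_ite_eq, Finset.mem_univ, if_true]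

theorem givens_pair_sum {n : ℕ} (f : Fin n → ℝ) :
    ∑ i, ∑ j ∈ Finset.univ.erase i, (f i + f j) = 2 * ((n : ℝ) - 1) * ∑ i, f i := by
  have : ∀ i : Fin n, ∑ j ∈ Finset.univ.erase i, (f i + f j) =
      ((n : ℝ) - 2) * f i + ∑ j, f j := by
    intro i
    rw [Finset.sum_erase_eq_sub (Finset.mem_univ i), Finset.sum_add_distrib]
    simp only [Finset.sum_const, Finset.card_univ, Fintype.card_fin, nsmul_eq_mul]
    ring
  simp only [this, Finset.sum_add_distrib, ← Finset.mul_sum, Finset.sum_const, Finset.card_univ,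
    Fintype.card_fin, nsmul_eq_mul]
  ring

theorem givens_q_sum {n : ℕ} (a u : Fin n → ℝ) :
    ∑ i, ∑ j ∈ Finset.univ.erase i, (a i * u j - a j * u i) = 0 := by
  have : ∀ i : Fin n, ∑ j ∈ Finset.univ.erase i, (a i * u j - a j * u i) =
      a i * ∑ j, u j - (∑ j, a j) * u i := by
    intro i
    rw [Finset.sum_erase_eq_sub (Finset.mem_univ i), Finset.sum_sub_distrib, Finset.mul_sum,
      Finset.sum_mul]
    ring
  simp only [this, Finset.sum_sub_distrib, ← Finset.mul_sum, ← Finset.sum_mul]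
  ring

theorem givens_q_sq {n : ℕ} (a u : Fin n → ℝ) (ha : ∑ i, a i ^ 2 ≤ 1) (hu : ∑ i, u i ^ 2 ≤ 1) :
    ∑ i, ∑ j ∈ Finset.univ.erase i, (a i * u j - a j * u i) ^ 2 ≤ 2 := by
  have : ∀ i : Fin n, ∑ j ∈ Finset.univ.erase i, (a i * u j - a j * u i) ^ 2 =
      a i ^ 2 * ∑ j, u j ^ 2 + (∑ j, a j ^ 2) * u i ^ 2 - 2 * (a i * u i) * ∑ j, a j * u j := by
    intro i
    rw [Finset.sum_erase_eq_sub (Finset.mem_univ i), Finset.mul_sum, Finset.mul_sum,
      Finset.sum_mul, ← Finset.sum_add_distrib, ← Finset.sum_sub_distrib]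
    rw [show (a i * u i - a i * u i) ^ 2 = 0 by ring, sub_zero]
    exact Finset.sum_congr rfl fun j _ => by ring
  simp only [this, Finset.sum_sub_distrib, Finset.sum_add_distrib, ← Finset.mul_sum,
    ← Finset.sum_mul]
  have h1 : 0 ≤ ∑ i, a i ^ 2 := Finset.sum_nonneg fun i _ => sq_nonneg _
  have h2 : 0 ≤ ∑ i, u i ^ 2 := Finset.sum_nonneg fun i _ => sq_nonneg _
  have h3 : (∑ i, a i ^ 2) * ∑ i, u i ^ 2 ≤ 1 := mul_le_one₀ ha h2 hu
  have h4 := mul_self_nonneg (∑ j, a j * u j)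
  linarith

theorem givens_le_one {n : ℕ} {a : Fin n → ℝ} (ha : ∑ i, a i ^ 2 ≤ 1) (i : Fin n) :
    a i ^ 2 ≤ 1 :=
  (Finset.single_le_sum (f := fun k => a k ^ 2) (fun _ _ => sq_nonneg _)
    (Finset.mem_univ i)).trans ha

theorem givens_p_sq {n : ℕ} (hn : 2 ≤ n) (a u : Fin n → ℝ) (ha : ∑ i, a i ^ 2 ≤ 1)
    (hu : ∑ i, u i ^ 2 ≤ 1) :
    ∑ i, ∑ j ∈ Finset.univ.erase i, (a i * u i + a j * u j) ^ 2 ≤ 4 * ((n : ℝ) - 1) := by
  have h1 : ∑ i, ∑ j ∈ Finset.univ.erase i, (a i * u i + a j * u j) ^ 2 ≤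
      ∑ i, ∑ j ∈ Finset.univ.erase i, (2 * u i ^ 2 + 2 * u j ^ 2) := by
    refine Finset.sum_le_sum fun i _ => Finset.sum_le_sum fun j _ => ?_
    have hi := mul_le_of_le_one_left (sq_nonneg (u i)) (givens_le_one ha i)
    have hj := mul_le_of_le_one_left (sq_nonneg (u j)) (givens_le_one ha j)
    have := sq_nonneg (a i * u i - a j * u j)
    linarith [show (a i * u i + a j * u j) ^ 2 + (a i * u i - a j * u j) ^ 2 =
      2 * (a i ^ 2 * u i ^ 2) + 2 * (a j ^ 2 * u j ^ 2) by ring]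
  rw [givens_pair_sum (fun i => 2 * u i ^ 2), ← Finset.mul_sum] at h1
  have h2 : (0 : ℝ) ≤ (n : ℝ) - 1 := by
    have : (2 : ℝ) ≤ n := by exact_mod_cast hn
    linarith
  have h3 := mul_le_mul_of_nonneg_left hu h2
  linarith

theorem givens_abs {n : ℕ} {a u : Fin n → ℝ} (ha : ∑ i, a i ^ 2 ≤ 1) (hu : ∑ i, u i ^ 2 ≤ 1)
    (i j : Fin n) : |a i * u j| ≤ 1 := by
  rw [abs_mul]
  exact mul_le_one₀ ((sq_le_one_iff_abs_le_one _).1 (givens_le_one ha i)) (abs_nonneg _)
    ((sq_le_one_iff_abs_le_one _).1 (givens_le_one hu j))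

theorem givens_split {n : ℕ} (P Q : Fin n → Fin n → ℝ) (x y z w : ℝ) :
    ∑ i, ∑ j ∈ Finset.univ.erase i, (x * P i j + y * Q i j + z * P i j ^ 2 + w * Q i j ^ 2) =
      x * ∑ i, ∑ j ∈ Finset.univ.erase i, P i j + y * ∑ i, ∑ j ∈ Finset.univ.erase i, Q i j +
      z * ∑ i, ∑ j ∈ Finset.univ.erase i, P i j ^ 2 +
      w * ∑ i, ∑ j ∈ Finset.univ.erase i, Q i j ^ 2 := by
  simp only [Finset.sum_add_distrib, Finset.mul_sum]

/-- the second order expansion, summed over all rotations -/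
theorem givens_exp {n : ℕ} (hn : 2 ≤ n) {a u : Fin n → ℝ} (ha : ∑ i, a i ^ 2 ≤ 1)
    (hu : ∑ i, u i ^ 2 ≤ 1) {lam c s : ℝ} (hlam : 0 < lam) (hcs : c ^ 2 + s ^ 2 = 1)
    (hc : c ≤ 1) (h1 : (1 - c) * ((n : ℝ) - 1) ≤ 1 / 4) (h2 : lam * (2 * (1 - c) + 2 * |s|) ≤ 1) :
    ∑ i, ∑ j ∈ Finset.univ.erase i,
      (Real.exp (lam * ∑ k, a k * givens_rot i j c s u k) - Real.exp (lam * ∑ k, a k * u k)) ≤
      Real.exp (lam * ∑ k, a k * u k) * (2 * lam * (1 - c) *
        (5 * lam - ((n : ℝ) - 1) * ∑ k, a k * u k)) := by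
  set x := ∑ k, a k * u k with hx
  have key : ∀ i j : Fin n,
      Real.exp (lam * ∑ k, a k * givens_rot i j c s u k) - Real.exp (lam * x) ≤
      Real.exp (lam * x) * (lam * (c - 1) * (a i * u i + a j * u j) +
        lam * s * (a i * u j - a j * u i) + 2 * lam ^ 2 * (1 - c) ^ 2 * (a i * u i + a j * u j) ^ 2 +
        2 * lam ^ 2 * s ^ 2 * (a i * u j - a j * u i) ^ 2) := by
    intro i j
    rw [givens_dot, ← hx, mul_add, Real.exp_add]
    set p := a i * u i + a j * u j with hp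
    set q := a i * u j - a j * u i with hq
    have hp2 : |p| ≤ 2 := by
      have := abs_add_le (a i * u i) (a j * u j)
      linarith [givens_abs ha hu i i, givens_abs ha hu j j]
    have hq2 : |q| ≤ 2 := by
      have := abs_sub (a i * u j) (a j * u i)
      linarith [givens_abs ha hu i j, givens_abs ha hu j i]
    have hy : |lam * ((c - 1) * p + s * q)| ≤ 1 := by
      rw [abs_mul, abs_of_pos hlam]
      refine le_trans (mul_le_mul_of_nonneg_left ?_ hlam.le) h2
      refine (abs_add_le _ _).trans ?_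
      rw [abs_mul, abs_mul, abs_of_nonpos (by linarith : c - 1 ≤ 0)]
      have e1 := mul_le_mul_of_nonneg_left hp2 (by linarith : 0 ≤ -(c - 1))
      have e2 := mul_le_mul_of_nonneg_left hq2 (abs_nonneg s)
      linarith
    have hb := (abs_le.1 (Real.abs_exp_sub_one_sub_id_le hy)).2
    have hsq : (lam * ((c - 1) * p + s * q)) ^ 2 ≤
        2 * lam ^ 2 * (1 - c) ^ 2 * p ^ 2 + 2 * lam ^ 2 * s ^ 2 * q ^ 2 := by
      have := sq_nonneg (lam * ((c - 1) * p - s * q))
      linarith [show (lam * ((c - 1) * p + s * q)) ^ 2 + (lam * ((c - 1) * p - s * q)) ^ 2 =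
        2 * lam ^ 2 * (1 - c) ^ 2 * p ^ 2 + 2 * lam ^ 2 * s ^ 2 * q ^ 2 by ring]
    have he := Real.exp_pos (lam * x)
    have : Real.exp (lam * ((c - 1) * p + s * q)) - 1 ≤ lam * (c - 1) * p + lam * s * q +
        2 * lam ^ 2 * (1 - c) ^ 2 * p ^ 2 + 2 * lam ^ 2 * s ^ 2 * q ^ 2 := by
      linarith [show lam * ((c - 1) * p + s * q) = lam * (c - 1) * p + lam * s * q by ring]
    have := mul_le_mul_of_nonneg_left this he.le
    linarith
  refine (Finset.sum_le_sum fun i _ => Finset.sum_le_sum fun j _ => key i j).trans ?_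
  simp only [← Finset.mul_sum]
  refine mul_le_mul_of_nonneg_left ?_ (Real.exp_pos _).le
  rw [givens_split (fun i j => a i * u i + a j * u j) (fun i j => a i * u j - a j * u i),
    givens_pair_sum (fun i => a i * u i), givens_q_sum, ← hx]
  have hp := givens_p_sq hn a u ha hu
  have hq := givens_q_sq a u ha hu
  have hc0 : 0 ≤ 1 - c := by linarith
  have e1 := mul_le_mul_of_nonneg_left hp
    (by positivity : 0 ≤ 2 * lam ^ 2 * (1 - c) ^ 2)
  have e2 := mul_le_mul_of_nonneg_left hq (by positivity : 0 ≤ 2 * lam ^ 2 * s ^ 2)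
  have e3 := mul_le_mul_of_nonneg_left h1 (by positivity : 0 ≤ 8 * lam ^ 2 * (1 - c))
  have hs : s ^ 2 ≤ 2 * (1 - c) := by
    have := sq_nonneg (1 - c)
    linarith [show (1 - c) ^ 2 = 1 - 2 * c + c ^ 2 by ring]
  have e4 := mul_le_mul_of_nonneg_left hs (by positivity : 0 ≤ 4 * lam ^ 2)
  linarith

theorem givens_params {n : ℕ} (hn : 2 ≤ n) {lam : ℝ} (hlam : 0 < lam) :
    ∃ c s : ℝ, c ^ 2 + s ^ 2 = 1 ∧ c < 1 ∧ (1 - c) * ((n : ℝ) - 1) ≤ 1 / 4 ∧
      lam * (2 * (1 - c) + 2 * |s|) ≤ 1 := by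
  have h2 : (2 : ℝ) ≤ n := by exact_mod_cast hn
  obtain ⟨t, ht0, ht1, ht2, ht3⟩ : ∃ t : ℝ, 0 < t ∧ t ≤ 1 ∧ t * n ≤ 1 / 8 ∧ lam * t ≤ 1 / 8 := by
    refine ⟨1 / (8 * (n + lam)), by positivity, ?_, ?_, ?_⟩
    · rw [div_le_one (by positivity)]; linarith
    · rw [div_mul_eq_mul_div, div_le_iff₀ (by positivity)]; linarith
    · rw [mul_one_div, div_le_iff₀ (by positivity)]; linarith
  have hd : 0 < 1 + t ^ 2 := by positivity
  have hd1 : 1 ≤ 1 + t ^ 2 := by linarith [sq_nonneg t]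
  have hc : 1 - (1 - t ^ 2) / (1 + t ^ 2) = 2 * t ^ 2 / (1 + t ^ 2) := by field_simp; ring
  have htt : t ^ 2 ≤ t := by rw [sq]; exact mul_le_of_le_one_left ht0.le ht1
  have hc1 : 2 * t ^ 2 / (1 + t ^ 2) ≤ 2 * t := (div_le_self (by positivity) hd1).trans (by linarith)
  have hc0 : 0 < 2 * t ^ 2 / (1 + t ^ 2) := by positivity
  have hs1 : 2 * t / (1 + t ^ 2) ≤ 2 * t := div_le_self (by positivity) hd1
  refine ⟨(1 - t ^ 2) / (1 + t ^ 2), 2 * t / (1 + t ^ 2), ?_, by linarith, ?_, ?_⟩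
  · field_simp; ring
  · rw [hc]
    have := mul_le_mul_of_nonneg_right hc1 (by linarith : (0 : ℝ) ≤ (n : ℝ) - 1)
    linarith
  · rw [hc, abs_of_pos (by positivity)]
    have e1 := mul_le_mul_of_nonneg_left hc1 hlam.le
    have e2 := mul_le_mul_of_nonneg_left hs1 hlam.le
    linarith

theorem givens_gibbs {ι : Type*} (I : Finset ι) (hI : I.Nonempty) (y : ι → ℝ) {M : ℝ}
    (h : ∑ p ∈ I, Real.exp (y p) * y p ≤ M * ∑ p ∈ I, Real.exp (y p)) :
    ∀ p ∈ I, y p ≤ M + Real.log I.card := by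
  intro p hp
  set F := ∑ p ∈ I, Real.exp (y p) with hF
  have hF0 : 0 < F := Finset.sum_pos (fun _ _ => Real.exp_pos _) hI
  have hN : (0 : ℝ) < I.card := by exact_mod_cast hI.card_pos
  have h1 : y p ≤ Real.log F := by
    rw [Real.le_log_iff_exp_le hF0]
    exact Finset.single_le_sum (f := fun p => Real.exp (y p)) (fun _ _ => (Real.exp_pos _).le) hp
  have h2 : ∀ q ∈ I, Real.exp (y q) * (Real.log F - Real.log I.card - y q) ≤
      F / I.card - Real.exp (y q) := by
    intro q _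
    have he := Real.exp_pos (y q)
    have h3 := Real.log_le_sub_one_of_pos (show 0 < F / I.card / Real.exp (y q) by positivity)
    rw [Real.log_div (by positivity) he.ne', Real.log_div hF0.ne' hN.ne', Real.log_exp] at h3
    have h4 := mul_le_mul_of_nonneg_left h3 he.le
    rw [mul_sub (Real.exp (y q)) (F / I.card / Real.exp (y q)), mul_div_cancel₀ _ he.ne',
      mul_one] at h4
    exact h4
  have h5 := Finset.sum_le_sum h2
  rw [Finset.sum_sub_distrib, Finset.sum_const, nsmul_eq_mul, mul_div_cancel₀ _ hN.ne', ← hF,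
    sub_self] at h5
  simp only [mul_sub, Finset.sum_sub_distrib, ← Finset.sum_mul, ← hF] at h5
  have h6 : F * Real.log F ≤ F * (M + Real.log I.card) := by linarith
  exact h1.trans (le_of_mul_le_mul_left h6 hF0)

theorem givens_core {n : ℕ} (hn : 2 ≤ n) {ι : Type*} (I : Finset ι) (hI : I.Nonempty)
    (a b : ι → Fin n → ℝ) (ha : ∀ p ∈ I, ∑ i, a p i ^ 2 ≤ 1) (hb : ∀ p ∈ I, ∑ i, b p i ^ 2 ≤ 1)
    {lam : ℝ} (hlam : 0 < lam) :
    ∃ U ∈ givens_O n, ∀ p ∈ I, lam * ∑ k, a p k * ∑ l, U k l * b p l ≤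
      5 * lam ^ 2 / (n - 1) + Real.log I.card := by
  have hcont : Continuous fun U : Fin n → Fin n → ℝ =>
      ∑ p ∈ I, Real.exp (lam * ∑ k, a p k * ∑ l, U k l * b p l) := by fun_prop
  obtain ⟨U, hU, hmin⟩ := (givens_compact n).exists_isMinOn ⟨_, givens_one n⟩ hcont.continuousOn
  refine ⟨U, hU, givens_gibbs I hI _ ?_⟩
  obtain ⟨c, s, hcs, hc, h1, h2⟩ := givens_params hn hlam
  have hn1 : (0 : ℝ) < (n : ℝ) - 1 := by
    have : (2 : ℝ) ≤ n := by exact_mod_cast hn
    linarith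
  have hu : ∀ p ∈ I, ∑ k, (∑ l, U k l * b p l) ^ 2 ≤ 1 := by
    intro p hp
    have := givens_inner hU (b p) (b p)
    simp only [← sq] at this
    rw [this]
    exact hb p hp
  have hge : ∀ i : Fin n, ∀ j ∈ Finset.univ.erase i, 0 ≤ ∑ p ∈ I,
      (Real.exp (lam * ∑ k, a p k * givens_rot i j c s (fun k => ∑ l, U k l * b p l) k) -
        Real.exp (lam * ∑ k, a p k * ∑ l, U k l * b p l)) := by
    intro i j hj
    have hij : i ≠ j := (Finset.ne_of_mem_erase hj).symm
    have hmem : (fun k l => givens_rot i j c s (fun k => U k l) k) ∈ givens_O n := by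
      intro x y
      rw [← hU x y]
      exact givens_iso hij hcs _ _
    have := hmin hmem
    simp only [Set.mem_ofPred_eq, givens_lin] at this
    rw [Finset.sum_sub_distrib]
    linarith
  have h0 := Finset.sum_nonneg fun i (_ : i ∈ Finset.univ) => Finset.sum_nonneg (hge i)
  have hsw : ∀ g : Fin n → Fin n → ι → ℝ, ∑ i, ∑ j ∈ Finset.univ.erase i, ∑ p ∈ I, g i j p =
      ∑ p ∈ I, ∑ i, ∑ j ∈ Finset.univ.erase i, g i j p := by
    intro g
    rw [Finset.sum_comm (s := I)]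
    exact Finset.sum_congr rfl fun i _ => Finset.sum_comm
  rw [hsw] at h0
  have h3 := h0.trans (Finset.sum_le_sum fun p hp =>
    givens_exp hn (ha p hp) (hu p hp) hlam hcs hc.le h1 h2)
  have h4 : ∀ p ∈ I, Real.exp (lam * ∑ k, a p k * ∑ l, U k l * b p l) * (2 * lam * (1 - c) *
      (5 * lam - ((n : ℝ) - 1) * ∑ k, a p k * ∑ l, U k l * b p l)) =
      2 * (1 - c) * ((n : ℝ) - 1) * (5 * lam ^ 2 / (n - 1) *
        Real.exp (lam * ∑ k, a p k * ∑ l, U k l * b p l) -
        Real.exp (lam * ∑ k, a p k * ∑ l, U k l * b p l) *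
          (lam * ∑ k, a p k * ∑ l, U k l * b p l)) := by
    intro p _
    field_simp
  rw [Finset.sum_congr rfl h4, ← Finset.mul_sum, Finset.sum_sub_distrib, ← Finset.mul_sum] at h3
  have h5 : 0 < 2 * (1 - c) * ((n : ℝ) - 1) := by
    have : 0 < 1 - c := by linarith
    positivity
  have := (mul_nonneg_iff_of_pos_left h5).1 h3
  linarith

theorem givens {n : ℕ} (hn : 2 ≤ n) (A B : Finset (E n)) (hA : ∀ a ∈ A, ‖a‖ ≤ 1)
    (hB : ∀ b ∈ B, ‖b‖ ≤ 1) {lam : ℝ} (hlam : 0 < lam) :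
    ∃ U : E n ≃ₗᵢ[ℝ] E n, ∀ a ∈ A, ∀ b ∈ B,
      |⟪a, U b⟫| ≤ 5 * lam / (n - 1) + Real.log (2 * A.card * B.card) / lam := by
  classical
  rcases A.eq_empty_or_nonempty with rfl | hAne
  · exact ⟨LinearIsometryEquiv.refl _ _, fun a ha => absurd ha (Finset.notMem_empty a)⟩
  rcases B.eq_empty_or_nonempty with rfl | hBne
  · exact ⟨LinearIsometryEquiv.refl _ _, fun a _ b hb => absurd hb (Finset.notMem_empty b)⟩
  have hsq : ∀ x : E n, ‖x‖ ≤ 1 → ∑ i, x i ^ 2 ≤ 1 := by
    intro x hx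
    have h := EuclideanSpace.real_norm_sq_eq x
    rw [← h]
    exact pow_le_one₀ (norm_nonneg _) hx
  obtain ⟨U, hU, h⟩ := givens_core hn ((A ×ˢ B) ×ˢ (Finset.univ : Finset Bool))
    ((hAne.product hBne).product Finset.univ_nonempty)
    (fun p i => if p.2 then p.1.1 i else -p.1.1 i) (fun p i => p.1.2 i)
    (by
      intro p hp
      have := hsq _ (hA _ (Finset.mem_product.1 (Finset.mem_product.1 hp).1).1)
      split_ifs
      · exact this
      · simpa only [neg_sq] using this)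
    (fun p hp => hsq _ (hB _ (Finset.mem_product.1 (Finset.mem_product.1 hp).1).2)) hlam
  have hin : ∀ x y : E n, ⟪x, y⟫ = ∑ k, x k * y k := by
    intro x y
    rw [PiLp.inner_apply]
    exact Finset.sum_congr rfl fun k _ => by simp [mul_comm]
  have hap : ∀ (x : E n) (k : Fin n), Matrix.toEuclideanLin (Matrix.of U) x k =
      ∑ l, U k l * x l := fun x k => rfl
  let L : E n →ₗᵢ[ℝ] E n := (Matrix.toEuclideanLin (Matrix.of U)).isometryOfInner (by
    intro x y
    rw [hin, hin]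
    simp only [hap]
    exact givens_inner hU _ _)
  refine ⟨L.toLinearIsometryEquiv rfl, fun a ha b hb => ?_⟩
  have hL : ⟪a, L.toLinearIsometryEquiv rfl b⟫ = ∑ k, a k * ∑ l, U k l * b l := by
    rw [hin]
    rfl
  have h1 := h ((a, b), true) (by simp [ha, hb])
  have h2 := h ((a, b), false) (by simp [ha, hb])
  simp only [if_true, Bool.false_eq_true, if_false, neg_mul, Finset.sum_neg_distrib,
    Finset.card_product, Finset.card_univ, Fintype.card_bool] at h1 h2
  rw [← hL] at h1 h2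
  have hcard : (((A.card * B.card * 2 : ℕ) : ℝ)) = 2 * A.card * B.card := by push_cast; ring
  rw [hcard] at h1 h2
  have hr : 5 * lam / (n - 1) + Real.log (2 * A.card * B.card) / lam =
      (5 * lam ^ 2 / (n - 1) + Real.log (2 * A.card * B.card)) / lam := by
    field_simp
  rw [hr, le_div_iff₀ hlam]
  rcases abs_cases ⟪a, L.toLinearIsometryEquiv rfl b⟫ with ⟨e, _⟩ | ⟨e, _⟩ <;> rw [e] <;> linarith

end Pool.Agent.MP_fcb590_an.Q2

end

section
/-!
Gluing two adapted bases.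
`glue_map`: T = b'.equivFun.symm ∘ S ∘ R with R x = (inner (b l) x); R is injective (b spans) hence an equivalence.
If f' = T x then b'.repr f' = S (R x), and inner f x = sum repr f l * inner (b l) x.
`glue`: reindex b' by swapping the first two blocks. S multiplies the first two blocks by a and applies U⁻¹ to the third,
where U comes from `givens` applied to the centres divided by 2 sqrt m. For v, v': block one is at most
a * (sum |inner (b i) v|) * max |inner (b' i) v'| <= a eta, block two likewise, block three at most 1.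
For f, f': blocks one and two together at most D m / a (Cauchy-Schwarz); block three is inner s (U s') with
s = x + e, s' = x' + e', norm x <= 2 sqrt m, norm e <= r sqrt m.
`conf_main`: WLOG eta <= 1. r = eta / 200, eps0 from `side`, eps = min (eps0 / 4) (1/2), zeta = eta / 2000,
c3 = zeta^2 eps, c = c3 / 2, delta = min (eps0 / 8) (c3 / (2 log (1 + 2 / r))), D from `spiky`, D' from `side`,
a = 20 D' / eta, eta1 = 1 / (2 a). With K = m - ceiling (eps m): if kX + kY <= K take k1 = kX, k2 = kY; otherwise k1 = min kX K,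
k2 = K - k1 <= kY, and then n <= eps m + 1 + 2 delta m <= eps0 m. Always n >= eps m. Take lam = zeta (n - 1) in `glue`;
for large m, n - 1 >= eps m / 2 and log 2 <= c3 m, so the bracket is at most 5 zeta + 6 zeta.
alpha = 2, beta = m (eta / 20 + 44 zeta + 8 r + 4 r^2) <= eta m / 2.
-/

set_option autoImplicit false

open scoped RealInnerProductSpace

namespace Pool.Agent.MP_fcb590_an.Q2

variable {m : ℕ}

theorem glue_inner {ι : Type} [Fintype ι] (b : Module.Basis ι ℝ (E m)) (f x : E m) :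
    ⟪f, x⟫ = ∑ l, b.repr f l * ⟪b l, x⟫ := by
  conv_lhs => rw [← b.sum_repr f, sum_inner]
  exact Finset.sum_congr rfl fun l _ => real_inner_smul_left _ _ _

theorem glue_map {ι : Type} [Fintype ι] (b b' : Module.Basis ι ℝ (E m))
    (S : (ι → ℝ) ≃ₗ[ℝ] (ι → ℝ)) :
    ∃ T : E m ≃ₗ[ℝ] E m,
      (∀ v v', ⟪v', T v⟫ = ∑ l, ⟪b' l, v'⟫ * S (fun l => ⟪b l, v⟫) l) ∧
      ∀ f f', ⟪f, T.symm f'⟫ = ∑ l, b.repr f l * S.symm (fun l => b'.repr f' l) l := by
  let R : E m →ₗ[ℝ] (ι → ℝ) := LinearMap.pi fun l => innerₛₗ ℝ (b l)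
  have hR : ∀ x l, R x l = ⟪b l, x⟫ := fun _ _ => rfl
  have hinj : Function.Injective R := by
    refine (injective_iff_map_eq_zero R).2 fun x hx => ?_
    rw [← inner_self_eq_zero (𝕜 := ℝ), glue_inner b]
    exact Finset.sum_eq_zero fun l _ => by rw [← hR, hx, Pi.zero_apply, mul_zero]
  let R' := LinearMap.linearEquivOfInjective R hinj b.equivFun.finrank_eq
  refine ⟨R'.trans (S.trans b'.equivFun.symm), fun v v' => ?_, fun f f' => ?_⟩
  · rw [LinearEquiv.trans_apply, LinearEquiv.trans_apply, Module.Basis.equivFun_symm_apply,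
      inner_sum]
    refine Finset.sum_congr rfl fun l _ => ?_
    rw [real_inner_smul_right, real_inner_comm, mul_comm]
    rfl
  · rw [glue_inner b]
    refine Finset.sum_congr rfl fun l _ => ?_
    rw [← hR]
    exact congrArg (fun y : ι → ℝ => b.repr f l * y l) (R'.apply_symm_apply _)

theorem glue_S {κ : Type} {n : ℕ} (U : E n ≃ₗᵢ[ℝ] E n) {a : ℝ} (ha : a ≠ 0) :
    ∃ S : (κ ⊕ Fin n → ℝ) ≃ₗ[ℝ] (κ ⊕ Fin n → ℝ), (∀ y i, S y (Sum.inl i) = a * y (Sum.inl i)) ∧
      (∀ y l, S y (Sum.inr l) = U.symm (WithLp.toLp 2 fun l => y (Sum.inr l)) l) ∧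
      (∀ y i, S.symm y (Sum.inl i) = a⁻¹ * y (Sum.inl i)) ∧
      ∀ y l, S.symm y (Sum.inr l) = U (WithLp.toLp 2 fun l => y (Sum.inr l)) l :=
  ⟨(LinearEquiv.sumArrowLequivProdArrow κ (Fin n) ℝ ℝ).trans
    (((LinearEquiv.smulOfNeZero ℝ (κ → ℝ) a ha).prodCongr
      ((WithLp.linearEquiv 2 ℝ (Fin n → ℝ)).symm.trans
        (U.symm.toLinearEquiv.trans (WithLp.linearEquiv 2 ℝ (Fin n → ℝ))))).trans
      (LinearEquiv.sumArrowLequivProdArrow κ (Fin n) ℝ ℝ).symm),
    fun _ _ => rfl, fun _ _ => rfl, fun _ _ => rfl, fun _ _ => rfl⟩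

theorem glue_blk {k : ℕ} {x y : Fin k → ℝ} {q a η : ℝ} (hq : 0 < q) (ha : 0 < a)
    (h1 : ∑ i, |x i| ≤ η * q) (h2 : ∀ i, |y i| * q ≤ 1) : |∑ i, y i * (a * x i)| ≤ a * η := by
  refine le_of_mul_le_mul_right ?_ hq
  calc |∑ i, y i * (a * x i)| * q ≤ (∑ i, |y i * (a * x i)|) * q :=
        mul_le_mul_of_nonneg_right (Finset.abs_sum_le_sum_abs _ _) hq.le
    _ ≤ ∑ i, a * |x i| := by
        rw [Finset.sum_mul]
        refine Finset.sum_le_sum fun i _ => ?_
        rw [abs_mul, abs_mul, abs_of_pos ha, mul_right_comm]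
        exact mul_le_of_le_one_left (by positivity) (h2 i)
    _ ≤ a * η * q := by
        rw [← Finset.mul_sum, mul_assoc]
        exact mul_le_mul_of_nonneg_left h1 ha.le

theorem glue_dot {n : ℕ} (U : E n ≃ₗᵢ[ℝ] E n) (x y : Fin n → ℝ) :
    ∑ l, x l * U (WithLp.toLp 2 y) l = ⟪(WithLp.toLp 2 x : E n), U (WithLp.toLp 2 y)⟫ := by
  rw [PiLp.inner_apply]
  exact Finset.sum_congr rfl fun l _ => by simp [mul_comm]

theorem glue_norm {n : ℕ} {x : E n} {t : ℝ} (ht : 0 ≤ t) (h : ∑ l, x l ^ 2 ≤ t ^ 2) : ‖x‖ ≤ t := by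
  rw [← EuclideanSpace.real_norm_sq_eq] at h
  exact (abs_le_of_sq_le_sq' h ht).2

theorem glue_log {β : Type} {A B : Finset β} {a b : β} (ha : a ∈ A) (hb : b ∈ B) {s t : ℝ}
    (h1 : (A.card : ℝ) ≤ Real.exp s) (h2 : (B.card : ℝ) ≤ Real.exp t) :
    Real.log (2 * A.card * B.card) ≤ Real.log 2 + (s + t) := by
  have a1 : (0 : ℝ) < A.card := Nat.cast_pos.2 (Finset.card_pos.2 ⟨a, ha⟩)
  have a2 : (0 : ℝ) < B.card := Nat.cast_pos.2 (Finset.card_pos.2 ⟨b, hb⟩)
  rw [Real.log_mul (by positivity) a2.ne', Real.log_mul two_ne_zero a1.ne']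
  linarith [(Real.log_le_iff_le_exp a1).2 h1, (Real.log_le_iff_le_exp a2).2 h2]

theorem glue_near {n : ℕ} (U : E n ≃ₗᵢ[ℝ] E n) {x x' s s' : E n} {p t : ℝ} (h1 : ‖x‖ ≤ p)
    (h2 : ‖x'‖ ≤ p) (h3 : ‖s - x‖ ≤ t) (h4 : ‖s' - x'‖ ≤ t) :
    |⟪s, U s'⟫| ≤ |⟪x, U x'⟫| + 2 * t * p + t ^ 2 := by
  have e : ⟪s, U s'⟫ = ⟪x, U x'⟫ + (⟪x, U (s' - x')⟫ + ⟪s - x, U x'⟫ + ⟪s - x, U (s' - x')⟫) := by
    simp only [map_sub, inner_sub_left, inner_sub_right]
    ring
  have k : ∀ (y z : E n) (u w : ℝ), ‖y‖ ≤ u → ‖z‖ ≤ w → |⟪y, U z⟫| ≤ u * w := fun y z u w a b =>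
    (abs_real_inner_le_norm _ _).trans (by
      rw [U.norm_map]
      exact mul_le_mul a b (norm_nonneg _) ((norm_nonneg _).trans a))
  rw [e]
  refine (abs_add_le _ _).trans ?_
  linarith [abs_add_three ⟪x, U (s' - x')⟫ ⟪s - x, U x'⟫ ⟪s - x, U (s' - x')⟫, k _ _ _ _ h1 h4,
    k _ _ _ _ h3 h2, k _ _ _ _ h3 h4]

theorem glue (hm : 1 ≤ m) {C C' : Conf m} {k₁ k₂ n : ℕ} {η D c r : ℝ} (hr : 0 ≤ r)
    (h : Side C k₁ k₂ n η D c r) (h' : Side C' k₂ k₁ n η D c r) (hn : 2 ≤ n) {a lam : ℝ}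
    (ha : 0 < a) (hlam : 0 < lam) :
    ∃ T : E m ≃ₗ[ℝ] E m, (∀ v ∈ C.V, ∀ v' ∈ C'.V, |⟪v', T v⟫| ≤ 2 * a * η + 1) ∧
      ∀ f ∈ C.F, ∀ f' ∈ C'.F, |⟪f, T.symm f'⟫| ≤ m * (D / a +
        4 * (5 * lam / (n - 1) + (Real.log 2 + 2 * c * m) / lam) + 4 * r + r ^ 2) := by
  classical
  obtain ⟨b, h1, h2, h3, h4, N, hN, hN', h5⟩ := h
  obtain ⟨b', h1', h2', h3', h4', M, hM, hM', h5'⟩ := h'
  have hm' : (0 : ℝ) < m := by exact_mod_cast hm
  have hq : 0 < √(m : ℝ) := Real.sqrt_pos.2 hm'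
  have hq2 : √(m : ℝ) * √(m : ℝ) = m := Real.mul_self_sqrt hm'.le
  have hN2 : ∀ x : E n, ‖x‖ ^ 2 ≤ 4 * m → ‖x‖ ≤ 2 * √(m : ℝ) := fun x hx =>
    abs_le_of_sq_le_sq' (by nlinarith) (by positivity) |>.2
  have hsc : ∀ P : Finset (E n), (∀ x ∈ P, ‖x‖ ^ 2 ≤ 4 * m) →
      ∀ y ∈ P.image fun x => (2 * √(m : ℝ))⁻¹ • x, ‖y‖ ≤ 1 := by
    intro P hP y hy
    obtain ⟨x, hx, rfl⟩ := Finset.mem_image.1 hy
    rw [norm_smul, Real.norm_of_nonneg (by positivity), inv_mul_le_iff₀ (by positivity), mul_one]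
    exact hN2 x (hP x hx)
  obtain ⟨U, hU⟩ := givens hn _ _ (hsc N hN') (hsc M hM') hlam
  obtain ⟨S, s1, s2, s3, s4⟩ := glue_S (κ := Fin k₁ ⊕ Fin k₂) U ha.ne'
  obtain ⟨T, t1, t2⟩ := glue_map b
    (b'.reindex ((Equiv.sumComm _ _).sumCongr (Equiv.refl _))) S
  refine ⟨T, fun v hv v' hv' => ?_, fun f hf f' hf' => ?_⟩
  · rw [t1, Fintype.sum_sum_type, Fintype.sum_sum_type]
    simp only [s1, s2, Module.Basis.reindex_apply, Equiv.sumCongr_symm, Equiv.sumComm_symm,
      Equiv.refl_symm, Equiv.sumCongr_apply, Sum.map_inl, Sum.map_inr, Equiv.sumComm_apply,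
      Sum.swap_inl, Sum.swap_inr, Equiv.refl_apply]
    have a1 := glue_blk hq ha (h1 v hv) (h2' v' hv')
    have a2 := glue_blk hq ha (h1' v' hv') (h2 v hv)
    have a3 := glue_dot U.symm (fun l => ⟪b' (Sum.inr l), v'⟫) fun l => ⟪b (Sum.inr l), v⟫
    have a4 := abs_real_inner_le_norm (WithLp.toLp 2 fun l => ⟪b' (Sum.inr l), v'⟫ : E n)
      (U.symm (WithLp.toLp 2 fun l => ⟪b (Sum.inr l), v⟫))
    rw [U.symm.norm_map, ← a3] at a4
    have a5 := a4.trans (mul_le_one₀ (glue_norm zero_le_one (by simpa using h3' v' hv'))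
      (norm_nonneg _) (glue_norm zero_le_one (by simpa using h3 v hv)))
    have a6 : ∑ j, ⟪b' (Sum.inl (Sum.inl j)), v'⟫ * (a * ⟪b (Sum.inl (Sum.inr j)), v⟫) =
        ∑ j, ⟪b (Sum.inl (Sum.inr j)), v⟫ * (a * ⟪b' (Sum.inl (Sum.inl j)), v'⟫) :=
      Finset.sum_congr rfl fun j _ => by ring
    rw [a6]
    refine (abs_add_three _ _ _).trans ?_
    linarith
  · rw [t2, Fintype.sum_sum_type]
    simp only [s3, s4, Module.Basis.repr_reindex_apply, Equiv.sumCongr_symm, Equiv.sumComm_symm,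
      Equiv.refl_symm, Equiv.sumCongr_apply, Sum.map_inl, Sum.map_inr, Equiv.refl_apply]
    rw [glue_dot U]
    obtain ⟨x, hx, e1⟩ := h5 f hf
    obtain ⟨x', hx', e2⟩ := h5' f' hf'
    have a1 := h4 f hf
    have a2 := h4' f' hf'
    rw [← (Equiv.sumComm (Fin k₁) (Fin k₂)).sum_comp] at a2
    have a3 : |∑ i, b.repr f (Sum.inl i) *
        (a⁻¹ * b'.repr f' (Sum.inl (Equiv.sumComm (Fin k₁) (Fin k₂) i)))| ≤ a⁻¹ * (D * m) := by
      have a0 := inv_pos.2 ha
      refine (Finset.abs_sum_le_sum_abs _ _).trans ((Finset.sum_le_sum (g := fun i =>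
        a⁻¹ / 2 * (b.repr f (Sum.inl i) ^ 2 +
          b'.repr f' (Sum.inl (Equiv.sumComm (Fin k₁) (Fin k₂) i)) ^ 2)) fun i _ => ?_).trans ?_)
      · refine abs_le.2 ⟨?_, ?_⟩
        · nlinarith [mul_nonneg a0.le (sq_nonneg (b.repr f (Sum.inl i) +
            b'.repr f' (Sum.inl (Equiv.sumComm (Fin k₁) (Fin k₂) i))))]
        · nlinarith [mul_nonneg a0.le (sq_nonneg (b.repr f (Sum.inl i) -
            b'.repr f' (Sum.inl (Equiv.sumComm (Fin k₁) (Fin k₂) i))))]
      · rw [← Finset.mul_sum, Finset.sum_add_distrib]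
        nlinarith
    have a4 := hU _ (Finset.mem_image_of_mem _ hx) _ (Finset.mem_image_of_mem _ hx')
    have a5 := glue_log (Finset.mem_image_of_mem (fun x => (2 * √(m : ℝ))⁻¹ • x) hx)
      (Finset.mem_image_of_mem (fun x => (2 * √(m : ℝ))⁻¹ • x) hx')
      ((Nat.cast_le.2 Finset.card_image_le).trans hN) ((Nat.cast_le.2 Finset.card_image_le).trans hM)
    have a6 := div_le_div_of_nonneg_right a5 hlam.le
    rw [map_smul, real_inner_smul_left, real_inner_smul_right, ← mul_assoc, abs_mul,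
      abs_of_nonneg (by positivity), ← mul_inv, inv_mul_le_iff₀ (by positivity),
      show 2 * √(m : ℝ) * (2 * √(m : ℝ)) = 4 * m by linarith] at a4
    have hrq : 0 ≤ r * √(m : ℝ) := by positivity
    have hrq2 : (r * √(m : ℝ)) ^ 2 = r ^ 2 * m := by rw [mul_pow, Real.sq_sqrt hm'.le]
    have a7 := glue_near U (hN2 x (hN' x hx)) (hN2 x' (hM' x' hx'))
      (s := WithLp.toLp 2 fun l => b.repr f (Sum.inr l))
      (s' := WithLp.toLp 2 fun l => b'.repr f' (Sum.inr l))
      (glue_norm hrq (hrq2 ▸ e1)) (glue_norm hrq (hrq2 ▸ e2))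
    refine (abs_add_le _ _).trans ?_
    rw [div_eq_inv_mul D a]
    have a8 := mul_le_mul_of_nonneg_left a6 hm'.le
    have a9 : r * √(m : ℝ) * √(m : ℝ) = r * m := by rw [mul_assoc, hq2]
    simp only [show c * m + c * m = 2 * c * m by ring] at a8
    nlinarith

end Pool.Agent.MP_fcb590_an.Q2

end

end

-- part MP_fcb590_an.Q2.Upper
section

section
/-!
The spiky frame, and the greedy flat vectors.
`spiky`: eps from `core`, D = 1 / eps, theta with 12 sqrt (theta / eps) <= eta. Induction on k <= m: either the conclusion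
holds for some k' <= m, or there are phi and a load l with `Gd k l` (from `omega`), norms <= D, Seq phi k 1 and
sum over i < k of |inner (phi i) v| <= sqrt (theta m / eps) * l v on V. Step: if G = (span of the first k) perp is not
narrow, take w from `omega`, (z, q) from `core`, phi k = norm (P z)⁻¹ • z, psi = (sqrt q)⁻¹ • z (`Function.update`; the
span of the first i <= k vectors is unchanged). |inner phi v| = inner z v ^2 / norm (P z) <= sqrt (q / eps) inner psi v ^2,
and for y in the span norm (phi - y) >= norm (P (phi - y)) = 1. For k = m the span is everything (`seq_finrank`), so the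
projection on the complement is zero and `Narrow` holds with N = {0}.
`flats`: induction on k2 using `Conf.iso` for the span H of the first k1 + j vectors (finrank <= k1 + j,
`finrank_span_Iio_le`): x (k1 + j) = (sqrt m)⁻¹ • f has squared distance >= (m - (k1 + j)) / m >= eps.
-/

set_option autoImplicit false

open scoped RealInnerProductSpace

namespace Pool.Agent.MP_fcb590_an.Q2

theorem spiky_img {m : ℕ} (x : ℕ → E m) {i k : ℕ} (h : i ≤ k) (u : E m) :
    Function.update x k u '' Set.Iio i = x '' Set.Iio i :=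
  Set.image_congr fun j hj => Function.update_of_ne (by have := Set.mem_Iio.1 hj; omega) _ _

theorem spiky_ext {m k : ℕ} {x : ℕ → E m} {ε : ℝ} (hx : Seq x k ε) {u : E m}
    (hu : ε ≤ ‖(Submodule.span ℝ (x '' Set.Iio k))ᗮ.starProjection u‖ ^ 2) :
    Seq (Function.update x k u) (k + 1) ε := by
  intro i hi y hy
  rw [spiky_img x (by omega : i ≤ k)] at hy
  rcases Nat.lt_succ_iff_lt_or_eq.1 hi with h | rfl
  · rw [Function.update_of_ne h.ne]
    exact hx i h y hy
  · rw [Function.update_self]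
    refine hu.trans (pow_le_pow_left₀ (norm_nonneg _) ?_ 2)
    have h1 := (Submodule.span ℝ (x '' Set.Iio i))ᗮ.norm_starProjection_apply_le (u - y)
    rwa [map_sub, Submodule.starProjection_orthogonal_apply_eq_zero hy, sub_zero] at h1

theorem spiky {c r : ℝ} (hc : 0 < c) (hr : 0 < r) :
    ∃ D : ℝ, 0 < D ∧ ∀ η : ℝ, 0 < η → ∃ m₀ : ℕ, ∀ m ≥ m₀, ∀ C : Conf m,
      ∃ k ≤ m, ∃ φ : ℕ → E m, (∀ i < k, ‖φ i‖ ^ 2 ≤ D) ∧ Seq φ k 1 ∧
        (∀ v ∈ C.V, ∑ i ∈ Finset.range k, |⟪φ i, v⟫| ≤ η * √m) ∧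
        Narrow C.F (Submodule.span ℝ (φ '' Set.Iio k))ᗮ c r := by
  obtain ⟨ε, hε, hcore⟩ := core hc hr
  refine ⟨1 / ε, by positivity, fun η hη => ?_⟩
  obtain ⟨m₀, hm₀⟩ := hcore (ε * (η / 12) ^ 2) (by positivity)
  refine ⟨max m₀ 1, fun m hm C => ?_⟩
  have hm1 : 1 ≤ m := le_of_max_le_right hm
  obtain ⟨Gd, hG0, hG1, hG2⟩ := omega C.V hm1 (C.V_nonempty hm1) fun y hy => C.sep hy
  by_contra hno
  have fin : ∀ k ≤ m, ∀ (φ : ℕ → E m) (l : E m → ℝ), Gd k l → (∀ i < k, ‖φ i‖ ^ 2 ≤ 1 / ε) →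
      Seq φ k 1 → (∀ v ∈ C.V, ∑ i ∈ Finset.range k, |⟪φ i, v⟫| ≤ η / 12 * √m * l v) →
      ¬ Narrow C.F (Submodule.span ℝ (φ '' Set.Iio k))ᗮ c r := by
    intro k hk φ l hl h1 h2 h3 h4
    refine hno ⟨k, hk, φ, h1, h2, fun v hv => (h3 v hv).trans ?_, h4⟩
    calc η / 12 * √m * l v ≤ η / 12 * √m * 12 := by
          gcongr
          exact hG2 k l hk hl v hv
      _ = η * √m := by ring
  have key : ∀ k ≤ m, ∃ (φ : ℕ → E m) (l : E m → ℝ), Gd k l ∧ (∀ i < k, ‖φ i‖ ^ 2 ≤ 1 / ε) ∧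
      Seq φ k 1 ∧ ∀ v ∈ C.V, ∑ i ∈ Finset.range k, |⟪φ i, v⟫| ≤ η / 12 * √m * l v := by
    intro k
    induction k with
    | zero => exact fun _ => ⟨0, _, hG0, by simp, by simp [Seq], by simp⟩
    | succ k ih =>
      intro hk
      obtain ⟨φ, l, hl, h1, h2, h3⟩ := ih (by omega)
      obtain ⟨w, hw, hw'⟩ := hG1 k l hl
      obtain ⟨z, q, hq, hq', hz1, hz2, hz3⟩ :=
        hm₀ m (le_of_max_le_left hm) C _ w (fin k (by omega) φ l hl h1 h2 h3) hw
      set a := ‖(Submodule.span ℝ (φ '' Set.Iio k))ᗮ.starProjection z‖ with ha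
      have hqa : ε * q ≤ a ^ 2 := by nlinarith [mul_nonneg hε.le (sq_nonneg ‖z‖)]
      have hza : ε * ‖z‖ ^ 2 ≤ a ^ 2 := by nlinarith [mul_pos hε hq]
      have ha0 : 0 < a := by
        refine (norm_nonneg _).lt_of_ne' fun h => ?_
        rw [ha, h] at hqa
        nlinarith [mul_pos hε hq]
      have hψ : ∀ v, ⟪(√q)⁻¹ • z, v⟫ ^ 2 = ⟪z, v⟫ ^ 2 / q := fun v => by
        rw [real_inner_smul_left, mul_pow, inv_pow, Real.sq_sqrt hq.le, div_eq_inv_mul]
      have hqb : q ≤ η / 12 * √m * a := by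
        refine (abs_le_of_sq_le_sq' ?_ (by positivity)).2
        rw [mul_pow, mul_pow, Real.sq_sqrt (by positivity)]
        calc q ^ 2 = q * q := sq q
          _ ≤ (ε * (η / 12) ^ 2 * m) * q := by gcongr
          _ = (η / 12) ^ 2 * m * (ε * q) := by ring
          _ ≤ _ := by gcongr
      refine ⟨Function.update φ k (a⁻¹ • z), _, hw' ((√q)⁻¹ • z) ?_, fun i hi => ?_,
        spiky_ext h2 ?_, fun v hv => ?_⟩
      · simp only [hψ, ← mul_div_assoc, ← Finset.sum_div]
        rwa [div_le_iff₀ hq]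
      · rcases Nat.lt_succ_iff_lt_or_eq.1 hi with h | rfl
        · rw [Function.update_of_ne h.ne]
          exact h1 i h
        · rw [Function.update_self, norm_smul, mul_pow, norm_inv, Real.norm_of_nonneg ha0.le,
            inv_pow, ← div_eq_inv_mul, div_le_div_iff₀ (by positivity) hε]
          linarith
      · rw [map_smul, norm_smul, ← ha, norm_inv, Real.norm_of_nonneg ha0.le,
          inv_mul_cancel₀ ha0.ne', one_pow]
      · rw [Finset.sum_range_succ, Function.update_self, mul_add, hψ,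
          Finset.sum_congr rfl fun i hi => by
            rw [Function.update_of_ne (Finset.mem_range.1 hi).ne]]
        refine add_le_add (h3 v hv) ?_
        rw [real_inner_smul_left, abs_mul, hz1 v hv, abs_of_pos (inv_pos.2 ha0), ← mul_div_assoc,
          ← div_eq_inv_mul, div_le_div_iff₀ ha0 hq]
        nlinarith [mul_le_mul_of_nonneg_left hqb (sq_nonneg ⟪z, v⟫)]
  obtain ⟨φ, l, hl, h1, h2, h3⟩ := key m le_rfl
  refine fin m le_rfl φ l hl h1 h2 h3 ⟨{0}, ?_, by simp, fun f _ => ⟨0, by simp, ?_⟩⟩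
  · rw [Finset.card_singleton, Nat.cast_one]
    exact Real.one_le_exp (by positivity)
  · have h4 : Submodule.span ℝ (φ '' Set.Iio m) = ⊤ :=
      Submodule.eq_top_of_finrank_eq (by rw [seq_finrank one_pos h2]; simp)
    rw [Submodule.starProjection_orthogonal_apply_eq_zero (h4 ▸ Submodule.mem_top)]
    simp only [sub_zero, norm_zero]
    positivity

theorem flats {m : ℕ} (hm : 1 ≤ m) (C : Conf m) {φ : ℕ → E m} {k₁ : ℕ} (hφ : Seq φ k₁ 1) {ε : ℝ}
    (hε1 : ε ≤ 1) (k₂ : ℕ) (hk : (k₁ + k₂ : ℝ) ≤ m - ε * m) :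
    ∃ x : ℕ → E m, (∀ i < k₁, x i = φ i) ∧
      (∀ i, k₁ ≤ i → i < k₁ + k₂ → ∃ f ∈ C.F, x i = (√m)⁻¹ • f) ∧ Seq x (k₁ + k₂) ε := by
  induction k₂ with
  | zero =>
    exact ⟨φ, fun _ _ => rfl, fun i h1 h2 => by omega,
      fun i hi y hy => hε1.trans (hφ i hi y hy)⟩
  | succ j ih =>
    push_cast at hk
    obtain ⟨x, h1, h2, h3⟩ := ih (by linarith)
    obtain ⟨f, hf, hf'⟩ := C.iso (Submodule.span ℝ (x '' Set.Iio (k₁ + j)))
    have hm0 : (0 : ℝ) < m := by exact_mod_cast hm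
    refine ⟨Function.update x (k₁ + j) ((√m)⁻¹ • f), fun i hi => ?_, fun i hi hi' => ?_,
      spiky_ext h3 ?_⟩
    · rw [Function.update_of_ne (by omega), h1 i hi]
    · rcases (by omega : i < k₁ + j ∨ i = k₁ + j) with h | rfl
      · rw [Function.update_of_ne h.ne]
        exact h2 i hi h
      · exact ⟨f, hf, Function.update_self ..⟩
    · have h4 : (Module.finrank ℝ (Submodule.span ℝ (x '' Set.Iio (k₁ + j))) : ℝ) ≤ k₁ + j := by
        exact_mod_cast finrank_span_Iio_le x (k₁ + j)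
      rw [map_smul, norm_smul, mul_pow, norm_inv, Real.norm_of_nonneg (Real.sqrt_nonneg _),
        inv_pow, Real.sq_sqrt hm0.le, ← div_eq_inv_mul, le_div_iff₀ hm0]
      linarith

end Pool.Agent.MP_fcb590_an.Q2

end

section
/-!
Construction of the adapted basis on one side.
`complete`: Sum.elim x xi is linearly independent (the combination of the x lies in span = G perp, so s = 0, then t = 0),
and has m elements (`basisOfLinearIndependentOfCardEqFinrank`, for m = 0 use `basisOfLinearIndependentOfCardEqFinrank'` or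
`Module.Basis.mk` with span = top by dimension). If f - sum s xi lies in span x, write it as sum t x and read off the
coordinates.
`select`: `flats`, then `ri` for the joint sequence (constant max D 1), S misses at most j := floor (delta m) indices of
range (k1 + k2); choose subsets S1 of S ∩ range k1 with k1 - j elements and S2 of S ∩ Ico k1 (k1 + k2) with k2 - j elements,
enumerate them (`Finset.orderEmbOfFin`). The lower frame bound passes to the subfamily (t extended by zero).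
`side`: G = (span range x) perp has finrank n (independence of x). First case k1 = k: xi an orthonormal basis of G
(`stdOrthonormalBasis`, reindexed by Fin n), s l = inner (xi l) f, f - sum s xi is the projection on G perp;
`narrow_discard` with H = span of the first k phi: H.map P_G is spanned by the images of the at most j discarded phi;
centres are the coordinate vectors; (1 + 2 / r)^j <= exp (delta m log (1 + 2 / r)). Second case: n <= eps m + 1 + 2 j
<= eps0 m, `leftover` with eta = 2 r, N = {0}.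
-/

set_option autoImplicit false

open scoped RealInnerProductSpace

namespace Pool.Agent.MP_fcb590_an.Q2

theorem complete {m n : ℕ} {ι : Type} [Fintype ι] (x : ι → E m) {c : ℝ} (hc : 0 < c)
    (hx : ∀ t : ι → ℝ, c * ∑ i, t i ^ 2 ≤ ‖∑ i, t i • x i‖ ^ 2) (hn : Fintype.card ι + n = m)
    (ξ : Fin n → E m)
    (hξ : ∀ s : Fin n → ℝ, ∑ l, s l • ξ l ∈ Submodule.span ℝ (Set.range x) → s = 0) :
    ∃ b : Module.Basis (ι ⊕ Fin n) ℝ (E m), (∀ i, b (Sum.inl i) = x i) ∧
      (∀ l, b (Sum.inr l) = ξ l) ∧ ∀ (f : E m) (s : Fin n → ℝ),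
        f - ∑ l, s l • ξ l ∈ Submodule.span ℝ (Set.range x) →
        (∀ l, b.repr f (Sum.inr l) = s l) ∧
          c * ∑ i, b.repr f (Sum.inl i) ^ 2 ≤ ‖f - ∑ l, s l • ξ l‖ ^ 2 := by
  have hx0 : ∀ t : ι → ℝ, ∑ i, t i • x i = 0 → ∀ i, t i = 0 := by
    intro t ht i
    have h1 := hx t
    rw [ht, norm_zero] at h1
    have h2 : ∑ i, t i ^ 2 ≤ 0 := by
      by_contra h
      have := mul_pos hc (not_le.1 h)
      linarith
    have h3 : t i ^ 2 ≤ ∑ i, t i ^ 2 :=
      Finset.single_le_sum (f := fun i => t i ^ 2) (fun i _ => sq_nonneg _) (Finset.mem_univ i)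
    exact pow_eq_zero_iff two_ne_zero |>.1 (le_antisymm (h3.trans h2) (sq_nonneg _))
  have hli : LinearIndependent ℝ (Sum.elim x ξ) := by
    rw [Fintype.linearIndependent_iff]
    intro g hg
    rw [Fintype.sum_sum_type] at hg
    simp only [Sum.elim_inl, Sum.elim_inr] at hg
    have h1 : (fun l => g (Sum.inr l)) = 0 := by
      refine hξ _ ?_
      rw [eq_neg_of_add_eq_zero_right hg]
      exact neg_mem (Submodule.sum_mem _ fun i _ =>
        Submodule.smul_mem _ _ (Submodule.subset_span ⟨i, rfl⟩))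
    have h2 : ∀ l, g (Sum.inr l) = 0 := fun l => congrFun h1 l
    simp only [h2, zero_smul, Finset.sum_const_zero, add_zero] at hg
    rintro (i | l)
    · exact hx0 _ hg i
    · exact h2 l
  have hcard : Fintype.card (ι ⊕ Fin n) = Module.finrank ℝ (E m) := by
    simp [hn]
  let b := basisOfLinearIndependentOfCardEqFinrank' _ hli hcard
  have hb : ∀ i, b i = Sum.elim x ξ i := fun i => by simp [b]
  refine ⟨b, fun i => hb _, fun l => hb _, fun f s hf => ?_⟩
  obtain ⟨t, ht⟩ := (Submodule.mem_span_range_iff_exists_fun ℝ).1 hf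
  have h1 : f = ∑ j, Sum.elim t s j • b j := by
    rw [Fintype.sum_sum_type]
    simp only [hb, Sum.elim_inl, Sum.elim_inr]
    rw [ht, sub_add_cancel]
  have h2 : ∀ j, b.repr f j = Sum.elim t s j := fun j => by
    conv_lhs => rw [h1]
    rw [b.repr_sum_self]
  refine ⟨fun l => h2 _, ?_⟩
  simp only [h2, Sum.elim_inl]
  rw [← ht]
  exact hx t

theorem select_sum {ι M : Type} [Fintype ι] [AddCommMonoid M] {g : ι → ℕ}
    (hg : Function.Injective g) {S : Finset ℕ} (hS : ∀ i, g i ∈ S) (t : ι → ℝ) (F : ℝ → ℕ → M)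
    (hF : ∀ n, F 0 n = 0) : ∑ n ∈ S, F (Function.extend g t 0 n) n = ∑ i, F (t i) (g i) := by
  have h1 : Finset.univ.image g ⊆ S := fun n hn => by
    obtain ⟨i, -, rfl⟩ := Finset.mem_image.1 hn
    exact hS i
  rw [← Finset.sum_subset h1, Finset.sum_image fun i _ j _ h => hg h]
  · exact Finset.sum_congr rfl fun i _ => by rw [hg.extend_apply]
  · intro n _ hn
    rw [Function.extend_apply' _ _ _ fun ⟨i, hi⟩ => hn (Finset.mem_image.2 ⟨i, by simp, hi⟩)]
    exact hF n

theorem select {D ε δ : ℝ} (hε : 0 < ε) (hε1 : ε ≤ 1) (hδ : 0 < δ) :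
    ∃ c : ℝ, 0 < c ∧ ∀ (m : ℕ) (C : Conf m) (φ : ℕ → E m) (k₁ k₂ : ℕ), 1 ≤ m →
      (∀ i < k₁, ‖φ i‖ ^ 2 ≤ D) → Seq φ k₁ 1 → (k₁ + k₂ : ℝ) ≤ m - ε * m →
      ∃ (a : Fin (k₁ - ⌊δ * m⌋₊) → ℕ) (f : Fin (k₂ - ⌊δ * m⌋₊) → E m),
        Function.Injective a ∧ (∀ i, a i < k₁) ∧ (∀ j, f j ∈ C.F) ∧
        ∀ t : Fin (k₁ - ⌊δ * m⌋₊) ⊕ Fin (k₂ - ⌊δ * m⌋₊) → ℝ, c * ∑ i, t i ^ 2 ≤
          ‖∑ i, t i • Sum.elim (fun i => φ (a i)) (fun j => (√m)⁻¹ • f j) i‖ ^ 2 := by
  obtain ⟨c, hc, hri⟩ := ri (C := max D 1) hε hδ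
  refine ⟨c, hc, fun m C φ k₁ k₂ hm hD hφ hk => ?_⟩
  obtain ⟨x, hx1, hx2, hx3⟩ := flats hm C hφ hε1 k₂ hk
  have hm0 : (0 : ℝ) < m := by exact_mod_cast hm
  obtain ⟨S, hS, hcard, hfr⟩ := hri m (k₁ + k₂) x (fun i hi => by
    by_cases h : i < k₁
    · rw [hx1 i h]
      exact (hD i h).trans (le_max_left _ _)
    · obtain ⟨f, hf, e⟩ := hx2 i (not_lt.1 h) hi
      refine le_trans ?_ (le_max_right _ _)
      rw [e, norm_smul, mul_pow, Real.norm_eq_abs, sq_abs, inv_pow, Real.sq_sqrt hm0.le,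
        inv_mul_le_iff₀ hm0, mul_one]
      exact C.normF f hf) hx3
  obtain ⟨j, hj⟩ : ∃ j, j = ⌊δ * m⌋₊ := ⟨_, rfl⟩
  rw [← hj]
  have h1 : k₁ + k₂ ≤ S.card + j := by
    have a : S.card ≤ k₁ + k₂ := (Finset.card_le_card hS).trans (Finset.card_range _).le
    have b : k₁ + k₂ - S.card ≤ j := by
      rw [hj]
      refine Nat.le_floor ?_
      rw [Nat.cast_sub a]
      have d : ((k₁ + k₂ : ℕ) : ℝ) ≤ m := by
        push_cast
        have := mul_pos hε hm0
        linarith
      have := mul_le_mul_of_nonneg_left d hδ.le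
      linarith
    omega
  have h2 := Finset.card_filter_add_card_filter_not (s := S) fun i => i < k₁
  have h3 : (S.filter fun i => i < k₁).card ≤ k₁ :=
    (Finset.card_le_card fun i hi => Finset.mem_range.2 (Finset.mem_filter.1 hi).2).trans
      (Finset.card_range _).le
  have h4 : (S.filter fun i => ¬ i < k₁).card ≤ k₂ := by
    refine (Finset.card_le_card (t := Finset.Ico k₁ (k₁ + k₂)) fun i hi => ?_).trans (by simp)
    exact Finset.mem_Ico.2 ⟨not_lt.1 (Finset.mem_filter.1 hi).2,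
      Finset.mem_range.1 (hS (Finset.mem_filter.1 hi).1)⟩
  obtain ⟨S₁, hS₁, c₁⟩ := Finset.exists_subset_card_eq (s := S.filter fun i => i < k₁)
    (n := k₁ - j) (by omega)
  obtain ⟨S₂, hS₂, c₂⟩ := Finset.exists_subset_card_eq (s := S.filter fun i => ¬ i < k₁)
    (n := k₂ - j) (by omega)
  have m₁ : ∀ i, S₁.orderEmbOfFin c₁ i ∈ S ∧ S₁.orderEmbOfFin c₁ i < k₁ := fun i =>
    Finset.mem_filter.1 (hS₁ (Finset.orderEmbOfFin_mem _ _ _))
  have m₂ : ∀ i, S₂.orderEmbOfFin c₂ i ∈ S ∧ ¬ S₂.orderEmbOfFin c₂ i < k₁ := fun i =>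
    Finset.mem_filter.1 (hS₂ (Finset.orderEmbOfFin_mem _ _ _))
  choose f hf1 hf2 using fun i => hx2 (S₂.orderEmbOfFin c₂ i) (not_lt.1 (m₂ i).2)
    (Finset.mem_range.1 (hS (m₂ i).1))
  refine ⟨S₁.orderEmbOfFin c₁, f, (S₁.orderEmbOfFin c₁).injective, fun i => (m₁ i).2, hf1,
    fun t => ?_⟩
  have hg : Function.Injective (Sum.elim (S₁.orderEmbOfFin c₁) (S₂.orderEmbOfFin c₂)) :=
    Function.Injective.sumElim (S₁.orderEmbOfFin c₁).injective (S₂.orderEmbOfFin c₂).injective
      fun i l e => (m₂ l).2 (e ▸ (m₁ i).2)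
  have hgS : ∀ i, Sum.elim (S₁.orderEmbOfFin c₁) (S₂.orderEmbOfFin c₂) i ∈ S := by
    rintro (i | l)
    · exact (m₁ i).1
    · exact (m₂ l).1
  have h5 := hfr (Function.extend (Sum.elim (S₁.orderEmbOfFin c₁) (S₂.orderEmbOfFin c₂)) t 0)
  rw [select_sum hg hgS t (fun a _ => a ^ 2) (fun _ => by simp),
    select_sum hg hgS t (fun a n => a • x n) (fun _ => by simp)] at h5
  refine h5.trans (le_of_eq ?_)
  congr 2
  refine Finset.sum_congr rfl ?_
  rintro (i | l) -
  · simp only [Sum.elim_inl, hx1 _ (m₁ i).2]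
  · simp only [Sum.elim_inr, hf2 l]

end Pool.Agent.MP_fcb590_an.Q2

end

section
/-!
Construction of the adapted basis on one side.
`complete`: Sum.elim x xi is linearly independent (the combination of the x lies in span = G perp, so s = 0, then t = 0),
and has m elements (`basisOfLinearIndependentOfCardEqFinrank`, for m = 0 use `basisOfLinearIndependentOfCardEqFinrank'` or
`Module.Basis.mk` with span = top by dimension). If f - sum s xi lies in span x, write it as sum t x and read off the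
coordinates.
`select`: `flats`, then `ri` for the joint sequence (constant max D 1), S misses at most j := floor (delta m) indices of
range (k1 + k2); choose subsets S1 of S ∩ range k1 with k1 - j elements and S2 of S ∩ Ico k1 (k1 + k2) with k2 - j elements,
enumerate them (`Finset.orderEmbOfFin`). The lower frame bound passes to the subfamily (t extended by zero).
`side`: G = (span range x) perp has finrank n (independence of x). First case k1 = k: xi an orthonormal basis of G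
(`stdOrthonormalBasis`, reindexed by Fin n), s l = inner (xi l) f, f - sum s xi is the projection on G perp;
`narrow_discard` with H = span of the first k phi: H.map P_G is spanned by the images of the at most j discarded phi;
centres are the coordinate vectors; (1 + 2 / r)^j <= exp (delta m log (1 + 2 / r)). Second case: n <= eps m + 1 + 2 j
<= eps0 m, `leftover` with eta = 2 r, N = {0}.
-/

set_option autoImplicit false

open scoped RealInnerProductSpace

namespace Pool.Agent.MP_fcb590_an.Q2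

theorem side_onb {m n : ℕ} (G : Submodule ℝ (E m)) (hG : Module.finrank ℝ G = n) :
    ∃ ξ : Fin n → E m, (∀ l, ξ l ∈ G) ∧ (∀ y, G.starProjection y = ∑ l, ⟪ξ l, y⟫ • ξ l) ∧
      (∀ y, ∑ l, ⟪ξ l, y⟫ ^ 2 = ‖G.starProjection y‖ ^ 2) ∧ Orthonormal ℝ ξ := by
  let b : OrthonormalBasis (Fin n) ℝ G := (stdOrthonormalBasis ℝ G).reindex (finCongr hG)
  have h1 : ∀ y l, ⟪b l, G.orthogonalProjectionOnto y⟫ = ⟪(b l : E m), y⟫ := fun y l =>
    Submodule.inner_orthogonalProjectionOnto_eq_of_mem_left (b l) y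
  refine ⟨fun l => (b l : E m), fun l => (b l).2, fun y => ?_, fun y => ?_, ?_⟩
  · have := congrArg (fun z : G => (z : E m)) (b.sum_repr' (G.orthogonalProjectionOnto y))
    simp only [h1, AddSubmonoidClass.coe_finsetSum, SetLike.val_smul] at this
    exact this.symm
  · have := b.sum_sq_inner_right (G.orthogonalProjectionOnto y)
    simp only [h1] at this
    exact this
  · exact b.orthonormal.comp_linearIsometry G.subtypeₗᵢ

theorem side_discard {m k k' j : ℕ} (φ : ℕ → E m) (a : Fin k' → ℕ) (ha : Function.Injective a)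
    (hak : ∀ i, a i < k) (hk : k ≤ k' + j) (P : E m →ₗ[ℝ] E m) (hP : ∀ i, P (φ (a i)) = 0) :
    Module.finrank ℝ ((Submodule.span ℝ (φ '' Set.Iio k)).map P) ≤ j := by
  classical
  let s : Finset ℕ := Finset.range k \ Finset.univ.image a
  have hs : s.card ≤ j := by
    have h1 : Finset.univ.image a ⊆ Finset.range k := fun i hi => by
      obtain ⟨l, -, rfl⟩ := Finset.mem_image.1 hi
      exact Finset.mem_range.2 (hak l)
    have h2 := Finset.card_sdiff_add_card_eq_card h1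
    rw [Finset.card_image_of_injective _ ha, Finset.card_univ, Fintype.card_fin,
      Finset.card_range] at h2
    simp only [s]
    omega
  have hle : (Submodule.span ℝ (φ '' Set.Iio k)).map P ≤
      Submodule.span ℝ ((s.image fun i => P (φ i) : Finset (E m)) : Set (E m)) := by
    rw [Submodule.map_span, Submodule.span_le]
    rintro _ ⟨_, ⟨i, hi, rfl⟩, rfl⟩
    by_cases h : i ∈ Finset.univ.image a
    · obtain ⟨l, -, rfl⟩ := Finset.mem_image.1 h
      rw [hP]
      exact Submodule.zero_mem _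
    · exact Submodule.subset_span (Finset.mem_coe.2 (Finset.mem_image.2
        ⟨i, Finset.mem_sdiff.2 ⟨Finset.mem_range.2 hi, h⟩, rfl⟩))
  exact (Submodule.finrank_mono hle).trans ((finrank_span_finset_le_card _).trans
    (Finset.card_image_le.trans hs))

theorem side {r : ℝ} (hr : 0 < r) :
    ∃ ε₀ : ℝ, 0 < ε₀ ∧ ∀ D ε δ c : ℝ, 0 < ε → ε ≤ 1 → 0 < δ → 0 ≤ c →
      ∃ D' : ℝ, 0 < D' ∧ ∀ (m : ℕ) (C : Conf m) (η : ℝ) (φ : ℕ → E m) (k k₁ k₂ n : ℕ), 1 ≤ m →
        (∀ i < k, ‖φ i‖ ^ 2 ≤ D) → Seq φ k 1 →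
        (∀ v ∈ C.V, ∑ i ∈ Finset.range k, |⟪φ i, v⟫| ≤ η * √m) →
        Narrow C.F (Submodule.span ℝ (φ '' Set.Iio k))ᗮ c r → k₁ ≤ k →
        (k₁ + k₂ : ℝ) ≤ m - ε * m → (k₁ - ⌊δ * m⌋₊) + (k₂ - ⌊δ * m⌋₊) + n = m →
        (k₁ = k ∨ (n : ℝ) ≤ ε₀ * m) →
        Side C (k₁ - ⌊δ * m⌋₊) (k₂ - ⌊δ * m⌋₊) n η D' (c + δ * Real.log (1 + 2 / r)) (2 * r) := by
  classical
  obtain ⟨ε₀, hε₀, hleft⟩ := leftover (η := 2 * r) (by positivity)
  refine ⟨ε₀, hε₀, fun D ε δ c hε hε1 hδ hc => ?_⟩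
  obtain ⟨c', hc', hsel⟩ := select (D := D) hε hε1 hδ
  refine ⟨16 / c', by positivity, ?_⟩
  intro m C η φ k k₁ k₂ n hm hD hseq hsp hN hk₁ hk hn hcase
  obtain ⟨a, f, ha, hak, hf, hx⟩ := hsel m C φ k₁ k₂ hm (fun i hi => hD i (by omega))
    (fun i hi => hseq i (by omega)) hk
  have hj : (⌊δ * m⌋₊ : ℝ) ≤ δ * m := Nat.floor_le (by positivity)
  generalize ⌊δ * m⌋₊ = j at *
  set x : Fin (k₁ - j) ⊕ Fin (k₂ - j) → E m :=
    Sum.elim (fun i => φ (a i)) (fun j => (√m)⁻¹ • f j) with hxd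
  have hmpos : (0 : ℝ) < m := by exact_mod_cast hm
  have hsq : 0 < √(m : ℝ) := Real.sqrt_pos.2 hmpos
  have hLg : 0 ≤ Real.log (1 + 2 / r) := Real.log_nonneg (by have : 0 < 2 / r := by positivity
                                                             linarith)
  have hli : LinearIndependent ℝ x := by
    rw [Fintype.linearIndependent_iff]
    intro t ht i
    have h1 := hx t
    rw [ht, norm_zero] at h1
    have h2 : ∑ i, t i ^ 2 ≤ 0 := by
      by_contra h
      push Not at h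
      have := mul_pos hc' h
      linarith
    have h3 := (Finset.sum_eq_zero_iff_of_nonneg fun i _ => sq_nonneg (t i)).1
      (le_antisymm h2 (Finset.sum_nonneg fun i _ => sq_nonneg (t i))) i (Finset.mem_univ i)
    exact pow_eq_zero_iff (by norm_num) |>.1 h3
  set H := Submodule.span ℝ (Set.range x) with hH
  have hcard : Fintype.card (Fin (k₁ - j) ⊕ Fin (k₂ - j)) + n = m := by simpa using hn
  have hG : Module.finrank ℝ Hᗮ = n := by
    have h1 := Submodule.finrank_add_finrank_orthogonal H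
    rw [finrank_span_eq_card hli, finrank_euclideanSpace_fin] at h1
    omega
  have key : ∃ ξ : Fin n → E m, (∀ v ∈ C.V, ∑ l, ⟪ξ l, v⟫ ^ 2 ≤ 1) ∧
      (∀ s : Fin n → ℝ, ∑ l, s l • ξ l ∈ H → s = 0) ∧
      ∃ N : Finset (E n), (N.card : ℝ) ≤ Real.exp ((c + δ * Real.log (1 + 2 / r)) * m) ∧
        (∀ x ∈ N, ‖x‖ ^ 2 ≤ 4 * m) ∧ ∀ g ∈ C.F, ∃ s : Fin n → ℝ, g - ∑ l, s l • ξ l ∈ H ∧
          ‖g - ∑ l, s l • ξ l‖ ^ 2 ≤ 16 * m ∧ ∃ y ∈ N, ∑ l, (s l - y l) ^ 2 ≤ (2 * r) ^ 2 * m := by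
    rcases hcase with rfl | hcase
    · obtain ⟨ξ, hξG, hξP, hξn, hξo⟩ := side_onb Hᗮ hG
      have hdis := side_discard (j := j) φ a ha hak (by omega) (Hᗮ.starProjection : E m →ₗ[ℝ] E m)
        (fun i => by
          have : φ (a i) ∈ H := Submodule.subset_span ⟨Sum.inl i, rfl⟩
          simpa using Submodule.starProjection_orthogonal_apply_eq_zero this)
      obtain ⟨N, hNc, hNn, hNf⟩ := narrow_discard hm C.normF hr hN hdis
      refine ⟨ξ, fun v hv => ?_, fun s hs => ?_,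
        N.image fun y => WithLp.toLp 2 fun l => ⟪ξ l, y⟫, ?_, ?_, fun g hg => ?_⟩
      · rw [hξn]
        have h1 := (Hᗮ.norm_starProjection_apply_le v).trans (C.normV v hv)
        exact pow_le_one₀ (norm_nonneg _) h1
      · funext l
        have h1 : ⟪ξ l, ∑ l, s l • ξ l⟫ = 0 :=
          Submodule.inner_left_of_mem_orthogonal hs (hξG l)
        rw [hξo.inner_right_fintype] at h1
        exact h1
      · refine le_trans (by exact_mod_cast Finset.card_image_le) (hNc.trans ?_)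
        rw [add_mul, Real.exp_add]
        refine mul_le_mul_of_nonneg_left ?_ (Real.exp_pos _).le
        have h1 : (1 + 2 / r) ^ j = Real.exp (j * Real.log (1 + 2 / r)) := by
          rw [Real.exp_nat_mul, Real.exp_log (by positivity)]
        rw [h1]
        refine Real.exp_le_exp.2 ?_
        nlinarith
      · intro y hy
        obtain ⟨z, hz, rfl⟩ := Finset.mem_image.1 hy
        rw [EuclideanSpace.real_norm_sq_eq]
        simp only
        rw [hξn]
        exact (pow_le_pow_left₀ (norm_nonneg _) (Hᗮ.norm_starProjection_apply_le z) 2).trans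
          (hNn z hz).2
      · obtain ⟨z, hz, hgz⟩ := hNf g hg
        have e1 : g - ∑ l, ⟪ξ l, g⟫ • ξ l = H.starProjection g := by
          rw [← hξP, sub_eq_iff_eq_add, H.starProjection_add_starProjection_orthogonal]
        refine ⟨fun l => ⟪ξ l, g⟫, ?_, ?_, _, Finset.mem_image.2 ⟨z, hz, rfl⟩, ?_⟩
        · rw [e1]; exact H.starProjection_apply_mem g
        · rw [e1]
          have := (pow_le_pow_left₀ (norm_nonneg _) (H.norm_starProjection_apply_le g) 2).trans
            (C.normF g hg)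
          linarith
        · simp only [← inner_sub_right]
          rw [hξn, map_sub, (Submodule.starProjection_eq_self_iff).2 (hNn z hz).1]
          refine (pow_le_pow_left₀ (norm_nonneg _) hgz 2).trans (le_of_eq ?_)
          rw [mul_pow, Real.sq_sqrt hmpos.le]
    · obtain ⟨ξ, h1, h2, h3⟩ := hleft m n C.V C.F Hᗮ hm C.normV C.normF
        (fun g hg v hv => by rcases C.pm g hg v hv with h | h <;> rw [h] <;> norm_num) hG hcase
      rw [Submodule.orthogonal_orthogonal] at h2 h3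
      refine ⟨ξ, h1, h2, {0}, ?_, ?_, fun g hg => ?_⟩
      · rw [Finset.card_singleton, Nat.cast_one]
        exact Real.one_le_exp (by positivity)
      · intro y hy
        rw [Finset.mem_singleton.1 hy, norm_zero]
        linarith
      · obtain ⟨s, hs1, hs2, hs3⟩ := h3 g hg
        exact ⟨s, hs2, hs3, 0, Finset.mem_singleton_self _, by simpa using hs1⟩
  obtain ⟨ξ, hξ1, hξ2, N, hNc, hNn, hNf⟩ := key
  obtain ⟨b, hb1, hb2, hb3⟩ := complete x hc' hx hcard ξ hξ2
  refine ⟨b, fun v hv => ?_, fun v hv l => ?_, fun v hv => ?_, fun g hg => ?_, N, hNc, hNn,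
    fun g hg => ?_⟩
  · simp only [hb1, hxd, Sum.elim_inl]
    refine le_trans ?_ (hsp v hv)
    rw [← Finset.sum_image (s := Finset.univ) (g := a) (f := fun i => |⟪φ i, v⟫|)
      fun i _ i' _ h => ha h]
    refine Finset.sum_le_sum_of_subset_of_nonneg (fun i hi => ?_) fun i _ _ => abs_nonneg _
    obtain ⟨l, -, rfl⟩ := Finset.mem_image.1 hi
    exact Finset.mem_range.2 (lt_of_lt_of_le (hak l) hk₁)
  · simp only [hb1, hxd, Sum.elim_inr, real_inner_smul_left]
    rw [abs_mul, abs_of_pos (inv_pos.2 hsq)]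
    rcases C.pm _ (hf l) v hv with h | h <;> rw [h] <;> simp [hsq.ne']
  · simp only [hb2]
    exact hξ1 v hv
  · obtain ⟨s, hs1, hs2, -⟩ := hNf g hg
    have := (hb3 g s hs1).2.trans hs2
    rw [div_mul_eq_mul_div, le_div_iff₀ hc']
    linarith
  · obtain ⟨s, hs1, -, y, hy, hs3⟩ := hNf g hg
    refine ⟨y, hy, ?_⟩
    simp only [(hb3 g s hs1).1]
    exact hs3

end Pool.Agent.MP_fcb590_an.Q2

end

section
/-!
Choice of the constants: the main geometric theorem.
-/

set_option autoImplicit false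

open scoped RealInnerProductSpace

namespace Pool.Agent.MP_fcb590_an.Q2

theorem confmain_split (kX kY K : ℕ) : ∃ k₁ k₂ : ℕ, k₁ ≤ kX ∧ k₂ ≤ kY ∧ k₁ + k₂ ≤ K ∧
    ((k₁ = kX ∧ k₂ = kY) ∨ k₁ + k₂ = K) := by
  by_cases h : kX + kY ≤ K
  · exact ⟨kX, kY, le_rfl, le_rfl, h, Or.inl ⟨rfl, rfl⟩⟩
  · exact ⟨min kX K, K - min kX K, by omega, by omega, by omega, Or.inr (by omega)⟩

theorem confmain_bracket {ζ ε c x n : ℝ} (hζ : 0 < ζ) (hε : 0 < ε) (hx : 0 < x)
    (hn : ε * x / 2 ≤ n - 1) (hc : c ≤ ζ ^ 2 * ε) (h1 : 1 ≤ ζ ^ 2 * ε * x) :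
    5 * (ζ * (n - 1)) / (n - 1) + (Real.log 2 + 2 * c * x) / (ζ * (n - 1)) ≤ 11 * ζ := by
  have hn0 : 0 < n - 1 := lt_of_lt_of_le (by positivity) hn
  have h2 : Real.log 2 ≤ 1 := by
    have := Real.log_two_lt_d9
    linarith
  have e1 : 5 * (ζ * (n - 1)) / (n - 1) = 5 * ζ := by field_simp
  have e2 : (Real.log 2 + 2 * c * x) / (ζ * (n - 1)) ≤ 6 * ζ := by
    rw [div_le_iff₀ (by positivity)]
    have h3 : c * x ≤ ζ ^ 2 * ε * x := mul_le_mul_of_nonneg_right hc hx.le
    have h4 : ζ ^ 2 * (ε * x / 2) ≤ ζ ^ 2 * (n - 1) := mul_le_mul_of_nonneg_left hn (by positivity)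
    nlinarith
  rw [e1]
  linarith

theorem conf_main {η : ℝ} (hη : 0 < η) :
    ∃ m₀ : ℕ, ∀ m ≥ m₀, ∀ C C' : Conf m, ∃ T : E m ≃ₗ[ℝ] E m,
      (∀ v ∈ C.V, ∀ v' ∈ C'.V, |⟪v', T v⟫| ≤ 2) ∧
      ∀ f ∈ C.F, ∀ f' ∈ C'.F, |⟪f, T.symm f'⟫| ≤ η * m := by
  wlog hη1 : η ≤ 1 generalizing η
  · obtain ⟨m₀, h⟩ := this one_pos le_rfl
    refine ⟨m₀, fun m hm C C' => ?_⟩
    obtain ⟨T, h1, h2⟩ := h m hm C C'
    refine ⟨T, h1, fun f hf f' hf' => (h2 f hf f' hf').trans ?_⟩
    exact mul_le_mul_of_nonneg_right (not_le.1 hη1).le (Nat.cast_nonneg m)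
  obtain ⟨r, hrd⟩ : ∃ r : ℝ, r = η / 200 := ⟨_, rfl⟩
  have hr : 0 < r := by rw [hrd]; positivity
  obtain ⟨ε₀, hε₀, hside⟩ := side hr
  obtain ⟨ε, hε, hεa, hεb⟩ : ∃ ε : ℝ, 0 < ε ∧ ε ≤ ε₀ / 4 ∧ ε ≤ 1 / 2 :=
    ⟨min (ε₀ / 4) (1 / 2), lt_min (by positivity) (by norm_num), min_le_left _ _, min_le_right _ _⟩
  obtain ⟨ζ, hζd⟩ : ∃ ζ : ℝ, ζ = η / 2000 := ⟨_, rfl⟩
  have hζ : 0 < ζ := by rw [hζd]; positivity
  have hc3 : 0 < ζ ^ 2 * ε := by positivity
  have hLg : 0 < Real.log (1 + 2 / r) := Real.log_pos (by have : 0 < 2 / r := by positivity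
                                                          linarith)
  obtain ⟨δ, hδ, hδa, hδb⟩ : ∃ δ : ℝ, 0 < δ ∧ δ ≤ ε₀ / 8 ∧
      δ * Real.log (1 + 2 / r) ≤ ζ ^ 2 * ε / 2 := by
    refine ⟨min (ε₀ / 8) (ζ ^ 2 * ε / 2 / Real.log (1 + 2 / r)),
      lt_min (by positivity) (by positivity), min_le_left _ _, ?_⟩
    rw [← le_div_iff₀ hLg]
    exact min_le_right _ _
  obtain ⟨D, hD, hsp⟩ := spiky (half_pos hc3) hr
  obtain ⟨D', hD', hside'⟩ := hside D ε δ (ζ ^ 2 * ε / 2) hε (by linarith) hδ (half_pos hc3).le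
  obtain ⟨a, had⟩ : ∃ a : ℝ, a = 20 * D' / η := ⟨_, rfl⟩
  have ha : 0 < a := by rw [had]; positivity
  obtain ⟨m₁, hm₁⟩ := hsp (1 / (2 * a)) (by positivity)
  obtain ⟨m₂, hm₂⟩ := exists_nat_ge (2 / ε₀ + 2 / ε + 1 / (ζ ^ 2 * ε))
  refine ⟨max (max m₁ m₂) 1, fun m hm C C' => ?_⟩
  have hma : m₁ ≤ m := le_trans (le_trans (le_max_left _ _) (le_max_left _ _)) hm
  have hmb : (m₂ : ℝ) ≤ m := by
    exact_mod_cast le_trans (le_trans (le_max_right _ _) (le_max_left _ _)) hm
  have hm1 : 1 ≤ m := le_trans (le_max_right _ _) hm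
  have hmpos : (0 : ℝ) < m := by exact_mod_cast hm1
  have p1 : 0 < 2 / ε₀ := by positivity
  have p2 : 0 < 2 / ε := by positivity
  have p3 : 0 < 1 / (ζ ^ 2 * ε) := by positivity
  have q1 : 2 ≤ ε₀ * m := by
    have : 2 / ε₀ ≤ m := by linarith
    rwa [div_le_iff₀ hε₀, mul_comm] at this
  have q2 : 2 ≤ ε * m := by
    have : 2 / ε ≤ m := by linarith
    rwa [div_le_iff₀ hε, mul_comm] at this
  have q3 : 1 ≤ ζ ^ 2 * ε * m := by
    have : 1 / (ζ ^ 2 * ε) ≤ m := by linarith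
    rwa [div_le_iff₀ hc3, mul_comm] at this
  obtain ⟨kX, -, φ, hφ1, hφ2, hφ3, hφ4⟩ := hm₁ m hma C
  obtain ⟨kY, -, φ', hφ1', hφ2', hφ3', hφ4'⟩ := hm₁ m hma C'
  have hce : ⌈ε * m⌉₊ ≤ m := Nat.ceil_le.2 (by nlinarith)
  have hce1 : ε * m ≤ ⌈ε * m⌉₊ := Nat.le_ceil _
  have hce2 : (⌈ε * m⌉₊ : ℝ) < ε * m + 1 := Nat.ceil_lt_add_one (by positivity)
  have hj : (⌊δ * m⌋₊ : ℝ) ≤ δ * m := Nat.floor_le (by positivity)
  obtain ⟨k₁, k₂, hk1, hk2, hk, hcase⟩ := confmain_split kX kY (m - ⌈ε * m⌉₊)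
  obtain ⟨n, hn⟩ : ∃ n : ℕ, (k₁ - ⌊δ * m⌋₊) + (k₂ - ⌊δ * m⌋₊) + n = m :=
    ⟨m - ((k₁ - ⌊δ * m⌋₊) + (k₂ - ⌊δ * m⌋₊)), by omega⟩
  have hkr : (k₁ + k₂ : ℝ) ≤ m - ε * m := by
    have : k₁ + k₂ + ⌈ε * m⌉₊ ≤ m := by omega
    have : (k₁ : ℝ) + k₂ + ⌈ε * m⌉₊ ≤ m := by exact_mod_cast this
    linarith
  have hnlow : ε * m ≤ n := by
    have : ⌈ε * m⌉₊ ≤ n := by omega
    exact hce1.trans (by exact_mod_cast this)
  have hnup : k₁ + k₂ = m - ⌈ε * m⌉₊ → (n : ℝ) ≤ ε₀ * m := by
    intro h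
    have : n ≤ ⌈ε * m⌉₊ + 2 * ⌊δ * m⌋₊ := by omega
    have : (n : ℝ) ≤ ⌈ε * m⌉₊ + 2 * ⌊δ * m⌋₊ := by exact_mod_cast this
    have h1 : ε * m ≤ ε₀ / 4 * m := mul_le_mul_of_nonneg_right hεa hmpos.le
    have h2 : δ * m ≤ ε₀ / 8 * m := mul_le_mul_of_nonneg_right hδa hmpos.le
    linarith
  have S1 := hside' m C (1 / (2 * a)) φ kX k₁ k₂ n hm1 hφ1 hφ2 hφ3 hφ4 hk1 hkr hn
    (hcase.imp (fun h => h.1) hnup)
  have S2 := hside' m C' (1 / (2 * a)) φ' kY k₂ k₁ n hm1 hφ1' hφ2' hφ3' hφ4' hk2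
    (by linarith) (by omega) (hcase.imp (fun h => h.2) hnup)
  have hn2 : 2 ≤ n := by exact_mod_cast q2.trans hnlow
  have hn1 : ε * m / 2 ≤ (n : ℝ) - 1 := by linarith
  have hlam : 0 < ζ * ((n : ℝ) - 1) := mul_pos hζ (by linarith)
  obtain ⟨T, hT1, hT2⟩ := glue hm1 (by linarith : 0 ≤ 2 * r) S1 S2 hn2 ha hlam
  refine ⟨T, fun v hv v' hv' => (hT1 v hv v' hv').trans (le_of_eq ?_), fun f hf f' hf' =>
    (hT2 f hf f' hf').trans ?_⟩
  · field_simp
    norm_num
  · have hb := confmain_bracket (c := ζ ^ 2 * ε / 2 + δ * Real.log (1 + 2 / r)) hζ hε hmpos hn1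
      (by linarith) q3
    have e : D' / a = η / 20 := by rw [had]; field_simp
    rw [mul_comm η]
    refine mul_le_mul_of_nonneg_left ?_ hmpos.le
    rw [e]
    have : (2 * r) ^ 2 ≤ η / 100 := by rw [hrd]; nlinarith
    linarith

end Pool.Agent.MP_fcb590_an.Q2

end

section
/-!
From normed spaces to configurations.
`toPre`: fix a linear equivalence e from X to E m; V = e '' ExpV X, F = Riesz representatives of f ∘ e.symm, f in ExpF X.
Finiteness: ExpF X separates points (`norm_le_of_expF` applied to x), so finitely many of its elements separate points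
(choose a basis of the span), and a point of ExpV X is determined by its signs on them (`abs_apply_eq_one`); symmetrically
for ExpF X with `norm_le_of_expV`. Hull properties: if y is not in the compact convex set hull F, separate it
(`geometric_hahn_banach_closed_point`, Riesz) by a vector e x with inner f (e x) < u < inner y (e x) for f in F; then
norm x <= u by `norm_le_of_expF`, while the functional given by y has norm at most 1 by `norm_le_of_expV`. Symmetrically
for V. (The proof works also if one does not know in advance that F is nonempty.)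
`opNorm_le_of_exp`: for x, norm (T x) <= alpha norm x by `norm_le_of_expF`, where h ∘ T has norm <= alpha by `norm_le_of_expV`.
`upper`: configuration C for X from `toPre`, `position`; configuration C' for Y from the swapped `Pre`
(V and F exchanged, `real_inner_comm`). T0 from `conf_main` with eta / 2; T = eY⁻¹ ∘ L'Y⁻¹ ∘ T0 ∘ LX ∘ eX;
`csInf_le` (the set is bounded below by 0).
-/

set_option autoImplicit false

open scoped RealInnerProductSpace

namespace Pool.Agent.MP_fcb590_an.Q2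

open Pool.Agent.MP_fcb590_an

theorem topre_fin {m : ℕ} {S T : Set (E m)} (hpm : ∀ t ∈ T, ∀ s ∈ S, ⟪t, s⟫ = 1 ∨ ⟪t, s⟫ = -1)
    (hsep : ∀ x : E m, (∀ t ∈ T, ⟪t, x⟫ = 0) → x = 0) : S.Finite := by
  obtain ⟨T', hT', hspan⟩ := (Submodule.fg_span_iff_fg_span_finset_subset T).1
    (IsNoetherian.noetherian (Submodule.span ℝ T))
  refine Set.Finite.of_finite_image (f := fun (s : E m) (t : T') => ⟪(t : E m), s⟫) ?_ ?_
  · refine (Set.Finite.pi' (fun _ : T' => Set.toFinite ({1, -1} : Set ℝ))).subset ?_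
    rintro _ ⟨s, hs, rfl⟩ t
    exact hpm t (hT' t.2) s hs
  · intro s _ s' _ h
    refine sub_eq_zero.1 (hsep _ fun t ht => ?_)
    have ht' : t ∈ Submodule.span ℝ (T' : Set (E m)) := hspan ▸ Submodule.subset_span ht
    have hle : Submodule.span ℝ (T' : Set (E m)) ≤ (Submodule.span ℝ {s - s'})ᗮ := by
      refine Submodule.span_le.2 fun a ha => ?_
      refine Submodule.mem_orthogonal_singleton_iff_inner_left.2 ?_
      rw [inner_sub_right, sub_eq_zero]
      exact congrFun h ⟨a, ha⟩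
    exact Submodule.mem_orthogonal_singleton_iff_inner_left.1 (hle ht')

theorem topre_hull {m : ℕ} (F : Finset (E m)) (y : E m)
    (h : ∀ (z : E m) (u : ℝ), (∀ f ∈ F, ⟪z, f⟫ ≤ u) → ⟪z, y⟫ ≤ u) :
    y ∈ convexHull ℝ (F : Set (E m)) := by
  by_contra hy
  obtain ⟨g, u, h1, h2⟩ := geometric_hahn_banach_closed_point (convex_convexHull ℝ _)
    (F.finite_toSet.isCompact_convexHull ℝ).isClosed hy
  have h3 := h ((InnerProductSpace.toDual ℝ (E m)).symm g) u fun f hf => by
    rw [InnerProductSpace.toDual_symm_apply]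
    exact (h1 f (subset_convexHull ℝ _ hf)).le
  rw [InnerProductSpace.toDual_symm_apply] at h3
  exact absurd h2 (not_lt.2 h3)

theorem toPre {m : ℕ} (hm : 1 ≤ m) (X : Type) [NormedAddCommGroup X] [NormedSpace ℝ X]
    [FiniteDimensional ℝ X] (hdim : Module.finrank ℝ X = m) (hX : numIndex X = 1) :
    ∃ (e : X ≃ₗ[ℝ] E m) (P : Pre m), (∀ v ∈ ExpV X, e v ∈ P.V) ∧
      ∀ f ∈ ExpF X, ∃ f' ∈ P.F, ∀ x, f x = ⟪f', e x⟫ := by
  haveI : Nontrivial X := Module.nontrivial_of_finrank_pos (R := ℝ) (by omega)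
  let e : X ≃L[ℝ] E m := ContinuousLinearEquiv.ofFinrankEq (by simp [hdim])
  let SV : Set (E m) := e '' ExpV X
  let SF : Set (E m) := {f' | ∃ f ∈ ExpF X, ∀ x, f x = ⟪f', e x⟫}
  have hrep : ∀ f ∈ ExpF X, ∃ f' ∈ SF, ∀ x, f x = ⟪f', e x⟫ := by
    intro f hf
    have h : ∀ x, f x = ⟪(InnerProductSpace.toDual ℝ (E m)).symm
        (f.comp (e.symm : E m →L[ℝ] X)), e x⟫ := by
      intro x
      rw [InnerProductSpace.toDual_symm_apply]
      simp
    exact ⟨_, ⟨f, hf, h⟩, h⟩
  have hpm : ∀ f ∈ SF, ∀ v ∈ SV, ⟪f, v⟫ = 1 ∨ ⟪f, v⟫ = -1 := by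
    rintro f' ⟨f, hf, h⟩ _ ⟨v, hv, rfl⟩
    rw [← h v]
    exact abs_apply_eq_one hX hf hv
  have hx : ∀ (z : E m) (u : ℝ), (∀ f ∈ SF, ⟪f, z⟫ ≤ u) → ‖e.symm z‖ ≤ u := by
    intro z u h
    refine norm_le_of_expF _ u fun f hf => ?_
    obtain ⟨f', hf', h'⟩ := hrep f hf
    rw [h', e.apply_symm_apply]
    exact h f' hf'
  have hg : ∀ (z : E m) (u : ℝ), (∀ v ∈ SV, ⟪z, v⟫ ≤ u) → 0 ≤ u ∧
      ∀ w : E m, ⟪z, w⟫ ≤ u * ‖e.symm w‖ := by
    intro z u h
    have h1 : ‖(innerSL ℝ z).comp (e : X →L[ℝ] E m)‖ ≤ u :=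
      norm_le_of_expV _ u fun v hv => h _ ⟨v, hv, rfl⟩
    refine ⟨(norm_nonneg _).trans h1, fun w => ?_⟩
    have h2 := ((innerSL ℝ z).comp (e : X →L[ℝ] E m)).le_of_opNorm_le h1 (e.symm w)
    have h3 : ((innerSL ℝ z).comp (e : X →L[ℝ] E m)) (e.symm w) = ⟪z, w⟫ := by simp
    rw [h3] at h2
    exact (le_abs_self _).trans h2
  have hV : SV.Finite := by
    refine topre_fin hpm fun z hz => ?_
    have h1 := hx z 0 fun f hf => (hz f hf).le
    exact e.symm.map_eq_zero_iff.1 (norm_le_zero_iff.1 h1)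
  have hF : SF.Finite := by
    refine topre_fin (T := SV) (fun v hv f hf => by rw [real_inner_comm]; exact hpm f hf v hv)
      fun z hz => ?_
    have h1 := (hg z 0 fun v hv => by rw [real_inner_comm]; exact (hz v hv).le).2 z
    rw [zero_mul] at h1
    exact real_inner_self_nonpos.1 h1
  refine ⟨e.toLinearEquiv, ⟨hV.toFinset, hF.toFinset, ?_, ?_, ?_⟩, ?_, ?_⟩
  · intro f hf v hv
    exact hpm f (hF.mem_toFinset.1 hf) v (hV.mem_toFinset.1 hv)
  · intro y hy
    refine topre_hull _ y fun z u h => ?_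
    have h1 := hx z u fun f hf => by rw [real_inner_comm]; exact h f (hF.mem_toFinset.2 hf)
    have h2 := (hg y 1 fun v hv => (le_abs_self _).trans (hy v (hV.mem_toFinset.2 hv))).2 z
    rw [real_inner_comm]
    linarith
  · intro y hy
    refine topre_hull _ y fun z u h => ?_
    have h1 := hx y 1 fun f hf => (le_abs_self _).trans (hy f (hF.mem_toFinset.2 hf))
    obtain ⟨h2, h3⟩ := hg z u fun v hv => h v (hV.mem_toFinset.2 hv)
    exact (h3 y).trans (mul_le_of_le_one_right h2 h1)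
  · intro v hv
    exact hV.mem_toFinset.2 ⟨v, hv, rfl⟩
  · intro f hf
    obtain ⟨f', hf', h⟩ := hrep f hf
    exact ⟨f', hF.mem_toFinset.2 hf', h⟩

theorem opNorm_le_of_exp {X Y : Type} [NormedAddCommGroup X] [NormedSpace ℝ X]
    [FiniteDimensional ℝ X] [Nontrivial X] [NormedAddCommGroup Y] [NormedSpace ℝ Y]
    [FiniteDimensional ℝ Y] [Nontrivial Y] (T : X →L[ℝ] Y) {α : ℝ} (hα : 0 ≤ α)
    (h : ∀ v ∈ ExpV X, ∀ g ∈ ExpF Y, g (T v) ≤ α) : ‖T‖ ≤ α := by
  refine T.opNorm_le_bound hα fun x => norm_le_of_expF _ _ fun g hg => ?_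
  have h1 : ‖g.comp T‖ ≤ α := norm_le_of_expV _ _ fun v hv => h v hv g hg
  exact (le_abs_self _).trans ((g.comp T).le_of_opNorm_le h1 x)

end Pool.Agent.MP_fcb590_an.Q2

end

section
/-!
From normed spaces to configurations.
`toPre`: fix a linear equivalence e from X to E m; V = e '' ExpV X, F = Riesz representatives of f ∘ e.symm, f in ExpF X.
Finiteness: ExpF X separates points (`norm_le_of_expF` applied to x), so finitely many of its elements separate points
(choose a basis of the span), and a point of ExpV X is determined by its signs on them (`abs_apply_eq_one`); symmetrically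
for ExpF X with `norm_le_of_expV`. Hull properties: if y is not in the compact convex set hull F, separate it
(`geometric_hahn_banach_closed_point`, Riesz) by a vector e x with inner f (e x) < u < inner y (e x) for f in F; then
norm x <= u by `norm_le_of_expF`, while the functional given by y has norm at most 1 by `norm_le_of_expV`. Symmetrically
for V. (The proof works also if one does not know in advance that F is nonempty.)
`opNorm_le_of_exp`: for x, norm (T x) <= alpha norm x by `norm_le_of_expF`, where h ∘ T has norm <= alpha by `norm_le_of_expV`.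
`upper`: configuration C for X from `toPre`, `position`; configuration C' for Y from the swapped `Pre`
(V and F exchanged, `real_inner_comm`). T0 from `conf_main` with eta / 2; T = eY⁻¹ ∘ L'Y⁻¹ ∘ T0 ∘ LX ∘ eX;
`csInf_le` (the set is bounded below by 0).
-/

set_option autoImplicit false

open scoped RealInnerProductSpace

namespace Pool.Agent.MP_fcb590_an.Q2

open Pool.Agent.MP_fcb590_an

theorem upper {η : ℝ} (hη : 0 < η) :
    ∃ m₀ : ℕ, ∀ m ≥ m₀, ∀ (X Y : Type) [NormedAddCommGroup X] [NormedSpace ℝ X]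
      [FiniteDimensional ℝ X] [NormedAddCommGroup Y] [NormedSpace ℝ Y] [FiniteDimensional ℝ Y],
      Module.finrank ℝ X = m → Module.finrank ℝ Y = m → numIndex X = 1 → numIndex Y = 1 →
      bmDist X Y ≤ η * m := by
  obtain ⟨m₀, h⟩ := conf_main (half_pos hη)
  refine ⟨max m₀ 1, fun m hm X Y _ _ _ _ _ _ hX hY nX nY => ?_⟩
  have hm1 : 1 ≤ m := le_trans (le_max_right _ _) hm
  have : Nontrivial X := Module.nontrivial_of_finrank_pos (R := ℝ) (by omega)
  have : Nontrivial Y := Module.nontrivial_of_finrank_pos (R := ℝ) (by omega)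
  obtain ⟨e, P, hV, hF⟩ := toPre hm1 X hX nX
  obtain ⟨e', P', hV', hF'⟩ := toPre hm1 Y hY nY
  obtain ⟨L, L', C, hL, hLV, hLF⟩ := position hm1 P
  let P'' : Pre m :=
    { V := P'.F
      F := P'.V
      pm := fun f hf v hv => by rw [real_inner_comm]; exact P'.pm v hv f hf
      hullF := fun y hy => P'.hullV y fun f hf => by rw [real_inner_comm]; exact hy f hf
      hullV := fun y hy => P'.hullF y fun f hf => by rw [real_inner_comm]; exact hy f hf }
  obtain ⟨M, M', C', hM, hMV, hMF⟩ := position hm1 P''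
  obtain ⟨T₀, h1, h2⟩ := h m (le_trans (le_max_left _ _) hm) C C'
  let Tl : X ≃ₗ[ℝ] Y := (((e.trans L).trans T₀).trans M'.symm).trans e'.symm
  let T : X ≃L[ℝ] Y := Tl.toContinuousLinearEquiv
  have hT1 : ‖(T : X →L[ℝ] Y)‖ ≤ 2 := by
    refine opNorm_le_of_exp _ (by norm_num) fun v hv g hg => ?_
    obtain ⟨g', hg', hgg⟩ := hF' g hg
    have := h1 _ (hLV _ (hV v hv)) _ (hMV g' hg')
    refine le_trans (le_of_eq ?_) ((le_abs_self _).trans this)
    have e1 : e' ((T : X →L[ℝ] Y) v) = M'.symm (T₀ (L (e v))) := by simp [T, Tl]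
    rw [hgg, e1, real_inner_comm, ← hM, LinearEquiv.apply_symm_apply, real_inner_comm]
  have hT2 : ‖(T.symm : Y →L[ℝ] X)‖ ≤ η / 2 * m := by
    refine opNorm_le_of_exp _ (by positivity) fun w hw g hg => ?_
    obtain ⟨g', hg', hgg⟩ := hF g hg
    have := h2 _ (hLF g' hg') _ (hMF _ (hV' w hw))
    refine le_trans (le_of_eq ?_) ((le_abs_self _).trans this)
    have e1 : e ((T.symm : Y →L[ℝ] X) w) = L.symm (T₀.symm (M' (e' w))) := by
      simp [T, Tl]
    rw [hgg, e1, ← hL, LinearEquiv.apply_symm_apply]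
  refine le_trans (csInf_le ⟨0, ?_⟩ ⟨T, rfl⟩) ?_
  · rintro r ⟨S, rfl⟩
    positivity
  · calc _ ≤ 2 * (η / 2 * m) := mul_le_mul hT1 hT2 (norm_nonneg _) (by norm_num)
      _ = η * m := by ring

end Pool.Agent.MP_fcb590_an.Q2

end

end
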