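import Pool.Agent.Lib.PrekopaLeindler.Basic
import Pool.Agent.MP_fcb590_an.McGregor

-- part MP_fcb590_an.Santalo
section

/-!
# A Blaschke–Santaló inequality for pairs of compact sets

`santalo`: if `K, L` are compact subsets of `Fin (n+1) → ℝ`, `L` is centrally symmetric and
`x ⬝ᵥ y ≤ R` on `K × L`, then `vol K * vol L ≤ (2 π e R / (n+1)) ^ (n+1)`.
The proof symmetrises one coordinate at a time (Meyer–Pajor) and finishes with the
Prékopa–Leindler inequality in logarithmic coordinates.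
-/

open MeasureTheory Set Real
open scoped ENNReal

namespace Pool.Agent.MP_fcb590_an

open Pool.Agent.PL

theorem lintegral_Ioi_exp (φ : ℝ → ℝ≥0∞) :
    ∫⁻ s in Ioi (0 : ℝ), φ s = ∫⁻ u, ENNReal.ofReal (exp u) * φ (exp u) := by
  have h := lintegral_image_eq_lintegral_abs_deriv_mul (s := univ) (f := exp) (f' := exp)
    MeasurableSet.univ (fun x _ => (Real.hasDerivAt_exp x).hasDerivWithinAt)
    Real.exp_injective.injOn φ
  rw [image_univ, Real.range_exp, Measure.restrict_univ] at h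
  rw [h]
  simp only [abs_of_pos (Real.exp_pos _)]

theorem lintegral_gauss_Ioi {l : ℝ} (hl : 0 < l) :
    ∫⁻ s in Ioi (0 : ℝ), ENNReal.ofReal (exp (-(l / 2) * s ^ 2)) =
      ENNReal.ofReal (√(π / (l / 2)) / 2) := by
  rw [← integral_gaussian_Ioi, ofReal_integral_eq_lintegral_ofReal]
  · exact (integrable_exp_neg_mul_sq (half_pos hl)).integrableOn
  · exact Filter.Eventually.of_forall fun x => (Real.exp_pos _).le

theorem half_line {φ ψ : ℝ → ℝ≥0∞} (hφ : Measurable φ) (hψ : Measurable ψ) (c : ℝ≥0∞) {l : ℝ}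
    (hl : 0 < l) (H : ∀ s t, 0 < s → 0 < t → φ s * ψ t ≤ c * ENNReal.ofReal (exp (-(l * (s * t))))) :
    (∫⁻ s in Ioi (0 : ℝ), φ s) * (∫⁻ s in Ioi (0 : ℝ), ψ s) ≤ c * ENNReal.ofReal (π / (2 * l)) := by
  obtain ⟨r, hr⟩ : ∃ r : ℝ≥0∞, r ^ 2 = c := by
    refine ⟨c ^ (1 / 2 : ℝ), ?_⟩
    rw [← ENNReal.rpow_natCast, ← ENNReal.rpow_mul]
    norm_num
  let η : ℝ → ℝ≥0∞ := fun s => r * ENNReal.ofReal (exp (-(l / 2) * s ^ 2))
  have hη : Measurable η := by fun_prop
  have h1 : (∫⁻ s in Ioi (0 : ℝ), η s) ^ 2 = c * ENNReal.ofReal (π / (2 * l)) := by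
    simp only [η]
    rw [lintegral_const_mul _ (by fun_prop), lintegral_gauss_Ioi hl, mul_pow, hr,
      ← ENNReal.ofReal_pow (by positivity), div_pow, Real.sq_sqrt (by positivity)]
    congr 2
    field_simp
  rw [← h1, lintegral_Ioi_exp φ, lintegral_Ioi_exp ψ, lintegral_Ioi_exp η]
  refine pl_one (by fun_prop) (by fun_prop) (by fun_prop) fun x y => ?_
  have e1 : exp ((x + y) / 2) ^ 2 = exp x * exp y := by
    rw [← Real.exp_nat_mul, ← Real.exp_add]; congr 1; push_cast; ring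
  calc ENNReal.ofReal (exp x) * φ (exp x) * (ENNReal.ofReal (exp y) * ψ (exp y))
      = ENNReal.ofReal (exp x) * ENNReal.ofReal (exp y) * (φ (exp x) * ψ (exp y)) := by ring
    _ ≤ ENNReal.ofReal (exp x) * ENNReal.ofReal (exp y) *
        (c * ENNReal.ofReal (exp (-(l * (exp x * exp y))))) :=
      mul_le_mul_right (H _ _ (Real.exp_pos _) (Real.exp_pos _)) _
    _ = (ENNReal.ofReal (exp ((x + y) / 2)) * η (exp ((x + y) / 2))) ^ 2 := by
      simp only [η]
      rw [mul_pow, mul_pow, hr, ← ENNReal.ofReal_pow (Real.exp_pos _).le,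
        ← ENNReal.ofReal_pow (Real.exp_pos _).le, e1, ← Real.exp_nat_mul,
        ← ENNReal.ofReal_mul (Real.exp_pos _).le]
      congr 4
      push_cast
      ring

theorem lintegral_fold {φ : ℝ → ℝ≥0∞} (hφ : Measurable φ) :
    ∫⁻ s, φ s = ∫⁻ s in Ioi (0 : ℝ), (φ s + φ (-s)) := by
  rw [lintegral_add_left hφ, ← lintegral_add_compl φ (measurableSet_Ioi (a := (0 : ℝ))),
    compl_Ioi]
  congr 1
  have h := (Measure.measurePreserving_neg (volume : Measure ℝ)).setLIntegral_comp_preimage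
    (s := Iio (0 : ℝ)) measurableSet_Iio hφ
  rw [← setLIntegral_congr Iio_ae_eq_Iic, ← h]
  congr 2
  ext x
  simp

theorem full_line {φ ψ : ℝ → ℝ≥0∞} (hφ : Measurable φ) (hψ : Measurable ψ) (c : ℝ≥0∞) {l : ℝ}
    (hl : 0 < l) (H : ∀ s t, φ s * ψ t ≤ c * ENNReal.ofReal (exp (-(l * (|s| * |t|))))) :
    (∫⁻ s, φ s) * (∫⁻ s, ψ s) ≤ c * ENNReal.ofReal (2 * π / l) := by
  rw [lintegral_fold hφ, lintegral_fold hψ]
  refine (half_line (by fun_prop) (by fun_prop) (4 * c) hl fun s t hs ht => ?_).trans_eq ?_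
  · have h1 := H s t
    have h2 := H s (-t)
    have h3 := H (-s) t
    have h4 := H (-s) (-t)
    simp only [abs_neg, abs_of_pos hs, abs_of_pos ht] at h1 h2 h3 h4
    calc (φ s + φ (-s)) * (ψ t + ψ (-t))
        = φ s * ψ t + φ s * ψ (-t) + φ (-s) * ψ t + φ (-s) * ψ (-t) := by ring
      _ ≤ c * ENNReal.ofReal (exp (-(l * (s * t)))) + c * ENNReal.ofReal (exp (-(l * (s * t)))) +
          c * ENNReal.ofReal (exp (-(l * (s * t)))) +
          c * ENNReal.ofReal (exp (-(l * (s * t)))) := by gcongr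
      _ = _ := by ring
  · have : (4 : ℝ≥0∞) = ENNReal.ofReal 4 := by simp
    rw [mul_comm 4 c, mul_assoc, this, ← ENNReal.ofReal_mul (by norm_num)]
    congr 2
    field_simp
    norm_num

theorem abs_pairing {l : ℝ} (hl : 0 < l) (k : ℕ) : ∀ {f g : (Fin k → ℝ) → ℝ≥0∞} (c : ℝ≥0∞),
    Measurable f → Measurable g →
    (∀ x y, f x * g y ≤ c * ENNReal.ofReal (exp (-(l * ∑ i, |x i| * |y i|)))) →
    (∫⁻ x, f x) * (∫⁻ x, g x) ≤ c * ENNReal.ofReal (2 * π / l) ^ k := by
  induction k with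
  | zero =>
    intro f g c _ _ H
    have hv : (volume : Measure (Fin 0 → ℝ)) univ = 1 := by simp [volume_pi]
    simp only [lintegral_unique, hv, mul_one, pow_zero]
    refine (H _ _).trans_eq ?_
    simp
  | succ k ih =>
    intro f g c hf hg H
    rw [lintegral_insertNth 0 hf, lintegral_insertNth 0 hg, pow_succ, ← mul_assoc]
    refine full_line (hf.comp (measurable_insertNth 0)).lintegral_prod_right'
      (hg.comp (measurable_insertNth 0)).lintegral_prod_right' _ hl fun s t => ?_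
    rw [mul_right_comm]
    refine ih _ ((hf.comp (measurable_insertNth 0)).comp measurable_prodMk_left)
      ((hg.comp (measurable_insertNth 0)).comp measurable_prodMk_left) fun x y => ?_
    refine (H _ _).trans_eq ?_
    rw [mul_assoc, ← ENNReal.ofReal_mul (Real.exp_pos _).le, ← Real.exp_add, Fin.sum_univ_succ]
    congr 3
    simp
    ring

theorem vol_slice_left {k : ℕ} (j : Fin (k + 1)) {S : Set (Fin (k + 1) → ℝ)}
    (hS : MeasurableSet S) :
    volume S = ∫⁻ t : ℝ, volume {x : Fin k → ℝ | (j.insertNth t x : Fin (k + 1) → ℝ) ∈ S} := by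
  have h := (volume_preserving_piFinSuccAbove (fun _ : Fin (k + 1) => ℝ) j).symm
  rw [← h.measure_preimage hS.nullMeasurableSet, Measure.volume_eq_prod,
    Measure.prod_apply (h.measurable hS)]
  rfl

theorem vol_slice_right {k : ℕ} (j : Fin (k + 1)) {S : Set (Fin (k + 1) → ℝ)}
    (hS : MeasurableSet S) :
    volume S = ∫⁻ x : Fin k → ℝ, volume {t : ℝ | (j.insertNth t x : Fin (k + 1) → ℝ) ∈ S} := by
  have h := (volume_preserving_piFinSuccAbove (fun _ : Fin (k + 1) => ℝ) j).symm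
  rw [← h.measure_preimage hS.nullMeasurableSet, Measure.volume_eq_prod,
    Measure.prod_apply_symm (h.measurable hS)]
  rfl

/-- Steiner symmetrisation in the coordinate `j`. -/
theorem steiner {k : ℕ} (j : Fin (k + 1)) {K : Set (Fin (k + 1) → ℝ)} (hK : IsCompact K) :
    ∃ K' : Set (Fin (k + 1) → ℝ), IsCompact K' ∧ volume K ≤ volume K' ∧
      ∀ z ∈ K', ∃ u ∈ K, ∃ v ∈ K, (∀ i, i ≠ j → u i = z i ∧ v i = z i) ∧
        z j = (u j - v j) / 2 := by
  let P : Set ((Fin (k + 1) → ℝ) × (Fin (k + 1) → ℝ)) :=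
    (K ×ˢ K) ∩ {p | ∀ i, i ≠ j → p.1 i = p.2 i}
  have hP : IsCompact P := by
    refine (hK.prod hK).inter_right ?_
    simp only [ofPred_forall]
    exact isClosed_iInter fun i => isClosed_iInter fun _ => isClosed_eq (by fun_prop) (by fun_prop)
  let F : (Fin (k + 1) → ℝ) × (Fin (k + 1) → ℝ) → (Fin (k + 1) → ℝ) :=
    fun p => Function.update p.1 j ((p.1 j - p.2 j) / 2)
  have hF : Continuous F := by fun_prop
  have hK' : IsCompact (F '' P) := hP.image hF
  refine ⟨F '' P, hK', ?_, ?_⟩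
  · rw [vol_slice_right j hK.measurableSet, vol_slice_right j hK'.measurableSet]
    refine lintegral_mono fun x => ?_
    set A := {t : ℝ | (j.insertNth t x : Fin (k + 1) → ℝ) ∈ K} with hA
    set C := {t : ℝ | (j.insertNth t x : Fin (k + 1) → ℝ) ∈ F '' P} with hC
    have hAm : MeasurableSet A :=
      ((measurable_insertNth j).comp measurable_prodMk_right) hK.measurableSet
    rcases A.eq_empty_or_nonempty with h | h
    · simp [h]
    have hb := bm_one (A := A) (B := -A) (C := C) hAm hAm.neg h h.neg (by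
      intro s hs t ht
      refine ⟨(j.insertNth s x, j.insertNth (-t) x), ⟨⟨hs, ht⟩, ?_⟩, ?_⟩
      · intro i hi
        obtain ⟨i, rfl⟩ := Fin.exists_succAbove_eq hi
        simp
      · ext i
        refine Fin.succAboveCases j ?_ (fun i => ?_) i
        · simp [F]
        · simp [F])
    rw [Measure.measure_neg, ← two_mul] at hb
    exact (ENNReal.mul_le_mul_iff_right (by norm_num) (by norm_num)).1 hb
  · rintro _ ⟨⟨u, v⟩, ⟨⟨hu, hv⟩, huv⟩, rfl⟩
    refine ⟨u, hu, v, hv, fun i hi => ?_, by simp [F]⟩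
    simp only [F, Function.update_of_ne hi]
    exact ⟨trivial, (huv i hi).symm⟩

/-- The dual symmetrisation of a centrally symmetric set. -/
theorem steiner_dual {k : ℕ} (j : Fin (k + 1)) {L : Set (Fin (k + 1) → ℝ)} (hL : IsCompact L)
    (hs : ∀ y ∈ L, -y ∈ L) :
    ∃ L' : Set (Fin (k + 1) → ℝ), IsCompact L' ∧ (∀ y ∈ L', -y ∈ L') ∧ volume L ≤ volume L' ∧
      ∀ w ∈ L', ∃ a ∈ L, ∃ b ∈ L, (∀ i, i ≠ j → w i = (a i + b i) / 2) ∧ a j = w j ∧
        b j = -w j := by
  let P : Set ((Fin (k + 1) → ℝ) × (Fin (k + 1) → ℝ)) :=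
    (L ×ˢ L) ∩ {p | p.2 j = -p.1 j}
  have hP : IsCompact P := (hL.prod hL).inter_right (isClosed_eq (by fun_prop) (by fun_prop))
  let F : (Fin (k + 1) → ℝ) × (Fin (k + 1) → ℝ) → (Fin (k + 1) → ℝ) :=
    fun p => Function.update (fun i => (p.1 i + p.2 i) / 2) j (p.1 j)
  have hF : Continuous F := by fun_prop
  have hL' : IsCompact (F '' P) := hP.image hF
  refine ⟨F '' P, hL', ?_, ?_, ?_⟩
  · rintro _ ⟨⟨a, b⟩, ⟨⟨ha, hb⟩, hab⟩, rfl⟩
    refine ⟨(-a, -b), ⟨⟨hs a ha, hs b hb⟩, ?_⟩, ?_⟩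
    · simp only [mem_ofPred_eq, Pi.neg_apply] at hab ⊢
      rw [hab]
    · ext i
      by_cases hi : i = j
      · subst hi; simp [F]
      · simp only [F, Function.update_of_ne hi, Pi.neg_apply]; ring
  · rw [vol_slice_left j hL.measurableSet, vol_slice_left j hL'.measurableSet]
    refine lintegral_mono fun t => ?_
    set A := {x : Fin k → ℝ | (j.insertNth t x : Fin (k + 1) → ℝ) ∈ L} with hA
    set C := {x : Fin k → ℝ | (j.insertNth t x : Fin (k + 1) → ℝ) ∈ F '' P} with hC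
    have hAm : MeasurableSet A :=
      ((measurable_insertNth j).comp measurable_prodMk_left) hL.measurableSet
    have hCm : MeasurableSet C :=
      ((measurable_insertNth j).comp measurable_prodMk_left) hL'.measurableSet
    have hb := pl_mid k (f := A.indicator 1) (g := (-A).indicator 1) (h := C.indicator 1)
      (measurable_one.indicator hAm) (measurable_one.indicator hAm.neg)
      (measurable_one.indicator hCm) (by
        intro x y z hz
        by_cases hx : x ∈ A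
        swap
        · simp [hx]
        by_cases hy : y ∈ -A
        swap
        · simp [indicator_of_notMem hy]
        have hz' : z ∈ C := by
          have hy' : (j.insertNth t (-y) : Fin (k + 1) → ℝ) ∈ L := hy
          refine ⟨(j.insertNth t x, -j.insertNth t (-y)), ⟨⟨hx, hs _ hy'⟩, by simp⟩, ?_⟩
          ext i
          refine Fin.succAboveCases j ?_ (fun i => ?_) i
          · simp [F]
          · simp [F, hz]
        simp [indicator_of_mem hx, indicator_of_mem hy, indicator_of_mem hz'])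
    rw [lintegral_indicator_one hAm, lintegral_indicator_one hAm.neg, lintegral_indicator_one hCm,
      Measure.measure_neg, ← sq] at hb
    exact (ENNReal.pow_le_pow_left_iff two_ne_zero).1 hb
  · rintro _ ⟨⟨a, b⟩, ⟨⟨ha, hb⟩, hab⟩, rfl⟩
    refine ⟨a, ha, b, hb, fun i hi => by simp [F, Function.update_of_ne hi], by simp [F], ?_⟩
    simpa [F] using hab

theorem symmetrise {k : ℕ} {K L : Set (Fin (k + 1) → ℝ)} (hK : IsCompact K) (hL : IsCompact L)
    (hs : ∀ y ∈ L, -y ∈ L) {R : ℝ} (H : ∀ x ∈ K, ∀ y ∈ L, x ⬝ᵥ y ≤ R) (S : Finset (Fin (k + 1))) :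
    ∃ K' L' : Set (Fin (k + 1) → ℝ), IsCompact K' ∧ IsCompact L' ∧ (∀ y ∈ L', -y ∈ L') ∧
      volume K ≤ volume K' ∧ volume L ≤ volume L' ∧
      ∀ x ∈ K', ∀ y ∈ L', ∑ i, (if i ∈ S then |x i| * |y i| else x i * y i) ≤ R := by
  induction S using Finset.induction_on with
  | empty => exact ⟨K, L, hK, hL, hs, le_rfl, le_rfl, by simpa [dotProduct] using H⟩
  | insert j S hj ih =>
    obtain ⟨K1, L1, hK1, hL1, hs1, hvK, hvL, H1⟩ := ih
    obtain ⟨K2, hK2, hvK2, hK2'⟩ := steiner j hK1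
    obtain ⟨L2, hL2, hs2, hvL2, hL2'⟩ := steiner_dual j hL1 hs1
    refine ⟨K2, L2, hK2, hL2, hs2, hvK.trans hvK2, hvL.trans hvL2, fun z hz w hw => ?_⟩
    obtain ⟨u, hu, v, hv, huv, hzj⟩ := hK2' z hz
    obtain ⟨a, ha, b, hb, hab, haj, hbj⟩ := hL2' w hw
    have key : ∀ u ∈ K1, ∀ v ∈ K1, (∀ i, i ≠ j → u i = z i ∧ v i = z i) →
        |z j| * |w j| = (u j - v j) / 2 * w j →
        ∑ i, (if i ∈ insert j S then |z i| * |w i| else z i * w i) ≤ R := by
      intro u hu v hv huv hj'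
      have h1 := H1 u hu a ha
      have h2 := H1 v hv b hb
      have h3 : ∑ i, (if i ∈ insert j S then |z i| * |w i| else z i * w i) ≤
          ∑ i, ((if i ∈ S then |u i| * |a i| else u i * a i) +
            (if i ∈ S then |v i| * |b i| else v i * b i)) / 2 := by
        refine Finset.sum_le_sum fun i _ => ?_
        by_cases hi : i = j
        · subst hi
          simp only [Finset.mem_insert_self, if_true, hj, if_false, hj', haj, hbj]
          exact le_of_eq (by ring)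
        · simp only [Finset.mem_insert, hi, false_or, (huv i hi).1, (huv i hi).2, hab i hi]
          split_ifs
          · have : |(a i + b i) / 2| ≤ (|a i| + |b i|) / 2 := by
              rw [abs_div, abs_two]; gcongr; exact abs_add_le _ _
            nlinarith [abs_nonneg (z i)]
          · exact le_of_eq (by ring)
      rw [← Finset.sum_div, Finset.sum_add_distrib] at h3
      linarith
    rcases le_total 0 (z j * w j) with h | h
    · refine key u hu v hv huv ?_
      rw [← abs_mul, abs_of_nonneg h, hzj]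
    · refine key v hv u hu (fun i hi => (huv i hi).symm) ?_
      rw [← abs_mul, abs_of_nonpos h, hzj]; ring

/-- Blaschke–Santaló inequality (with the asymptotically sharp constant `2 π e`). -/
theorem santalo {k : ℕ} {K L : Set (Fin (k + 1) → ℝ)} (hK : IsCompact K) (hL : IsCompact L)
    (hs : ∀ y ∈ L, -y ∈ L) {R : ℝ} (hR : 0 < R) (H : ∀ x ∈ K, ∀ y ∈ L, x ⬝ᵥ y ≤ R) :
    volume K * volume L ≤ ENNReal.ofReal ((2 * π * exp 1 * R / (k + 1)) ^ (k + 1)) := by
  obtain ⟨K', L', hK', hL', -, hvK, hvL, H'⟩ := symmetrise hK hL hs H Finset.univ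
  simp only [Finset.mem_univ, if_true] at H'
  have hk : (0 : ℝ) < k + 1 := by positivity
  have hl : 0 < ((k : ℝ) + 1) / R := by positivity
  have h := abs_pairing hl (k + 1) (f := K'.indicator 1) (g := L'.indicator 1)
    (ENNReal.ofReal (exp (k + 1))) (measurable_one.indicator hK'.measurableSet)
    (measurable_one.indicator hL'.measurableSet) (by
      intro x y
      by_cases hx : x ∈ K'
      swap
      · simp [hx]
      by_cases hy : y ∈ L'
      swap
      · simp [hy]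
      rw [indicator_of_mem hx, indicator_of_mem hy, ← ENNReal.ofReal_mul (Real.exp_pos _).le,
        ← Real.exp_add, Pi.one_apply, Pi.one_apply, mul_one, ENNReal.one_le_ofReal]
      refine Real.one_le_exp ?_
      have h1 := H' x hx y hy
      have h2 : ((k : ℝ) + 1) / R * ∑ i, |x i| * |y i| ≤ ((k : ℝ) + 1) / R * R := by gcongr
      rw [div_mul_cancel₀ _ hR.ne'] at h2
      linarith)
  rw [lintegral_indicator_one hK'.measurableSet, lintegral_indicator_one hL'.measurableSet] at h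
  refine (mul_le_mul' hvK hvL).trans (h.trans_eq ?_)
  rw [← ENNReal.ofReal_pow (by positivity), ← ENNReal.ofReal_mul (Real.exp_pos _).le]
  congr 1
  have : exp ((k : ℝ) + 1) = exp 1 ^ (k + 1) := by
    rw [← Real.exp_nat_mul]; push_cast; ring_nf
  rw [this, ← mul_pow]
  congr 1
  field_simp

end Pool.Agent.MP_fcb590_an

end

-- part MP_fcb590_an.Voronoi
section

/-!
# Lattice coverings and the distance to Euclidean space

The vertices and the facet normals of the unit ball of a space with numerical index one generate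
two lattices with integral pairing.  Nearest lattice points show that dilates of the dual ball and
of the ball cover space modulo these lattices; the Blaschke–Santaló inequality then bounds the
dimension by a multiple of the square of the distance to Euclidean space.
-/

open MeasureTheory Set Real Module Submodule
open scoped ENNReal Pointwise RealInnerProductSpace

namespace Pool.Agent.MP_fcb590_an

section Lattice

variable {n : ℕ}

theorem dot_self_nonneg (x : Fin n → ℝ) : 0 ≤ x ⬝ᵥ x :=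
  Finset.sum_nonneg fun i _ => mul_self_nonneg (x i)

theorem dot_sq_le (x y : Fin n → ℝ) : (x ⬝ᵥ y) ^ 2 ≤ (x ⬝ᵥ x) * (y ⬝ᵥ y) := by
  simpa only [dotProduct, sq] using Finset.sum_mul_sq_le_sq_mul_sq Finset.univ x y

theorem abs_dot_le {b x : Fin n → ℝ} {β : ℝ} (hβ : 0 ≤ β) (hb : b ⬝ᵥ b ≤ β ^ 2) :
    |b ⬝ᵥ x| ≤ β * √(x ⬝ᵥ x) := by
  refine abs_le_of_sq_le_sq' ?_ (by positivity) |> abs_le.2
  rw [mul_pow, Real.sq_sqrt (dot_self_nonneg x)]
  exact (dot_sq_le b x).trans (mul_le_mul_of_nonneg_right hb (dot_self_nonneg x))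

theorem isBounded_dot_le (r : ℝ) : Bornology.IsBounded {x : Fin n → ℝ | x ⬝ᵥ x ≤ r} := by
  refine (Metric.isBounded_closedBall (x := (0 : Fin n → ℝ)) (r := √r)).subset fun x hx => ?_
  rw [mem_closedBall_zero_iff, pi_norm_le_iff_of_nonneg (Real.sqrt_nonneg _)]
  intro i
  rw [Real.norm_eq_abs]
  refine Real.abs_le_sqrt (le_trans ?_ hx)
  rw [sq]
  exact Finset.single_le_sum (f := fun i => x i * x i) (fun i _ => mul_self_nonneg (x i))
    (Finset.mem_univ i)

/-- A set whose lattice translates cover space has volume at least the covolume. -/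
theorem cover_vol (e : Basis (Fin n) ℝ (Fin n → ℝ)) (S : Set (Fin n → ℝ))
    (hS : ∀ y, ∃ z ∈ span ℤ (range e), y - z ∈ S) :
    ENNReal.ofReal |(Matrix.of e).det| ≤ volume S := by
  have hF := ZSpan.isAddFundamentalDomain' e (volume : Measure (Fin n → ℝ))
  have : Countable (span ℤ (range e)).toAddSubgroup :=
    inferInstanceAs (Countable (span ℤ (range e)))
  rw [← ZSpan.volume_fundamentalDomain, hF.measure_eq_tsum S]
  refine le_trans (measure_mono fun y hy => ?_) (measure_iUnion_le _)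
  obtain ⟨z, hz, hyz⟩ := hS y
  refine mem_iUnion.2 ⟨⟨z, hz⟩, ⟨y - z, hyz, ?_⟩, hy⟩
  show z + (y - z) = y
  abel

/-- Nearest lattice points. -/
theorem voronoi (e : Basis (Fin n) ℝ (Fin n → ℝ)) (Λ : Submodule ℤ (Fin n → ℝ))
    (hΛ : Λ ≤ span ℤ (range e)) (y : Fin n → ℝ) :
    ∃ z ∈ Λ, ∀ c ∈ Λ, |c ⬝ᵥ (y - z)| ≤ c ⬝ᵥ c / 2 := by
  let q : (Fin n → ℝ) → ℝ := fun z => (y - z) ⬝ᵥ (y - z)
  have hb : Bornology.IsBounded {z : Fin n → ℝ | q z ≤ q 0} := by
    have h := ((isBounded_dot_le (n := n) (q 0)).neg).vadd y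
    refine h.subset fun z hz => ⟨z - y, ?_, by simp⟩
    show (-(z - y)) ⬝ᵥ (-(z - y)) ≤ q 0
    rw [neg_sub]
    exact hz
  have hfin : ({z : Fin n → ℝ | q z ≤ q 0} ∩ (Λ : Set (Fin n → ℝ))).Finite :=
    (ZSpan.setFinite_inter e hb).subset (inter_subset_inter_right _ hΛ)
  obtain ⟨z, ⟨hz0, hz⟩, hmin⟩ := exists_min_image _ q hfin ⟨0, le_refl (q 0), Λ.zero_mem⟩
  have hmin' : ∀ w ∈ Λ, q z ≤ q w := by
    intro w hw
    by_cases h : q w ≤ q 0
    · exact hmin w ⟨h, hw⟩
    · exact le_trans hz0 (not_le.1 h).le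
  refine ⟨z, hz, fun c hc => ?_⟩
  have h1 := hmin' (z + c) (Λ.add_mem hz hc)
  have h2 := hmin' (z - c) (Λ.sub_mem hz hc)
  have e1 : y - (z + c) = (y - z) - c := by abel
  have e2 : y - (z - c) = (y - z) + c := by abel
  simp only [q] at h1 h2
  rw [e1] at h1
  rw [e2] at h2
  generalize y - z = u at h1 h2 ⊢
  rw [sub_dotProduct, dotProduct_sub, dotProduct_sub, dotProduct_comm u c] at h1
  rw [add_dotProduct, dotProduct_add, dotProduct_add, dotProduct_comm u c] at h2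
  rw [abs_le]
  constructor <;> linarith

/-- Twice the dual basis. -/
theorem exists_dual_basis (l : Basis (Fin n) ℝ (Fin n → ℝ)) :
    ∃ e : Basis (Fin n) ℝ (Fin n → ℝ), (∀ w i, e.repr w i = w ⬝ᵥ l i / 2) ∧
      (Matrix.of e).det * (Matrix.of l).det = 2 ^ n := by
  let f : (Fin n → ℝ) →ₗ[ℝ] (Fin n → ℝ) := (1 / 2 : ℝ) • Matrix.mulVecLin (Matrix.of l)
  have hf : ∀ w i, f w i = w ⬝ᵥ l i / 2 := by
    intro w i
    simp only [f, LinearMap.smul_apply, Matrix.mulVecLin_apply, Pi.smul_apply, smul_eq_mul]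
    rw [dotProduct_comm]
    show 1 / 2 * (l i ⬝ᵥ w) = _
    ring
  have hinj : Function.Injective f := by
    rw [← LinearMap.ker_eq_bot, LinearMap.ker_eq_bot']
    intro w hw
    have h0 : ∀ i, w ⬝ᵥ l i = 0 := fun i => by
      have := hf w i
      rw [hw, Pi.zero_apply] at this
      linarith
    refine dotProduct_self_eq_zero.1 ?_
    nth_rewrite 2 [← l.sum_repr w]
    simp only [dotProduct_sum, dotProduct_smul, h0, smul_zero, Finset.sum_const_zero]
  let e : Basis (Fin n) ℝ (Fin n → ℝ) := Basis.ofEquivFun (LinearEquiv.ofInjectiveEndo f hinj)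
  have he : ∀ w i, e.repr w i = w ⬝ᵥ l i / 2 := fun w i => by
    rw [← hf]; simp [e]
  refine ⟨e, he, ?_⟩
  have hM : Matrix.of e * (Matrix.of l).transpose = (2 : ℝ) • (1 : Matrix (Fin n) (Fin n) ℝ) := by
    ext i j
    have h := he (e i) j
    rw [e.repr_self, Finsupp.single_apply] at h
    have h2 : (Matrix.of e * (Matrix.of l).transpose) i j = e i ⬝ᵥ l j := rfl
    rw [h2, Matrix.smul_apply, Matrix.one_apply, smul_eq_mul, h]
    ring
  have := congrArg Matrix.det hM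
  rwa [Matrix.det_mul, Matrix.det_transpose, Matrix.det_smul, Matrix.det_one, mul_one,
    Fintype.card_fin] at this

theorem int_pairing {A : Set (Fin n → ℝ)} {w : Fin n → ℝ} {c : ℝ}
    (h : ∀ a ∈ A, ∃ j : ℤ, w ⬝ᵥ a = c * j) {v : Fin n → ℝ} (hv : v ∈ span ℤ A) :
    ∃ j : ℤ, w ⬝ᵥ v = c * j := by
  induction hv using span_induction with
  | mem a ha => exact h a ha
  | zero => exact ⟨0, by simp⟩
  | add u v _ _ hu hv =>
    obtain ⟨i, hi⟩ := hu
    obtain ⟨j, hj⟩ := hv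
    exact ⟨i + j, by rw [dotProduct_add, hi, hj]; push_cast; ring⟩
  | smul k u _ hu =>
    obtain ⟨i, hi⟩ := hu
    exact ⟨k * i, by rw [dotProduct_smul, hi, zsmul_eq_mul]; push_cast; ring⟩

theorem exists_lattice_basis {A B : Set (Fin n → ℝ)} {β : ℝ} (hβ : 0 < β)
    (hB : ∀ b ∈ B, b ⬝ᵥ b ≤ β ^ 2) (hAB : ∀ a ∈ A, ∀ b ∈ B, ∃ j : ℤ, b ⬝ᵥ a = 1 * j)
    (hsA : ∀ y, (∀ a ∈ A, a ⬝ᵥ y = 0) → y = 0) (hsB : ∀ x, (∀ b ∈ B, b ⬝ᵥ x = 0) → x = 0) :
    ∃ l : Basis (Fin n) ℝ (Fin n → ℝ), span ℤ (range l) = span ℤ A := by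
  have hd : DiscreteTopology (span ℤ A) := by
    refine discreteTopology_of_isOpen_singleton_zero ?_
    have : ({0} : Set (span ℤ A)) = {v : span ℤ A | β * √(v.1 ⬝ᵥ v.1) < 1} := by
      ext v
      simp only [mem_singleton_iff, mem_ofPred_eq]
      constructor
      · rintro rfl; simp
      · intro hv
        refine Subtype.ext (hsB _ fun b hb => ?_)
        obtain ⟨j, hj⟩ := int_pairing (fun a ha => hAB a ha b hb) v.2
        have h1 := (abs_dot_le (x := v.1) hβ.le (hB b hb)).trans_lt hv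
        rw [hj, one_mul, ← Int.cast_abs, ← Int.cast_one, Int.cast_lt, Int.abs_lt_one_iff] at h1
        rw [hj, h1]; simp
    rw [this]
    refine isOpen_lt ?_ continuous_const
    have hc : Continuous fun v : Fin n → ℝ => β * √(v ⬝ᵥ v) := by
      simp only [dotProduct]
      fun_prop
    exact hc.comp continuous_subtype_val
  have hz : IsZLattice ℝ (span ℤ A) := by
    refine ⟨?_⟩
    by_contra hne
    obtain ⟨φ, hφ0, hφ⟩ := exists_le_ker_of_lt_top _ (lt_top_iff_ne_top.2 hne)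
    let y : Fin n → ℝ := fun i => φ fun j => if i = j then 1 else 0
    have hy : ∀ x, φ x = x ⬝ᵥ y := fun x => by
      rw [LinearMap.pi_apply_eq_sum_univ]; rfl
    have : y = 0 := hsA y fun a ha => by
      rw [← hy]
      exact hφ (subset_span (subset_span (R := ℤ) ha))
    exact hφ0 (LinearMap.ext fun x => by rw [hy, this]; simp)
  exact ⟨(IsZLattice.basis (span ℤ A)).ofZLatticeBasis ℝ _, Basis.ofZLatticeBasis_span ℝ _ _⟩

theorem isCompact_polar {A B : Set (Fin n → ℝ)} {β : ℝ} (hβ : 0 < β)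
    (hB : ∀ b ∈ B, b ⬝ᵥ b ≤ β ^ 2) {c : ℝ}
    (hp : ∀ x y d, (∀ a ∈ A, |a ⬝ᵥ y| ≤ c) → (∀ b ∈ B, |b ⬝ᵥ x| ≤ d) → x ⬝ᵥ y ≤ c * d) :
    IsCompact {y : Fin n → ℝ | ∀ a ∈ A, |a ⬝ᵥ y| ≤ c} := by
  refine Metric.isCompact_of_isClosed_isBounded ?_
    ((isBounded_dot_le ((c * β) ^ 2)).subset fun y hy => ?_)
  · simp only [ofPred_forall]
    refine isClosed_iInter fun a => isClosed_iInter fun _ => isClosed_le ?_ continuous_const
    simp only [dotProduct]
    fun_prop
  · have h := hp y y _ hy fun b hb => abs_dot_le hβ.le (hB b hb)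
    have h0 := dot_self_nonneg y
    have h1 := Real.mul_self_sqrt h0
    have h2 := Real.sqrt_nonneg (y ⬝ᵥ y)
    show y ⬝ᵥ y ≤ (c * β) ^ 2
    set r := √(y ⬝ᵥ y)
    nlinarith [sq_nonneg (r - c * β)]

end Lattice

theorem lattice_bound {k : ℕ} {A B : Set (Fin (k + 1) → ℝ)} {α β : ℝ} (hα : 0 < α) (hβ : 0 < β)
    (hA : ∀ a ∈ A, a ⬝ᵥ a ≤ α ^ 2) (hB : ∀ b ∈ B, b ⬝ᵥ b ≤ β ^ 2)
    (hAB : ∀ a ∈ A, ∀ b ∈ B, b ⬝ᵥ a = 1 ∨ b ⬝ᵥ a = -1)
    (hp : ∀ x y c d, (∀ a ∈ A, |a ⬝ᵥ y| ≤ c) → (∀ b ∈ B, |b ⬝ᵥ x| ≤ d) → x ⬝ᵥ y ≤ c * d) :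
    (2 : ℝ) ^ k ≤ (2 * π * exp 1 * ((α * β) ^ 2 / 4) / (k + 1)) ^ (k + 1) := by
  have hsA : ∀ y, (∀ a ∈ A, a ⬝ᵥ y = 0) → y = 0 := by
    intro y hy
    have h := hp y y 0 _ (fun a ha => by rw [hy a ha, abs_zero])
      (fun b hb => abs_dot_le hβ.le (hB b hb))
    rw [zero_mul] at h
    exact dotProduct_self_eq_zero.1 (le_antisymm h (dot_self_nonneg y))
  have hsB : ∀ x, (∀ b ∈ B, b ⬝ᵥ x = 0) → x = 0 := by
    intro x hx
    have h := hp x x _ 0 (fun a ha => abs_dot_le hα.le (hA a ha))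
      (fun b hb => by rw [hx b hb, abs_zero])
    rw [mul_zero] at h
    exact dotProduct_self_eq_zero.1 (le_antisymm h (dot_self_nonneg x))
  have hAB' : ∀ a ∈ A, ∀ b ∈ B, ∃ j : ℤ, b ⬝ᵥ a = 1 * j := by
    intro a ha b hb
    rcases hAB a ha b hb with h | h
    · exact ⟨1, by simp [h]⟩
    · exact ⟨-1, by simp [h]⟩
  obtain ⟨b0, hb0⟩ : B.Nonempty := by
    by_contra hne
    rw [not_nonempty_iff_eq_empty] at hne
    have := congrFun (hsB 1 (by simp [hne])) 0
    simp at this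
  obtain ⟨l, hl⟩ := exists_lattice_basis hβ hB hAB' hsA hsB
  obtain ⟨e, he, hdet⟩ := exists_dual_basis l
  obtain ⟨l', hl'⟩ := exists_lattice_basis hα hA
    (fun b hb a ha => by rw [dotProduct_comm]; exact hAB' a ha b hb) hsB hsA
  have hlA : ∀ i, l i ∈ span ℤ A := fun i => hl ▸ subset_span (mem_range_self i)
  set L := {y : Fin (k + 1) → ℝ | ∀ a ∈ A, |a ⬝ᵥ y| ≤ α ^ 2 / 2} with hL
  set K := {x : Fin (k + 1) → ℝ | ∀ b ∈ B, |b ⬝ᵥ x| ≤ β ^ 2 / 2} with hK
  have hLc : IsCompact L := isCompact_polar hβ hB fun x y d => hp x y _ d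
  have hKc : IsCompact K := isCompact_polar hα hA fun y x c h1 h2 => by
    rw [dotProduct_comm, mul_comm]; exact hp x y c _ h2 h1
  have hvL : ENNReal.ofReal |(Matrix.of l).det| ≤ volume L := by
    refine cover_vol l L fun y => ?_
    obtain ⟨z, hz, hyz⟩ := voronoi l _ le_rfl y
    refine ⟨z, hz, fun a ha => (hyz a (hl ▸ subset_span ha)).trans ?_⟩
    have := hA a ha
    linarith
  have hmod : ∀ z ∈ span ℤ B, ∃ r : ℤ, ∀ i, ∃ j : ℤ, (z - r • b0) ⬝ᵥ l i = 2 * j := by
    intro z hz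
    induction hz using span_induction with
    | mem b hb =>
      refine ⟨1, fun i => int_pairing (fun a ha => ?_) (hlA i)⟩
      rw [one_smul, sub_dotProduct]
      rcases hAB a ha b hb with h | h <;> rcases hAB a ha b0 hb0 with h' | h' <;> rw [h, h']
      exacts [⟨0, by norm_num⟩, ⟨1, by norm_num⟩, ⟨-1, by norm_num⟩, ⟨0, by norm_num⟩]
    | zero => exact ⟨0, fun i => ⟨0, by simp⟩⟩
    | add u v _ _ hu hv =>
      obtain ⟨r, hr⟩ := hu
      obtain ⟨s, hs⟩ := hv
      refine ⟨r + s, fun i => ?_⟩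
      obtain ⟨p, hp⟩ := hr i
      obtain ⟨q, hq⟩ := hs i
      refine ⟨p + q, ?_⟩
      have : u + v - (r + s) • b0 = (u - r • b0) + (v - s • b0) := by rw [add_smul]; abel
      rw [this, add_dotProduct, hp, hq]; push_cast; ring
    | smul c u _ hu =>
      obtain ⟨r, hr⟩ := hu
      refine ⟨c * r, fun i => ?_⟩
      obtain ⟨p, hp⟩ := hr i
      refine ⟨c * p, ?_⟩
      rw [mul_smul, ← smul_sub, smul_dotProduct, hp, zsmul_eq_mul]; push_cast; ring
  have hvK : ENNReal.ofReal |(Matrix.of e).det| ≤ 2 * volume K := by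
    have h2 : volume (K ∪ (b0 +ᵥ K)) ≤ 2 * volume K := by
      refine (measure_union_le _ _).trans_eq ?_
      rw [measure_vadd, two_mul]
    refine le_trans (cover_vol e _ fun x => ?_) h2
    obtain ⟨z, hz, hxz⟩ := voronoi l' (span ℤ B) hl'.ge x
    have hxK : x - z ∈ K := fun b hb => (hxz b (subset_span hb)).trans (by
      have := hB b hb
      linarith)
    obtain ⟨r, hr⟩ := hmod z hz
    refine ⟨z - (r % 2) • b0, ?_, ?_⟩
    · rw [e.mem_span_iff_repr_mem ℤ]
      intro i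
      obtain ⟨p, hp⟩ := hr i
      obtain ⟨q, hq⟩ := int_pairing (fun a ha => hAB' a ha b0 hb0) (hlA i)
      refine ⟨p + r / 2 * q, ?_⟩
      have h3 : z - (r % 2) • b0 = (z - r • b0) + (2 * (r / 2)) • b0 := by
        rw [Int.emod_def, sub_smul]; abel
      rw [he, h3, add_dotProduct, hp, smul_dotProduct, hq, zsmul_eq_mul]
      simp only [eq_intCast]
      push_cast
      ring
    · rcases Int.emod_two_eq_zero_or_one r with h | h <;> rw [h]
      · left; simpa using hxK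
      · right
        refine ⟨x - z, hxK, ?_⟩
        simp only [vadd_eq_add, one_smul]
        abel
  have hs := santalo hKc hLc (fun y hy a ha => by
      rw [dotProduct_neg, abs_neg]; exact hy a ha) (R := (α * β) ^ 2 / 4) (by positivity)
    (fun x hx y hy => (hp x y _ _ hy hx).trans_eq (by ring))
  have h3 : ENNReal.ofReal ((2 : ℝ) ^ (k + 1)) ≤
      2 * ENNReal.ofReal ((2 * π * exp 1 * ((α * β) ^ 2 / 4) / (k + 1)) ^ (k + 1)) := by
    calc ENNReal.ofReal ((2 : ℝ) ^ (k + 1))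
        = ENNReal.ofReal |(Matrix.of e).det| * ENNReal.ofReal |(Matrix.of l).det| := by
          rw [← ENNReal.ofReal_mul (abs_nonneg _), ← abs_mul, hdet, abs_of_pos (by positivity)]
      _ ≤ 2 * volume K * volume L := mul_le_mul' hvK hvL
      _ ≤ _ := by rw [mul_assoc]; exact mul_le_mul_right hs _
  rw [show (2 : ℝ≥0∞) = ENNReal.ofReal 2 by simp, ← ENNReal.ofReal_mul (by norm_num),
    ENNReal.ofReal_le_ofReal_iff (by positivity), pow_succ] at h3
  linarith

theorem sqrt_main {X : Type} [NormedAddCommGroup X] [NormedSpace ℝ X] [FiniteDimensional ℝ X]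
    {k : ℕ} (hX : numIndex X = 1) (T : X ≃L[ℝ] EuclideanSpace ℝ (Fin (k + 1))) :
    1 ≤ ‖(T : X →L[ℝ] EuclideanSpace ℝ (Fin (k + 1)))‖ *
        ‖(T.symm : EuclideanSpace ℝ (Fin (k + 1)) →L[ℝ] X)‖ ∧
    (2 : ℝ) ^ k ≤ (2 * π * exp 1 * ((‖(T : X →L[ℝ] EuclideanSpace ℝ (Fin (k + 1)))‖ *
        ‖(T.symm : EuclideanSpace ℝ (Fin (k + 1)) →L[ℝ] X)‖) ^ 2 / 4) / (k + 1)) ^ (k + 1) := by
  have hnt : Nontrivial X := T.toEquiv.nontrivial
  set α := ‖(T : X →L[ℝ] EuclideanSpace ℝ (Fin (k + 1)))‖ with hα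
  set β := ‖(T.symm : EuclideanSpace ℝ (Fin (k + 1)) →L[ℝ] X)‖ with hβ
  have hTα : ∀ x : X, ‖T x‖ ≤ α * ‖x‖ := fun x =>
    (T : X →L[ℝ] EuclideanSpace ℝ (Fin (k + 1))).le_opNorm x
  have hTβ : ∀ y : EuclideanSpace ℝ (Fin (k + 1)), ‖T.symm y‖ ≤ β * ‖y‖ := fun y =>
    (T.symm : EuclideanSpace ℝ (Fin (k + 1)) →L[ℝ] X).le_opNorm y
  have hα0 : 0 ≤ α := norm_nonneg _
  have hβ0 : 0 ≤ β := norm_nonneg _
  have hD : 1 ≤ α * β := by
    obtain ⟨x, hx⟩ := exists_ne (0 : X)
    have hx0 : 0 < ‖x‖ := norm_pos_iff.2 hx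
    have h1 := hTβ (T x)
    rw [T.symm_apply_apply] at h1
    have h2 : β * ‖T x‖ ≤ β * (α * ‖x‖) := by gcongr; exact hTα x
    have h3 : 1 * ‖x‖ ≤ (α * β) * ‖x‖ := by nlinarith
    exact le_of_mul_le_mul_right h3 hx0
  have hαp : 0 < α := by
    rcases hα0.eq_or_lt with h | h
    · rw [← h] at hD; norm_num at hD
    · exact h
  have hβp : 0 < β := by
    rcases hβ0.eq_or_lt with h | h
    · rw [← h] at hD; norm_num at hD
    · exact h
  refine ⟨hD, ?_⟩
  have hdot : ∀ x y : EuclideanSpace ℝ (Fin (k + 1)), x.ofLp ⬝ᵥ y.ofLp = ⟪x, y⟫ := by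
    intro x y
    rw [EuclideanSpace.inner_eq_star_dotProduct, star_trivial, dotProduct_comm]
  let rep : (X →L[ℝ] ℝ) → EuclideanSpace ℝ (Fin (k + 1)) := fun f =>
    (InnerProductSpace.toDual ℝ (EuclideanSpace ℝ (Fin (k + 1)))).symm
      (f.comp (T.symm : EuclideanSpace ℝ (Fin (k + 1)) →L[ℝ] X))
  have hrep : ∀ (f : X →L[ℝ] ℝ) (y : EuclideanSpace ℝ (Fin (k + 1))),
      ⟪rep f, y⟫ = f (T.symm y) := by
    intro f y
    simp [rep, InnerProductSpace.toDual_symm_apply]
  refine lattice_bound (A := (fun v => (T v).ofLp) '' ExpV X)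
    (B := (fun f => (rep f).ofLp) '' ExpF X) hαp hβp ?_ ?_ ?_ ?_
  · rintro _ ⟨v, hv, rfl⟩
    have := hTα v
    rw [hv.1, mul_one] at this
    rw [hdot, real_inner_self_eq_norm_sq]
    gcongr
  · rintro _ ⟨f, hf, rfl⟩
    have : ‖rep f‖ ≤ β := by
      simp only [rep, LinearIsometryEquiv.norm_map]
      refine (ContinuousLinearMap.opNorm_comp_le _ _).trans ?_
      rw [hf.1, one_mul]
    rw [hdot, real_inner_self_eq_norm_sq]
    gcongr
  · rintro _ ⟨v, hv, rfl⟩ _ ⟨f, hf, rfl⟩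
    rw [hdot, hrep, T.symm_apply_apply]
    exact abs_apply_eq_one hX hf hv
  · intro x y c d hc hd
    let g : X →L[ℝ] ℝ := (innerSL ℝ (WithLp.toLp 2 y : EuclideanSpace ℝ (Fin (k + 1)))).comp
      (T : X →L[ℝ] EuclideanSpace ℝ (Fin (k + 1)))
    have hg : ∀ v, g v = (T v).ofLp ⬝ᵥ y := by
      intro v
      rw [dotProduct_comm]
      exact (hdot (WithLp.toLp 2 y) (T v)).symm
    have h1 : ‖g‖ ≤ c := norm_le_of_expV _ _ fun v hv => by
      rw [hg]; exact (le_abs_self _).trans (hc _ ⟨v, hv, rfl⟩)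
    have h2 : ‖T.symm (WithLp.toLp 2 x)‖ ≤ d := norm_le_of_expF _ _ fun f hf => by
      rw [← hrep, ← hdot]; exact (le_abs_self _).trans (hd _ ⟨f, hf, rfl⟩)
    have h3 := hg (T.symm (WithLp.toLp 2 x))
    rw [T.apply_symm_apply] at h3
    calc x ⬝ᵥ y = g (T.symm (WithLp.toLp 2 x)) := h3.symm
      _ ≤ ‖g‖ * ‖T.symm (WithLp.toLp 2 x)‖ := (le_abs_self _).trans (g.le_opNorm _)
      _ ≤ c * d := mul_le_mul h1 h2 (norm_nonneg _) ((norm_nonneg _).trans h1)

end Pool.Agent.MP_fcb590_an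

end
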